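import Pool.Agent.Lib.MP_e6ed9e_al.NS.Basic47

/-! # Room NS: assembly StAll (helper47) -/

namespace SpreadPerm.NS

open Module Finset
open scoped Classical

noncomputable section

section
variable {K V : Type} [Field K] [AddCommGroup V] [Module K V]

/-- coordinates for a space with a one-dimensional complement -/
def eqv3 {W : Submodule K V} (φ : (K × K × W) ≃ₗ[K] V) (ε : K ≃ₗ[K] W) :
    (K × K × K) ≃ₗ[K] V :=
  ((LinearEquiv.refl K K).prodCongr ((LinearEquiv.refl K K).prodCongr ε)).trans φ

theorem eqv3_apply {W : Submodule K V} (φ : (K × K × W) ≃ₗ[K] V) (ε : K ≃ₗ[K] W)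
    (x : K × K × K) : eqv3 φ ε x = φ (x.1, x.2.1, ε x.2.2) := rfl

/-- coordinates for a space with a trivial complement -/
def eqv2 (W : Type) [AddCommGroup W] [Module K W] [Subsingleton W] : (K × K) ≃ₗ[K] (K × K × W) where
  toFun p := (p.1, p.2, 0)
  invFun p := (p.1, p.2.1)
  map_add' x y := by simp
  map_smul' c x := by simp
  left_inv x := rfl
  right_inv x := by
    refine Prod.ext rfl (Prod.ext rfl (Subsingleton.elim _ _))

end

theorem all3 (hSplit : StSplit) (hSing : StSing) (hConic : StConic) (hHerm3 : StHerm3)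
    (K V : Type) [Field K] [Fintype K] [AddCommGroup V] [Module K V] [Fintype V] (P : PForm K V)
    (hP : IsQuad P ∨ IsHerm P) (hnd : ND P) (hr : finrank K V = 3) (c : K) (hc : c ≠ 0)
    (hsc : P.s c = c) : ∃ v, Good P c v := by
  obtain ⟨e, he, hQe⟩ : ∃ e : V, e ≠ 0 ∧ P.Q e = 0 := by
    apply hSing K V P
    rcases hP with h | h
    · exact Or.inl ⟨h, by omega⟩
    · exact Or.inr ⟨h, by omega⟩
  obtain ⟨W, P', φ, hs, hq, hh, hnd', -, hdim⟩ := hSplit K V P hP hnd e he hQe
  have hW1 : finrank K W = 1 := by omega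
  let ε : K ≃ₗ[K] W := LinearEquiv.ofFinrankEq K W (by rw [hW1, Module.finrank_self])
  have hε : ∀ t, ε t = t • ε 1 := by
    intro t
    rw [← map_smul, smul_eq_mul, mul_one]
  have hfne : P'.f (ε 1) (ε 1) ≠ 0 := by
    intro h0
    have : ε 1 = 0 := by
      apply hnd'
      intro y
      obtain ⟨t, rfl⟩ := ε.surjective y
      rw [hε t, P'.f_smul_right, h0, mul_zero]
    have h1 := ε.map_eq_zero_iff.1 this
    exact one_ne_zero h1
  have hiso := pull_isom P (eqv3 φ ε)
  rcases hP with hP | hP
  · have hq' := hq hP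
    have hff := hq'.f_self (ε 1)
    rw [hff] at hfne
    obtain ⟨v, hv⟩ := hConic K (pull P (eqv3 φ ε).toLinearMap) (P'.Q (ε 1)) (hP.pull _)
      (left_ne_zero_of_mul hfne) (right_ne_zero_of_mul hfne)
      (by
        intro x
        show P.Q (eqv3 φ ε x) = _
        rw [eqv3_apply, hs.Q_eq, hP.T_id, hP.s_id, hε x.2.2, P'.Q_smul, hq'.s_id]
        ring)
      (by
        intro x y
        show P.f (eqv3 φ ε x) (eqv3 φ ε y) = _
        rw [eqv3_apply, eqv3_apply, hs.f_eq, hP.s_id, hP.s_id, hP.eps1, hε x.2.2, hε y.2.2,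
          P'.f_smul_left, P'.f_smul_right, hq'.s_id, hff]
        ring) c hc
    exact ⟨_, good_transport hiso hv⟩
  · have hh' := hh hP
    have hQf := hh'.Q_eq (ε 1)
    rw [← hQf] at hfne
    obtain ⟨v, hv⟩ := hHerm3 K (pull P (eqv3 φ ε).toLinearMap) (P'.Q (ε 1)) (hP.pull _) hfne
      (by
        show P.s (P'.Q (ε 1)) = P'.Q (ε 1)
        have h1 := P'.f_symm (ε 1) (ε 1)
        rw [hh'.eps1, one_mul] at h1
        rw [hQf, ← hs.s_eq]
        exact h1.symm)
      (by
        intro x y
        show P.f (eqv3 φ ε x) (eqv3 φ ε y) = _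
        rw [eqv3_apply, eqv3_apply, hs.f_eq, hP.eps1, hε x.2.2, hε y.2.2,
          P'.f_smul_left, P'.f_smul_right, hs.s_eq, ← hQf]
        show _ = x.1 * P.s y.2.1 + x.2.1 * P.s y.1 + P'.Q (ε 1) * (x.2.2 * P.s y.2.2)
        ring) c hc hsc
    exact ⟨_, good_transport hiso hv⟩

theorem all47 (hLift : StLift) (hSplit : StSplit) (hSing : StSing) (hLine : StLine)
    (hConic : StConic) (hHerm3 : StHerm3) (hFour : StFour) : StAll := by
  -- all dimensions
  have main : ∀ n : ℕ, ∀ (K V : Type) [Field K] [Fintype K] [AddCommGroup V] [Module K V]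
      [Fintype V] (P : PForm K V), finrank K V = n → ND P →
      ((IsQuad P ∧ 3 ≤ n) ∨ (IsHerm P ∧ 2 ≤ n)) → ∀ c : K, c ≠ 0 → P.s c = c →
      ∃ v, Good P c v := by
    intro n
    induction n using Nat.strong_induction_on with
    | _ n ih =>
      intro K V _ _ _ _ _ P hn hnd hP c hc hsc
      have hP' : IsQuad P ∨ IsHerm P := by
        rcases hP with h | h
        · exact Or.inl h.1
        · exact Or.inr h.1
      have heps : P.eps = 1 := by
        rcases hP' with h | h
        · exact h.eps1
        · exact h.eps1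
      by_cases h3 : n = 3
      · exact all3 hSplit hSing hConic hHerm3 K V P hP' hnd (by omega) c hc hsc
      by_cases h2 : n = 2
      · have hH : IsHerm P := by
          rcases hP with h | h
          · omega
          · exact h.1
        exact hLine K V P hnd (by omega) (Or.inr hH) c hc hsc
      have hn4 : 4 ≤ n := by
        rcases hP with h | h
        · omega
        · omega
      obtain ⟨e, he, hQe⟩ : ∃ e : V, e ≠ 0 ∧ P.Q e = 0 := by
        apply hSing K V P
        rcases hP' with h | h
        · exact Or.inl ⟨h, by omega⟩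
        · exact Or.inr ⟨h, by omega⟩
      obtain ⟨W, P', φ, hs, hq, hh, hnd', -, hdim⟩ := hSplit K V P hP' hnd e he hQe
      have : Fintype W := Fintype.ofFinite _
      have hsc' : P'.s c = c := by rw [hs.s_eq, hsc]
      by_cases hgen : (IsQuad P ∧ n = 4)
      · -- four-dimensional quadratic spaces
        obtain ⟨hQ, hn4'⟩ := hgen
        have hW2 : finrank K W = 2 := by omega
        by_cases han : (∀ x, P'.Q x = 0 → x = 0) ∨ 4 ≤ Fintype.card K
        · obtain ⟨v, hv⟩ := hLine K W P' hnd' hW2 (Or.inl ⟨hq hQ, han⟩) c hc hsc'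
          exact hLift K V W P P' φ heps hs c v hv
        · push Not at han
          obtain ⟨⟨e', hQe', he'⟩, hcard⟩ := han
          obtain ⟨W', P'', ψ, hs', hq', -, -, -, hdim'⟩ :=
            hSplit K W P' (Or.inl (hq hQ)) hnd' e' he' hQe'
          have hW0 : finrank K W' = 0 := by omega
          have : Subsingleton W' := Module.finrank_zero_iff.1 hW0
          let θ : (K × K × K × K) ≃ₗ[K] V :=
            ((LinearEquiv.refl K K).prodCongr ((LinearEquiv.refl K K).prodCongr
              ((eqv2 W').trans ψ))).trans φ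
          have hθ : ∀ x : K × K × K × K, θ x = φ (x.1, x.2.1, ψ (x.2.2.1, x.2.2.2, 0)) :=
            fun _ => rfl
          obtain ⟨v, hv⟩ := hFour K (pull P θ.toLinearMap) (hQ.pull _) (by omega)
            (by
              intro x
              show P.Q (θ x) = _
              rw [hθ, hs.Q_eq, hs'.Q_eq, hs.T_eq, hQ.T_id, hQ.T_id, hs.s_eq, hQ.s_id, hQ.s_id,
                P''.Q_zero]
              ring)
            (by
              intro x y
              show P.f (θ x) (θ y) = _
              rw [hθ, hθ, hs.f_eq, hs'.f_eq, hQ.eps1, (hq hQ).eps1]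
              rw [hs.s_eq, hs.s_eq, hQ.s_id, hQ.s_id, hQ.s_id, hQ.s_id, P''.f_zero_left]
              ring) c hc
          exact ⟨_, good_transport (pull_isom P θ) hv⟩
      · obtain ⟨v, hv⟩ := ih (n - 2) (by omega) K W P' (by omega) hnd' (by
          rcases hP with h | h
          · refine Or.inl ⟨hq h.1, ?_⟩
            have : n ≠ 4 := fun h' => hgen ⟨h.1, h'⟩
            omega
          · exact Or.inr ⟨hh h.1, by omega⟩) c hc hsc'
        exact hLift K V W P P' φ heps hs c v hv
  intro K V _ _ _ _ _ P hP hnd hn c hc hsc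
  refine main (finrank K V) K V P rfl hnd ?_ c hc hsc
  rcases hP with h | h
  · exact Or.inl ⟨h, by omega⟩
  · exact Or.inr ⟨h, by omega⟩

end

end SpreadPerm.NS
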