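import Pool.Agent.Lib.MP_e6ed9e_al.NS.Defs2

/-! # Room NS: row ALT, alternating matrices (helper47) -/

namespace SpreadPerm.NS

open Module

noncomputable section

/-- The additive group of the alternating matrices. -/
def altGrp (K : Type) [Field K] (k : ℕ) : AddSubgroup (Matrix (Fin k) (Fin k) K) where
  carrier := {M | (∀ i, M i i = 0) ∧ ∀ i j, M i j = - M j i}
  zero_mem' := ⟨fun _ => rfl, fun _ _ => by
    show (0 : K) = - 0
    rw [neg_zero]⟩
  add_mem' := by
    intro a b ha hb
    refine ⟨fun i => ?_, fun i j => ?_⟩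
    · show a i i + b i i = 0
      rw [ha.1, hb.1, add_zero]
    · show a i j + b i j = - (a j i + b j i)
      rw [ha.2 i j, hb.2 i j]
      ring
  neg_mem' := by
    intro a ha
    refine ⟨fun i => ?_, fun i j => ?_⟩
    · show - a i i = 0
      rw [ha.1, neg_zero]
    · show - a i j = - - a j i
      rw [ha.2 i j]

theorem two_vec {K : Type} [Field K] {a b : K} (h : ¬ (a = 0 ∧ b = 0)) (c : K) :
    ∃ p q : K, p * a + q * b = c := by
  by_cases ha : a = 0
  · have hb : b ≠ 0 := fun hb => h ⟨ha, hb⟩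
    exact ⟨0, c / b, by rw [zero_mul, zero_add, div_mul_cancel₀ _ hb]⟩
  · exact ⟨c / a, 0, by rw [zero_mul, add_zero, div_mul_cancel₀ _ ha]⟩

theorem alt_vec {K : Type} [Field K] {k : ℕ} (y : Fin k → K) {i j l m : Fin k}
    (hij : i ≠ j) (hil : i ≠ l) (him : i ≠ m) (hjl : j ≠ l) (hjm : j ≠ m) (hlm : l ≠ m) :
    ∃ ξ η : Fin k → K, ξ ⬝ᵥ y = 0 ∧ η ⬝ᵥ y = 0 ∧
      (ξ i * η j - ξ j * η i) + (ξ l * η m - ξ m * η l) = 1 := by
  by_cases h1 : y i = 0 ∧ y j = 0
  · refine ⟨Pi.single i 1, Pi.single j 1, ?_, ?_, ?_⟩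
    · rw [single_dotProduct, h1.1, mul_zero]
    · rw [single_dotProduct, h1.2, mul_zero]
    · simp [hij, hij.symm, hil, hil.symm, him, him.symm, hjl, hjl.symm, hjm, hjm.symm, hlm,
        hlm.symm]
  by_cases h2 : y l = 0 ∧ y m = 0
  · refine ⟨Pi.single l 1, Pi.single m 1, ?_, ?_, ?_⟩
    · rw [single_dotProduct, h2.1, mul_zero]
    · rw [single_dotProduct, h2.2, mul_zero]
    · simp [hij, hij.symm, hil, hil.symm, him, him.symm, hjl, hjl.symm, hjm, hjm.symm, hlm,
        hlm.symm]
  obtain ⟨p, q, hpq⟩ := two_vec h1 1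
  obtain ⟨r, s, hrs⟩ := two_vec h2 (-1)
  refine ⟨Pi.single i (y j) - Pi.single j (y i),
    (Pi.single i p + Pi.single j q) + (Pi.single l r + Pi.single m s), ?_, ?_, ?_⟩
  · rw [sub_dotProduct, single_dotProduct, single_dotProduct]
    ring
  · rw [add_dotProduct, add_dotProduct, add_dotProduct, single_dotProduct, single_dotProduct,
      single_dotProduct, single_dotProduct]
    linear_combination hpq + hrs
  · simp [hij, hij.symm, hil, hil.symm, him, him.symm, hjl, hjl.symm, hjm, hjm.symm, hlm,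
      hlm.symm]
    linear_combination hpq

theorem alt47 (hT : StTrace) : StAlt := by
  intro K V _ _ _ _ _ Ω k e h hk he hh hdis hM _ G _ _ _ hG
  let i : Fin k := ⟨0, by omega⟩
  let j : Fin k := ⟨1, by omega⟩
  let l : Fin k := ⟨2, by omega⟩
  let m : Fin k := ⟨3, by omega⟩
  have hij : i ≠ j := fun h => absurd (congrArg Fin.val h) (by norm_num)
  have hil : i ≠ l := fun h => absurd (congrArg Fin.val h) (by norm_num)
  have him : i ≠ m := fun h => absurd (congrArg Fin.val h) (by norm_num)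
  have hjl : j ≠ l := fun h => absurd (congrArg Fin.val h) (by norm_num)
  have hjm : j ≠ m := fun h => absurd (congrArg Fin.val h) (by norm_num)
  have hlm : l ≠ m := fun h => absurd (congrArg Fin.val h) (by norm_num)
  let τ : altGrp K k →+ K :=
    { toFun := fun M => M.1 i j + M.1 l m
      map_zero' := by
        show (0 : K) + 0 = 0
        ring
      map_add' := by
        intro A B
        show (A.1 i j + B.1 i j) + (A.1 l m + B.1 l m) = _
        ring }
  refine hT K V (Fin k → K) (altGrp K k) K Ω e (fun s => h ∘ₗ Matrix.mulVecLin s.1)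
    (LinearMap.range h) he hdis ?_ ?_ ?_ ?_ τ 1 one_ne_zero ?_ G hG
  · intro s x
    exact ⟨_, rfl⟩
  · intro s s'
    rw [← LinearMap.comp_add, ← Matrix.mulVecLin_add]
    rfl
  · intro s hs
    apply Subtype.ext
    ext p q
    have h1 : h (Matrix.mulVecLin s.1 (Pi.single q 1)) = h 0 := by
      rw [map_zero]
      exact LinearMap.congr_fun hs (Pi.single q 1)
    have h2 := congrFun (hh h1) p
    rw [Matrix.mulVecLin_apply, Matrix.mulVec_single_one] at h2
    exact h2
  · intro s
    exact hM s.1 s.2.1 s.2.2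
  · intro y
    obtain ⟨ξ, η, hξ, hη, hτ⟩ := alt_vec y hij hil him hjl hjm hlm
    let M : Matrix (Fin k) (Fin k) K := fun p q => ξ p * η q - ξ q * η p
    have hMs : M ∈ altGrp K k := by
      refine ⟨fun p => ?_, fun p q => ?_⟩
      · show ξ p * η p - ξ p * η p = 0
        ring
      · show ξ p * η q - ξ q * η p = - (ξ q * η p - ξ p * η q)
        ring
    refine ⟨⟨M, hMs⟩, ?_, hτ⟩
    show h (Matrix.mulVecLin M y) = 0
    have : Matrix.mulVecLin M y = 0 := by
      rw [Matrix.mulVecLin_apply]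
      funext p
      show ∑ q, (ξ p * η q - ξ q * η p) * y q = 0
      have h1 : ∀ q, (ξ p * η q - ξ q * η p) * y q = ξ p * (η q * y q) - η p * (ξ q * y q) :=
        fun q => by ring
      rw [Finset.sum_congr rfl (fun q _ => h1 q), Finset.sum_sub_distrib, ← Finset.mul_sum,
        ← Finset.mul_sum]
      show ξ p * (η ⬝ᵥ y) - η p * (ξ ⬝ᵥ y) = 0
      rw [hξ, hη]
      ring
    rw [this, map_zero]

end

end SpreadPerm.NS
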