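import Mathlib
import Pool.Agent.Lib.MP_e6ed9e_al.Polar.Glue88

/-!
# Subspaces: statements of the modules of the room NS

A family of graphs over a subspace, indexed by a finite additive group `S` of linear maps, with a
homomorphism `τ` from `S` to a group such that for each `y` some `s` with `s y = 0` has value `r`.
-/

namespace SpreadPerm.NS

open Module

/-- TRACE: the vector is `+1` on the graphs of `s` with `τ s = r`, and `-1` on the graphs of `s`
with `τ s = 0`. -/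
def StTrace : Prop := ∀ (K V X S R : Type) [Field K] [AddCommGroup V] [Module K V] [Finite V]
  [AddCommGroup X] [Module K X] [AddCommGroup S] [Finite S] [AddCommGroup R]
  (Ω : Set (Submodule K V)) (e : X →ₗ[K] V) (L : S → X →ₗ[K] V) (T : Submodule K V),
  Function.Injective e → Disjoint (LinearMap.range e) T → (∀ s x, L s x ∈ T) →
  (∀ s s', L (s + s') = L s + L s') → (∀ s, L s = 0 → s = 0) →
  (∀ s, LinearMap.range (e + L s) ∈ Ω) →
  ∀ (τ : S →+ R) (r : R), r ≠ 0 → (∀ y : X, ∃ s, L s y = 0 ∧ τ s = r) →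
  ∀ [Fintype Ω] (G : Type) [Group G] [MulAction G Ω] [MulAction.IsPretransitive G Ω],
  (∀ (g : G) (x : V), x ≠ 0 → ∃ x' : V, ∀ W : Ω, x ∈ W.1 ↔ x' ∈ (g • W).1) →
  NonSpreading G Ω

/-- PLANE: the graphs of all linear maps from `U` to a plane `T`. -/
def StPlane : Prop := ∀ (K V : Type) [Field K] [Finite K] [AddCommGroup V] [Module K V]
  [Finite V] (Ω : Set (Submodule K V)) (U T : Submodule K V), 2 ≤ finrank K U →
  finrank K T = 2 → Disjoint U T →
  (∀ φ : U →ₗ[K] T, LinearMap.range (U.subtype + T.subtype ∘ₗ φ) ∈ Ω) →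
  ∀ [Fintype Ω] (G : Type) [Group G] [MulAction G Ω] [MulAction.IsPretransitive G Ω],
  (∀ (g : G) (x : V), x ≠ 0 → ∃ x' : V, ∀ W : Ω, x ∈ W.1 ↔ x' ∈ (g • W).1) →
  NonSpreading G Ω

/-- The graph of a matrix. -/
def gr {K V : Type} [Field K] [AddCommGroup V] [Module K V] {k : ℕ}
    (e h : (Fin k → K) →ₗ[K] V) (M : Matrix (Fin k) (Fin k) K) : Submodule K V :=
  LinearMap.range (e + h ∘ₗ Matrix.mulVecLin M)

/-- SYM: symmetric matrices (symplectic forms). -/
def StSym : Prop := ∀ (K V : Type) [Field K] [Finite K] [AddCommGroup V] [Module K V]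
  [Finite V] (Ω : Set (Submodule K V)) (k : ℕ) (e h : (Fin k → K) →ₗ[K] V), 2 ≤ k →
  Function.Injective e → Function.Injective h →
  Disjoint (LinearMap.range e) (LinearMap.range h) →
  (∀ M : Matrix (Fin k) (Fin k) K, (∀ i j, M i j = M j i) → gr e h M ∈ Ω) →
  ∀ [Fintype Ω] (G : Type) [Group G] [MulAction G Ω] [MulAction.IsPretransitive G Ω],
  (∀ (g : G) (x : V), x ≠ 0 → ∃ x' : V, ∀ W : Ω, x ∈ W.1 ↔ x' ∈ (g • W).1) →
  NonSpreading G Ω

/-- ALT: alternating matrices (quadratic forms). -/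
def StAlt : Prop := ∀ (K V : Type) [Field K] [Finite K] [AddCommGroup V] [Module K V]
  [Finite V] (Ω : Set (Submodule K V)) (k : ℕ) (e h : (Fin k → K) →ₗ[K] V), 4 ≤ k →
  Function.Injective e → Function.Injective h →
  Disjoint (LinearMap.range e) (LinearMap.range h) →
  (∀ M : Matrix (Fin k) (Fin k) K, (∀ i, M i i = 0) → (∀ i j, M i j = - M j i) →
    gr e h M ∈ Ω) →
  ∀ [Fintype Ω] (G : Type) [Group G] [MulAction G Ω] [MulAction.IsPretransitive G Ω],
  (∀ (g : G) (x : V), x ≠ 0 → ∃ x' : V, ∀ W : Ω, x ∈ W.1 ↔ x' ∈ (g • W).1) →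
  NonSpreading G Ω

/-- SKEW: skew hermitian matrices (hermitian forms). -/
def StSkew : Prop := ∀ (K V : Type) [Field K] [Finite K] [AddCommGroup V] [Module K V]
  [Finite V] (σ : K →+* K), (∀ a, σ (σ a) = a) → (∃ a, σ a ≠ a) →
  ∀ (Ω : Set (Submodule K V)) (k : ℕ) (e h : (Fin k → K) →ₗ[K] V), 3 ≤ k →
  Function.Injective e → Function.Injective h →
  Disjoint (LinearMap.range e) (LinearMap.range h) →
  (∀ M : Matrix (Fin k) (Fin k) K, (∀ i j, M i j = - σ (M j i)) → gr e h M ∈ Ω) →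
  ∀ [Fintype Ω] (G : Type) [Group G] [MulAction G Ω] [MulAction.IsPretransitive G Ω],
  (∀ (g : G) (x : V), x ≠ 0 → ∃ x' : V, ∀ W : Ω, x ∈ W.1 ↔ x' ∈ (g • W).1) →
  NonSpreading G Ω

end SpreadPerm.NS
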