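import Mathlib
import Pool.Agent.Lib.MP_e6ed9e_al.NS.Defs2

/-!
# Row TRACE
-/

namespace SpreadPerm.NS

open Module Finset
open scoped Classical

noncomputable section

theorem trace47 : StTrace := by
  intro K V X S R _ _ _ _ _ _ _ _ _ Ω e L T he hT hL hadd hinj hΩ τ r hr hy _ G _ _ _ hG
  have : Fintype S := Fintype.ofFinite S
  have hL0 : L 0 = 0 := by
    have := hadd 0 0
    rw [add_zero] at this
    exact left_eq_add.1 this
  -- membership
  have hmem : ∀ (s s0 : S) (y : X), (e y + L s0 y ∈ LinearMap.range (e + L s)) ↔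
      L s y = L s0 y := by
    intro s s0 y
    constructor
    · rintro ⟨x, hx⟩
      rw [LinearMap.add_apply] at hx
      have h1 : e (x - y) = L s0 y - L s x := by
        rw [map_sub, sub_eq_sub_iff_add_eq_add]
        rw [hx]
        abel
      have h2 : e (x - y) ∈ T := by
        rw [h1]
        exact T.sub_mem (hL _ _) (hL _ _)
      have h3 : e (x - y) = 0 := (Submodule.disjoint_def.1 hT) _ ⟨_, rfl⟩ h2
      have h4 : x = y := sub_eq_zero.1 (he (h3.trans (map_zero e).symm))
      subst h4
      exact add_left_cancel hx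
    · intro h
      exact ⟨y, by rw [LinearMap.add_apply, h]⟩
  let w : S → Ω := fun s => ⟨LinearMap.range (e + L s), hΩ s⟩
  have hw : Function.Injective w := by
    intro s s' h
    have h1 : LinearMap.range (e + L s) = LinearMap.range (e + L s') := congrArg Subtype.val h
    have h2 : L s = L s' := by
      ext y
      have h3 : e y + L s y ∈ LinearMap.range (e + L s') := by
        rw [← h1]
        exact ⟨y, rfl⟩
      exact ((hmem s' s y).1 h3).symm
    have h3 : L (s - s') = 0 := by
      have h4 := hadd (s - s') s'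
      rw [sub_add_cancel, h2] at h4
      exact right_eq_add.1 h4
    exact sub_eq_zero.1 (hinj _ h3)
  let a : S → ℤ := fun s => (if τ s = r then 1 else 0) - (if τ s = 0 then 1 else 0)
  have ha : ∀ s, -1 ≤ a s := by
    intro s
    show -1 ≤ (if τ s = r then (1 : ℤ) else 0) - (if τ s = 0 then 1 else 0)
    split_ifs <;> norm_num
  let v : Ω → ℤ := fun W => ∑ s, if w s = W then a s else 0
  have hvw : ∀ s, v (w s) = a s := by
    intro s
    show (∑ s', if w s' = w s then a s' else 0) = a s
    rw [Finset.sum_eq_single s]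
    · rw [if_pos rfl]
    · intro s' _ h
      rw [if_neg (fun h' => h (hw h'))]
    · intro h
      exact absurd (mem_univ _) h
  -- sums
  have hsum : ∀ x' : V, ∑ W : Ω, (if x' ∈ W.1 then v W else 0) = 0 := by
    intro x'
    have h1 : ∑ W : Ω, (if x' ∈ W.1 then v W else 0) =
        ∑ s, if x' ∈ (w s).1 then a s else 0 := by
      have h2 : ∀ W : Ω, (if x' ∈ W.1 then v W else 0) =
          ∑ s, if w s = W then (if x' ∈ (w s).1 then a s else 0) else 0 := by
        intro W
        by_cases hx : x' ∈ W.1
        · rw [if_pos hx]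
          refine Finset.sum_congr rfl fun s _ => ?_
          by_cases hs : w s = W
          · rw [if_pos hs, if_pos hs, hs, if_pos hx]
          · rw [if_neg hs, if_neg hs]
        · rw [if_neg hx]
          refine (Finset.sum_eq_zero fun s _ => ?_).symm
          by_cases hs : w s = W
          · rw [if_pos hs, hs, if_neg hx]
          · rw [if_neg hs]
      rw [Finset.sum_congr rfl fun W _ => h2 W, Finset.sum_comm]
      refine Finset.sum_congr rfl fun s _ => ?_
      rw [Finset.sum_ite_eq, if_pos (mem_univ _)]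
    rw [h1]
    by_cases hex : ∃ s0, x' ∈ (w s0).1
    · obtain ⟨s0, y, hy0⟩ := hex
      rw [LinearMap.add_apply] at hy0
      obtain ⟨sy, hsy1, hsy2⟩ := hy y
      have h2 : ∀ s, (if x' ∈ (w s).1 then a s else 0) =
          (if L s y = L s0 y then (if τ s = r then 1 else 0) else 0) -
          (if L s y = L s0 y then (if τ s = 0 then 1 else 0) else 0) := by
        intro s
        have h3 : (x' ∈ (w s).1) ↔ L s y = L s0 y := by
          rw [← hy0]
          exact hmem s s0 y
        by_cases h4 : L s y = L s0 y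
        · rw [if_pos (h3.2 h4), if_pos h4, if_pos h4]
        · rw [if_neg (fun h => h4 (h3.1 h)), if_neg h4, if_neg h4, sub_zero]
      rw [Finset.sum_congr rfl fun s _ => h2 s, Finset.sum_sub_distrib, sub_eq_zero,
        ← Equiv.sum_comp (Equiv.addRight sy)]
      refine Finset.sum_congr rfl fun s _ => ?_
      simp only [Equiv.coe_addRight, hadd, LinearMap.add_apply, hsy1, add_zero, map_add, hsy2,
        add_eq_right]
    · refine Finset.sum_eq_zero fun s _ => ?_
      rw [if_neg (fun h => hex ⟨s, h⟩)]
  -- the set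
  obtain ⟨s1, hs1, hτ1⟩ := hy 0
  have hs1' : L s1 ≠ 0 := by
    intro h
    rw [hinj s1 h, map_zero] at hτ1
    exact hr hτ1.symm
  obtain ⟨y0, hy0⟩ : ∃ y0, L s1 y0 ≠ 0 := by
    by_contra h
    push Not at h
    exact hs1' (LinearMap.ext h)
  have hy0' : y0 ≠ 0 := by
    rintro rfl
    exact hy0 (map_zero _)
  have hx0 : e y0 ≠ 0 := fun h => hy0' (he (h.trans (map_zero e).symm))
  have hmem0 : ∀ s, e y0 ∈ (w s).1 ↔ L s y0 = 0 := by
    intro s
    have h := hmem s 0 y0
    rwa [hL0, LinearMap.zero_apply, add_zero] at h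
  let B : Finset Ω := univ.filter (fun W : Ω => e y0 ∈ W.1)
  refine nonSpreading_of_vector v ?_ ?_ B ?_ ?_ ?_
  · intro W
    by_cases h : ∃ s, w s = W
    · obtain ⟨s, rfl⟩ := h
      rw [hvw]
      exact ha s
    · have : v W = 0 := by
        refine Finset.sum_eq_zero fun s _ => ?_
        rw [if_neg (fun h' => h ⟨s, h'⟩)]
      rw [this]
      norm_num
  · refine ⟨w 0, ?_⟩
    rw [hvw]
    show (if τ 0 = r then (1 : ℤ) else 0) - (if τ 0 = 0 then 1 else 0) ≠ 0
    rw [map_zero, if_neg (fun h => hr h.symm), if_pos rfl]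
    norm_num
  · rw [Finset.one_lt_card]
    obtain ⟨s2, hs2, hτ2⟩ := hy y0
    refine ⟨w 0, ?_, w s2, ?_, ?_⟩
    · rw [mem_filter]
      exact ⟨mem_univ _, (hmem0 0).2 (by rw [hL0]; rfl)⟩
    · rw [mem_filter]
      exact ⟨mem_univ _, (hmem0 s2).2 hs2⟩
    · intro h
      have h1 := hw h
      rw [← h1, map_zero] at hτ2
      exact hr hτ2.symm
  · rw [← Finset.card_univ]
    refine Finset.card_lt_card ?_
    rw [Finset.ssubset_univ_iff]
    intro h
    have h1 : w s1 ∈ B := by
      rw [h]
      exact mem_univ _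
    rw [mem_filter] at h1
    exact hy0 ((hmem0 s1).1 h1.2)
  · intro g
    obtain ⟨x', hx'⟩ := hG g (e y0) hx0
    rw [← hsum x', ← Equiv.sum_comp (MulAction.toPerm g), Finset.sum_filter]
    refine Finset.sum_congr rfl fun W _ => ?_
    exact if_congr (hx' W) rfl rfl

end

end SpreadPerm.NS
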