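import Mathlib
import Pool.Agent.Lib.MP_e6ed9e_al.NS.Trace47

/-!
# Row PLANE
-/

namespace SpreadPerm.NS

open Module Finset

noncomputable section

theorem exists_dual47 {K U : Type} [Field K] [AddCommGroup U] [Module K U] {a b : U}
    (hab : LinearIndependent K ![a, b]) (y : U) :
    ∃ ξ : U →ₗ[K] K, ξ y = 0 ∧ (ξ a ≠ 0 ∨ ξ b ≠ 0) := by
  have h1 : ¬ (a ∈ Submodule.span K {y} ∧ b ∈ Submodule.span K {y}) := by
    rintro ⟨ha, hb⟩
    rw [Submodule.mem_span_singleton] at ha hb
    obtain ⟨s, hs⟩ := ha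
    obtain ⟨t, ht⟩ := hb
    have h2 := (LinearIndependent.pair_iff.1 hab) t (-s) (by
      rw [← hs, ← ht, smul_smul, smul_smul, ← add_smul]
      ring_nf
      exact zero_smul _ _)
    have h3 : a = 0 := by rw [← hs, neg_eq_zero.1 h2.2, zero_smul]
    have h4 := hab.ne_zero 0
    exact h4 (by simpa using h3)
  have h2 : ∃ c : U, (c = a ∨ c = b) ∧ c ∉ Submodule.span K {y} := by
    by_contra hcon
    push Not at hcon
    exact h1 ⟨hcon a (Or.inl rfl), hcon b (Or.inr rfl)⟩
  obtain ⟨c, hc, hcy⟩ := h2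
  obtain ⟨ξ, h3, h4⟩ := Submodule.exists_dual_map_eq_bot_of_notMem hcy inferInstance
  refine ⟨ξ, ?_, ?_⟩
  · have h5 : ξ y ∈ (Submodule.span K {y}).map ξ := ⟨y, Submodule.mem_span_singleton_self y, rfl⟩
    rw [h4] at h5
    exact (Submodule.mem_bot K).1 h5
  · rcases hc with rfl | rfl
    · exact Or.inl h3
    · exact Or.inr h3

theorem plane47 : StPlane := by
  intro K V _ _ _ _ _ Ω U T hU hT hUT hΩ _ G _ _ _ hG
  have : Fintype K := Fintype.ofFinite K
  have hfU : Module.Finite K U := Module.finite_of_finrank_pos (by omega)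
  have hfT : Module.Finite K T := Module.finite_of_finrank_pos (by omega)
  have bU := Module.finBasis K U
  have bT := Module.finBasisOfFinrankEq K T hT
  let i0 : Fin (finrank K U) := ⟨0, by omega⟩
  let i1 : Fin (finrank K U) := ⟨1, by omega⟩
  have hi : i0 ≠ i1 := by
    intro h
    exact absurd (congrArg Fin.val h) (by norm_num)
  have hab : LinearIndependent K ![bU i0, bU i1] := by
    have h1 := bU.linearIndependent.comp ![i0, i1] (by
      intro x y hxy
      fin_cases x <;> fin_cases y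
      · rfl
      · exact absurd hxy hi
      · exact absurd hxy.symm hi
      · rfl)
    have h2 : (bU ∘ ![i0, i1]) = ![bU i0, bU i1] := by
      funext x
      fin_cases x <;> rfl
    rw [h2] at h1
    exact h1
  have : Finite (U →ₗ[K] T) := Module.finite_of_finite K
  let τ : (U →ₗ[K] T) →+ K :=
    { toFun := fun φ => bT.coord 0 (φ (bU i0)) + bT.coord 1 (φ (bU i1))
      map_zero' := by simp
      map_add' := fun φ ψ => by
        rw [LinearMap.add_apply, LinearMap.add_apply, map_add, map_add]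
        abel }
  refine trace47 K V U (U →ₗ[K] T) K Ω U.subtype (fun φ => T.subtype ∘ₗ φ) T
    U.injective_subtype (by rwa [Submodule.range_subtype]) (fun s x => (s x).2)
    (fun s s' => LinearMap.comp_add _ _ _) ?_ hΩ τ 1 one_ne_zero ?_ G hG
  · intro s hs
    ext x
    have := LinearMap.congr_fun hs x
    exact this
  · intro y
    obtain ⟨ξ, hy, h⟩ := exists_dual47 hab y
    rcases h with h | h
    · refine ⟨LinearMap.toSpanSingleton K T (bT 0) ∘ₗ ((ξ (bU i0))⁻¹ • ξ), ?_, ?_⟩
      · show T.subtype _ = 0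
        simp [hy]
      · show bT.coord 0 _ + bT.coord 1 _ = 1
        simp [h]
    · refine ⟨LinearMap.toSpanSingleton K T (bT 1) ∘ₗ ((ξ (bU i1))⁻¹ • ξ), ?_, ?_⟩
      · show T.subtype _ = 0
        simp [hy]
      · show bT.coord 0 _ + bT.coord 1 _ = 1
        simp [h]

end

end SpreadPerm.NS
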