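import Pool.Agent.Lib.MP_e6ed9e_al.NS.Bridge47
import Pool.Agent.Lib.MP_e6ed9e_al.NS.Plane47

/-! # Room NS: alternating forms; the clause on isometric subspaces (helper47) -/

namespace SpreadPerm.NS

open Module Finset

noncomputable section

/-- The `PForm` of an alternating form. -/
def af {F V : Type} [Field F] [AddCommGroup V] [Module F V] (B : V →ₗ[F] V →ₗ[F] F)
    (hB : ∀ x, B x x = 0) : PForm F V where
  s := RingHom.id F
  s_s := fun _ => rfl
  eps := -1
  f := fun x y => B x y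
  Q := fun _ => 0
  T := 0
  f_add_left := fun x y z => by rw [map_add]; rfl
  f_smul_left := fun a x y => by rw [map_smul]; rfl
  f_symm := fun x y => by
    have h := hB (x + y)
    rw [map_add, map_add, LinearMap.add_apply, LinearMap.add_apply, hB, hB] at h
    rw [RingHom.id_apply]
    linear_combination h
  Q_smul := fun a x => by rw [mul_zero]
  Q_add := fun x y => by simp
  Q_T := fun x => ⟨0, rfl⟩
  f_self := fun x _ => hB x

/-- Isometric subspaces. -/
theorem isometric47 {F V : Type} [Field F] [Finite F] [AddCommGroup V] [Module F V] [Finite V]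
    (q : V → V → F) (Ω : Set (Submodule F V))
    (hΩ : ∀ U ∈ Ω, ∀ W : Submodule F V,
      (∃ e : U ≃ₗ[F] W, ∀ x y, q (e x) (e y) = q x y) → W ∈ Ω)
    (U : Submodule F V) (hU : U ∈ Ω) (hU2 : 2 ≤ finrank F U) (T : Submodule F V)
    (hT : finrank F T = 2) (hUT : Disjoint U T)
    (hq : ∀ u ∈ U, ∀ u' ∈ U, ∀ t ∈ T, ∀ t' ∈ T, q (u + t) (u' + t') = q u u')
    [Fintype Ω] (G : Type) [Group G] [MulAction G Ω] [MulAction.IsPretransitive G Ω]
    (hG : ∀ (g : G) (x : V), x ≠ 0 → ∃ x' : V, ∀ W : Ω, x ∈ W.1 ↔ x' ∈ (g • W).1) :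
    NonSpreading G Ω := by
  refine plane47 F V Ω U T hU2 hT hUT ?_ G hG
  intro φ
  have hinj : Function.Injective (U.subtype + T.subtype ∘ₗ φ) := by
    rw [← LinearMap.ker_eq_bot, LinearMap.ker_eq_bot']
    intro x hx
    have h1 : (x : V) = - (φ x : V) := by
      rw [eq_neg_iff_add_eq_zero]
      exact hx
    have h2 : (x : V) = 0 := by
      refine (Submodule.disjoint_def.1 hUT) _ x.2 ?_
      rw [h1]
      exact T.neg_mem (φ x).2
    exact Subtype.ext h2
  refine hΩ U hU _ ⟨LinearEquiv.ofInjective _ hinj, fun x y => ?_⟩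
  rw [LinearEquiv.ofInjective_apply, LinearEquiv.ofInjective_apply]
  exact hq _ x.2 _ y.2 _ (φ x).2 _ (φ y).2

end

end SpreadPerm.NS
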