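import Pool.Agent.Lib.MP_e6ed9e_al.NS.Defs

/-! # Room NS: the two-point lemma and transport along isometries (helper47) -/

namespace SpreadPerm.NS

open Module Finset
open scoped Classical

noncomputable section

section
variable {K V W : Type} [Field K] [AddCommGroup V] [Module K V] [AddCommGroup W] [Module K W]

/-- the indicator function of the nonzero multiples of `a` -/
def ind (K : Type) {V : Type} [Field K] [AddCommGroup V] [Module K V] (a y : V) : ℤ :=
  if ∃ t : K, t ≠ 0 ∧ y = t • a then 1 else 0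

theorem ind_smul (a : V) (t : K) (y : V) (ht : t ≠ 0) : ind K a (t • y) = ind K a y := by
  unfold ind
  congr 1
  rw [eq_iff_iff]
  constructor
  · rintro ⟨r, hr, h⟩
    exact ⟨t⁻¹ * r, mul_ne_zero (inv_ne_zero ht) hr, by rw [mul_smul, ← h, inv_smul_smul₀ ht]⟩
  · rintro ⟨r, hr, h⟩
    exact ⟨t * r, mul_ne_zero ht hr, by rw [mul_smul, h]⟩

theorem ind_self (a : V) : ind K a a = 1 := if_pos ⟨1, one_ne_zero, (one_smul K a).symm⟩

theorem ind_nonneg (a y : V) : 0 ≤ ind K a y := by
  unfold ind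
  split_ifs <;> norm_num

theorem ind_le_one (a y : V) : ind K a y ≤ 1 := by
  unfold ind
  split_ifs <;> norm_num

theorem ind_ne {a y : V} (h : ind K a y ≠ 0) : ∃ t : K, t ≠ 0 ∧ y = t • a := by
  unfold ind at h
  by_contra hc
  rw [if_neg hc] at h
  exact h rfl

/-- number of nonzero multiples -/
theorem sum_ind [Fintype K] [Fintype V] {a : V} (ha : a ≠ 0) :
    ∑ y, ind K a y = (Fintype.card K : ℤ) - 1 := by
  have h0 : ∑ y, ind K a y =
      ∑ y ∈ univ.filter (fun y : V => ∃ t : K, t ≠ 0 ∧ y = t • a), (1 : ℤ) := by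
    rw [Finset.sum_filter]
    refine Finset.sum_congr rfl (fun y _ => ?_)
    unfold ind
    congr
  rw [h0, Finset.sum_const, nsmul_eq_mul, mul_one]
  have : (univ.filter (fun y : V => ∃ t : K, t ≠ 0 ∧ y = t • a)) =
      (univ.filter (fun t : K => t ≠ 0)).image (fun t => t • a) := by
    ext y
    simp only [mem_filter, mem_univ, true_and, mem_image]
    constructor
    · rintro ⟨t, h1, h2⟩
      exact ⟨t, h1, h2.symm⟩
    · rintro ⟨t, h1, h2⟩
      exact ⟨t, h1, h2.symm⟩
  rw [this, card_image_of_injective]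
  · rw [filter_ne' univ (0 : K), card_erase_of_mem (mem_univ _), card_univ]
    have := Fintype.card_pos (α := K)
    push_cast [Nat.cast_sub this]
    simp
  · intro s t hst
    by_contra hne
    have h : (s - t) • a = 0 := by
      rw [sub_smul]
      exact sub_eq_zero.2 hst
    rcases smul_eq_zero.1 h with h' | h'
    · exact hne (sub_eq_zero.1 h')
    · exact ha h'

/-- The two-point lemma. -/
theorem good_two_points [Fintype K] [Fintype V] (P : PForm K V) (c : K) (hc : c ≠ 0) {a1 a2 : V}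
    (h12 : ∀ t : K, a2 ≠ t • a1) (h1 : Cls P c a1) (h2 : Cls P c a2)
    (hs1 : ∀ x, x ≠ 0 → P.Q x = 0 → P.f x a1 ≠ 0)
    (hs2 : ∀ x, x ≠ 0 → P.Q x = 0 → P.f x a2 ≠ 0) :
    Good P c (fun y => ind K a1 y - ind K a2 y) := by
  have hQ : ∀ a, Cls P c a → a ≠ 0 := by
    rintro a ⟨t, ht, h⟩ h0
    rw [h0, P.Q_zero] at h
    have hst : P.s t ≠ 0 := fun h' => ht ((map_eq_zero P.s).1 h')
    exact mul_ne_zero hc (mul_ne_zero ht hst) h.symm
  have ha1 := hQ a1 h1
  have ha2 := hQ a2 h2
  have hcl : ∀ a y, Cls P c a → ind K a y ≠ 0 → Cls P c y := by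
    rintro a y ⟨t, ht, h⟩ hy
    obtain ⟨r, hr, rfl⟩ := ind_ne hy
    refine ⟨r * t, mul_ne_zero hr ht, ?_⟩
    rw [P.Q_smul, h, map_mul]
    ring
  have h0 : ind K a2 a1 = 0 := by
    by_contra h
    obtain ⟨t, ht, h'⟩ := ind_ne h
    apply h12 t⁻¹
    rw [h', inv_smul_smul₀ ht]
  refine ⟨?_, ?_, ?_, ?_, ?_⟩
  · intro t y ht
    show ind K a1 (t • y) - ind K a2 (t • y) = ind K a1 y - ind K a2 y
    rw [ind_smul _ _ _ ht, ind_smul _ _ _ ht]
  · intro y hy
    by_cases h : ind K a1 y = 0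
    · have h' : ind K a2 y ≠ 0 := by
        intro h'
        apply hy
        simp only [h, h', sub_zero]
      exact hcl a2 y h2 h'
    · exact hcl a1 y h1 h
  · intro y
    have := ind_nonneg (K := K) a1 y
    have := ind_le_one (K := K) a2 y
    show -1 ≤ ind K a1 y - ind K a2 y
    linarith
  · refine ⟨a1, ?_⟩
    simp only [ind_self, h0]
    norm_num
  · intro x hx
    by_cases hx0 : x = 0
    · subst hx0
      have : univ.filter (fun y : V => P.f 0 y = 0) = univ := by
        ext y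
        simp [P.f_zero_left]
      rw [this, sum_sub_distrib, sum_ind ha1, sum_ind ha2, sub_self]
    · refine sum_eq_zero (fun y hy => ?_)
      have hy' : P.f x y = 0 := (mem_filter.1 hy).2
      have e1 : ∀ a, P.f x a ≠ 0 → ind K a y = 0 := by
        intro a ha
        by_contra h
        obtain ⟨t, ht, h'⟩ := ind_ne h
        rw [h', P.f_smul_right] at hy'
        have hst : P.s t ≠ 0 := fun h' => ht ((map_eq_zero P.s).1 h')
        exact mul_ne_zero hst ha hy'
      simp only [e1 a1 (hs1 x hx0 hx), e1 a2 (hs2 x hx0 hx), sub_self]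

/-- Transport along an isometry. -/
theorem good_transport [Fintype V] [Fintype W] {P' : PForm K W} {P : PForm K V}
    {φ : W ≃ₗ[K] V} (h : Isom P' P φ) {c : K} {v : W → ℤ} (hv : Good P' c v) :
    Good P c (fun y => v (φ.symm y)) := by
  refine ⟨?_, ?_, ?_, ?_, ?_⟩
  · intro a x ha
    simp only [map_smul]
    exact hv.smul a _ ha
  · intro x hx
    obtain ⟨a, ha, h1⟩ := hv.cls _ hx
    refine ⟨a, ha, ?_⟩
    have h2 := h.Q_eq (φ.symm x)
    rw [φ.apply_symm_apply] at h2
    rw [h2, h1, h.s_eq]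
  · intro x
    exact hv.ge _
  · obtain ⟨x, hx⟩ := hv.ne
    exact ⟨φ x, by simpa using hx⟩
  · intro x hx
    have h2 := h.Q_eq (φ.symm x)
    rw [φ.apply_symm_apply, hx] at h2
    have h3 := hv.sum (φ.symm x) h2.symm
    rw [← h3]
    refine sum_bij (fun y _ => φ.symm y) ?_ ?_ ?_ ?_
    · intro y hy
      have hy' : P.f x y = 0 := (mem_filter.1 hy).2
      refine mem_filter.2 ⟨mem_univ _, ?_⟩
      rw [← h.f_eq, φ.apply_symm_apply, φ.apply_symm_apply]
      exact hy'
    · intro a _ b _ hab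
      exact φ.symm.injective hab
    · intro y hy
      have hy' : P'.f (φ.symm x) y = 0 := (mem_filter.1 hy).2
      refine ⟨φ y, mem_filter.2 ⟨mem_univ _, ?_⟩, by simp⟩
      rw [← h.f_eq, φ.apply_symm_apply] at hy'
      exact hy'
    · intro y _
      rfl

/-- The pull back of a form along a linear map. -/
def pull (P : PForm K V) (φ : W →ₗ[K] V) : PForm K W where
  s := P.s
  s_s := P.s_s
  eps := P.eps
  f x y := P.f (φ x) (φ y)
  Q x := P.Q (φ x)
  T := P.T
  f_add_left x y z := by rw [map_add, P.f_add_left]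
  f_smul_left a x y := by rw [map_smul, P.f_smul_left]
  f_symm x y := P.f_symm _ _
  Q_smul a x := by rw [map_smul, P.Q_smul]
  Q_add x y := by rw [map_add, P.Q_add]
  Q_T x := P.Q_T _
  f_self x hx := P.f_self _ hx

theorem pull_isom (P : PForm K V) (φ : W ≃ₗ[K] V) : Isom (pull P φ.toLinearMap) P φ :=
  ⟨fun _ => rfl, rfl, fun _ => rfl, fun _ _ => rfl, fun _ => rfl⟩

theorem IsQuad.pull {P : PForm K V} (h : IsQuad P) (φ : W →ₗ[K] V) : IsQuad (NS.pull P φ) :=
  ⟨h.s_id, h.eps1, h.T_id⟩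

theorem IsHerm.pull {P : PForm K V} (h : IsHerm P) (φ : W →ₗ[K] V) : IsHerm (NS.pull P φ) :=
  ⟨h.s_ne, h.eps1, h.T_eq, fun _ => h.Q_eq _⟩

theorem ND.pull {P : PForm K V} (h : ND P) (φ : W ≃ₗ[K] V) : ND (NS.pull P φ.toLinearMap) := by
  intro x hx
  have : φ x = 0 := by
    apply h
    intro y
    have := hx (φ.symm y)
    simpa [NS.pull] using this
  simpa using this

theorem IsQuad.f_self {P : PForm K V} (h : IsQuad P) (x : V) : P.f x x = 2 * P.Q x := by
  have h1 := P.Q_add x x
  rw [h.T_id, ← two_smul K x, P.Q_smul, h.s_id] at h1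
  linear_combination -h1

theorem IsQuad.symm {P : PForm K V} (h : IsQuad P) (x y : V) : P.f x y = P.f y x := by
  rw [P.f_symm x y, h.eps1, h.s_id, one_mul]

end

end

end SpreadPerm.NS
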