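import Pool.Agent.Lib.MP_e6ed9e_al.NS.Basic47

/-! # Room NS: from `PForm` to quadratic and hermitian forms (helper47) -/

namespace SpreadPerm.NS

open Module Finset

noncomputable section

/-- The `PForm` of a quadratic form. -/
def qf {F V : Type} [Field F] [AddCommGroup V] [Module F V] (Q : QuadraticForm F V) :
    PForm F V where
  s := RingHom.id F
  s_s := fun _ => rfl
  eps := 1
  f := fun x y => QuadraticMap.polar Q x y
  Q := fun x => Q x
  T := AddMonoidHom.id F
  f_add_left := fun x y z => QuadraticMap.polar_add_left Q x y z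
  f_smul_left := fun a x y => by rw [QuadraticMap.polar_smul_left, smul_eq_mul]
  f_symm := fun x y => by
    rw [one_mul, RingHom.id_apply]
    exact QuadraticMap.polar_comm _ _ _
  Q_smul := fun a x => by rw [QuadraticMap.map_smul, smul_eq_mul, RingHom.id_apply]
  Q_add := fun x y => QuadraticMap.map_add Q x y
  Q_T := fun x => ⟨Q x, rfl⟩
  f_self := fun x hx => by rw [QuadraticMap.polar_self, hx, smul_zero]

theorem qf_isQuad {F V : Type} [Field F] [AddCommGroup V] [Module F V] (Q : QuadraticForm F V) :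
    IsQuad (qf Q) := ⟨fun _ => rfl, rfl, fun _ => rfl⟩

theorem self_fix {F V : Type} [Field F] [AddCommGroup V] [Module F V] {σ : F →+* F}
    {h : V →ₗ[F] V →ₛₗ[σ] F} (hh : ∀ x y, h y x = σ (h x y)) (x : V) : σ (h x x) = h x x :=
  (hh x x).symm

theorem tr_half {F : Type} [Field F] {σ : F →+* F} (h2 : ∀ a, σ (σ a) = a)
    (h1 : ∃ a, σ a ≠ a) (k : F) (hk : σ k = k) : ∃ t : F, t + σ t = k := by
  have hex : ∃ w : F, w + σ w ≠ 0 := by
    by_contra hcon
    push Not at hcon
    have h3 : (2 : F) = 0 := by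
      have := hcon 1
      rw [map_one] at this
      linear_combination this
    obtain ⟨a, ha⟩ := h1
    apply ha
    have := hcon a
    linear_combination this - a * h3
  obtain ⟨w, hw⟩ := hex
  refine ⟨k * w / (w + σ w), ?_⟩
  have hs : σ (w + σ w) = w + σ w := by rw [map_add, h2, add_comm]
  rw [map_div₀, map_mul, hk, hs]
  field_simp

/-- The `PForm` of a hermitian form. -/
def hf {F V : Type} [Field F] [AddCommGroup V] [Module F V] (σ : F →+* F)
    (h2 : ∀ a, σ (σ a) = a) (h1 : ∃ a, σ a ≠ a) (h : V →ₗ[F] V →ₛₗ[σ] F)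
    (hh : ∀ x y, h y x = σ (h x y)) : PForm F V where
  s := σ
  s_s := h2
  eps := 1
  f := fun x y => h x y
  Q := fun x => h x x
  T := AddMonoidHom.id F + σ.toAddMonoidHom
  f_add_left := fun x y z => by rw [map_add]; rfl
  f_smul_left := fun a x y => by rw [map_smul]; rfl
  f_symm := fun x y => by rw [one_mul, hh]
  Q_smul := fun a x => by
    have e1 : h (a • x) (a • x) = a • h x (a • x) := by
      rw [LinearMap.map_smul h a x]
      rfl
    have e2 : h x (a • x) = σ a • h x x := LinearMap.map_smulₛₗ (h x) a x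
    rw [e1, e2, smul_eq_mul, smul_eq_mul]
    ring
  Q_add := fun x y => by
    have e := hh x y
    rw [map_add, map_add, LinearMap.add_apply, LinearMap.add_apply, e]
    show _ = h x x + h y y + (h x y + σ (h x y))
    ring
  Q_T := fun x => by
    obtain ⟨t, ht⟩ := tr_half h2 h1 (h x x) (self_fix hh x)
    exact ⟨t, ht⟩
  f_self := fun x hx => hx

theorem hf_isHerm {F V : Type} [Field F] [AddCommGroup V] [Module F V] (σ : F →+* F)
    (h2 : ∀ a, σ (σ a) = a) (h1 : ∃ a, σ a ≠ a) (h : V →ₗ[F] V →ₛₗ[σ] F)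
    (hh : ∀ x y, h y x = σ (h x y)) : IsHerm (hf σ h2 h1 h hh) :=
  ⟨h1, rfl, fun _ => rfl, fun _ => rfl⟩

/-- A class with a value has points. -/
theorem nonempty_pt (hU : StUniv) {K V : Type} [Field K] [Finite K] [AddCommGroup V] [Module K V]
    [Finite V] (P : PForm K V) (hP : IsQuad P ∨ IsHerm P) (hnd : ND P) (hn : 4 ≤ finrank K V)
    (C : Set K) (hC : ∀ t ∈ C, ∀ a : K, a ≠ 0 → t * (a * P.s a) ∈ C) {t : K} (ht : t ∈ C)
    (ht0 : t ≠ 0) (hst : P.s t = t) : Nonempty (Pt P C) := by
  obtain ⟨x, hx, hQ⟩ := hU K V P hP hnd (by omega) t ht0 hst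
  refine ⟨⟨Projectivization.mk K x hx, ?_⟩⟩
  obtain ⟨a, ha⟩ := Projectivization.exists_smul_eq_mk_rep K x hx
  show P.Q (Projectivization.mk K x hx).rep ∈ C
  rw [← ha, Units.smul_def, P.Q_smul, hQ, mul_comm]
  exact hC t ht _ a.ne_zero

end

end SpreadPerm.NS
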