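import Mathlib

/-! # Character sums of quadratic polynomials (helper88) -/

namespace SpreadPerm.NS

open Finset

variable {F : Type*} [Field F] [Fintype F] [DecidableEq F]

/-- number of square roots -/
theorem card_sqrt88 (h2 : ringChar F ≠ 2) (a : F) :
    ((univ.filter (fun c : F => c ^ 2 = a)).card : ℤ) = quadraticChar F a + 1 := by
  have h := quadraticChar_card_sqrts h2 a
  rw [← h]
  congr 1
  rw [Set.toFinset_card]
  rw [← Fintype.card_subtype]
  exact Fintype.card_congr (Equiv.refl _)

/-- the number of points of `c ^ 2 - b ^ 2 = m`, `m ≠ 0` -/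
theorem card_hyp88 (h2 : (2 : F) ≠ 0) {m : F} (hm : m ≠ 0) :
    (univ.filter (fun x : F × F => x.2 ^ 2 = x.1 ^ 2 + m)).card = Fintype.card F - 1 := by
  have h1 : Fintype.card F - 1 = (univ.filter (fun t : F => t ≠ 0)).card := by
    rw [filter_ne' univ (0 : F), card_erase_of_mem (mem_univ _), card_univ]
  rw [h1]
  refine card_bij' (fun x _ => x.2 - x.1) (fun t _ => ((m / t - t) / 2, (m / t + t) / 2)) ?_ ?_ ?_ ?_
  · intro x hx
    have hx' : x.2 ^ 2 = x.1 ^ 2 + m := (mem_filter.1 hx).2
    refine mem_filter.2 ⟨mem_univ _, fun h0 => hm ?_⟩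
    have : x.2 = x.1 := sub_eq_zero.1 h0
    rw [this] at hx'
    linear_combination -hx'
  · intro t ht
    have ht' : t ≠ 0 := (mem_filter.1 ht).2
    refine mem_filter.2 ⟨mem_univ _, ?_⟩
    show ((m / t + t) / 2) ^ 2 = ((m / t - t) / 2) ^ 2 + m
    field_simp
    ring
  · intro x hx
    have hx' : x.2 ^ 2 = x.1 ^ 2 + m := (mem_filter.1 hx).2
    have h0 : x.2 - x.1 ≠ 0 := by
      intro h0
      apply hm
      have : x.2 = x.1 := sub_eq_zero.1 h0
      rw [this] at hx'
      linear_combination -hx'
    have h3 : m / (x.2 - x.1) = x.2 + x.1 := by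
      rw [div_eq_iff h0]
      linear_combination -hx'
    refine Prod.ext ?_ ?_
    · show (m / (x.2 - x.1) - (x.2 - x.1)) / 2 = x.1
      rw [h3]
      field_simp
      ring
    · show (m / (x.2 - x.1) + (x.2 - x.1)) / 2 = x.2
      rw [h3]
      field_simp
      ring
  · intro t ht
    have ht' : t ≠ 0 := (mem_filter.1 ht).2
    show (m / t + t) / 2 - (m / t - t) / 2 = t
    field_simp
    ring

/-- `∑ χ (b ^ 2 + m)` -/
theorem sum_chi88 (h2 : ringChar F ≠ 2) (m : F) :
    ∑ b : F, quadraticChar F (b ^ 2 + m) = if m = 0 then (Fintype.card F : ℤ) - 1 else -1 := by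
  have h2' : (2 : F) ≠ 0 := Ring.two_ne_zero h2
  by_cases hm : m = 0
  · subst hm
    rw [if_pos rfl]
    have h1 : ∀ b : F, quadraticChar F (b ^ 2 + 0) = if b = 0 then 0 else 1 := by
      intro b
      rw [add_zero]
      by_cases hb : b = 0
      · subst hb
        simp
      · rw [if_neg hb]
        exact quadraticChar_sq_one' hb
    rw [sum_congr rfl (fun b _ => h1 b), sum_ite, sum_const_zero, zero_add, sum_const,
      nsmul_eq_mul, mul_one, filter_ne' univ (0 : F), card_erase_of_mem (mem_univ _), card_univ]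
    have := Fintype.card_pos (α := F)
    push_cast [Nat.cast_sub this]
    ring
  · rw [if_neg hm]
    have h3 : ((univ.filter (fun x : F × F => x.2 ^ 2 = x.1 ^ 2 + m)).card : ℤ) =
        ∑ b : F, (quadraticChar F (b ^ 2 + m) + 1) := by
      rw [card_filter, ← univ_product_univ, sum_product]
      push_cast
      refine sum_congr rfl (fun b _ => ?_)
      rw [← card_sqrt88 h2, card_filter]
      push_cast
      rfl
    rw [card_hyp88 h2' hm, sum_add_distrib] at h3
    have := Fintype.card_pos (α := F)
    rw [Nat.cast_sub this] at h3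
    simp only [sum_const, card_univ, nsmul_eq_mul, mul_one] at h3
    push_cast at h3
    linarith

end SpreadPerm.NS
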