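import Pool.Agent.Lib.MP_e6ed9e_al.NS.Basic47

/-! # Room NS: row CONIC (helper96) -/

namespace SpreadPerm.NS

open Module Finset
open scoped Classical

noncomputable section

section
variable {K V : Type} [Field K] [AddCommGroup V] [Module K V]

/-- The sum of the indicator of a point over the vectors orthogonal to `x`. -/
theorem sum_ind_perp [Fintype K] [Fintype V] (P : PForm K V) (x : V) {a : V} (ha : a ≠ 0) :
    ∑ y ∈ univ.filter (fun y => P.f x y = 0), ind K a y =
      if P.f x a = 0 then (Fintype.card K : ℤ) - 1 else 0 := by
  have hf : ∀ y, ind K a y ≠ 0 → (P.f x y = 0 ↔ P.f x a = 0) := by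
    intro y hy
    obtain ⟨t, ht, rfl⟩ := ind_ne hy
    rw [P.f_smul_right, mul_eq_zero, or_iff_right (fun h' => ht ((map_eq_zero P.s).1 h'))]
  rw [Finset.sum_filter]
  by_cases h : P.f x a = 0
  · rw [if_pos h, ← sum_ind (K := K) ha]
    refine Finset.sum_congr rfl (fun y _ => ?_)
    by_cases hy : ind K a y = 0
    · rw [hy, ite_self]
    · rw [if_pos ((hf y hy).2 h)]
  · rw [if_neg h]
    refine Finset.sum_eq_zero (fun y _ => ?_)
    by_cases hy : ind K a y = 0
    · rw [hy, ite_self]
    · rw [if_neg (fun h' => h ((hf y hy).1 h'))]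

theorem ind_zero {a y : V} (h : ∀ t : K, t ≠ 0 → y ≠ t • a) : ind K a y = 0 := by
  by_contra h'
  obtain ⟨t, ht, hy⟩ := ind_ne h'
  exact h t ht hy

end

theorem conic96 : StConic := by
  intro K _ _ P d hP h2 hd hQ hf c hc
  have hs : ∀ a, P.s a = a := hP.s_id
  by_cases hcd : ∃ m : K, c = d * m ^ 2
  · obtain ⟨m, hm⟩ := hcd
    have hm0 : m ≠ 0 := by
      rintro rfl
      apply hc
      rw [hm]
      ring
    let a1 : K × K × K := (2, 0, 1)
    let a2 : K × K × K := (0, -(2 * d), 1)
    let a3 : K × K × K := (0, 2 * d, 1)
    let a4 : K × K × K := (2, 0, -1)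
    have e1 : a1 ≠ 0 := fun h => h2 (congrArg (fun t : K × K × K => t.1) h)
    have e4 : a4 ≠ 0 := fun h => h2 (congrArg (fun t : K × K × K => t.1) h)
    have e2 : a2 ≠ 0 := fun h => one_ne_zero (congrArg (fun t : K × K × K => t.2.2) h)
    have e3 : a3 ≠ 0 := fun h => one_ne_zero (congrArg (fun t : K × K × K => t.2.2) h)
    have hcl : ∀ a y : K × K × K, P.Q a = d → ind K a y ≠ 0 → Cls P c y := by
      intro a y ha hy
      obtain ⟨t, ht, rfl⟩ := ind_ne hy
      refine ⟨t * m⁻¹, mul_ne_zero ht (inv_ne_zero hm0), ?_⟩
      rw [P.Q_smul, ha, hs, hs, hm]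
      field_simp
    have q1 : P.Q a1 = d := by
      rw [hQ]
      show (2 : K) * 0 + d * 1 ^ 2 = d
      ring
    have q2 : P.Q a2 = d := by
      rw [hQ]
      show (0 : K) * -(2 * d) + d * 1 ^ 2 = d
      ring
    have q3 : P.Q a3 = d := by
      rw [hQ]
      show (0 : K) * (2 * d) + d * 1 ^ 2 = d
      ring
    have q4 : P.Q a4 = d := by
      rw [hQ]
      show (2 : K) * 0 + d * (-1) ^ 2 = d
      ring
    refine ⟨fun y => ind K a1 y - ind K a2 y + ind K a3 y - ind K a4 y, ?_, ?_, ?_, ?_, ?_⟩
    · intro t y ht
      show ind K a1 (t • y) - ind K a2 (t • y) + ind K a3 (t • y) - ind K a4 (t • y) =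
        ind K a1 y - ind K a2 y + ind K a3 y - ind K a4 y
      rw [ind_smul _ _ _ ht, ind_smul _ _ _ ht, ind_smul _ _ _ ht, ind_smul _ _ _ ht]
    · intro y hy
      by_cases h1 : ind K a1 y = 0
      · by_cases h2' : ind K a2 y = 0
        · by_cases h3 : ind K a3 y = 0
          · by_cases h4 : ind K a4 y = 0
            · exfalso
              apply hy
              show ind K a1 y - ind K a2 y + ind K a3 y - ind K a4 y = 0
              rw [h1, h2', h3, h4]
              rfl
            · exact hcl a4 y q4 h4
          · exact hcl a3 y q3 h3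
        · exact hcl a2 y q2 h2'
      · exact hcl a1 y q1 h1
    · intro y
      show -1 ≤ ind K a1 y - ind K a2 y + ind K a3 y - ind K a4 y
      have p1 := ind_nonneg (K := K) a1 y
      have p3 := ind_nonneg (K := K) a3 y
      have l2 := ind_le_one (K := K) a2 y
      have l4 := ind_le_one (K := K) a4 y
      by_cases h4 : ind K a4 y = 0
      · rw [h4]
        linarith
      · have h5 : ind K a2 y = 0 := by
          by_contra h5
          obtain ⟨t, ht, h6⟩ := ind_ne h4
          obtain ⟨r, hr, h7⟩ := ind_ne h5
          rw [h6] at h7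
          have h8 : t * 2 = r * 0 := congrArg (fun t : K × K × K => t.1) h7
          rw [mul_zero, mul_eq_zero] at h8
          rcases h8 with h8 | h8
          · exact ht h8
          · exact h2 h8
        rw [h5]
        linarith
    · refine ⟨a1, ?_⟩
      show ind K a1 a1 - ind K a2 a1 + ind K a3 a1 - ind K a4 a1 ≠ 0
      have z2 : ind K a2 a1 = 0 := by
        refine ind_zero (fun t ht h => ?_)
        have h8 : (2 : K) = t * 0 := congrArg (fun t : K × K × K => t.1) h
        rw [mul_zero] at h8
        exact h2 h8
      have z4 : ind K a4 a1 = 0 := by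
        refine ind_zero (fun t ht h => ?_)
        have h8 : (2 : K) = t * 2 := congrArg (fun t : K × K × K => t.1) h
        have h9 : (1 : K) = t * (-1) := congrArg (fun t : K × K × K => t.2.2) h
        have h10 : (2 : K) * 2 = 0 := by linear_combination h8 + 2 * h9
        rcases mul_eq_zero.1 h10 with h' | h'
        · exact h2 h'
        · exact h2 h'
      have p3 := ind_nonneg (K := K) a3 a1
      rw [ind_self, z2, z4]
      intro h
      linarith
    · intro x hx
      obtain ⟨u, w, t⟩ := x
      have hx' : u * w + d * t ^ 2 = 0 := by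
        rw [hQ] at hx
        exact hx
      have f1 : P.f (u, w, t) a1 = 2 * (w + d * t) := by
        rw [hf]
        show u * 0 + w * 2 + 2 * d * (t * 1) = _
        ring
      have f2 : P.f (u, w, t) a2 = 2 * d * (t - u) := by
        rw [hf]
        show u * -(2 * d) + w * 0 + 2 * d * (t * 1) = _
        ring
      have f3 : P.f (u, w, t) a3 = 2 * d * (t + u) := by
        rw [hf]
        show u * (2 * d) + w * 0 + 2 * d * (t * 1) = _
        ring
      have f4 : P.f (u, w, t) a4 = 2 * (w - d * t) := by
        rw [hf]
        show u * 0 + w * 2 + 2 * d * (t * -1) = _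
        ring
      have hd2 : 2 * d ≠ 0 := mul_ne_zero h2 hd
      have g1 : P.f (u, w, t) a1 = 0 ↔ w + d * t = 0 := by
        rw [f1, mul_eq_zero, or_iff_right h2]
      have g2 : P.f (u, w, t) a2 = 0 ↔ t - u = 0 := by
        rw [f2, mul_eq_zero, or_iff_right hd2]
      have g3 : P.f (u, w, t) a3 = 0 ↔ t + u = 0 := by
        rw [f3, mul_eq_zero, or_iff_right hd2]
      have g4 : P.f (u, w, t) a4 = 0 ↔ w - d * t = 0 := by
        rw [f4, mul_eq_zero, or_iff_right h2]
      rw [sum_sub_distrib, sum_add_distrib, sum_sub_distrib, sum_ind_perp P _ e1,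
        sum_ind_perp P _ e2, sum_ind_perp P _ e3, sum_ind_perp P _ e4]
      by_cases ht : t = 0
      · subst ht
        have k1 : P.f (u, w, 0) a1 = 0 ↔ P.f (u, w, 0) a4 = 0 := by
          rw [g1, g4, mul_zero, add_zero, sub_zero]
        have k2 : P.f (u, w, 0) a2 = 0 ↔ P.f (u, w, 0) a3 = 0 := by
          rw [g2, g3, zero_add, zero_sub, neg_eq_zero]
        simp only [k1, k2]
        ring
      · have k1 : P.f (u, w, t) a1 = 0 ↔ P.f (u, w, t) a2 = 0 := by
          rw [g1, g2]
          constructor
          · intro h
            have : d * t * (t - u) = 0 := by linear_combination hx' - u * h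
            rcases mul_eq_zero.1 this with h' | h'
            · exact absurd h' (mul_ne_zero hd ht)
            · exact h'
          · intro h
            have : t * (w + d * t) = 0 := by linear_combination hx' + w * h
            rcases mul_eq_zero.1 this with h' | h'
            · exact absurd h' ht
            · exact h'
        have k2 : P.f (u, w, t) a3 = 0 ↔ P.f (u, w, t) a4 = 0 := by
          rw [g3, g4]
          constructor
          · intro h
            have : t * (w - d * t) = 0 := by linear_combination w * h - hx'
            rcases mul_eq_zero.1 this with h' | h'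
            · exact absurd h' ht
            · exact h'
          · intro h
            have : d * t * (t + u) = 0 := by linear_combination hx' - u * h
            rcases mul_eq_zero.1 this with h' | h'
            · exact absurd h' (mul_ne_zero hd ht)
            · exact h'
        simp only [k1, k2]
        ring
  · -- the values not in the class of `d`
    have key : ∀ a x : K × K × K, P.Q a = c → x ≠ 0 → P.Q x = 0 → P.f x a ≠ 0 := by
      rintro ⟨p, q, r⟩ ⟨u, w, t⟩ ha hx0 hx hfx
      rw [hQ] at ha hx
      rw [hf] at hfx
      have ha' : p * q + d * r ^ 2 = c := ha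
      have hx' : u * w + d * t ^ 2 = 0 := hx
      have hfx' : u * q + w * p + 2 * d * (t * r) = 0 := hfx
      apply hcd
      by_cases hu : u = 0
      · subst hu
        have ht : t = 0 := by
          have : d * t ^ 2 = 0 := by linear_combination hx'
          rcases mul_eq_zero.1 this with h | h
          · exact absurd h hd
          · exact pow_eq_zero_iff two_ne_zero |>.1 h
        subst ht
        have hw : w ≠ 0 := by
          rintro rfl
          exact hx0 rfl
        have hp : p = 0 := by
          have : w * p = 0 := by linear_combination hfx'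
          rcases mul_eq_zero.1 this with h | h
          · exact absurd h hw
          · exact h
        exact ⟨r, by rw [← ha', hp]; ring⟩
      · refine ⟨t * p / u - r, ?_⟩
        have hu2 : u ^ 2 ≠ 0 := pow_ne_zero 2 hu
        have h1 : u ^ 2 * c = d * (t * p - r * u) ^ 2 := by
          rw [← ha']
          linear_combination p * u * hfx' - p ^ 2 * hx'
        have h2' : t * p / u - r = (t * p - r * u) / u := by
          field_simp
        rw [h2', div_pow]
        field_simp
        linear_combination h1
    have hcls : ∀ a : K × K × K, P.Q a = c → Cls P c a := by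
      intro a ha
      exact ⟨1, one_ne_zero, by rw [ha, map_one]; ring⟩
    have q1 : P.Q ((1, c, 0) : K × K × K) = c := by
      rw [hQ]
      show 1 * c + d * 0 ^ 2 = c
      ring
    have q2 : P.Q ((1, c - d, 1) : K × K × K) = c := by
      rw [hQ]
      show 1 * (c - d) + d * 1 ^ 2 = c
      ring
    exact ⟨_, good_two_points P c hc (a1 := (1, c, 0)) (a2 := (1, c - d, 1))
      (fun t h => by
        have h8 : (1 : K) = t * 0 := congrArg (fun t : K × K × K => t.2.2) h
        rw [mul_zero] at h8
        exact one_ne_zero h8)
      (hcls _ q1) (hcls _ q2) (fun x hx0 hx => key _ x q1 hx0 hx)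
      (fun x hx0 hx => key _ x q2 hx0 hx)⟩

end

end SpreadPerm.NS
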