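import Mathlib
import Pool.Agent.Lib.MP_e6ed9e_al.Polar.Glue88

/-!
# Edges of graphs with a cycle of even length
-/

namespace SpreadPerm.NS

open Finset
open scoped Classical

noncomputable section

theorem edge47 (X : Type) (Ω : Set (Sym2 X)) [Fintype Ω] (r : ℕ) (hr : 2 ≤ r)
    (a b : ZMod r → X) (ha : Function.Injective a) (hb : Function.Injective b)
    (hab : ∀ i j, a i ≠ b j) (h1 : ∀ i, s(a i, b i) ∈ Ω) (h2 : ∀ i, s(b i, a (i + 1)) ∈ Ω)
    (G : Type) [Group G] [MulAction G Ω] [MulAction.IsPretransitive G Ω]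
    (hG : ∀ (g : G) (x : X), ∃ x' : X, ∀ e : Ω, x ∈ e.1 ↔ x' ∈ (g • e).1) :
    NonSpreading G Ω := by
  have : NeZero r := ⟨by omega⟩
  have : Fact (1 < r) := ⟨by omega⟩
  let p : ZMod r → Ω := fun i => ⟨s(a i, b i), h1 i⟩
  let q : ZMod r → Ω := fun i => ⟨s(b i, a (i + 1)), h2 i⟩
  have hp : Function.Injective p := by
    intro i j h
    have h3 : s(a i, b i) = s(a j, b j) := congrArg Subtype.val h
    rw [Sym2.eq_iff] at h3
    rcases h3 with ⟨h3, _⟩ | ⟨h3, _⟩
    · exact ha h3
    · exact absurd h3 (hab i j)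
  have hq : Function.Injective q := by
    intro i j h
    have h3 : s(b i, a (i + 1)) = s(b j, a (j + 1)) := congrArg Subtype.val h
    rw [Sym2.eq_iff] at h3
    rcases h3 with ⟨h3, _⟩ | ⟨h3, _⟩
    · exact hb h3
    · exact absurd h3.symm (hab _ _)
  have hpq : ∀ i j, p i ≠ q j := by
    intro i j h
    have h3 : s(a i, b i) = s(b j, a (j + 1)) := congrArg Subtype.val h
    rw [Sym2.eq_iff] at h3
    rcases h3 with ⟨h3, _⟩ | ⟨h3, h4⟩
    · exact hab i j h3
    · have h5 := ha h3
      have h6 := hb h4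
      rw [h6] at h5
      have h7 : (1 : ZMod r) = 0 := by
        have := h5.symm
        rwa [add_eq_left] at this
      exact one_ne_zero h7
  let v : Ω → ℤ := fun e => (∑ i, if p i = e then 1 else 0) - ∑ i, if q i = e then 1 else 0
  have hone : ∀ (f : ZMod r → Ω), Function.Injective f → ∀ e,
      (∑ i, if f i = e then (1 : ℤ) else 0) = if ∃ i, f i = e then 1 else 0 := by
    intro f hf e
    by_cases h : ∃ i, f i = e
    · rw [if_pos h]
      obtain ⟨i, rfl⟩ := h
      rw [Finset.sum_eq_single i]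
      · rw [if_pos rfl]
      · intro j _ hj
        rw [if_neg (fun h => hj (hf h))]
      · intro h
        exact absurd (mem_univ _) h
    · rw [if_neg h]
      exact Finset.sum_eq_zero fun i _ => if_neg (fun h' => h ⟨i, h'⟩)
  have hsum : ∀ x : X, ∑ e : Ω, (if x ∈ e.1 then v e else 0) = 0 := by
    intro x
    have h3 : ∀ (f : ZMod r → Ω), ∑ e : Ω, (if x ∈ e.1 then (∑ i, if f i = e then (1 : ℤ) else 0)
        else 0) = ∑ i, if x ∈ (f i).1 then 1 else 0 := by
      intro f
      have h4 : ∀ e : Ω, (if x ∈ e.1 then (∑ i, if f i = e then (1 : ℤ) else 0) else 0) =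
          ∑ i, if f i = e then (if x ∈ (f i).1 then 1 else 0) else 0 := by
        intro e
        by_cases hx : x ∈ e.1
        · rw [if_pos hx]
          refine Finset.sum_congr rfl fun i _ => ?_
          by_cases hi : f i = e
          · rw [if_pos hi, if_pos hi, hi, if_pos hx]
          · rw [if_neg hi, if_neg hi]
        · rw [if_neg hx]
          refine (Finset.sum_eq_zero fun i _ => ?_).symm
          by_cases hi : f i = e
          · rw [if_pos hi, hi, if_neg hx]
          · rw [if_neg hi]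
      rw [Finset.sum_congr rfl fun e _ => h4 e, Finset.sum_comm]
      refine Finset.sum_congr rfl fun i _ => ?_
      rw [Finset.sum_ite_eq, if_pos (mem_univ _)]
    have h4 : ∀ e : Ω, (if x ∈ e.1 then v e else 0) =
        (if x ∈ e.1 then (∑ i, if p i = e then (1 : ℤ) else 0) else 0) -
        (if x ∈ e.1 then (∑ i, if q i = e then (1 : ℤ) else 0) else 0) := by
      intro e
      by_cases hx : x ∈ e.1
      · rw [if_pos hx, if_pos hx, if_pos hx]
      · rw [if_neg hx, if_neg hx, if_neg hx, sub_zero]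
    rw [Finset.sum_congr rfl fun e _ => h4 e, Finset.sum_sub_distrib, h3, h3]
    have h5 : ∀ i, (if x ∈ (p i).1 then (1 : ℤ) else 0) =
        (if x = a i then 1 else 0) + (if x = b i then 1 else 0) := by
      intro i
      have h6 : x ∈ (p i).1 ↔ x = a i ∨ x = b i := Sym2.mem_iff
      by_cases h7 : x = a i
      · rw [if_pos (h6.2 (Or.inl h7)), if_pos h7, if_neg (fun h8 => hab i i (h7.symm.trans h8)),
          add_zero]
      · by_cases h8 : x = b i
        · rw [if_pos (h6.2 (Or.inr h8)), if_neg h7, if_pos h8, zero_add]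
        · rw [if_neg (fun h9 => (h6.1 h9).elim h7 h8), if_neg h7, if_neg h8, add_zero]
    have h5' : ∀ i, (if x ∈ (q i).1 then (1 : ℤ) else 0) =
        (if x = a (i + 1) then 1 else 0) + (if x = b i then 1 else 0) := by
      intro i
      have h6 : x ∈ (q i).1 ↔ x = b i ∨ x = a (i + 1) := Sym2.mem_iff
      by_cases h7 : x = a (i + 1)
      · rw [if_pos (h6.2 (Or.inr h7)), if_pos h7, if_neg (fun h8 => hab _ _ (h7.symm.trans h8)),
          add_zero]
      · by_cases h8 : x = b i
        · rw [if_pos (h6.2 (Or.inl h8)), if_neg h7, if_pos h8, zero_add]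
        · rw [if_neg (fun h9 => (h6.1 h9).elim h8 h7), if_neg h7, if_neg h8, add_zero]
    rw [Finset.sum_congr rfl fun i _ => h5 i, Finset.sum_congr rfl fun i _ => h5' i,
      Finset.sum_add_distrib, Finset.sum_add_distrib]
    have h6 : ∑ i : ZMod r, (if x = a (i + 1) then (1 : ℤ) else 0) =
        ∑ i : ZMod r, (if x = a i then 1 else 0) :=
      Equiv.sum_comp (Equiv.addRight (1 : ZMod r)) (fun i => if x = a i then (1 : ℤ) else 0)
    rw [h6]
    ring
  let B : Finset Ω := univ.filter (fun e : Ω => a 1 ∈ e.1)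
  have hpm : a 1 ∈ (p 1).1 := Sym2.mem_iff.2 (Or.inl rfl)
  have hqm : a 1 ∈ (q 0).1 := Sym2.mem_iff.2 (Or.inr (by rw [zero_add]))
  have hpn : a 1 ∉ (p 0).1 := by
    intro h
    rcases Sym2.mem_iff.1 h with h3 | h3
    · exact one_ne_zero (ha h3)
    · exact hab _ _ h3
  refine nonSpreading_of_vector v ?_ ?_ B ?_ ?_ ?_
  · intro e
    show -1 ≤ (∑ i, if p i = e then (1 : ℤ) else 0) - ∑ i, if q i = e then 1 else 0
    rw [hone p hp, hone q hq]
    split_ifs <;> norm_num
  · refine ⟨p 0, ?_⟩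
    show (∑ i, if p i = p 0 then (1 : ℤ) else 0) - (∑ i, if q i = p 0 then 1 else 0) ≠ 0
    rw [hone p hp, hone q hq, if_pos ⟨0, rfl⟩, if_neg (fun ⟨i, hi⟩ => hpq 0 i hi.symm)]
    norm_num
  · rw [Finset.one_lt_card]
    exact ⟨p 1, mem_filter.2 ⟨mem_univ _, hpm⟩, q 0, mem_filter.2 ⟨mem_univ _, hqm⟩, hpq 1 0⟩
  · rw [← Finset.card_univ]
    refine Finset.card_lt_card ?_
    rw [Finset.ssubset_univ_iff]
    intro h
    have h3 : p 0 ∈ B := by
      rw [h]
      exact mem_univ _
    exact hpn (mem_filter.1 h3).2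
  · intro g
    obtain ⟨x', hx'⟩ := hG g (a 1)
    rw [← hsum x', ← Equiv.sum_comp (MulAction.toPerm g), Finset.sum_filter]
    refine Finset.sum_congr rfl fun e _ => ?_
    exact if_congr (hx' e) rfl rfl

end

end SpreadPerm.NS
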