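import Mathlib
import Pool.Agent.Lib.MP_e6ed9e_al.Polar.Witt88
import Pool.Agent.Lib.MP_e6ed9e_al.Polar.Glue88

/-!
# Nonsingular points, quadratic forms, Grassmannians: definitions and statements of the modules
of the room NS
-/

namespace SpreadPerm.NS

open Module Finset
open scoped Classical

noncomputable section

/-! ## Forms -/

section
variable {K V W : Type} [Field K] [AddCommGroup V] [Module K V] [AddCommGroup W] [Module K W]

/-- `P` is a quadratic form `Q` with its polar form `f`. -/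
structure IsQuad (P : PForm K V) : Prop where
  s_id : ∀ a, P.s a = a
  eps1 : P.eps = 1
  T_id : ∀ t, P.T t = t

/-- `P` is a hermitian form. -/
structure IsHerm (P : PForm K V) : Prop where
  s_ne : ∃ a, P.s a ≠ a
  eps1 : P.eps = 1
  T_eq : ∀ t, P.T t = t + P.s t
  Q_eq : ∀ x, P.Q x = P.f x x

/-- The form `f` is nondegenerate. -/
def ND (P : PForm K V) : Prop := ∀ x, (∀ y, P.f x y = 0) → x = 0

/-- The value of `x` is in the class of `c`. -/
def Cls (P : PForm K V) (c : K) (x : V) : Prop := ∃ a : K, a ≠ 0 ∧ P.Q x = c * (a * P.s a)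

/-- A function on the vectors, constant on the points of the projective space, supported on the
class of `c`, with values at least `-1`, not zero, with sum zero on `x^⊥` for all singular `x`
(also for `x = 0`). -/
structure Good [Fintype V] (P : PForm K V) (c : K) (v : V → ℤ) : Prop where
  smul : ∀ (a : K) (x : V), a ≠ 0 → v (a • x) = v x
  cls : ∀ x, v x ≠ 0 → Cls P c x
  ge : ∀ x, -1 ≤ v x
  ne : ∃ x, v x ≠ 0
  sum : ∀ x, P.Q x = 0 → ∑ y ∈ univ.filter (fun y => P.f x y = 0), v y = 0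

/-- `P'` and `P` are isometric by `φ`. -/
structure Isom (P' : PForm K W) (P : PForm K V) (φ : W ≃ₗ[K] V) : Prop where
  s_eq : ∀ a, P'.s a = P.s a
  eps_eq : P'.eps = P.eps
  T_eq : ∀ t, P'.T t = P.T t
  f_eq : ∀ x y, P.f (φ x) (φ y) = P'.f x y
  Q_eq : ∀ x, P.Q (φ x) = P'.Q x

/-- The space `V` is a hyperbolic plane plus `W`: coordinates `(u, w, z)`. -/
structure HypSum (P : PForm K V) (P' : PForm K W) (φ : (K × K × W) ≃ₗ[K] V) : Prop where
  s_eq : ∀ a, P'.s a = P.s a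
  eps_eq : P'.eps = P.eps
  T_eq : ∀ t, P'.T t = P.T t
  f_eq : ∀ x y, P.f (φ x) (φ y) =
    x.1 * P.s y.2.1 + P.eps * (x.2.1 * P.s y.1) + P'.f x.2.2 y.2.2
  Q_eq : ∀ x, P.Q (φ x) = P.T (x.1 * P.s x.2.1) + P'.Q x.2.2

end

/-! ## Rows -/

/-- LIFT -/
def StLift : Prop := ∀ (K V W : Type) [Field K] [AddCommGroup V] [Module K V] [AddCommGroup W]
  [Module K W] [Fintype K] [Fintype V] [Fintype W] (P : PForm K V) (P' : PForm K W)
  (φ : (K × K × W) ≃ₗ[K] V), P.eps = 1 → HypSum P P' φ → ∀ c v, Good P' c v →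
  ∃ v', Good P c v'

/-- SPLIT: a nondegenerate space with a singular vector. -/
def StSplit : Prop := ∀ (K V : Type) [Field K] [AddCommGroup V] [Module K V] [Finite V]
  (P : PForm K V), (IsQuad P ∨ IsHerm P) → ND P → ∀ e : V, e ≠ 0 → P.Q e = 0 →
  ∃ (W : Submodule K V) (P' : PForm K W) (φ : (K × K × W) ≃ₗ[K] V), HypSum P P' φ ∧
    (IsQuad P → IsQuad P') ∧ (IsHerm P → IsHerm P') ∧ ND P' ∧ φ (1, 0, 0) = e ∧
    finrank K V = finrank K W + 2

/-- SING: singular vectors exist. -/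
def StSing : Prop := ∀ (K V : Type) [Field K] [Finite K] [AddCommGroup V] [Module K V] [Finite V]
  (P : PForm K V), (IsQuad P ∧ 3 ≤ finrank K V) ∨ (IsHerm P ∧ 2 ≤ finrank K V) →
  ∃ e : V, e ≠ 0 ∧ P.Q e = 0

/-- UNIV: a nondegenerate space of dimension at least two represents all values. -/
def StUniv : Prop := ∀ (K V : Type) [Field K] [Finite K] [AddCommGroup V] [Module K V] [Finite V]
  (P : PForm K V), (IsQuad P ∨ IsHerm P) → ND P → 2 ≤ finrank K V →
  ∀ c : K, c ≠ 0 → P.s c = c → ∃ x : V, x ≠ 0 ∧ P.Q x = c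

/-- LINE: dimension two. The hyperbolic quadratic line needs at least four elements. -/
def StLine : Prop := ∀ (K V : Type) [Field K] [Fintype K] [AddCommGroup V] [Module K V]
  [Fintype V] (P : PForm K V), ND P → finrank K V = 2 →
  (IsQuad P ∧ ((∀ x, P.Q x = 0 → x = 0) ∨ 4 ≤ Fintype.card K)) ∨ IsHerm P →
  ∀ c : K, c ≠ 0 → P.s c = c → ∃ v, Good P c v

/-- CONIC: `Q = u w + d t ^ 2`, odd characteristic. -/
def StConic : Prop := ∀ (K : Type) [Field K] [Fintype K] (P : PForm K (K × K × K)) (d : K),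
  IsQuad P → (2 : K) ≠ 0 → d ≠ 0 → (∀ x, P.Q x = x.1 * x.2.1 + d * x.2.2 ^ 2) →
  (∀ x y, P.f x y = x.1 * y.2.1 + x.2.1 * y.1 + 2 * d * (x.2.2 * y.2.2)) →
  ∀ c : K, c ≠ 0 → ∃ v, Good P c v

/-- HERM3: three coordinates. -/
def StHerm3 : Prop := ∀ (K : Type) [Field K] [Fintype K] (P : PForm K (K × K × K)) (d : K),
  IsHerm P → d ≠ 0 → P.s d = d →
  (∀ x y, P.f x y = x.1 * P.s y.2.1 + x.2.1 * P.s y.1 + d * (x.2.2 * P.s y.2.2)) →
  ∀ c : K, c ≠ 0 → P.s c = c → ∃ v, Good P c v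

/-- FOUR: the hyperbolic quadric in four coordinates over the fields with two and three elements. -/
def StFour : Prop := ∀ (K : Type) [Field K] [Fintype K] (P : PForm K (K × K × K × K)),
  IsQuad P → Fintype.card K ≤ 3 →
  (∀ x, P.Q x = x.1 * x.2.1 + x.2.2.1 * x.2.2.2) →
  (∀ x y, P.f x y = x.1 * y.2.1 + x.2.1 * y.1 + (x.2.2.1 * y.2.2.2 + x.2.2.2 * y.2.2.1)) →
  ∀ c : K, c ≠ 0 → ∃ v, Good P c v

/-- ALL (assembly) -/
def StAll : Prop := ∀ (K V : Type) [Field K] [Fintype K] [AddCommGroup V] [Module K V]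
  [Fintype V] (P : PForm K V), (IsQuad P ∨ IsHerm P) → ND P → 4 ≤ finrank K V →
  ∀ c : K, c ≠ 0 → P.s c = c → ∃ v, Good P c v

/-- The points with values in `C`. -/
def Pt {K V : Type} [Field K] [AddCommGroup V] [Module K V] (P : PForm K V) (C : Set K) : Type :=
  {p : Projectivization K V // P.Q p.rep ∈ C}

instance {K V : Type} [Field K] [AddCommGroup V] [Module K V] (P : PForm K V) (C : Set K)
    [Finite V] : Fintype (Pt P C) :=
  @Fintype.ofFinite _ (Subtype.finite)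

/-- POINTS -/
def StPoints : Prop := ∀ (K V : Type) [Field K] [Finite K] [AddCommGroup V] [Module K V]
  [Finite V] (P : PForm K V), (IsQuad P ∨ IsHerm P) → ND P → 4 ≤ finrank K V →
  ∀ C : Set K, (∀ t ∈ C, t ≠ 0) → (∀ t ∈ C, ∀ a : K, a ≠ 0 → t * (a * P.s a) ∈ C) →
  ∀ (G : Type) [Group G] [MulAction G (Pt P C)] [MulAction.IsPretransitive G (Pt P C)],
  Nonempty (Pt P C) →
  (∀ (g : G) (x : V), x ≠ 0 → P.Q x = 0 → ∃ x' : V, P.Q x' = 0 ∧
    ∀ p : Pt P C, P.f x p.1.rep = 0 ↔ P.f x' (g • p).1.rep = 0) →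
  NonSpreading G (Pt P C)

/-! ## Quadratic forms with a given polar form, characteristic two -/

/-- The quadratic forms with polar form `B`. -/
def Forms {K V : Type} [Field K] [AddCommGroup V] [Module K V] (B : V →ₗ[K] V →ₗ[K] K)
    (S : Set (QuadraticForm K V)) : Type :=
  {Q : QuadraticForm K V // (∀ x y, QuadraticMap.polar Q x y = B x y) ∧ Q ∈ S}

/-- FORMS: at least four elements, characteristic two, the symplectic group on a set `S` of
quadratic forms (closed under isometries) with polar form `B`. -/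
def StForms : Prop := ∀ (K V : Type) [Field K] [Fintype K] [AddCommGroup V] [Module K V]
  [Finite V] (B : V →ₗ[K] V →ₗ[K] K), (2 : K) = 0 → 4 ≤ Fintype.card K →
  (∀ x, B x x = 0) → (∀ x, (∀ y, B x y = 0) → x = 0) → 4 ≤ finrank K V →
  ∀ S : Set (QuadraticForm K V),
  (∀ Q ∈ S, ∀ g : V ≃ₗ[K] V, (∀ x y, B (g x) (g y) = B x y) → Q.comp g.toLinearMap ∈ S) →
  ∀ [Fintype (Forms B S)] (G : Type) [Group G] [MulAction G (Forms B S)]
  [MulAction.IsPretransitive G (Forms B S)], Nonempty (Forms B S) →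
  (∀ (g : G) (x : V), x ≠ 0 → ∃ x' : V, ∀ Q : Forms B S, Q.1 x = 0 ↔ (g • Q).1 x' = 0) →
  NonSpreading G (Forms B S)

/-! ## Subspaces -/

/-- The subspaces of dimension `k`. -/
def Gr (K V : Type) [Field K] [AddCommGroup V] [Module K V] (k : ℕ) : Type :=
  {W : Submodule K V // finrank K W = k}

/-- GRASS -/
def StGrass : Prop := ∀ (K V : Type) [Field K] [Finite K] [AddCommGroup V] [Module K V]
  [Finite V] (k : ℕ), 2 ≤ k → k + 2 ≤ finrank K V →
  ∀ [Fintype (Gr K V k)] (G : Type) [Group G] [MulAction G (Gr K V k)]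
  [MulAction.IsPretransitive G (Gr K V k)],
  (∀ (g : G) (x : V), x ≠ 0 → ∃ x' : V, ∀ W : Gr K V k, x ∈ W.1 ↔ x' ∈ (g • W).1) →
  NonSpreading G (Gr K V k)

end

end SpreadPerm.NS
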