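import Mathlib
import Pool.Agent.Lib.MP_e6ed9e_al.NS.Defs

/-! # Row FOUR: the hyperbolic quadric in four coordinates over the fields with 2 and 3 elements -/

namespace SpreadPerm.NS

open Module Finset

/-- the quadratic form in four coordinates -/
def q30 {p : ℕ} (x : ZMod p × ZMod p × ZMod p × ZMod p) : ZMod p := x.1 * x.2.1 + x.2.2.1 * x.2.2.2

/-- its polar form -/
def f30 {p : ℕ} (x y : ZMod p × ZMod p × ZMod p × ZMod p) : ZMod p :=
  x.1 * y.2.1 + x.2.1 * y.1 + (x.2.2.1 * y.2.2.2 + x.2.2.2 * y.2.2.1)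

/-- the vector for two elements -/
def v2_30 (_ : ZMod 2) (y : ZMod 2 × ZMod 2 × ZMod 2 × ZMod 2) : ℤ :=
  if y.1 * y.2.1 + y.2.2.1 * y.2.2.2 = 1 then
    if y.1 + y.2.1 = 1 ∨ (y.2.2.1 = 0 ∧ y.2.2.2 = 0) then 1 else -1
  else 0

/-- the vector for three elements -/
def v3_30 (c : ZMod 3) (y : ZMod 3 × ZMod 3 × ZMod 3 × ZMod 3) : ℤ :=
  if c * y.1 * y.2.1 + c * y.2.2.1 * y.2.2.2 = 1 then
    if c * y.1 + y.2.1 = 0 ∨ (y.2.2.1 = 0 ∧ y.2.2.2 = 0) then 1 else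
      if c * y.1 + y.2.1 - y.2.2.2 = 0 ∨
        (y.1 + y.2.2.1 = 0 ∧ y.2.2.2 = 0 ∧ c * y.1 = y.2.1) then -1 else 0
  else 0

set_option maxRecDepth 100000 in
theorem sum2_30 : ∀ (c : ZMod 2) (x : ZMod 2 × ZMod 2 × ZMod 2 × ZMod 2), q30 x = 0 →
    ∑ y, (if f30 x y = 0 then v2_30 c y else 0) = 0 := by
  decide +kernel

set_option maxRecDepth 100000 in
theorem sum3_30 : ∀ (c : ZMod 3), c ≠ 0 → ∀ (x : ZMod 3 × ZMod 3 × ZMod 3 × ZMod 3), q30 x = 0 →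
    ∑ y, (if f30 x y = 0 then v3_30 c y else 0) = 0 := by
  decide +kernel

theorem smul2_30 : ∀ (a : ZMod 2) (x : ZMod 2 × ZMod 2 × ZMod 2 × ZMod 2), a ≠ 0 →
    v2_30 1 (a * x.1, a * x.2.1, a * x.2.2.1, a * x.2.2.2) = v2_30 1 x := by
  decide +kernel

theorem cls2_30 : ∀ (x : ZMod 2 × ZMod 2 × ZMod 2 × ZMod 2), v2_30 1 x ≠ 0 → q30 x = 1 := by
  decide +kernel

theorem ge2_30 : ∀ (x : ZMod 2 × ZMod 2 × ZMod 2 × ZMod 2), -1 ≤ v2_30 1 x := by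
  decide +kernel

theorem ne2_30 : ∃ (x : ZMod 2 × ZMod 2 × ZMod 2 × ZMod 2), v2_30 1 x ≠ 0 := by
  decide +kernel

theorem one2_30 : ∀ t : ZMod 2, t ≠ 0 → t = 1 := by
  decide +kernel

theorem smul3_30 : ∀ (t : ZMod 3), t ≠ 0 → ∀ (a : ZMod 3)
    (x : ZMod 3 × ZMod 3 × ZMod 3 × ZMod 3), a ≠ 0 →
    v3_30 t (a * x.1, a * x.2.1, a * x.2.2.1, a * x.2.2.2) = v3_30 t x := by
  decide +kernel

theorem cls3_30 : ∀ (t : ZMod 3), t ≠ 0 → ∀ (x : ZMod 3 × ZMod 3 × ZMod 3 × ZMod 3),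
    v3_30 t x ≠ 0 → q30 x = t := by
  decide +kernel

theorem ge3_30 : ∀ (t : ZMod 3) (x : ZMod 3 × ZMod 3 × ZMod 3 × ZMod 3), -1 ≤ v3_30 t x := by
  decide +kernel

theorem ne3_30 : ∀ (t : ZMod 3), t ≠ 0 → ∃ (x : ZMod 3 × ZMod 3 × ZMod 3 × ZMod 3),
    v3_30 t x ≠ 0 := by
  decide +kernel

theorem four_of30 {K : Type} [Field K] [Fintype K] (p : ℕ) [Fact p.Prime] (e : K ≃+* ZMod p)
    (P : PForm K (K × K × K × K)) (hQ : ∀ x, P.Q x = x.1 * x.2.1 + x.2.2.1 * x.2.2.2)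
    (hf : ∀ x y, P.f x y =
      x.1 * y.2.1 + x.2.1 * y.1 + (x.2.2.1 * y.2.2.2 + x.2.2.2 * y.2.2.1)) (c : K)
    (v0 : ZMod p × ZMod p × ZMod p × ZMod p → ℤ)
    (h1 : ∀ (a : ZMod p) (x : ZMod p × ZMod p × ZMod p × ZMod p), a ≠ 0 →
      v0 (a * x.1, a * x.2.1, a * x.2.2.1, a * x.2.2.2) = v0 x)
    (h2 : ∀ x, v0 x ≠ 0 → q30 x = e c) (h3 : ∀ x, -1 ≤ v0 x) (h4 : ∃ x, v0 x ≠ 0)
    (h5 : ∀ x, q30 x = 0 → ∑ y, (if f30 x y = 0 then v0 y else 0) = 0) :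
    ∃ v, Good P c v := by
  classical
  let E : (K × K × K × K) ≃ (ZMod p × ZMod p × ZMod p × ZMod p) :=
    e.toEquiv.prodCongr (e.toEquiv.prodCongr (e.toEquiv.prodCongr e.toEquiv))
  have hE : ∀ y, E y = (e y.1, e y.2.1, e y.2.2.1, e y.2.2.2) := fun y => rfl
  have hQE : ∀ x, q30 (E x) = e (P.Q x) := by
    intro x
    rw [hQ, hE]
    simp [q30]
  have hfE : ∀ x y, f30 (E x) (E y) = e (P.f x y) := by
    intro x y
    rw [hf, hE, hE]
    simp [f30]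
  have he0 : ∀ t : K, e t = 0 ↔ t = 0 := fun t => by
    constructor
    · intro h; exact e.injective (by rw [h, map_zero])
    · rintro rfl; exact map_zero e
  refine ⟨fun y => v0 (E y), ?_, ?_, ?_, ?_, ?_⟩
  · intro a x ha
    have : E (a • x) = (e a * (E x).1, e a * (E x).2.1, e a * (E x).2.2.1, e a * (E x).2.2.2) := by
      rw [hE, hE]
      simp
    show v0 (E (a • x)) = v0 (E x)
    rw [this]
    exact h1 (e a) (E x) (fun h => ha ((he0 a).1 h))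
  · intro x hx
    refine ⟨1, one_ne_zero, ?_⟩
    rw [map_one, mul_one, mul_one]
    have := h2 (E x) hx
    rw [hQE] at this
    exact e.injective this
  · intro x; exact h3 _
  · obtain ⟨x, hx⟩ := h4
    exact ⟨E.symm x, by simpa using hx⟩
  · intro x hx
    have h := h5 (E x) (by rw [hQE, hx, map_zero])
    rw [← h, Finset.sum_filter]
    refine Fintype.sum_equiv E _ _ (fun y => ?_)
    have h6 : (P.f x y = 0) ↔ (f30 (E x) (E y) = 0) := by rw [hfE, he0]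
    by_cases h7 : P.f x y = 0
    · rw [if_pos h7, if_pos (h6.1 h7)]
    · rw [if_neg h7, if_neg (fun h8 => h7 (h6.2 h8))]

/-- FOUR -/
theorem stFour30 : StFour := by
  intro K _ _ P hP hcard hQ hf c hc
  have h2 : 1 < Fintype.card K := Fintype.one_lt_card
  have h23 : Fintype.card K = 2 ∨ Fintype.card K = 3 := by omega
  rcases h23 with h | h
  · have : Fact (Nat.Prime 2) := ⟨Nat.prime_two⟩
    let e : K ≃+* ZMod 2 := (ZMod.ringEquivOfPrime K Nat.prime_two h).symm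
    have hec : e c = 1 := one2_30 _ (fun h => hc (e.injective (by rw [h, map_zero])))
    exact four_of30 2 e P hQ hf c (v2_30 1) smul2_30 (by rw [hec]; exact cls2_30) ge2_30 ne2_30
      (sum2_30 1)
  · have : Fact (Nat.Prime 3) := ⟨Nat.prime_three⟩
    let e : K ≃+* ZMod 3 := (ZMod.ringEquivOfPrime K Nat.prime_three h).symm
    have hec : e c ≠ 0 := fun h => hc (e.injective (by rw [h, map_zero]))
    exact four_of30 3 e P hQ hf c (v3_30 (e c)) (smul3_30 _ hec) (cls3_30 _ hec) (ge3_30 _)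
      (ne3_30 _ hec) (sum3_30 (e c) hec)

end SpreadPerm.NS
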