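import Mathlib
import Pool.Agent.Lib.MP_e6ed9e_al.NS.Basic47
import Pool.Agent.Lib.MP_e6ed9e_al.Polar.EmbH88

/-! # Room NS, row HERM3 (helper34) -/

namespace SpreadPerm.NS

open Module Finset
open scoped Classical

noncomputable section

namespace Herm34

variable {K : Type} [Field K]

/-- the base point -/
def u0 (K : Type) [Field K] : K × K × K := (1, 0, 1)

/-- the indicator function of `u0` together with the nonisotropic points of `u0^⊥` -/
def A (P : PForm K (K × K × K)) (y : K × K × K) : ℤ :=
  if P.Q y ≠ 0 ∧ ((∃ t : K, t ≠ 0 ∧ y = t • u0 K) ∨ P.f y (u0 K) = 0) then 1 else 0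

/-- the isometry -/
def g (s : K →+* K) (m : K) (hm : m ≠ 0) : (K × K × K) ≃ (K × K × K) where
  toFun y := (m * y.1, (s m)⁻¹ * y.2.1, y.2.2)
  invFun y := (m⁻¹ * y.1, s m * y.2.1, y.2.2)
  left_inv y := by
    have h : s m ≠ 0 := fun h => hm ((map_eq_zero s).1 h)
    ext <;> simp [hm, h]
  right_inv y := by
    have h : s m ≠ 0 := fun h => hm ((map_eq_zero s).1 h)
    ext <;> simp [hm, h]

end Herm34

open Herm34 in
theorem stHerm3_34 : StHerm3 := by
  intro K _ _ P d hP hd hsd hf c hc hsc
  have hss := P.s_s
  have hQ : ∀ x, P.Q x = x.1 * P.s x.2.1 + x.2.1 * P.s x.1 + d * (x.2.2 * P.s x.2.2) := by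
    intro x
    rw [hP.Q_eq, hf]
  have hs0 : ∀ a, P.s a = 0 → a = 0 := fun a h => (map_eq_zero P.s).1 h
  have hfix : ∀ x, P.s (P.Q x) = P.Q x := by
    intro x
    rw [hP.Q_eq]
    have := P.f_symm x x
    rw [hP.eps1, one_mul] at this
    exact this.symm
  obtain ⟨m, hm⟩ := hP.s_ne
  have hm0 : m ≠ 0 := by
    rintro rfl
    exact hm (map_zero _)
  have hm1 : m ≠ 1 := by
    rintro rfl
    exact hm (map_one _)
  have hfu : ∀ y, P.f y (u0 K) = y.2.1 + d * y.2.2 := by
    intro y
    rw [hf]
    simp [u0]
  have hxu : ∀ x : K × K × K, P.f x (u0 K) = 0 ↔ P.f (u0 K) x = 0 := fun x =>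
    ⟨P.f_comm_zero, P.f_comm_zero⟩
  have hQu : P.Q (u0 K) = d := by
    rw [hQ]
    simp [u0]
  -- the key lemma
  have key : ∀ x, x ≠ 0 → P.Q x = 0 →
      ∑ y ∈ univ.filter (fun y => P.f x y = 0), A P y = (Fintype.card K : ℤ) - 1 := by
    intro x hx0 hx
    -- it is enough to find a generator
    have gen : ∀ a : K × K × K, a ≠ 0 → P.f x a = 0 →
        (∀ y, P.f x y = 0 → (A P y = ind K a y)) →
        ∑ y ∈ univ.filter (fun y => P.f x y = 0), A P y = (Fintype.card K : ℤ) - 1 := by
      intro a ha hxa hA
      rw [← sum_ind ha, Finset.sum_filter]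
      refine Finset.sum_congr rfl (fun y _ => ?_)
      by_cases h : P.f x y = 0
      · rw [if_pos h, hA y h]
      · rw [if_neg h]
        unfold ind
        rw [if_neg]
        rintro ⟨t, _, rfl⟩
        apply h
        rw [P.f_smul_right, hxa, mul_zero]
    obtain ⟨x1, x2, x3⟩ := x
    have hx' : x1 * P.s x2 + x2 * P.s x1 + d * (x3 * P.s x3) = 0 := by
      rw [← hx, hQ]
    by_cases hxu0 : P.f (x1, x2, x3) (u0 K) = 0
    · -- the point u0
      refine gen (u0 K) ?_ hxu0 ?_
      · intro h
        rw [h, P.Q_zero] at hQu
        exact hd hQu.symm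
      · rintro ⟨y1, y2, y3⟩ hy
        unfold A ind
        congr 1
        rw [eq_iff_iff]
        constructor
        · rintro ⟨h1, h2 | h2⟩
          · exact h2
          · exfalso
            apply h1
            rw [hfu] at h2 hxu0
            rw [hf] at hy
            rw [hQ]
            simp only at h2 hxu0 hy ⊢
            have ex2 : x2 = -(d * x3) := by linear_combination hxu0
            have ey2 : y2 = -(d * y3) := by linear_combination h2
            subst ex2
            subst ey2
            simp only [map_neg, map_mul, hsd] at hy hx' ⊢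
            by_cases hx3 : x3 = 0
            · subst hx3
              have hx1 : x1 ≠ 0 := by
                rintro rfl
                apply hx0
                simp
              have : P.s y3 = 0 := by
                have h5 : x1 * d * P.s y3 = 0 := by linear_combination -hy
                rcases mul_eq_zero.1 h5 with h6 | h6
                · rcases mul_eq_zero.1 h6 with h7 | h7
                  · exact absurd h7 hx1
                  · exact absurd h7 hd
                · exact h6
              have hy3 := hs0 _ this
              subst hy3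
              simp
            · -- y = tau x
              have h5 : P.s (y1 - y3 / x3 * x1) = 0 := by
                have hsx3 : P.s x3 ≠ 0 := fun h => hx3 (hs0 _ h)
                have h6 : d * x3 * P.s (y1 - y3 / x3 * x1) = 0 := by
                  rw [map_sub, map_mul, map_div₀]
                  field_simp
                  linear_combination (-(P.s x3)) * hy + (P.s y3) * hx'
                rcases mul_eq_zero.1 h6 with h7 | h7
                · rcases mul_eq_zero.1 h7 with h8 | h8
                  · exact absurd h8 hd
                  · exact absurd h8 hx3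
                · exact h7
              have h6 := hs0 _ h5
              have h7 : y1 = y3 / x3 * x1 := by linear_combination h6
              have h8 : y3 = y3 / x3 * x3 := by field_simp
              generalize y3 / x3 = τ at h7 h8
              subst h7
              subst h8
              simp only [map_mul]
              linear_combination (τ * P.s τ) * hx'
        · rintro ⟨t, ht, h⟩
          refine ⟨?_, Or.inl ⟨t, ht, h⟩⟩
          rw [h, P.Q_smul, hQu]
          exact mul_ne_zero (mul_ne_zero ht (fun h' => ht (hs0 _ h'))) hd
    · have hne : x2 + d * x3 ≠ 0 := by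
        intro h
        apply hxu0
        rw [hfu]
        exact h
      have hne' : P.s x2 + d * P.s x3 ≠ 0 := by
        intro h
        apply hne
        apply hs0
        rw [map_add, map_mul, hsd]
        exact h
      have hQa : P.Q (d * (P.s x1 - P.s x3), -(d * P.s x2), P.s x2) ≠ 0 := by
        have : P.Q (d * (P.s x1 - P.s x3), -(d * P.s x2), P.s x2) =
            d * ((x2 + d * x3) * (P.s x2 + d * P.s x3)) := by
          rw [hQ]
          simp only [map_neg, map_mul, map_sub, hsd, hss]
          linear_combination (-(d ^ 2)) * hx'
        rw [this]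
        exact mul_ne_zero hd (mul_ne_zero hne hne')
      refine gen (d * (P.s x1 - P.s x3), -(d * P.s x2), P.s x2) ?_ ?_ ?_
      · intro h
        apply hQa
        rw [h, P.Q_zero]
      · rw [hf]
        simp only [map_neg, map_mul, map_sub, hsd, hss]
        ring
      · rintro ⟨y1, y2, y3⟩ hy
        unfold A ind
        congr 1
        rw [eq_iff_iff]
        constructor
        · rintro ⟨h1, h2 | h2⟩
          · exfalso
            obtain ⟨t, ht, h⟩ := h2
            rw [h, P.f_smul_right] at hy
            rcases mul_eq_zero.1 hy with h3 | h3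
            · exact ht (hs0 _ h3)
            · exact hxu0 h3
          · rw [hfu] at h2
            rw [hf] at hy
            simp only at h2 hy
            have ey2 : y2 = -(d * y3) := by linear_combination h2
            subst ey2
            simp only [map_neg, map_mul, hsd] at hy
            -- x2 s(y1) + d (x3 - x1) s(y3) = 0
            have hy' : x2 * P.s y1 + d * (x3 - x1) * P.s y3 = 0 := by linear_combination hy
            have hyy : P.s x2 * y1 + d * (P.s x3 - P.s x1) * y3 = 0 := by
              have := congrArg P.s hy'
              simp only [map_add, map_mul, map_sub, hsd, hss, map_zero] at this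
              exact this
            have hy0 : (y1, -(d * y3), y3) ≠ (0 : K × K × K) := by
              intro h
              apply h1
              rw [h, P.Q_zero]
            by_cases hx2 : P.s x2 = 0
            · have hx2' := hs0 _ hx2
              subst hx2'
              have hx3 : x3 ≠ 0 := by
                rintro rfl
                apply hne
                ring
              exfalso
              have h5 : d * (x3 * P.s x3) = 0 := by
                simp only [map_zero, mul_zero, zero_mul, zero_add] at hx'
                exact hx'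
              exact mul_ne_zero hd (mul_ne_zero hx3 (fun h' => hx3 (hs0 _ h'))) h5
            · refine ⟨y3 / P.s x2, ?_, ?_⟩
              · intro h
                have h6 : y3 = 0 := by
                  rcases div_eq_zero_iff.1 h with h7 | h7
                  · exact h7
                  · exact absurd h7 hx2
                subst h6
                apply hy0
                have : y1 = 0 := by
                  have h8 : P.s x2 * y1 = 0 := by linear_combination hyy
                  rcases mul_eq_zero.1 h8 with h9 | h9
                  · exact absurd h9 hx2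
                  · exact h9
                rw [this]
                simp
              · ext
                · simp only [Prod.smul_mk, smul_eq_mul]
                  field_simp
                  linear_combination hyy
                · simp only [Prod.smul_mk, smul_eq_mul]
                  field_simp
                · simp only [Prod.smul_mk, smul_eq_mul]
                  field_simp
        · rintro ⟨t, ht, h⟩
          rw [h]
          refine ⟨?_, Or.inr ?_⟩
          · rw [P.Q_smul]
            exact mul_ne_zero (mul_ne_zero ht (fun h' => ht (hs0 _ h'))) hQa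
          · rw [P.f_smul_left, hfu]
            ring
  -- the isometry
  have hsm : P.s m ≠ 0 := fun h => hm0 (hs0 _ h)
  have hgf : ∀ x y, P.f (g P.s m hm0 x) (g P.s m hm0 y) = P.f x y := by
    intro x y
    rw [hf, hf]
    simp only [g, Equiv.coe_fn_mk, map_mul, map_inv₀, hss]
    field_simp
  have hgQ : ∀ x, P.Q (g P.s m hm0 x) = P.Q x := by
    intro x
    rw [hP.Q_eq, hP.Q_eq, hgf]
  have hg0 : g P.s m hm0 0 = 0 := by
    ext <;> simp [g]
  have hgs : ∀ (t : K) (y : K × K × K), g P.s m hm0 (t • y) = t • g P.s m hm0 y := by
    intro t y
    ext <;> simp [g] <;> ring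
  have hAs : ∀ (t : K) (y : K × K × K), t ≠ 0 → A P (t • y) = A P y := by
    intro t y ht
    have hst : P.s t ≠ 0 := fun h => ht (hs0 _ h)
    unfold A
    congr 1
    rw [eq_iff_iff, P.Q_smul, P.f_smul_left]
    constructor
    · rintro ⟨h1, h2⟩
      refine ⟨fun h => h1 (by rw [h, mul_zero]), ?_⟩
      rcases h2 with ⟨r, hr, h2⟩ | h2
      · left
        exact ⟨t⁻¹ * r, mul_ne_zero (inv_ne_zero ht) hr, by rw [mul_smul, ← h2, inv_smul_smul₀ ht]⟩
      · right
        rcases mul_eq_zero.1 h2 with h3 | h3
        · exact absurd h3 ht
        · exact h3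
    · rintro ⟨h1, h2⟩
      refine ⟨mul_ne_zero (mul_ne_zero ht hst) h1, ?_⟩
      rcases h2 with ⟨r, hr, h2⟩ | h2
      · left
        exact ⟨t * r, mul_ne_zero ht hr, by rw [mul_smul, h2]⟩
      · right
        rw [h2, mul_zero]
  have hA0 : ∀ y, A P y = 0 ∨ A P y = 1 := by
    intro y
    unfold A
    split_ifs
    · right; rfl
    · left; rfl
  have hAQ : ∀ y, A P y ≠ 0 → P.Q y ≠ 0 := by
    intro y h
    unfold A at h
    by_contra hc'
    apply h
    rw [if_neg]
    rintro ⟨h1, -⟩
    exact h1 hc'
  refine ⟨fun y => A P y - A P (g P.s m hm0 y), ?_, ?_, ?_, ?_, ?_⟩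
  · intro t y ht
    show A P (t • y) - A P (g P.s m hm0 (t • y)) = A P y - A P (g P.s m hm0 y)
    rw [hAs t y ht, hgs, hAs t _ ht]
  · intro y hy
    have hQy : P.Q y ≠ 0 := by
      by_cases h : A P y = 0
      · rw [← hgQ]
        apply hAQ
        intro h'
        apply hy
        show A P y - A P (g P.s m hm0 y) = 0
        rw [h, h', sub_zero]
      · exact hAQ y h
    have hfixc : P.s (P.Q y / c) = P.Q y / c := by
      rw [map_div₀, hfix, hsc]
    obtain ⟨a, ha⟩ := Pool.Agent.Lib.MP_e6ed9e_al.Polar.nrm_surj P.s hss hP.s_ne (P.Q y / c) hfixc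
    have e : P.Q y = c * (a * P.s a) := by
      rw [ha]
      field_simp
    refine ⟨a, ?_, e⟩
    rintro rfl
    apply hQy
    rw [e]
    ring
  · intro y
    show -1 ≤ A P y - A P (g P.s m hm0 y)
    rcases hA0 y with h | h <;> rcases hA0 (g P.s m hm0 y) with h' | h' <;> rw [h, h'] <;> norm_num
  · refine ⟨u0 K, ?_⟩
    show A P (u0 K) - A P (g P.s m hm0 (u0 K)) ≠ 0
    have h1 : A P (u0 K) = 1 := by
      unfold A
      rw [if_pos]
      exact ⟨by rw [hQu]; exact hd, Or.inl ⟨1, one_ne_zero, (one_smul K _).symm⟩⟩
    have h2 : A P (g P.s m hm0 (u0 K)) = 0 := by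
      unfold A
      rw [if_neg]
      rintro ⟨-, ⟨t, ht, h⟩ | h⟩
      · have e3 := congrArg (fun z : K × K × K => z.2.2) h
        have e1 := congrArg (fun z : K × K × K => z.1) h
        simp [g, u0] at e1 e3
        apply hm1
        rw [e1, ← e3]
      · rw [hfu] at h
        simp [g, u0] at h
        exact hd h
    rw [h1, h2]
    norm_num
  · intro x hx
    show ∑ y ∈ univ.filter (fun y => P.f x y = 0), (A P y - A P (g P.s m hm0 y)) = 0
    rw [Finset.sum_sub_distrib]
    have tr : ∑ y ∈ univ.filter (fun y => P.f x y = 0), A P (g P.s m hm0 y) =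
        ∑ y ∈ univ.filter (fun y => P.f (g P.s m hm0 x) y = 0), A P y := by
      rw [Finset.sum_filter, Finset.sum_filter]
      rw [← Equiv.sum_comp (g P.s m hm0)
        (fun y => if P.f (g P.s m hm0 x) y = 0 then A P y else 0)]
      refine Finset.sum_congr rfl (fun y _ => ?_)
      rw [hgf]
    rw [tr]
    by_cases hx0 : x = 0
    · subst hx0
      rw [hg0]
      ring
    · rw [key x hx0 hx, key (g P.s m hm0 x) ?_ ?_]
      · ring
      · intro h
        apply hx0
        apply (g P.s m hm0).injective
        rw [h, hg0]
      · rw [hgQ, hx]

end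

end SpreadPerm.NS
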