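import Mathlib
import Pool.Agent.Lib.MP_e6ed9e_al.NS.Defs

/-!
# LIFT: from `W` to a hyperbolic plane plus `W`
-/

namespace SpreadPerm.NS

open Module Finset
open scoped Classical

noncomputable section

section
variable {K V W : Type} [Field K] [AddCommGroup V] [Module K V] [AddCommGroup W]
  [Module K W] [Fintype K] [Fintype V] [Fintype W]

lemma lift_sum97 (P : PForm K V) (P' : PForm K W) (φ : (K × K × W) ≃ₗ[K] V)
    (heps : P.eps = 1) (hs : HypSum P P' φ) (v : W → ℤ) (x : K × K × W) :
    ∑ y ∈ univ.filter (fun y => P.f (φ x) y = 0),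
      (if (φ.symm y).2.1 = 0 then v (φ.symm y).2.2 else 0) =
    ∑ z : W, v z * ((univ.filter (fun u : K => x.2.1 * P.s u + P'.f x.2.2 z = 0)).card : ℤ) := by
  rw [Finset.sum_filter, ← Equiv.sum_comp φ.toEquiv]
  have h1 : ∀ p : K × K × W,
      (if P.f (φ x) (φ.toEquiv p) = 0 then
        (if (φ.symm (φ.toEquiv p)).2.1 = 0 then v (φ.symm (φ.toEquiv p)).2.2 else 0) else 0) =
      (if p.2.1 = 0 then (if x.2.1 * P.s p.1 + P'.f x.2.2 p.2.2 = 0 then v p.2.2 else 0)
        else 0) := by
    intro p
    have e1 : φ.toEquiv p = φ p := rfl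
    rw [e1, LinearEquiv.symm_apply_apply, hs.f_eq, heps]
    by_cases hw : p.2.1 = 0
    · rw [hw, map_zero, mul_zero, zero_add, one_mul]
      simp
    · simp [hw]
  rw [Finset.sum_congr rfl (fun p _ => h1 p), Fintype.sum_prod_type]
  have h2 : ∀ u : K, (∑ q : K × W, (if q.1 = 0 then
      (if x.2.1 * P.s u + P'.f x.2.2 q.2 = 0 then v q.2 else 0) else 0)) =
      ∑ z : W, (if x.2.1 * P.s u + P'.f x.2.2 z = 0 then v z else 0) := by
    intro u
    rw [Fintype.sum_prod_type]
    rw [Finset.sum_eq_single (0 : K)]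
    · simp
    · intro w _ hw
      simp [hw]
    · intro h; exact absurd (mem_univ _) h
  rw [Finset.sum_congr rfl (fun u _ => h2 u), Finset.sum_comm]
  refine Finset.sum_congr rfl fun z _ => ?_
  rw [← Finset.sum_filter, Finset.sum_const, nsmul_eq_mul, mul_comm]

end

/-- LIFT -/
theorem stLift97 : StLift := by
  intro K V W _ _ _ _ _ _ _ _ P P' φ heps hs c v hv
  refine ⟨fun y => if (φ.symm y).2.1 = 0 then v (φ.symm y).2.2 else 0, ?_, ?_, ?_, ?_, ?_⟩
  · intro a x ha
    have h1 : φ.symm (a • x) = a • φ.symm x := map_smul _ _ _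
    have h2 : (φ.symm (a • x)).2.1 = a * (φ.symm x).2.1 := by rw [h1]; rfl
    have h3 : (φ.symm (a • x)).2.2 = a • (φ.symm x).2.2 := by rw [h1]; rfl
    show (if (φ.symm (a • x)).2.1 = 0 then v (φ.symm (a • x)).2.2 else 0) =
      (if (φ.symm x).2.1 = 0 then v (φ.symm x).2.2 else 0)
    rw [h2, h3, hv.smul a _ ha]
    by_cases h : (φ.symm x).2.1 = 0
    · rw [if_pos h, if_pos (by rw [h, mul_zero])]
    · rw [if_neg h, if_neg (mul_ne_zero ha h)]
  · intro x hx
    have hx' : (if (φ.symm x).2.1 = 0 then v (φ.symm x).2.2 else 0) ≠ 0 := hx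
    have hw : (φ.symm x).2.1 = 0 := by
      by_contra h
      exact hx' (if_neg h)
    rw [if_pos hw] at hx'
    obtain ⟨a, ha, hQ⟩ := hv.cls _ hx'
    refine ⟨a, ha, ?_⟩
    have h1 := hs.Q_eq (φ.symm x)
    rw [LinearEquiv.apply_symm_apply, hw, map_zero, mul_zero, map_zero, zero_add, hQ,
      hs.s_eq] at h1
    exact h1
  · intro x
    show -1 ≤ (if (φ.symm x).2.1 = 0 then v (φ.symm x).2.2 else 0)
    split_ifs
    · exact hv.ge _
    · norm_num
  · obtain ⟨z, hz⟩ := hv.ne
    refine ⟨φ (0, 0, z), ?_⟩
    show (if (φ.symm (φ (0, 0, z))).2.1 = 0 then v (φ.symm (φ (0, 0, z))).2.2 else 0) ≠ 0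
    rw [LinearEquiv.symm_apply_apply]
    simpa using hz
  · intro y hy
    obtain ⟨x, rfl⟩ := φ.surjective y
    have h0 := lift_sum97 P P' φ heps hs v x
    refine h0.trans ?_
    by_cases hw : x.2.1 = 0
    · have hQ : P'.Q x.2.2 = 0 := by
        have h1 := hs.Q_eq x
        rw [hy, hw, map_zero, mul_zero, map_zero, zero_add] at h1
        exact h1.symm
      have h2 := hv.sum _ hQ
      rw [Finset.sum_filter] at h2
      have h3 : ∀ z : W, v z * ((univ.filter
          (fun u : K => x.2.1 * P.s u + P'.f x.2.2 z = 0)).card : ℤ) =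
          (Fintype.card K : ℤ) * (if P'.f x.2.2 z = 0 then v z else 0) := by
        intro z
        rw [hw]
        by_cases hz : P'.f x.2.2 z = 0
        · rw [if_pos hz, hz]
          simp [mul_comm]
        · rw [if_neg hz, mul_zero]
          have : univ.filter (fun u : K => (0 : K) * P.s u + P'.f x.2.2 z = 0) = ∅ := by
            apply Finset.filter_false_of_mem
            intro u _
            rw [zero_mul, zero_add]
            exact hz
          rw [this]
          simp
      rw [Finset.sum_congr rfl (fun z _ => h3 z), ← Finset.mul_sum, h2, mul_zero]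
    · have h2 := hv.sum 0 (PForm.Q_zero P')
      rw [Finset.sum_filter] at h2
      have h4 : ∀ z : W, (if P'.f 0 z = 0 then v z else 0) = v z :=
        fun z => if_pos (PForm.f_zero_left P' z)
      rw [Finset.sum_congr rfl (fun z _ => h4 z)] at h2
      have h3 : ∀ z : W, v z * ((univ.filter
          (fun u : K => x.2.1 * P.s u + P'.f x.2.2 z = 0)).card : ℤ) = v z := by
        intro z
        have h5 : univ.filter (fun u : K => x.2.1 * P.s u + P'.f x.2.2 z = 0) =
            {P.s (-(P'.f x.2.2 z) / x.2.1)} := by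
          ext u
          simp only [mem_filter, mem_univ, true_and, mem_singleton]
          constructor
          · intro h
            have h6 : P.s u = -(P'.f x.2.2 z) / x.2.1 := by
              rw [eq_div_iff hw]
              linear_combination h
            rw [← h6, P.s_s]
          · intro h
            rw [h, P.s_s, mul_div_cancel₀ _ hw]
            ring
        rw [h5]
        simp
      rw [Finset.sum_congr rfl (fun z _ => h3 z), h2]

end

end SpreadPerm.NS
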