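import Mathlib
import Pool.Agent.Lib.MP_e6ed9e_al.NS.Defs

/-!
# LINE: spaces of dimension two
-/

namespace SpreadPerm.NS

open Module Finset
open scoped Classical

noncomputable section

section
variable {K V : Type} [Field K] [AddCommGroup V] [Module K V]

lemma card_ray97 [Fintype K] [Fintype V] (a : V) (ha : a ≠ 0) :
    (univ.filter (fun y : V => ∃ t : K, t ≠ 0 ∧ y = t • a)).card =
      (univ.filter (fun t : K => t ≠ 0)).card := by
  symm
  refine Finset.card_bij (fun t _ => t • a) ?_ ?_ ?_
  · intro t ht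
    simp only [mem_filter, mem_univ, true_and] at ht ⊢
    exact ⟨t, ht, rfl⟩
  · intro t _ u _ h
    have h1 : (t - u) • a = 0 := by rw [sub_smul, sub_eq_zero]; exact h
    rcases smul_eq_zero.1 h1 with h2 | h2
    · exact sub_eq_zero.1 h2
    · exact absurd h2 ha
  · intro y hy
    simp only [mem_filter, mem_univ, true_and] at hy ⊢
    obtain ⟨t, ht, rfl⟩ := hy
    exact ⟨t, ht, rfl⟩

lemma cls_smul97 (P : PForm K V) (c : K) {x : V} (t : K) (ht : t ≠ 0) (h : Cls P c x) :
    Cls P c (t • x) := by
  obtain ⟨a, ha, hQ⟩ := h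
  refine ⟨t * a, mul_ne_zero ht ha, ?_⟩
  rw [P.Q_smul, hQ, map_mul]
  ring

/-- The two-point lemma. -/
lemma two_points97 [Fintype K] [Fintype V] (P : PForm K V) (c : K) (a1 a2 : V)
    (h1 : a1 ≠ 0) (h2 : a2 ≠ 0) (h12 : ∀ t : K, a1 ≠ t • a2)
    (hc1 : Cls P c a1) (hc2 : Cls P c a2)
    (hp1 : ∀ x, x ≠ 0 → P.Q x = 0 → P.f x a1 ≠ 0)
    (hp2 : ∀ x, x ≠ 0 → P.Q x = 0 → P.f x a2 ≠ 0) : ∃ v, Good P c v := by
  refine ⟨fun y => (if ∃ t : K, t ≠ 0 ∧ y = t • a1 then 1 else 0) -
    (if ∃ t : K, t ≠ 0 ∧ y = t • a2 then 1 else 0), ?_, ?_, ?_, ?_, ?_⟩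
  · intro a x ha
    have key : ∀ b : V, (∃ t : K, t ≠ 0 ∧ a • x = t • b) ↔ (∃ t : K, t ≠ 0 ∧ x = t • b) := by
      intro b
      constructor
      · rintro ⟨t, ht, h⟩
        refine ⟨a⁻¹ * t, mul_ne_zero (inv_ne_zero ha) ht, ?_⟩
        rw [mul_smul, ← h, smul_smul, inv_mul_cancel₀ ha, one_smul]
      · rintro ⟨t, ht, h⟩
        exact ⟨a * t, mul_ne_zero ha ht, by rw [h, smul_smul]⟩
    simp only [key]
  · intro x hx
    by_cases e1 : ∃ t : K, t ≠ 0 ∧ x = t • a1
    · obtain ⟨t, ht, rfl⟩ := e1
      exact cls_smul97 P c t ht hc1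
    · by_cases e2 : ∃ t : K, t ≠ 0 ∧ x = t • a2
      · obtain ⟨t, ht, rfl⟩ := e2
        exact cls_smul97 P c t ht hc2
      · exact absurd (by simp only [if_neg e1, if_neg e2]; norm_num) hx
  · intro x
    show (-1 : ℤ) ≤ (if ∃ t : K, t ≠ 0 ∧ x = t • a1 then 1 else 0) -
      (if ∃ t : K, t ≠ 0 ∧ x = t • a2 then 1 else 0)
    split_ifs <;> norm_num
  · refine ⟨a1, ?_⟩
    show ((if ∃ t : K, t ≠ 0 ∧ a1 = t • a1 then 1 else 0) -
      (if ∃ t : K, t ≠ 0 ∧ a1 = t • a2 then 1 else 0) : ℤ) ≠ 0
    rw [if_pos ⟨1, one_ne_zero, (one_smul _ _).symm⟩,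
      if_neg (by rintro ⟨t, _, h⟩; exact h12 t h)]
    norm_num
  · intro x hx
    by_cases hx0 : x = 0
    · subst hx0
      have e0 : univ.filter (fun y : V => P.f 0 y = 0) = univ :=
        Finset.filter_true_of_mem (fun y _ => PForm.f_zero_left P y)
      rw [e0, Finset.sum_sub_distrib, ← Finset.sum_filter, ← Finset.sum_filter,
        Finset.sum_const, Finset.sum_const, card_ray97 a1 h1, card_ray97 a2 h2, sub_self]
    · apply Finset.sum_eq_zero
      intro y hy
      simp only [mem_filter, mem_univ, true_and] at hy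
      have n1 : ¬ ∃ t : K, t ≠ 0 ∧ y = t • a1 := by
        rintro ⟨t, ht, rfl⟩
        rw [PForm.f_smul_right] at hy
        rcases mul_eq_zero.1 hy with h | h
        · exact ht (P.s.injective (by rw [h, map_zero]))
        · exact hp1 x hx0 hx h
      have n2 : ¬ ∃ t : K, t ≠ 0 ∧ y = t • a2 := by
        rintro ⟨t, ht, rfl⟩
        rw [PForm.f_smul_right] at hy
        rcases mul_eq_zero.1 hy with h | h
        · exact ht (P.s.injective (by rw [h, map_zero]))
        · exact hp2 x hx0 hx h
      rw [if_neg n1, if_neg n2, sub_self]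

/-- In dimension two a nonzero singular vector is not perpendicular to a nonsingular one. -/
lemma line_perp97 [Finite V] (P : PForm K V) (hN : ND P) (h2 : finrank K V = 2) (a : V)
    (ha : P.Q a ≠ 0) (x : V) (hx0 : x ≠ 0) (hx : P.Q x = 0) : P.f x a ≠ 0 := by
  intro h
  apply hx0
  apply hN
  have hli : LinearIndependent K ![x, a] := by
    rw [LinearIndependent.pair_iff' hx0]
    intro t ht
    apply ha
    rw [← ht, P.Q_smul, hx, mul_zero]
  haveI : Module.Finite K V := Module.finite_of_finrank_pos (by rw [h2]; norm_num)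
  have hspan : Submodule.span K (Set.range ![x, a]) = ⊤ :=
    hli.span_eq_top_of_card_eq_finrank' (by rw [h2]; rfl)
  intro y
  have hy : y ∈ Submodule.span K (Set.range ![x, a]) := by rw [hspan]; trivial
  have hr : Set.range ![x, a] = {x, a} := by
    simp [Matrix.range_cons, Matrix.range_empty, Set.insert_def]
    ext z; simp [or_comm]
  rw [hr, Submodule.mem_span_pair] at hy
  obtain ⟨s, t, rfl⟩ := hy
  rw [PForm.f_add_right, PForm.f_smul_right, PForm.f_smul_right, h, P.f_self x hx]
  ring

end

/-- LINE -/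
theorem stLine97 (hSplit : StSplit) (hSing : StSing) (hUniv : StUniv) : StLine := by
  intro K V _ _ _ _ _ P hN h2 hP c hc hsc
  have clsQ : ∀ (a : V), Cls P c a → P.Q a ≠ 0 := by
    rintro a ⟨t, ht, hQ⟩
    rw [hQ]
    refine mul_ne_zero hc (mul_ne_zero ht ?_)
    intro h
    exact ht (P.s.injective (by rw [h, map_zero]))
  have fin : ∀ a1 a2 : V, (∀ t : K, a1 ≠ t • a2) → Cls P c a1 → Cls P c a2 →
      ∃ v, Good P c v := by
    intro a1 a2 h12 hc1 hc2
    have n1 : a1 ≠ 0 := by
      rintro rfl; exact clsQ _ hc1 (PForm.Q_zero P)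
    have n2 : a2 ≠ 0 := by
      rintro rfl; exact clsQ _ hc2 (PForm.Q_zero P)
    exact two_points97 P c a1 a2 n1 n2 h12 hc1 hc2
      (fun x hx0 hx => line_perp97 P hN h2 a1 (clsQ _ hc1) x hx0 hx)
      (fun x hx0 hx => line_perp97 P hN h2 a2 (clsQ _ hc2) x hx0 hx)
  have clsOne : ∀ a : V, P.Q a = c → Cls P c a := by
    intro a ha
    exact ⟨1, one_ne_zero, by rw [ha, map_one]; ring⟩
  by_cases hs : ∃ e : V, e ≠ 0 ∧ P.Q e = 0
  · -- hyperbolic
    obtain ⟨e, he0, heQ⟩ := hs
    have hP' : IsQuad P ∨ IsHerm P := by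
      rcases hP with h | h
      · exact Or.inl h.1
      · exact Or.inr h
    obtain ⟨W, P', φ, hH, -, -, -, -, hdim⟩ := hSplit K V P hP' hN e he0 heQ
    have hval : ∀ u w : K, P.Q (φ (u, w, 0)) = P.T (u * P.s w) := by
      intro u w
      rw [hH.Q_eq, PForm.Q_zero, add_zero]
    have hind : ∀ w1 w2 : K, w1 ≠ w2 → ∀ t : K, φ (1, w1, 0) ≠ t • φ (1, w2, 0) := by
      intro w1 w2 hw t h
      rw [← map_smul] at h
      have h3 := φ.injective h
      have h4 : (1 : K) = t * 1 := congrArg (fun z => z.1) h3
      have h5 : w1 = t * w2 := congrArg (fun z => z.2.1) h3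
      rw [mul_one] at h4
      rw [← h4, one_mul] at h5
      exact hw h5
    rcases hP with ⟨hq, hor⟩ | hh
    · have h4 : 4 ≤ Fintype.card K := by
        rcases hor with h | h
        · exact absurd (h e heQ) he0
        · exact h
      -- m with m ^ 2 ≠ 0, 1
      have hm : ∃ m : K, m ≠ 0 ∧ m * m ≠ 1 := by
        by_contra hcon
        push_neg at hcon
        have hsub : (univ : Finset K) ⊆ {0, 1, -1} := by
          intro m _
          by_cases hm0 : m = 0
          · simp [hm0]
          · have h5 := hcon m hm0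
            rcases mul_self_eq_one_iff.1 h5 with h6 | h6
            · simp [h6]
            · simp [h6]
        have h7 := Finset.card_le_card hsub
        have h8 : ({0, 1, -1} : Finset K).card ≤ 3 := Finset.card_le_three
        rw [Finset.card_univ] at h7
        omega
      obtain ⟨m, hm0, hm1⟩ := hm
      refine fin (φ (1, c, 0)) (φ (1, c * (m * m), 0)) (hind _ _ ?_) (clsOne _ ?_)
        ⟨m, hm0, ?_⟩
      · intro h
        apply hm1
        have h9 : c * (m * m) = c * 1 := by rw [mul_one]; exact h.symm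
        exact mul_left_cancel₀ hc h9
      · rw [hval, one_mul, hq.s_id, hq.T_id]
      · rw [hval, one_mul, hq.s_id, hq.T_id, hq.s_id]
    · -- hermitian
      obtain ⟨a0, ha0⟩ := hh.s_ne
      have hk : (a0 - P.s a0) + P.s (a0 - P.s a0) = 0 := by
        rw [map_sub, P.s_s]; ring
      have hex : ∃ a : K, a + P.s a ≠ 0 := by
        by_contra hcon
        push_neg at hcon
        have h1 := hcon 1
        rw [map_one] at h1
        have h3 := hcon a0
        apply ha0
        have h4 : P.s a0 = a0 - (1 + 1) * a0 := by linear_combination h3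
        rw [h4, h1]; ring
      obtain ⟨a, ha⟩ := hex
      have hfix : P.s (a + P.s a) = a + P.s a := by rw [map_add, P.s_s]; ring
      set w1 : K := c * a / (a + P.s a) with hw1
      have hw1' : w1 + P.s w1 = c := by
        rw [hw1, map_div₀, map_mul, hsc, hfix, ← add_div, ← mul_add, mul_div_assoc, div_self ha,
          mul_one]
      have hT : ∀ w : K, w + P.s w = c → P.Q (φ (1, w, 0)) = c := by
        intro w hw
        rw [hval, one_mul, hh.T_eq, P.s_s, add_comm, hw]
      refine fin (φ (1, w1, 0)) (φ (1, w1 + (a0 - P.s a0), 0)) (hind _ _ ?_)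
        (clsOne _ (hT _ hw1')) (clsOne _ (hT _ ?_))
      · intro h
        apply ha0
        linear_combination h
      · rw [map_add]
        linear_combination hw1' + hk
  · -- anisotropic
    push_neg at hs
    rcases hP with ⟨hq, -⟩ | hh
    · obtain ⟨a1, ha10, ha1⟩ := hUniv K V P (Or.inl hq) hN (by rw [h2]) c hc hsc
      -- a vector outside of the line of a1
      haveI : Module.Finite K V := Module.finite_of_finrank_pos (by rw [h2]; norm_num)
      have hb0 : ∃ b : V, b ∉ Submodule.span K {a1} := by
        by_contra hcon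
        push_neg at hcon
        have h3 : Submodule.span K {a1} = ⊤ := by
          rw [eq_top_iff]; intro b _; exact hcon b
        have h4 := finrank_span_singleton (K := K) ha10
        rw [h3, finrank_top, h2] at h4
        omega
      obtain ⟨b0, hb0⟩ := hb0
      have hb : ∃ b : V, b ∉ Submodule.span K {a1} ∧ P.f a1 b ≠ 0 := by
        by_cases h5 : P.f a1 b0 = 0
        · refine ⟨b0 + a1, ?_, ?_⟩
          · intro h
            apply hb0
            have := Submodule.sub_mem _ h (Submodule.mem_span_singleton_self a1)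
            rwa [add_sub_cancel_right] at this
          · rw [PForm.f_add_right, h5, zero_add]
            intro h6
            apply ha10
            apply hN
            have hli : LinearIndependent K ![a1, b0] := by
              rw [LinearIndependent.pair_iff' ha10]
              intro t ht
              apply hb0
              rw [← ht]
              exact Submodule.smul_mem _ _ (Submodule.mem_span_singleton_self a1)
            have hspan : Submodule.span K (Set.range ![a1, b0]) = ⊤ :=
              hli.span_eq_top_of_card_eq_finrank' (by rw [h2]; rfl)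
            intro y
            have hy : y ∈ Submodule.span K (Set.range ![a1, b0]) := by rw [hspan]; trivial
            have hr : Set.range ![a1, b0] = {a1, b0} := by
              simp [Matrix.range_cons, Matrix.range_empty, Set.insert_def]
              ext z; simp [or_comm]
            rw [hr, Submodule.mem_span_pair] at hy
            obtain ⟨s, t, rfl⟩ := hy
            rw [PForm.f_add_right, PForm.f_smul_right, PForm.f_smul_right, h5, h6]
            ring
        · exact ⟨b0, hb0, h5⟩
      obtain ⟨b, hb1, hb2⟩ := hb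
      have hb00 : b ≠ 0 := by
        rintro rfl; exact hb1 (Submodule.zero_mem _)
      have hQb : P.Q b ≠ 0 := hs b hb00
      set t : K := -(P.f a1 b / P.Q b) with ht
      have ht0 : t ≠ 0 := by
        rw [ht]; exact neg_ne_zero.2 (div_ne_zero hb2 hQb)
      have hQ2 : P.Q (a1 + t • b) = c := by
        rw [P.Q_add, P.Q_smul, PForm.f_smul_right, hq.T_id, hq.s_id, ha1, ht]
        field_simp
        ring
      refine fin (a1 + t • b) a1 ?_ (clsOne _ hQ2) (clsOne _ ha1)
      intro r hr
      apply hb1
      have h7 : t • b = (r - 1) • a1 := by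
        rw [sub_smul, one_smul, ← hr]; abel
      have h8 : b = t⁻¹ • ((r - 1) • a1) := by
        rw [← h7, smul_smul, inv_mul_cancel₀ ht0, one_smul]
      rw [h8]
      exact Submodule.smul_mem _ _ (Submodule.smul_mem _ _ (Submodule.mem_span_singleton_self a1))
    · obtain ⟨e, he0, heQ⟩ := hSing K V P (Or.inr ⟨hh, by rw [h2]⟩)
      exact absurd heQ (hs e he0)

end

end SpreadPerm.NS
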