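import Pool.Agent.Lib.MP_e6ed9e_al.NS.Basic47

/-! # Room NS: the points of a class, row POINTS (helper96) -/

namespace SpreadPerm.NS

open Module Finset
open scoped Classical

noncomputable section

section
variable {K V : Type} [Field K] [AddCommGroup V] [Module K V]

/-- The point of a vector with value in `C`. -/
theorem exists_pt (P : PForm K V) (C : Set K)
    (hC : ∀ t ∈ C, ∀ a : K, a ≠ 0 → t * (a * P.s a) ∈ C) {y : V} (hy0 : y ≠ 0)
    (hy : P.Q y ∈ C) : ∃ p : Pt P C, ∃ a : Kˣ, a • y = p.1.rep := by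
  obtain ⟨a, ha⟩ := Projectivization.exists_smul_eq_mk_rep K y hy0
  refine ⟨⟨Projectivization.mk K y hy0, ?_⟩, a, ha⟩
  have h1 : P.Q (Projectivization.mk K y hy0).rep = P.Q y * ((a : K) * P.s a) := by
    rw [← ha, Units.smul_def, P.Q_smul]
    ring
  rw [h1]
  exact hC _ hy _ a.ne_zero

/-- The sum over the vectors is a multiple of the sum over the points. -/
theorem sum_points [Fintype K] [Fintype V] (P : PForm K V) (C : Set K)
    (hC0 : ∀ t ∈ C, t ≠ 0) (hC : ∀ t ∈ C, ∀ a : K, a ≠ 0 → t * (a * P.s a) ∈ C) (F : V → ℤ)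
    (hF : ∀ (a : K) (x : V), a ≠ 0 → F (a • x) = F x) (hF0 : ∀ x, F x ≠ 0 → P.Q x ∈ C)
    (hsum : ∑ y, F y = 0) : ∑ p : Pt P C, F p.1.rep = 0 := by
  have h1 : ∑ z : Pt P C × Kˣ, F (z.2 • z.1.1.rep) = ∑ y, F y := by
    refine Fintype.sum_of_injective (fun z : Pt P C × Kˣ => z.2 • z.1.1.rep) ?_ _ _ ?_ ?_
    · rintro ⟨p, a⟩ ⟨q, b⟩ h
      have h' : a • p.1.rep = b • q.1.rep := h
      have hpq : p.1 = q.1 := by
        rw [← Projectivization.mk_rep p.1, ← Projectivization.mk_rep q.1,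
          Projectivization.mk_eq_mk_iff]
        refine ⟨a⁻¹ * b, ?_⟩
        rw [mul_smul, ← h', inv_smul_smul]
      have hpq' : p = q := Subtype.ext hpq
      subst hpq'
      have h2 : ((a : K) - b) • p.1.rep = 0 := by
        rw [sub_smul]
        exact sub_eq_zero.2 h'
      rcases smul_eq_zero.1 h2 with h3 | h3
      · have : a = b := Units.ext (sub_eq_zero.1 h3)
        rw [this]
      · exact absurd h3 p.1.rep_nonzero
    · intro y hy
      by_contra h
      have hQ := hF0 y h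
      have hy0 : y ≠ 0 := by
        rintro rfl
        exact hC0 _ hQ P.Q_zero
      obtain ⟨p, a, ha⟩ := exists_pt P C hC hy0 hQ
      refine hy ⟨(p, a⁻¹), ?_⟩
      show a⁻¹ • p.1.rep = y
      rw [← ha, inv_smul_smul]
    · intro z
      rfl
  rw [hsum, Fintype.sum_prod_type] at h1
  have h2 : ∀ p : Pt P C, ∑ a : Kˣ, F (a • p.1.rep) = (Fintype.card Kˣ : ℤ) * F p.1.rep := by
    intro p
    have h3 : ∀ a : Kˣ, F (a • p.1.rep) = F p.1.rep := fun a => hF (a : K) p.1.rep a.ne_zero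
    rw [Finset.sum_congr rfl (fun a _ => h3 a), Finset.sum_const, Finset.card_univ,
      nsmul_eq_mul]
  simp only [h2] at h1
  rw [← Finset.mul_sum] at h1
  rcases mul_eq_zero.1 h1 with h3 | h3
  · exact absurd (Nat.cast_eq_zero.1 h3) Fintype.card_pos.ne'
  · exact h3

end

theorem stPoints96 (hAll : StAll) (hSplit : StSplit) (hSing : StSing) (hUniv : StUniv) :
    StPoints := by
  intro K V _ _ _ _ _ P hP hND hdim C hC0 hC G _ _ _ hne hG
  have : Fintype K := Fintype.ofFinite K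
  have : Fintype V := Fintype.ofFinite V
  obtain ⟨e, he0, heQ⟩ := hSing K V P (by
    rcases hP with h | h
    · exact Or.inl ⟨h, by omega⟩
    · exact Or.inr ⟨h, by omega⟩)
  obtain ⟨p0⟩ := hne
  have ht0 : P.Q p0.1.rep ≠ 0 := hC0 _ p0.2
  have hst0 : P.s (P.Q p0.1.rep) = P.Q p0.1.rep := by
    rcases hP with h | h
    · exact h.s_id _
    · rw [h.Q_eq]
      have := P.f_symm p0.1.rep p0.1.rep
      rw [h.eps1, one_mul] at this
      exact this.symm
  obtain ⟨v, hv⟩ := hAll K V P hP hND hdim _ ht0 hst0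
  have hvC : ∀ x, v x ≠ 0 → P.Q x ∈ C := by
    intro x hx
    obtain ⟨a, ha, h1⟩ := hv.cls x hx
    rw [h1]
    exact hC _ p0.2 a ha
  have hkey : ∀ x : V, P.Q x = 0 →
      ∑ p ∈ univ.filter (fun p : Pt P C => P.f x p.1.rep = 0), v p.1.rep = 0 := by
    intro x hx
    have h := sum_points P C hC0 hC (fun y => if P.f x y = 0 then v y else 0) ?_ ?_ ?_
    · rw [Finset.sum_filter]
      exact h
    · intro a y ha
      show (if P.f x (a • y) = 0 then v (a • y) else 0) = if P.f x y = 0 then v y else 0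
      rw [hv.smul a y ha]
      congr 1
      rw [P.f_smul_right, mul_eq_zero, or_iff_right (fun h' => ha ((map_eq_zero P.s).1 h'))]
    · intro y hy
      apply hvC
      intro h0
      apply hy
      show (if P.f x y = 0 then v y else 0) = 0
      rw [h0, ite_self]
    · have h := hv.sum x hx
      rw [Finset.sum_filter] at h
      exact h
  obtain ⟨W, P', φ, hφ, hq, hh, hND', hφe, hdim'⟩ := hSplit K V P hP hND e he0 heQ
  have hP' : IsQuad P' ∨ IsHerm P' := hP.imp hq hh
  obtain ⟨z, hz0, hzQ⟩ : ∃ z, z ≠ 0 ∧ P'.Q z = P.Q p0.1.rep := by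
    have h2 : 2 ≤ finrank K W := by omega
    have hs : P'.s (P.Q p0.1.rep) = P.Q p0.1.rep := by rw [hφ.s_eq]; exact hst0
    first
    | exact hUniv K W P' hP' hND' h2 _ ht0 hs
    | exact hUniv K W P' hP' hND' h2 _ hs
  have hval : ∀ u w : K, u * P.s w = 0 → P.Q (φ (u, w, z)) = P.Q p0.1.rep := by
    intro u w h
    rw [hφ.Q_eq]
    show P.T (u * P.s w) + P'.Q z = _
    rw [h, map_zero, zero_add, hzQ]
  have hmem : ∀ u w : K, u * P.s w = 0 → P.Q (φ (u, w, z)) ∈ C := by
    intro u w h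
    rw [hval u w h]
    exact p0.2
  have hne0 : ∀ u w : K, φ (u, w, z) ≠ 0 := by
    intro u w h
    have h1 : ((u, w, z) : K × K × W) = 0 := by
      rw [← φ.map_eq_zero_iff]
      exact h
    exact hz0 (congrArg (fun t : K × K × W => t.2.2) h1)
  have hfe : ∀ u w : K, P.f e (φ (u, w, z)) = P.s w := by
    intro u w
    rw [← hφe, hφ.f_eq]
    show 1 * P.s w + P.eps * (0 * P.s u) + P'.f 0 z = P.s w
    rw [P'.f_zero_left]
    ring
  obtain ⟨p1, a1, h1⟩ := exists_pt P C hC (hne0 0 0) (hmem 0 0 (by simp))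
  obtain ⟨p2, a2, h2⟩ := exists_pt P C hC (hne0 1 0) (hmem 1 0 (by simp))
  obtain ⟨p3, a3, h3⟩ := exists_pt P C hC (hne0 0 1) (hmem 0 1 (by simp))
  have hrep : ∀ (a : Kˣ) (y : V), P.f e (a • y) = 0 ↔ P.f e y = 0 := by
    intro a y
    rw [Units.smul_def, P.f_smul_right, mul_eq_zero,
      or_iff_right (fun h' => a.ne_zero ((map_eq_zero P.s).1 h'))]
  let B : Finset (Pt P C) := univ.filter (fun p : Pt P C => P.f e p.1.rep = 0)
  have hB1 : p1 ∈ B := by
    refine mem_filter.2 ⟨mem_univ _, ?_⟩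
    rw [← h1, hrep, hfe, map_zero]
  have hB2 : p2 ∈ B := by
    refine mem_filter.2 ⟨mem_univ _, ?_⟩
    rw [← h2, hrep, hfe, map_zero]
  have hB3 : p3 ∉ B := by
    intro h
    have h' := (mem_filter.1 h).2
    rw [← h3, hrep, hfe, map_one] at h'
    exact one_ne_zero h'
  have h12 : p1 ≠ p2 := by
    rintro rfl
    rw [← h2] at h1
    have h4 : φ ((a1 : K) • ((0, 0, z) : K × K × W)) = φ ((a2 : K) • ((1, 0, z) : K × K × W)) := by
      rw [map_smul, map_smul]
      exact h1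
    have h5 := congrArg (fun t : K × K × W => t.1) (φ.injective h4)
    have h6 : (a1 : K) * 0 = (a2 : K) * 1 := h5
    rw [mul_zero, mul_one] at h6
    exact a2.ne_zero h6.symm
  refine nonSpreading_of_vector (fun p : Pt P C => v p.1.rep) (fun p => hv.ge _) ?_ B ?_ ?_ ?_
  · obtain ⟨x, hx⟩ := hv.ne
    have hxC := hvC x hx
    have hx0 : x ≠ 0 := by
      rintro rfl
      exact hC0 _ hxC P.Q_zero
    obtain ⟨p, a, ha⟩ := exists_pt P C hC hx0 hxC
    refine ⟨p, ?_⟩
    show v p.1.rep ≠ 0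
    rw [← ha, Units.smul_def, hv.smul _ _ a.ne_zero]
    exact hx
  · exact Finset.one_lt_card.2 ⟨p1, hB1, p2, hB2, h12⟩
  · rw [← Finset.card_univ]
    exact Finset.card_lt_card (Finset.ssubset_univ_iff.2 (fun h => hB3 (h ▸ mem_univ _)))
  · intro g
    obtain ⟨x', hx', hiff⟩ := hG g e he0 heQ
    rw [← hkey x' hx']
    refine Finset.sum_bij (fun p _ => g • p) ?_ ?_ ?_ ?_
    · intro p hp
      exact mem_filter.2 ⟨mem_univ _, (hiff p).1 (mem_filter.1 hp).2⟩
    · intro p _ q _ h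
      exact MulAction.injective g h
    · intro q hq
      refine ⟨g⁻¹ • q, mem_filter.2 ⟨mem_univ _, ?_⟩, smul_inv_smul g q⟩
      rw [hiff, smul_inv_smul]
      exact (mem_filter.1 hq).2
    · intro p _
      rfl

end

end SpreadPerm.NS
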