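import Mathlib
import Pool.Agent.Lib.MP_e6ed9e_al.NS.Defs

/-! # Row GRASS: the subspaces of dimension `k` -/

namespace SpreadPerm.NS

open Module Finset

noncomputable section

variable {K V : Type} [Field K] [AddCommGroup V] [Module K V]

/-- the two-dimensional spaces of matrices with one row space -/
def mu30 : Option K → ((K × K) →ₗ[K] (K × K × K × K))
  | some t => (LinearMap.fst K K K).prod ((t • LinearMap.fst K K K).prod
      ((LinearMap.snd K K K).prod (t • LinearMap.snd K K K)))
  | none => (0 : (K × K) →ₗ[K] K).prod ((LinearMap.fst K K K).prod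
      ((0 : (K × K) →ₗ[K] K).prod (LinearMap.snd K K K)))

/-- membership -/
def P30 : Option K → (K × K × K × K) → Prop
  | some t, m => m.2.1 = t * m.1 ∧ m.2.2.2 = t * m.2.2.1
  | none, m => m.1 = 0 ∧ m.2.2.1 = 0

theorem mu_mem30 (t : Option K) (m : K × K × K × K) :
    (∃ y, mu30 t y = m) ↔ P30 t m := by
  cases t with
  | none =>
    constructor
    · rintro ⟨y, rfl⟩
      exact ⟨rfl, rfl⟩
    · rintro ⟨h1, h2⟩
      refine ⟨(m.2.1, m.2.2.2), ?_⟩
      obtain ⟨a, b, c, d⟩ := m
      simp only at h1 h2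
      subst h1
      subst h2
      rfl
  | some t =>
    constructor
    · rintro ⟨y, rfl⟩
      exact ⟨rfl, rfl⟩
    · rintro ⟨h1, h2⟩
      refine ⟨(m.1, m.2.2.1), ?_⟩
      obtain ⟨a, b, c, d⟩ := m
      simp only at h1 h2
      subst h1
      subst h2
      rfl

theorem mu_inj30 (t : Option K) : Function.Injective (mu30 t) := by
  intro y y' h
  cases t with
  | none =>
    have h1 : y.1 = y'.1 := congrArg (fun m : K × K × K × K => m.2.1) h
    have h2 : y.2 = y'.2 := congrArg (fun m : K × K × K × K => m.2.2.2) h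
    exact Prod.ext h1 h2
  | some t =>
    have h1 : y.1 = y'.1 := congrArg (fun m : K × K × K × K => m.1) h
    have h2 : y.2 = y'.2 := congrArg (fun m : K × K × K × K => m.2.2.1) h
    exact Prod.ext h1 h2

/-- the number of spaces containing a matrix -/
theorem count30 [Fintype K] [DecidableEq K] (m : K × K × K × K)
    [∀ t, Decidable (P30 t m)] :
    ∑ t : Option K, (if P30 t m then (1 : ℤ) else 0) =
      if m = 0 then (Fintype.card K : ℤ) + 1 else
        if m.1 * m.2.2.2 = m.2.1 * m.2.2.1 then 1 else 0 := by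
  obtain ⟨a, b, c, d⟩ := m
  rw [Fintype.sum_option]
  have key : ∀ s : K, (∀ t : K, P30 (some t) (a, b, c, d) → t = s) →
      ∑ t : K, (if P30 (some t) (a, b, c, d) then (1 : ℤ) else 0) =
        if P30 (some s) (a, b, c, d) then 1 else 0 := by
    intro s hs
    refine Finset.sum_eq_single s (fun t _ ht => ?_) (fun h => absurd (Finset.mem_univ _) h)
    exact if_neg (fun h => ht (hs t h))
  by_cases ha : a = 0
  · by_cases hc : c = 0
    · subst ha
      subst hc
      have h1 : P30 none ((0 : K), b, (0 : K), d) := ⟨rfl, rfl⟩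
      rw [if_pos h1]
      by_cases hb : b = 0
      · by_cases hd : d = 0
        · subst hb
          subst hd
          have h2 : ∀ t : K, P30 (some t) ((0 : K), (0 : K), (0 : K), (0 : K)) := fun t => by
            constructor <;> simp
          rw [if_pos (show ((0 : K), (0 : K), (0 : K), (0 : K)) = 0 from rfl),
            Finset.sum_congr rfl (fun t _ => if_pos (h2 t))]
          simp
          ring
        · have h2 : ∀ t : K, ¬ P30 (some t) ((0 : K), b, (0 : K), d) := by
            rintro t ⟨_, h⟩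
            simp only [mul_zero] at h
            exact hd h
          rw [Finset.sum_congr rfl (fun t _ => if_neg (h2 t))]
          have h3 : ((0 : K), b, (0 : K), d) ≠ 0 := fun h => hd (congrArg (fun m : K × K × K × K => m.2.2.2) h)
          rw [if_neg h3, if_pos (by simp)]
          simp
      · have h2 : ∀ t : K, ¬ P30 (some t) ((0 : K), b, (0 : K), d) := by
          rintro t ⟨h, _⟩
          simp only [mul_zero] at h
          exact hb h
        rw [Finset.sum_congr rfl (fun t _ => if_neg (h2 t))]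
        have h3 : ((0 : K), b, (0 : K), d) ≠ 0 := fun h => hb (congrArg (fun m : K × K × K × K => m.2.1) h)
        rw [if_neg h3, if_pos (by simp)]
        simp
    · have h0 : ¬ P30 none (a, b, c, d) := fun h => hc h.2
      have h3 : (a, b, c, d) ≠ 0 := fun h => hc (congrArg (fun m : K × K × K × K => m.2.2.1) h)
      rw [if_neg h0, if_neg h3, key (d / c) (fun t ht => eq_div_of_mul_eq hc ht.2.symm), zero_add]
      refine if_congr ?_ rfl rfl
      constructor
      · rintro ⟨h1, h2⟩
        simp only at h1 h2 ⊢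
        rw [h1, ha]; ring
      · intro h
        simp only at h
        refine ⟨?_, ?_⟩
        · simp only
          rw [ha] at h ⊢
          have : b * c = 0 := by rw [← h]; ring
          rcases mul_eq_zero.1 this with h4 | h4
          · rw [h4]; ring
          · exact absurd h4 hc
        · simp only
          field_simp
  · have h0 : ¬ P30 none (a, b, c, d) := fun h => ha h.1
    have h3 : (a, b, c, d) ≠ 0 := fun h => ha (congrArg (fun m : K × K × K × K => m.1) h)
    rw [if_neg h0, if_neg h3, key (b / a) (fun t ht => eq_div_of_mul_eq ha ht.1.symm), zero_add]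
    refine if_congr ?_ rfl rfl
    constructor
    · rintro ⟨h1, h2⟩
      simp only at h1 h2 ⊢
      rw [h2]; field_simp
    · intro h
      simp only at h
      refine ⟨?_, ?_⟩
      · simp only
        field_simp
      · simp only
        field_simp
        linear_combination h

/-- the swap -/
def sw30 : (K × K × K × K) →ₗ[K] (K × K × K × K) where
  toFun m := (m.1, m.2.2.1, m.2.1, m.2.2.2)
  map_add' _ _ := rfl
  map_smul' _ _ := rfl

theorem sw_sw30 (m : K × K × K × K) : sw30 (sw30 m) = m := rfl

theorem count_sw30 [Fintype K] [DecidableEq K] (m : K × K × K × K)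
    [∀ t, Decidable (P30 t m)] [∀ t, Decidable (P30 t (sw30 m))] :
    ∑ t : Option K, (if P30 t m then (1 : ℤ) else 0) =
      ∑ t : Option K, (if P30 t (sw30 m) then (1 : ℤ) else 0) := by
  rw [count30, count30]
  have h1 : sw30 m = 0 ↔ m = 0 := by
    constructor
    · intro h
      have := congrArg sw30 h
      rwa [sw_sw30, map_zero] at this
    · rintro rfl
      exact map_zero _
  have h2 : ((sw30 m).1 * (sw30 m).2.2.2 = (sw30 m).2.1 * (sw30 m).2.2.1) ↔
      (m.1 * m.2.2.2 = m.2.1 * m.2.2.1) := by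
    show (m.1 * m.2.2.2 = m.2.2.1 * m.2.1) ↔ _
    rw [mul_comm m.2.2.1]
  by_cases h : m = 0
  · rw [if_pos h, if_pos (h1.2 h)]
  · rw [if_neg h, if_neg (fun h' => h (h1.1 h'))]
    exact (if_congr h2 rfl rfl).symm

variable {j : ℕ}

/-- the parametrised spaces -/
def Rm30 (L : ((K × K × K × K) × (Fin j → K)) →ₗ[K] V) (t : Option K) :
    ((K × K) × (Fin j → K)) →ₗ[K] V := L ∘ₗ (LinearMap.prodMap (mu30 t) LinearMap.id)

theorem mem_Rm30 {L : ((K × K × K × K) × (Fin j → K)) →ₗ[K] V} (hL : Function.Injective L)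
    (t : Option K) (m : K × K × K × K) (z : Fin j → K) :
    L (m, z) ∈ LinearMap.range (Rm30 L t) ↔ P30 t m := by
  rw [← mu_mem30]
  constructor
  · rintro ⟨⟨y, z'⟩, h⟩
    have h1 := hL h
    exact ⟨y, congrArg Prod.fst h1⟩
  · rintro ⟨y, rfl⟩
    exact ⟨(y, z), rfl⟩

theorem Rm_inj30 {L : ((K × K × K × K) × (Fin j → K)) →ₗ[K] V} (hL : Function.Injective L)
    (t : Option K) : Function.Injective (Rm30 L t) := by
  rintro ⟨y, z⟩ ⟨y', z'⟩ h
  have h1 := hL h
  have h2 : mu30 t y = mu30 t y' := congrArg Prod.fst h1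
  have h3 : z = z' := congrArg Prod.snd h1
  rw [mu_inj30 t h2, h3]

theorem finrank_Rm30 {L : ((K × K × K × K) × (Fin j → K)) →ₗ[K] V}
    (hL : Function.Injective L) (t : Option K) :
    finrank K (LinearMap.range (Rm30 L t)) = j + 2 := by
  rw [LinearMap.finrank_range_of_inj (Rm_inj30 hL t), Module.finrank_prod, Module.finrank_prod]
  simp
  ring

/-- the member of the regulus -/
def Rg30 (L : ((K × K × K × K) × (Fin j → K)) →ₗ[K] V) (hL : Function.Injective L)
    (t : Option K) : Gr K V (j + 2) := ⟨LinearMap.range (Rm30 L t), finrank_Rm30 hL t⟩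

theorem Rg_inj30 {L : ((K × K × K × K) × (Fin j → K)) →ₗ[K] V} (hL : Function.Injective L) :
    Function.Injective (Rg30 L hL) := by
  intro t t' h
  have h1 : ∀ m : K × K × K × K, P30 t m ↔ P30 t' m := by
    intro m
    rw [← mem_Rm30 hL t m 0, ← mem_Rm30 hL t' m 0]
    have : (Rg30 L hL t).1 = (Rg30 L hL t').1 := by rw [h]
    exact (Submodule.ext_iff.1 this) _
  cases t with
  | none =>
    cases t' with
    | none => rfl
    | some s =>
      have := (h1 (0, 1, 0, 0)).1 ⟨rfl, rfl⟩
      have h2 : (1 : K) = s * 0 := this.1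
      simp at h2
  | some s =>
    cases t' with
    | none =>
      have := (h1 (1, s, 0, 0)).1 ⟨by simp, by simp⟩
      have h2 : (1 : K) = 0 := this.1
      simp at h2
    | some s' =>
      have := (h1 (1, s, 0, 0)).1 ⟨by simp, by simp⟩
      have h2 : s = s' * 1 := this.1
      rw [h2, mul_one]

end

open scoped Classical in
/-- GRASS -/
theorem stGrass30 : StGrass := by
  intro K V _ _ _ _ _ k hk2 hkn _ G _ _ _ hG
  obtain ⟨j, rfl⟩ : ∃ j, k = j + 2 := ⟨k - 2, by omega⟩
  let _ : Fintype K := Fintype.ofFinite K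
  have _ : Module.Finite K V := Module.Finite.of_finite
  -- the linear injection
  have hL : ∃ L : ((K × K × K × K) × (Fin j → K)) →ₗ[K] V, Function.Injective L := by
    have h1 : ((j + 4 : ℕ) : Cardinal) ≤ Module.rank K V := by
      rw [← Module.finrank_eq_rank K V]
      exact_mod_cast (by omega : j + 4 ≤ finrank K V)
    obtain ⟨f, hf⟩ := Module.le_rank_iff_exists_linearMap.1 h1
    have h2 : finrank K ((K × K × K × K) × (Fin j → K)) = finrank K (Fin (j + 4) → K) := by
      rw [Module.finrank_prod, Module.finrank_prod, Module.finrank_prod, Module.finrank_prod]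
      simp
      ring
    exact ⟨f ∘ₗ (LinearEquiv.ofFinrankEq _ _ h2).toLinearMap,
      hf.comp (LinearEquiv.ofFinrankEq _ _ h2).injective⟩
  obtain ⟨L, hL⟩ := hL
  set L' : ((K × K × K × K) × (Fin j → K)) →ₗ[K] V :=
    L ∘ₗ (LinearMap.prodMap sw30 LinearMap.id) with hL'def
  have hL'eq : ∀ m z, L' (m, z) = L (sw30 m, z) := fun m z => rfl
  have hL' : Function.Injective L' := by
    rintro ⟨m, z⟩ ⟨m', z'⟩ h
    rw [hL'eq, hL'eq] at h
    have h1 := hL h
    have h2 : sw30 m = sw30 m' := congrArg Prod.fst h1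
    have h3 : z = z' := congrArg Prod.snd h1
    have h4 := congrArg sw30 h2
    rw [sw_sw30, sw_sw30] at h4
    rw [h3, h4]
  -- the vector
  set v : Gr K V (j + 2) → ℤ := fun W =>
    (∑ t : Option K, (if W = Rg30 L hL t then (1 : ℤ) else 0)) -
      ∑ t : Option K, (if W = Rg30 L' hL' t then (1 : ℤ) else 0) with hv
  have hle : ∀ W, ∑ t : Option K, (if W = Rg30 L' hL' t then (1 : ℤ) else 0) ≤ 1 := by
    intro W
    by_cases h : ∃ t, W = Rg30 L' hL' t
    · obtain ⟨t0, h0⟩ := h
      rw [Finset.sum_eq_single t0 (fun t _ ht => if_neg (fun h => ht (Rg_inj30 hL' (h.symm.trans h0))))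
        (fun h => absurd (Finset.mem_univ _) h)]
      split_ifs <;> norm_num
    · rw [Finset.sum_eq_zero (fun t _ => if_neg (fun h' => h ⟨t, h'⟩))]
      norm_num
  have hge : ∀ W, -1 ≤ v W := by
    intro W
    have h1 := hle W
    have h2 : 0 ≤ ∑ t : Option K, (if W = Rg30 L hL t then (1 : ℤ) else 0) :=
      Finset.sum_nonneg (fun t _ => by split_ifs <;> norm_num)
    simp only [hv]
    linarith
  have hmem : ∀ (t : Option K) m z, L (m, z) ∈ (Rg30 L hL t).1 ↔ P30 t m :=
    fun t m z => mem_Rm30 hL t m z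
  have hmem' : ∀ (t : Option K) m z, L (m, z) ∈ (Rg30 L' hL' t).1 ↔ P30 t (sw30 m) := by
    intro t m z
    have : L (m, z) = L' (sw30 m, z) := by rw [hL'eq, sw_sw30]
    rw [this]
    exact mem_Rm30 hL' t (sw30 m) z
  -- the sum over the members through x
  have hcount : ∀ x : V, ∑ t : Option K, (if x ∈ (Rg30 L hL t).1 then (1 : ℤ) else 0) =
      ∑ t : Option K, (if x ∈ (Rg30 L' hL' t).1 then (1 : ℤ) else 0) := by
    intro x
    by_cases hx : ∃ y, L y = x
    · obtain ⟨⟨m, z⟩, rfl⟩ := hx
      have h1 := count_sw30 m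
      rw [Finset.sum_congr rfl (fun t _ => if_congr (hmem t m z) rfl rfl),
        Finset.sum_congr rfl (fun t _ => if_congr (hmem' t m z) rfl rfl)]
      exact h1
    · rw [Finset.sum_eq_zero, Finset.sum_eq_zero]
      · intro t _
        refine if_neg (fun h => hx ?_)
        obtain ⟨y, hy⟩ := h
        exact ⟨_, hy⟩
      · intro t _
        refine if_neg (fun h => hx ?_)
        obtain ⟨y, hy⟩ := h
        exact ⟨_, hy⟩
  have hsum : ∀ x : V, ∑ W : Gr K V (j + 2), (if x ∈ W.1 then v W else 0) = 0 := by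
    intro x
    have h1 : ∀ (R : Option K → Gr K V (j + 2)), ∑ W : Gr K V (j + 2),
        (if x ∈ W.1 then ∑ t : Option K, (if W = R t then (1 : ℤ) else 0) else 0) =
        ∑ t : Option K, (if x ∈ (R t).1 then (1 : ℤ) else 0) := by
      intro R
      have h2 : ∀ W : Gr K V (j + 2),
          (if x ∈ W.1 then ∑ t : Option K, (if W = R t then (1 : ℤ) else 0) else 0) =
          ∑ t : Option K, (if W = R t then (if x ∈ (R t).1 then (1 : ℤ) else 0) else 0) := by
        intro W
        by_cases h : x ∈ W.1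
        · rw [if_pos h]
          refine Finset.sum_congr rfl (fun t _ => ?_)
          by_cases h3 : W = R t
          · rw [if_pos h3, if_pos h3, if_pos (h3 ▸ h)]
          · rw [if_neg h3, if_neg h3]
        · rw [if_neg h]
          refine (Finset.sum_eq_zero (fun t _ => ?_)).symm
          by_cases h3 : W = R t
          · rw [if_pos h3, if_neg (h3 ▸ h)]
          · rw [if_neg h3]
      rw [Finset.sum_congr rfl (fun W _ => h2 W), Finset.sum_comm]
      refine Finset.sum_congr rfl (fun t _ => ?_)
      rw [Finset.sum_ite_eq']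
      simp
    have h3 : ∀ W : Gr K V (j + 2), (if x ∈ W.1 then v W else 0) =
        (if x ∈ W.1 then ∑ t : Option K, (if W = Rg30 L hL t then (1 : ℤ) else 0) else 0) -
        (if x ∈ W.1 then ∑ t : Option K, (if W = Rg30 L' hL' t then (1 : ℤ) else 0) else 0) := by
      intro W
      by_cases h : x ∈ W.1
      · rw [if_pos h, if_pos h, if_pos h]
      · rw [if_neg h, if_neg h, if_neg h, sub_zero]
    rw [Finset.sum_congr rfl (fun W _ => h3 W), Finset.sum_sub_distrib, h1, h1, hcount, sub_self]
  -- the vector e1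
  set x0 : V := L ((1, 0, 0, 0), 0) with hx0
  have hx0ne : x0 ≠ 0 := by
    intro h
    have h1 : ((1, 0, 0, 0), 0) = (0 : (K × K × K × K) × (Fin j → K)) :=
      hL (by rw [← hx0, h, map_zero])
    have h2 : (1 : K) = 0 := congrArg (fun m => m.1.1) h1
    exact one_ne_zero h2
  have a1 : x0 ∈ (Rg30 L hL (some 0)).1 := (hmem _ _ _).2 ⟨by simp, by simp⟩
  have a2 : x0 ∈ (Rg30 L' hL' (some 0)).1 := (hmem' _ _ _).2 ⟨by simp [sw30], by simp [sw30]⟩
  have a3 : x0 ∉ (Rg30 L hL none).1 := fun h => by
    have := ((hmem none (1, 0, 0, 0) 0).1 h).1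
    exact one_ne_zero this
  have a4 : Rg30 L hL (some 0) ≠ Rg30 L' hL' (some 0) := by
    intro h
    have h1 : L ((0, 1, 0, 0), 0) ∈ (Rg30 L' hL' (some 0)).1 :=
      (hmem' _ _ _).2 ⟨by simp [sw30], by simp [sw30]⟩
    rw [← h] at h1
    have h2 : (1 : K) = 0 * 0 := ((hmem _ _ _).1 h1).1
    simp at h2
  have hne : ∃ W, v W ≠ 0 := by
    refine ⟨Rg30 L hL none, ?_⟩
    have b1 : ∑ t : Option K, (if Rg30 L hL none = Rg30 L hL t then (1 : ℤ) else 0) = 1 := by
      rw [Finset.sum_eq_single none (fun t _ ht => if_neg (fun h => ht (Rg_inj30 hL h.symm)))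
        (fun h => absurd (Finset.mem_univ _) h), if_pos rfl]
    have b2 : ∑ t : Option K, (if Rg30 L hL none = Rg30 L' hL' t then (1 : ℤ) else 0) = 0 := by
      refine Finset.sum_eq_zero (fun t _ => if_neg (fun h => ?_))
      cases t with
      | none =>
        have h1 : L ((0, 1, 0, 0), 0) ∈ (Rg30 L hL none).1 := (hmem _ _ _).2 ⟨rfl, rfl⟩
        rw [h] at h1
        have h2 : (1 : K) = 0 := ((hmem' _ _ _).1 h1).2
        exact one_ne_zero h2
      | some s =>
        have h1 : L ((1, 0, s, 0), 0) ∈ (Rg30 L' hL' (some s)).1 :=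
          (hmem' _ _ _).2 ⟨by simp [sw30], by simp [sw30]⟩
        rw [← h] at h1
        have h2 : (1 : K) = 0 := ((hmem _ _ _).1 h1).1
        exact one_ne_zero h2
    simp only [hv]
    rw [b1, b2]
    norm_num
  refine nonSpreading_of_vector v hge hne (univ.filter (fun W : Gr K V (j + 2) => x0 ∈ W.1))
    ?_ ?_ ?_
  · rw [Finset.one_lt_card]
    exact ⟨_, by simpa using a1, _, by simpa using a2, a4⟩
  · rw [← Finset.card_univ]
    refine Finset.card_lt_card ⟨Finset.subset_univ _, fun h => ?_⟩
    have := h (Finset.mem_univ (Rg30 L hL none))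
    rw [Finset.mem_filter] at this
    exact a3 this.2
  · intro g
    obtain ⟨x', hx'⟩ := hG g x0 hx0ne
    rw [Finset.sum_filter]
    refine (Fintype.sum_equiv (MulAction.toPerm g) _
      (fun W : Gr K V (j + 2) => if x' ∈ W.1 then v W else 0) (fun W => ?_)).trans (hsum x')
    show _ = if x' ∈ (g • W).1 then v (g • W) else 0
    by_cases h : x0 ∈ W.1
    · rw [if_pos h, if_pos ((hx' W).1 h)]
    · rw [if_neg h, if_neg (fun h' => h ((hx' W).2 h'))]

end SpreadPerm.NS
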