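import Pool.Agent.Lib.MP_e6ed9e_al.NS.Basic47
import Pool.Agent.Lib.MP_e6ed9e_al.NS.Defs2

/-! # Room NS: totally singular subspaces as graphs (helper88) -/

namespace SpreadPerm.NS

open Module Finset

noncomputable section

section
variable {K V : Type} [Field K] [AddCommGroup V] [Module K V] {P : PForm K V} {k : ℕ}
  {e h : (Fin k → K) →ₗ[K] V}

/-- Two totally singular subspaces with coordinates, in duality. -/
structure Dual (P : PForm K V) (e h : (Fin k → K) →ₗ[K] V) : Prop where
  te : P.TS (LinearMap.range e)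
  th : P.TS (LinearMap.range h)
  pair : ∀ x y, P.f (e x) (h y) = ∑ i, x i * P.s (y i)

namespace Dual

theorem single (D : Dual P e h) (x : Fin k → K) (i : Fin k) :
    P.f (e x) (h (Pi.single i 1)) = x i := by
  rw [D.pair, Finset.sum_eq_single i]
  · rw [Pi.single_eq_same, map_one, mul_one]
  · intro j _ hj
    rw [Pi.single_eq_of_ne hj, map_zero, mul_zero]
  · intro hi
    exact absurd (mem_univ i) hi

theorem pair' (D : Dual P e h) (x y : Fin k → K) :
    P.f (h y) (e x) = P.eps * ∑ i, y i * P.s (x i) := by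
  rw [P.f_symm, D.pair, map_sum]
  congr 1
  refine sum_congr rfl (fun i _ => ?_)
  rw [map_mul, P.s_s, mul_comm]

theorem ee (D : Dual P e h) (x y : Fin k → K) : P.f (e x) (e y) = 0 :=
  D.te.2 _ ⟨x, rfl⟩ _ ⟨y, rfl⟩

theorem hh (D : Dual P e h) (x y : Fin k → K) : P.f (h x) (h y) = 0 :=
  D.th.2 _ ⟨x, rfl⟩ _ ⟨y, rfl⟩

theorem inj_add (D : Dual P e h) (M : (Fin k → K) →ₗ[K] (Fin k → K)) :
    Function.Injective (e + h ∘ₗ M) := by
  rw [← LinearMap.ker_eq_bot, LinearMap.ker_eq_bot']
  intro x hx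
  have hx' : e x + h (M x) = 0 := hx
  funext i
  have h1 : P.f (e x + h (M x)) (h (Pi.single i 1)) = x i := by
    rw [P.f_add_left, D.hh, add_zero, D.single]
  rw [hx', P.f_zero_left] at h1
  exact h1.symm

/-- (b) -/
theorem inj_e (D : Dual P e h) : Function.Injective e := by
  have := D.inj_add 0
  simpa using this

theorem inj_h (D : Dual P e h) : Function.Injective h := by
  rw [← LinearMap.ker_eq_bot, LinearMap.ker_eq_bot']
  intro y hy
  funext i
  have h1 := D.pair (Pi.single i 1) y
  rw [hy, P.f_zero_right, Finset.sum_eq_single i] at h1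
  · rw [Pi.single_eq_same, one_mul] at h1
    exact (map_eq_zero P.s).1 h1.symm
  · intro j _ hj
    rw [Pi.single_eq_of_ne hj, zero_mul]
  · intro hi
    exact absurd (mem_univ i) hi

theorem disj (D : Dual P e h) : Disjoint (LinearMap.range e) (LinearMap.range h) := by
  rw [Submodule.disjoint_def]
  rintro _ ⟨x, rfl⟩ ⟨y, hy⟩
  have : x = 0 := by
    funext i
    rw [← D.single x i, ← hy, D.hh]
    rfl
  rw [this, map_zero]

theorem finrank_gr (D : Dual P e h) (M : Matrix (Fin k) (Fin k) K) :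
    finrank K (gr e h M) = k := by
  unfold gr
  rw [LinearMap.finrank_range_of_inj (D.inj_add _), Module.finrank_fin_fun]

theorem f_gr (D : Dual P e h) (M : Matrix (Fin k) (Fin k) K)
    (hM : ∀ i j, P.s (M i j) = - (P.eps * M j i)) (x y : Fin k → K) :
    P.f (e x + h (M.mulVec x)) (e y + h (M.mulVec y)) = 0 := by
  rw [P.f_add_left, P.f_add_right, P.f_add_right, D.ee, D.hh, D.pair, D.pair', zero_add, add_zero]
  have h1 : ∑ i, x i * P.s (M.mulVec y i) = ∑ i, ∑ j, x i * (P.s (M i j) * P.s (y j)) := by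
    refine sum_congr rfl (fun i _ => ?_)
    rw [Matrix.mulVec, dotProduct, map_sum, mul_sum]
    refine sum_congr rfl (fun j _ => ?_)
    rw [map_mul]
  have h2 : P.eps * ∑ j, M.mulVec x j * P.s (y j) =
      ∑ i, ∑ j, P.eps * (M j i * x i * P.s (y j)) := by
    rw [mul_sum, sum_comm]
    refine sum_congr rfl (fun i _ => ?_)
    rw [Matrix.mulVec, dotProduct, sum_mul, mul_sum]
  rw [h1, h2, ← sum_add_distrib]
  refine sum_eq_zero (fun i _ => ?_)
  rw [← sum_add_distrib]
  refine sum_eq_zero (fun j _ => ?_)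
  rw [hM]
  ring

theorem ts_gr (D : Dual P e h) (M : Matrix (Fin k) (Fin k) K)
    (hM : ∀ i j, P.s (M i j) = - (P.eps * M j i))
    (hQ : ∀ x : Fin k → K, P.Q (e x + h (M.mulVec x)) = 0) : P.TS (gr e h M) := by
  constructor
  · rintro _ ⟨x, rfl⟩
    exact hQ x
  · rintro _ ⟨x, rfl⟩ _ ⟨y, rfl⟩
    exact D.f_gr M hM x y

theorem Q_gr (D : Dual P e h) (M : Matrix (Fin k) (Fin k) K) (x : Fin k → K) :
    P.Q (e x + h (M.mulVec x)) = P.T (∑ i, x i * P.s (M.mulVec x i)) := by
  rw [P.Q_add, D.te.1 _ ⟨x, rfl⟩, D.th.1 _ ⟨_, rfl⟩, D.pair, add_zero, zero_add]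

/-- (a), symplectic forms -/
theorem ts_symp (D : Dual P e h) (hs : ∀ a, P.s a = a) (he : P.eps = -1) (hT : ∀ t, P.T t = 0)
    (M : Matrix (Fin k) (Fin k) K) (hM : ∀ i j, M i j = M j i) : P.TS (gr e h M) := by
  refine D.ts_gr M (fun i j => ?_) (fun x => ?_)
  · rw [hs, he, hM i j]
    ring
  · rw [D.Q_gr, hT]

end Dual

theorem alt_sum {K : Type} [Field K] {k : ℕ} (M : Matrix (Fin k) (Fin k) K)
    (h0 : ∀ i, M i i = 0) (h1 : ∀ i j, M i j = - M j i) (x : Fin k → K) :
    ∑ i, x i * M.mulVec x i = 0 := by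
  have h2 : ∑ i, x i * M.mulVec x i = ∑ i, ∑ j, x i * M i j * x j := by
    refine sum_congr rfl (fun i _ => ?_)
    rw [Matrix.mulVec, dotProduct, mul_sum]
    refine sum_congr rfl (fun j _ => ?_)
    ring
  rw [h2, ← sum_product']
  refine sum_involution (fun p _ => (p.2, p.1)) ?_ ?_ ?_ ?_
  · rintro ⟨i, j⟩ _
    show x i * M i j * x j + x j * M j i * x i = 0
    rw [h1 i j]
    ring
  · rintro ⟨i, j⟩ _ hne heq
    have hij : j = i := congrArg Prod.fst heq
    subst hij
    apply hne
    show x j * M j j * x j = 0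
    rw [h0]
    ring
  · intro p _
    exact mem_univ _
  · rintro ⟨i, j⟩ _
    rfl

namespace Dual

/-- (a), quadratic forms -/
theorem ts_quad (D : Dual P e h) (hP : IsQuad P) (M : Matrix (Fin k) (Fin k) K)
    (h0 : ∀ i, M i i = 0) (h1 : ∀ i j, M i j = - M j i) : P.TS (gr e h M) := by
  refine D.ts_gr M (fun i j => ?_) (fun x => ?_)
  · rw [hP.s_id, hP.eps1, h1 i j]
    ring
  · rw [D.Q_gr, hP.T_id]
    simp only [hP.s_id]
    exact alt_sum M h0 h1 x

/-- (a), hermitian forms -/
theorem ts_herm (D : Dual P e h) (hP : IsHerm P) (M : Matrix (Fin k) (Fin k) K)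
    (h1 : ∀ i j, M i j = - P.s (M j i)) : P.TS (gr e h M) := by
  have h2 : ∀ i j, P.s (M i j) = - (P.eps * M j i) := by
    intro i j
    rw [hP.eps1, one_mul, h1 j i, neg_neg]
  refine D.ts_gr M h2 (fun x => ?_)
  rw [hP.Q_eq]
  exact D.f_gr M h2 x x

/-- the coordinates with respect to `e` -/
def pi (P : PForm K V) (h : (Fin k → K) →ₗ[K] V) : V →ₗ[K] (Fin k → K) where
  toFun x := fun i => P.f x (h (Pi.single i 1))
  map_add' x y := by
    funext i
    exact P.f_add_left _ _ _
  map_smul' a x := by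
    funext i
    exact P.f_smul_left _ _ _

theorem pi_e (D : Dual P e h) (x : Fin k → K) : pi P h (e x) = x := by
  funext i
  exact D.single x i

theorem pi_h (D : Dual P e h) (x : Fin k → K) : pi P h (h x) = 0 := by
  funext i
  exact D.hh x _

theorem f_h (P : PForm K V) (h : (Fin k → K) →ₗ[K] V) (x : V) (y : Fin k → K) :
    P.f x (h y) = ∑ i, P.s (y i) * pi P h x i := by
  have h1 : y = ∑ i, y i • (Pi.single i (1 : K) : Fin k → K) := by
    funext j
    rw [Finset.sum_apply, Finset.sum_eq_single j]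
    · simp
    · intro i _ hij
      simp [Pi.single_eq_of_ne hij.symm]
    · intro hj
      exact absurd (mem_univ j) hj
  conv_lhs => rw [h1]
  rw [map_sum, P.f_sum_right]
  refine sum_congr rfl (fun i _ => ?_)
  rw [map_smul, P.f_smul_right]
  rfl

/-- (d') the isometries `1 + h M pi` -/
theorem exists_isometry (D : Dual P e h) (hP : IsQuad P) (M : Matrix (Fin k) (Fin k) K)
    (h0 : ∀ i, M i i = 0) (h1 : ∀ i j, M i j = - M j i) :
    ∃ g : V ≃ₗ[K] V, (∀ x, P.Q (g x) = P.Q x) ∧ (∀ x, P.Q (g x - x) = 0) ∧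
      gr e h M = (LinearMap.range e).map g.toLinearMap := by
  set N : V →ₗ[K] V := h ∘ₗ M.mulVecLin ∘ₗ pi P h with hN
  have hNN : N ∘ₗ N = 0 := by
    ext x
    show h (M.mulVec (pi P h (h (M.mulVec (pi P h x))))) = 0
    rw [D.pi_h, Matrix.mulVec_zero, map_zero]
  have hNQ : ∀ x, P.Q (N x) = 0 := fun x => D.th.1 _ ⟨_, rfl⟩
  refine ⟨LinearEquiv.ofLinearMap (LinearMap.id + N) (LinearMap.id - N) ?_ ?_, ?_, ?_, ?_⟩
  · rw [LinearMap.add_comp, LinearMap.id_comp, LinearMap.comp_sub, hNN, LinearMap.comp_id]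
    abel
  · rw [LinearMap.sub_comp, LinearMap.id_comp, LinearMap.comp_add, hNN, LinearMap.comp_id]
    abel
  · intro x
    show P.Q (x + N x) = P.Q x
    rw [P.Q_add, hNQ, add_zero, hP.T_id]
    have : P.f x (N x) = 0 := by
      show P.f x (h (M.mulVec (pi P h x))) = 0
      rw [f_h]
      simp only [hP.s_id]
      rw [← alt_sum M h0 h1 (pi P h x)]
      refine sum_congr rfl (fun i _ => mul_comm _ _)
    rw [this, add_zero]
  · intro x
    show P.Q (x + N x - x) = 0
    rw [add_sub_cancel_left]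
    exact hNQ x
  · show LinearMap.range (e + h ∘ₗ M.mulVecLin) = _
    rw [← LinearMap.range_comp]
    congr 1
    ext1 x
    ext1
    show _ = _
    simp only [LinearMap.comp_apply, LinearMap.add_apply]
    show _ = e _ + h (M.mulVec (pi P h (e _)))
    rw [D.pi_e]
    rfl

end Dual

/-! ### Existence -/

theorem hyp_extend (hnd : P.Nondeg) {r : ℕ} {a b : Fin r → V} (h : P.Hyp a b) {x : V}
    (hx : x ∈ P.compl a b) (hq : P.Q x = 0) (hx0 : x ≠ 0) :
    ∃ z : V, P.Hyp (Fin.snoc a x : Fin (r + 1) → V) (Fin.snoc b z : Fin (r + 1) → V) := by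
  have h1 : ∃ y, P.f x y ≠ 0 := by
    by_contra hcon
    push Not at hcon
    exact hx0 (hnd x hq hcon)
  obtain ⟨y, hy⟩ := h1
  obtain ⟨u, w, y', hy', hyy⟩ := h.exists_proj y
  have hc : P.f x y' ≠ 0 := by
    have h2 := h.f_comb 0 0 u w x y' hx hy'
    rw [← hyy] at h2
    have h3 : P.f x y = P.f x y' := by simpa using h2
    rwa [← h3]
  have hxx : P.f x x = 0 := P.f_self x hq
  set c := P.f x y' with hcdef
  obtain ⟨y2, hy2, h2⟩ : ∃ y2 ∈ P.compl a b, P.f x y2 = 1 := by
    refine ⟨P.s c⁻¹ • y', Submodule.smul_mem _ _ hy', ?_⟩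
    rw [P.f_smul_right, P.s_s, ← hcdef, inv_mul_cancel₀ hc]
  have h3 : P.f y2 x = P.eps := by
    rw [P.f_symm, h2, map_one, mul_one]
  have heps : P.eps ≠ 0 := by
    intro h0
    have h4 := P.f_symm y2 x
    rw [h2, h0, zero_mul] at h4
    exact one_ne_zero h4
  obtain ⟨t, ht⟩ := P.Q_T y2
  let z : V := y2 + P.s (-t / P.eps) • x
  have hz : z ∈ P.compl a b := Submodule.add_mem _ hy2 (Submodule.smul_mem _ _ hx)
  have hzq : P.Q z = 0 := by
    show P.Q (y2 + P.s (-t / P.eps) • x) = 0
    rw [P.Q_add, P.Q_smul _ x, hq, mul_zero, P.f_smul_right _ y2 x, P.s_s, h3,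
      div_mul_cancel₀ _ heps, map_neg, ht]
    ring
  have hxz : P.f x z = 1 := by
    show P.f x (y2 + P.s (-t / P.eps) • x) = 1
    rw [P.f_add_right, P.f_smul_right, hxx, mul_zero, add_zero, h2]
  have hzz : P.f z z = 0 := P.f_self z hzq
  refine ⟨z, ⟨?_, ?_, ?_, ?_, ?_⟩⟩
  · intro i j
    refine Fin.lastCases ?_ (fun i => ?_) i
    · refine Fin.lastCases ?_ (fun j => ?_) j
      · simpa using hxx
      · simpa using hx.1 j
    · refine Fin.lastCases ?_ (fun j => ?_) j
      · simpa using P.f_comm_zero (hx.1 i)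
      · simpa using h.ee i j
  · intro i j
    refine Fin.lastCases ?_ (fun i => ?_) i
    · refine Fin.lastCases ?_ (fun j => ?_) j
      · simpa using hzz
      · simpa using hz.2 j
    · refine Fin.lastCases ?_ (fun j => ?_) j
      · simpa using P.f_comm_zero (hz.2 i)
      · simpa using h.ff i j
  · intro i j
    refine Fin.lastCases ?_ (fun i => ?_) i
    · refine Fin.lastCases ?_ (fun j => ?_) j
      · simpa using hxz
      · have h5 : Fin.last r ≠ j.castSucc := (Fin.castSucc_lt_last j).ne'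
        simpa [h5] using hx.2 j
    · refine Fin.lastCases ?_ (fun j => ?_) j
      · have h5 : i.castSucc ≠ Fin.last r := (Fin.castSucc_lt_last i).ne
        simpa [h5] using P.f_comm_zero (hz.1 i)
      · simpa using h.ef i j
  · intro i
    refine Fin.lastCases ?_ (fun i => ?_) i
    · simpa using hq
    · simpa using h.qe i
  · intro i
    refine Fin.lastCases ?_ (fun i => ?_) i
    · simpa using hzq
    · simpa using h.qf i

theorem hyp_li {r : ℕ} {a b : Fin r → V} (h : P.Hyp a b) : LinearIndependent K a := by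
  rw [Fintype.linearIndependent_iff]
  intro g hg i
  have := (h.coord g 0 0 (Submodule.zero_mem _) (by simpa using hg)).1
  exact congrFun this i

/-- (c) -/
theorem exists_dual (P : PForm K V) [FiniteDimensional K V] (hnd : P.Nondeg)
    (W : Submodule K V) (hW : P.TS W) (hk : finrank K W = k) :
    ∃ e h : (Fin k → K) →ₗ[K] V, Dual P e h ∧ LinearMap.range e = W := by
  have hall : ∀ r : ℕ, r ≤ k → ∃ a b : Fin r → V, P.Hyp a b ∧ ∀ i, a i ∈ W := by
    intro r
    induction r with
    | zero => exact fun _ => ⟨_, _, PForm.Hyp.nil P, fun i => i.elim0⟩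
    | succ r ih =>
      intro hr
      obtain ⟨a, b, hab, haW⟩ := ih (by omega)
      -- the vectors of W orthogonal to all b i
      let L : W →ₗ[K] (Fin r → K) :=
        { toFun := fun x i => P.f x (b i)
          map_add' := fun x y => by
            funext i
            exact P.f_add_left _ _ _
          map_smul' := fun c x => by
            funext i
            exact P.f_smul_left _ _ _ }
      have hker : ∃ x : W, L x = 0 ∧ x ≠ 0 := by
        by_contra hcon
        push Not at hcon
        have hinj : Function.Injective L := by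
          rw [← LinearMap.ker_eq_bot, LinearMap.ker_eq_bot']
          exact hcon
        have := LinearMap.finrank_le_finrank_of_injective hinj
        rw [hk, Module.finrank_fin_fun] at this
        omega
      obtain ⟨x, hx, hx0⟩ := hker
      have hxc : (x : V) ∈ P.compl a b :=
        ⟨fun i => hW.2 _ x.2 _ (haW i), fun i => congrFun hx i⟩
      obtain ⟨z, hz⟩ := hyp_extend hnd hab hxc (hW.1 _ x.2) (by simpa using hx0)
      refine ⟨_, _, hz, ?_⟩
      intro i
      refine Fin.lastCases ?_ (fun i => ?_) i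
      · simp
      · simpa using haW i
  obtain ⟨a, b, hab, haW⟩ := hall k le_rfl
  refine ⟨Fintype.linearCombination K a, Fintype.linearCombination K b, ⟨?_, ?_, ?_⟩, ?_⟩
  · constructor
    · rintro _ ⟨x, rfl⟩
      exact P.Q_sum_zero x a hab.qe hab.ee
    · rintro _ ⟨x, rfl⟩ _ ⟨y, rfl⟩
      have := hab.f_comb x 0 y 0 0 0 (Submodule.zero_mem _) (Submodule.zero_mem _)
      simpa [P.f_zero_left, Fintype.linearCombination_apply] using this
  · constructor
    · rintro _ ⟨x, rfl⟩
      exact P.Q_sum_zero x b hab.qf hab.ff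
    · rintro _ ⟨x, rfl⟩ _ ⟨y, rfl⟩
      have := hab.f_comb 0 x 0 y 0 0 (Submodule.zero_mem _) (Submodule.zero_mem _)
      simpa [P.f_zero_left, Fintype.linearCombination_apply] using this
  · intro x y
    have := hab.f_comb x 0 0 y 0 0 (Submodule.zero_mem _) (Submodule.zero_mem _)
    simpa [P.f_zero_left, Fintype.linearCombination_apply] using this
  · have h1 : LinearMap.range (Fintype.linearCombination K a) = Submodule.span K (Set.range a) :=
      Fintype.range_linearCombination K a
    rw [h1]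
    have h2 : Submodule.span K (Set.range a) ≤ W := by
      rw [Submodule.span_le]
      rintro _ ⟨i, rfl⟩
      exact haW i
    refine Submodule.eq_of_le_of_finrank_eq h2 ?_
    rw [finrank_span_eq_card (hyp_li hab), Fintype.card_fin, hk]

/-- A form with nondegenerate `f` is nondegenerate. -/
theorem ND.nondeg (hP : ND P) : P.Nondeg := fun x _ hx => hP x hx

end

end

end SpreadPerm.NS
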