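import Mathlib
import Pool.Agent.Lib.MP_e6ed9e_al.NS.Grass30
import Pool.Agent.Lib.MP_e6ed9e_al.NS.Ts88

/-! # Row REG: totally singular subspaces of a quadratic form, a regulus minus the opposite one
(helper88, after Grass30) -/

namespace SpreadPerm.NS

open Module Finset

open scoped Classical in
/-- a regulus minus the opposite regulus -/
theorem regulus88 {K V : Type} [Field K] [Finite K] [AddCommGroup V] [Module K V] {j : ℕ}
    (Ω : Set (Submodule K V))
    (L : ((K × K × K × K) × (Fin j → K)) →ₗ[K] V) (hL : Function.Injective L)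
    (h1Ω : ∀ t, LinearMap.range (Rm30 L t) ∈ Ω)
    (h2Ω : ∀ t, LinearMap.range (Rm30 (L ∘ₗ (LinearMap.prodMap sw30 LinearMap.id)) t) ∈ Ω)
    [Fintype Ω] (G : Type) [Group G] [MulAction G Ω] [MulAction.IsPretransitive G Ω]
    (hG : ∀ (g : G) (x : V), x ≠ 0 → ∃ x' : V, ∀ W : Ω, x ∈ W.1 ↔ x' ∈ (g • W).1) :
    NonSpreading G Ω := by
  let _ : Fintype K := Fintype.ofFinite K
  set L' : ((K × K × K × K) × (Fin j → K)) →ₗ[K] V :=
    L ∘ₗ (LinearMap.prodMap sw30 LinearMap.id) with hL'def
  have hL'eq : ∀ m z, L' (m, z) = L (sw30 m, z) := fun m z => rfl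
  have hL' : Function.Injective L' := by
    rintro ⟨m, z⟩ ⟨m', z'⟩ h
    rw [hL'eq, hL'eq] at h
    have h1 := hL h
    have h2 : sw30 m = sw30 m' := congrArg Prod.fst h1
    have h3 : z = z' := congrArg Prod.snd h1
    have h4 := congrArg sw30 h2
    rw [sw_sw30, sw_sw30] at h4
    rw [h3, h4]
  set RL : Option K → Ω := fun t => ⟨LinearMap.range (Rm30 L t), h1Ω t⟩ with hRL
  set RL' : Option K → Ω := fun t => ⟨LinearMap.range (Rm30 L' t), h2Ω t⟩ with hRL'
  have RL_inj : Function.Injective RL := by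
    intro t t' h
    have h0 : (RL t).1 = (RL t').1 := by rw [h]
    exact Rg_inj30 hL (Subtype.ext h0)
  have RL'_inj : Function.Injective RL' := by
    intro t t' h
    have h0 : (RL' t).1 = (RL' t').1 := by rw [h]
    exact Rg_inj30 hL' (Subtype.ext h0)
  -- the vector
  set v : Ω → ℤ := fun W =>
    (∑ t : Option K, (if W = RL t then (1 : ℤ) else 0)) -
      ∑ t : Option K, (if W = RL' t then (1 : ℤ) else 0) with hv
  have hle : ∀ W, ∑ t : Option K, (if W = RL' t then (1 : ℤ) else 0) ≤ 1 := by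
    intro W
    by_cases h : ∃ t, W = RL' t
    · obtain ⟨t0, h0⟩ := h
      rw [Finset.sum_eq_single t0 (fun t _ ht => if_neg (fun h => ht (RL'_inj (h.symm.trans h0))))
        (fun h => absurd (Finset.mem_univ _) h)]
      split_ifs <;> norm_num
    · rw [Finset.sum_eq_zero (fun t _ => if_neg (fun h' => h ⟨t, h'⟩))]
      norm_num
  have hge : ∀ W, -1 ≤ v W := by
    intro W
    have h1 := hle W
    have h2 : 0 ≤ ∑ t : Option K, (if W = RL t then (1 : ℤ) else 0) :=
      Finset.sum_nonneg (fun t _ => by split_ifs <;> norm_num)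
    simp only [hv]
    linarith
  have hmem : ∀ (t : Option K) m z, L (m, z) ∈ (RL t).1 ↔ P30 t m :=
    fun t m z => mem_Rm30 hL t m z
  have hmem' : ∀ (t : Option K) m z, L (m, z) ∈ (RL' t).1 ↔ P30 t (sw30 m) := by
    intro t m z
    have : L (m, z) = L' (sw30 m, z) := by rw [hL'eq, sw_sw30]
    rw [this]
    exact mem_Rm30 hL' t (sw30 m) z
  -- the sum over the members through x
  have hcount : ∀ x : V, ∑ t : Option K, (if x ∈ (RL t).1 then (1 : ℤ) else 0) =
      ∑ t : Option K, (if x ∈ (RL' t).1 then (1 : ℤ) else 0) := by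
    intro x
    by_cases hx : ∃ y, L y = x
    · obtain ⟨⟨m, z⟩, rfl⟩ := hx
      have h1 := count_sw30 m
      rw [Finset.sum_congr rfl (fun t _ => if_congr (hmem t m z) rfl rfl),
        Finset.sum_congr rfl (fun t _ => if_congr (hmem' t m z) rfl rfl)]
      exact h1
    · rw [Finset.sum_eq_zero, Finset.sum_eq_zero]
      · intro t _
        refine if_neg (fun h => hx ?_)
        obtain ⟨y, hy⟩ := h
        exact ⟨_, hy⟩
      · intro t _
        refine if_neg (fun h => hx ?_)
        obtain ⟨y, hy⟩ := h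
        exact ⟨_, hy⟩
  have hsum : ∀ x : V, ∑ W : Ω, (if x ∈ W.1 then v W else 0) = 0 := by
    intro x
    have h1 : ∀ (R : Option K → Ω), ∑ W : Ω,
        (if x ∈ W.1 then ∑ t : Option K, (if W = R t then (1 : ℤ) else 0) else 0) =
        ∑ t : Option K, (if x ∈ (R t).1 then (1 : ℤ) else 0) := by
      intro R
      have h2 : ∀ W : Ω,
          (if x ∈ W.1 then ∑ t : Option K, (if W = R t then (1 : ℤ) else 0) else 0) =
          ∑ t : Option K, (if W = R t then (if x ∈ (R t).1 then (1 : ℤ) else 0) else 0) := by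
        intro W
        by_cases h : x ∈ W.1
        · rw [if_pos h]
          refine Finset.sum_congr rfl (fun t _ => ?_)
          by_cases h3 : W = R t
          · rw [if_pos h3, if_pos h3, if_pos (h3 ▸ h)]
          · rw [if_neg h3, if_neg h3]
        · rw [if_neg h]
          refine (Finset.sum_eq_zero (fun t _ => ?_)).symm
          by_cases h3 : W = R t
          · rw [if_pos h3, if_neg (h3 ▸ h)]
          · rw [if_neg h3]
      rw [Finset.sum_congr rfl (fun W _ => h2 W), Finset.sum_comm]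
      refine Finset.sum_congr rfl (fun t _ => ?_)
      rw [Finset.sum_ite_eq']
      simp
    have h3 : ∀ W : Ω, (if x ∈ W.1 then v W else 0) =
        (if x ∈ W.1 then ∑ t : Option K, (if W = RL t then (1 : ℤ) else 0) else 0) -
        (if x ∈ W.1 then ∑ t : Option K, (if W = RL' t then (1 : ℤ) else 0) else 0) := by
      intro W
      by_cases h : x ∈ W.1
      · rw [if_pos h, if_pos h, if_pos h]
      · rw [if_neg h, if_neg h, if_neg h, sub_zero]
    rw [Finset.sum_congr rfl (fun W _ => h3 W), Finset.sum_sub_distrib, h1, h1, hcount, sub_self]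
  -- the vector e1
  set x0 : V := L ((1, 0, 0, 0), 0) with hx0
  have hx0ne : x0 ≠ 0 := by
    intro h
    have h1 : ((1, 0, 0, 0), 0) = (0 : (K × K × K × K) × (Fin j → K)) :=
      hL (by rw [← hx0, h, map_zero])
    have h2 : (1 : K) = 0 := congrArg (fun m => m.1.1) h1
    exact one_ne_zero h2
  have a1 : x0 ∈ (RL (some 0)).1 := (hmem _ _ _).2 ⟨by simp, by simp⟩
  have a2 : x0 ∈ (RL' (some 0)).1 := (hmem' _ _ _).2 ⟨by simp [sw30], by simp [sw30]⟩
  have a3 : x0 ∉ (RL none).1 := fun h => by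
    have := ((hmem none (1, 0, 0, 0) 0).1 h).1
    exact one_ne_zero this
  have a4 : RL (some 0) ≠ RL' (some 0) := by
    intro h
    have h1 : L ((0, 1, 0, 0), 0) ∈ (RL' (some 0)).1 :=
      (hmem' _ _ _).2 ⟨by simp [sw30], by simp [sw30]⟩
    rw [← h] at h1
    have h2 : (1 : K) = 0 * 0 := ((hmem _ _ _).1 h1).1
    simp at h2
  have hne : ∃ W, v W ≠ 0 := by
    refine ⟨RL none, ?_⟩
    have b1 : ∑ t : Option K, (if RL none = RL t then (1 : ℤ) else 0) = 1 := by
      rw [Finset.sum_eq_single none (fun t _ ht => if_neg (fun h => ht (RL_inj h.symm)))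
        (fun h => absurd (Finset.mem_univ _) h), if_pos rfl]
    have b2 : ∑ t : Option K, (if RL none = RL' t then (1 : ℤ) else 0) = 0 := by
      refine Finset.sum_eq_zero (fun t _ => if_neg (fun h => ?_))
      cases t with
      | none =>
        have h1 : L ((0, 1, 0, 0), 0) ∈ (RL none).1 := (hmem _ _ _).2 ⟨rfl, rfl⟩
        rw [h] at h1
        have h2 : (1 : K) = 0 := ((hmem' _ _ _).1 h1).2
        exact one_ne_zero h2
      | some s =>
        have h1 : L ((1, 0, s, 0), 0) ∈ (RL' (some s)).1 :=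
          (hmem' _ _ _).2 ⟨by simp [sw30], by simp [sw30]⟩
        rw [← h] at h1
        have h2 : (1 : K) = 0 := ((hmem _ _ _).1 h1).1
        exact one_ne_zero h2
    simp only [hv]
    rw [b1, b2]
    norm_num
  refine nonSpreading_of_vector v hge hne (univ.filter (fun W : Ω => x0 ∈ W.1))
    ?_ ?_ ?_
  · rw [Finset.one_lt_card]
    exact ⟨_, by simpa using a1, _, by simpa using a2, a4⟩
  · rw [← Finset.card_univ]
    refine Finset.card_lt_card ⟨Finset.subset_univ _, fun h => ?_⟩
    have := h (Finset.mem_univ (RL none))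
    rw [Finset.mem_filter] at this
    exact a3 this.2
  · intro g
    obtain ⟨x', hx'⟩ := hG g x0 hx0ne
    rw [Finset.sum_filter]
    refine (Fintype.sum_equiv (MulAction.toPerm g) _
      (fun W : Ω => if x' ∈ W.1 then v W else 0) (fun W => ?_)).trans (hsum x')
    show _ = if x' ∈ (g • W).1 then v (g • W) else 0
    by_cases h : x0 ∈ W.1
    · rw [if_pos h, if_pos ((hx' W).1 h)]
    · rw [if_neg h, if_neg (fun h' => h ((hx' W).2 h'))]

noncomputable section

/-- coordinates on `e` -/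
def ca88 (K : Type) [Field K] (j : ℕ) :
    ((K × K × K × K) × (Fin j → K)) →ₗ[K] (Fin (j + 2) → K) where
  toFun x := Fin.cons x.1.1 (Fin.cons x.1.2.1 x.2)
  map_add' x y := by
    funext i
    refine Fin.cases rfl (fun i => ?_) i
    refine Fin.cases rfl (fun i => ?_) i
    rfl
  map_smul' a x := by
    funext i
    refine Fin.cases rfl (fun i => ?_) i
    refine Fin.cases rfl (fun i => ?_) i
    rfl

/-- coordinates on `h` -/
def cb88 (K : Type) [Field K] (j : ℕ) :
    ((K × K × K × K) × (Fin j → K)) →ₗ[K] (Fin (j + 2) → K) where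
  toFun x := Fin.cons x.1.2.2.2 (Fin.cons (-x.1.2.2.1) 0)
  map_add' x y := by
    funext i
    refine Fin.cases rfl (fun i => ?_) i
    refine Fin.cases ?_ (fun i => ?_) i
    · show -(x.1.2.2.1 + y.1.2.2.1) = -x.1.2.2.1 + -y.1.2.2.1
      ring
    · show (0 : K) = 0 + 0
      ring
  map_smul' a x := by
    funext i
    refine Fin.cases rfl (fun i => ?_) i
    refine Fin.cases ?_ (fun i => ?_) i
    · show -(a * x.1.2.2.1) = a * -x.1.2.2.1
      ring
    · show (0 : K) = a * 0
      ring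

theorem cab88 (K : Type) [Field K] (j : ℕ) (x : (K × K × K × K) × (Fin j → K)) :
    ∑ i, ca88 K j x i * cb88 K j x i = x.1.1 * x.1.2.2.2 - x.1.2.1 * x.1.2.2.1 := by
  rw [Fin.sum_univ_succ, Fin.sum_univ_succ]
  have h0 : ∑ i : Fin j, ca88 K j x i.succ.succ * cb88 K j x i.succ.succ = 0 := by
    refine Finset.sum_eq_zero (fun i _ => ?_)
    have : cb88 K j x i.succ.succ = 0 := rfl
    rw [this, mul_zero]
  rw [h0]
  show x.1.1 * x.1.2.2.2 + (x.1.2.1 * -x.1.2.2.1 + 0) = _
  ring

/-- REG -/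
theorem reg88 {K V : Type} [Field K] [Finite K] [AddCommGroup V] [Module K V] [Finite V]
    (P : PForm K V) (hP : IsQuad P) (hnd : P.Nondeg) (k : ℕ) (hk : 2 ≤ k) (W₀ : Submodule K V)
    (h₀ : P.TS W₀) (hk₀ : finrank K W₀ = k) (Ω : Set (Submodule K V))
    (hΩ : ∀ W, P.TS W → finrank K W = k → W ∈ Ω) [Fintype Ω] (G : Type) [Group G]
    [MulAction G Ω] [MulAction.IsPretransitive G Ω]
    (hG : ∀ (g : G) (x : V), x ≠ 0 → ∃ x' : V, ∀ W : Ω, x ∈ W.1 ↔ x' ∈ (g • W).1) :
    NonSpreading G Ω := by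
  obtain ⟨j, rfl⟩ : ∃ j, k = j + 2 := ⟨k - 2, by omega⟩
  have _ : Module.Finite K V := Module.Finite.of_finite
  obtain ⟨e, h, D, -⟩ := exists_dual P hnd W₀ h₀ hk₀
  set L : ((K × K × K × K) × (Fin j → K)) →ₗ[K] V := e ∘ₗ ca88 K j + h ∘ₗ cb88 K j with hLdef
  have hLx : ∀ x, L x = e (ca88 K j x) + h (cb88 K j x) := fun x => rfl
  have hQ : ∀ x, P.Q (L x) = x.1.1 * x.1.2.2.2 - x.1.2.1 * x.1.2.2.1 := by
    intro x
    rw [hLx, P.Q_add, D.te.1 _ ⟨_, rfl⟩, D.th.1 _ ⟨_, rfl⟩, hP.T_id, D.pair, zero_add, zero_add,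
      ← cab88]
    refine Finset.sum_congr rfl (fun i _ => by rw [hP.s_id])
  have hL : Function.Injective L := by
    rw [← LinearMap.ker_eq_bot, LinearMap.ker_eq_bot']
    intro x hx
    have hx' : e (ca88 K j x) + h (cb88 K j x) = 0 := hx
    have ha : ca88 K j x = 0 := by
      funext i
      have h1 : P.f (e (ca88 K j x) + h (cb88 K j x)) (h (Pi.single i 1)) = ca88 K j x i := by
        rw [P.f_add_left, D.hh, add_zero, D.single]
      rw [hx', P.f_zero_left] at h1
      exact h1.symm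
    have hb : cb88 K j x = 0 := by
      rw [ha, map_zero, zero_add] at hx'
      exact D.inj_h (by rw [hx', map_zero])
    obtain ⟨⟨m1, m2, m3, m4⟩, z⟩ := x
    have e1 : m1 = 0 := congrFun ha 0
    have e2 : m2 = 0 := congrFun ha 1
    have e3 : -m3 = 0 := congrFun hb 1
    have e4 : m4 = 0 := congrFun hb 0
    have e5 : z = 0 := by
      funext i
      exact congrFun ha i.succ.succ
    rw [e1, e2, neg_eq_zero.1 e3, e4, e5]
    rfl
  -- totally singular
  have hTS : ∀ W : Submodule K V, (∀ x ∈ W, P.Q x = 0) → P.TS W := by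
    intro W hW
    refine ⟨hW, fun x hx y hy => ?_⟩
    have h1 := P.Q_add x y
    rw [hW _ (W.add_mem hx hy), hW x hx, hW y hy, hP.T_id, zero_add, zero_add] at h1
    exact h1.symm
  have hsw : Function.Injective (L ∘ₗ (LinearMap.prodMap sw30 LinearMap.id)) := by
    rintro ⟨m, z⟩ ⟨m', z'⟩ h
    have h1 := hL h
    have h2 : sw30 m = sw30 m' := congrArg Prod.fst h1
    have h3 : z = z' := congrArg Prod.snd h1
    have h4 := congrArg sw30 h2
    rw [sw_sw30, sw_sw30] at h4
    rw [h3, h4]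
  refine regulus88 Ω L hL (fun t => hΩ _ (hTS _ ?_) (finrank_Rm30 hL t))
    (fun t => hΩ _ (hTS _ ?_) (finrank_Rm30 hsw t)) G hG
  · rintro _ ⟨⟨y, z⟩, rfl⟩
    show P.Q (L (mu30 t y, z)) = 0
    rw [hQ]
    cases t with
    | none =>
      show 0 * y.2 - y.1 * 0 = 0
      ring
    | some t =>
      show y.1 * (t * y.2) - (t * y.1) * y.2 = 0
      ring
  · rintro _ ⟨⟨y, z⟩, rfl⟩
    show P.Q (L (sw30 (mu30 t y), z)) = 0
    rw [hQ]
    cases t with
    | none =>
      show 0 * y.2 - 0 * y.1 = 0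
      ring
    | some t =>
      show y.1 * (t * y.2) - y.2 * (t * y.1) = 0
      ring

end

end SpreadPerm.NS
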