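import Pool.Agent.Lib.MP_e6ed9e_al.NS.Defs
import Pool.Agent.Lib.MP_e6ed9e_al.Polar.EmbQA88
import Pool.Agent.Lib.MP_e6ed9e_al.Polar.EmbH88

/-!
Rows SPLIT, SING and UNIV of the room NS.
-/

namespace SpreadPerm.NS

open Module Finset
open Pool.Agent.Lib.MP_e6ed9e_al.Polar (aniso_le nrm_surj tr_surj)

/-- The quadratic form of a form of quadratic type. -/
def toQuad {K V : Type} [Field K] [AddCommGroup V] [Module K V] (P : PForm K V)
    (h : IsQuad P) : QuadraticForm K V :=
  QuadraticMap.ofPolar P.Q
    (fun a x => by rw [P.Q_smul, h.s_id, smul_eq_mul])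
    (fun x x' y => by
      have e : ∀ u v, QuadraticMap.polar P.Q u v = P.f u v := by
        intro u v
        rw [QuadraticMap.polar, P.Q_add, h.T_id]
        ring
      rw [e, e, e, P.f_add_left])
    (fun a x y => by
      have e : ∀ u v, QuadraticMap.polar P.Q u v = P.f u v := by
        intro u v
        rw [QuadraticMap.polar, P.Q_add, h.T_id]
        ring
      rw [e, e, P.f_smul_left, smul_eq_mul])

theorem toQuad_apply {K V : Type} [Field K] [AddCommGroup V] [Module K V] (P : PForm K V)
    (h : IsQuad P) (x : V) : toQuad P h x = P.Q x := rfl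

theorem herm_fix {K V : Type} [Field K] [AddCommGroup V] [Module K V] {P : PForm K V}
    (h : IsHerm P) (x : V) : P.s (P.Q x) = P.Q x := by
  have h1 := P.f_symm x x
  rw [h.eps1, one_mul] at h1
  rw [h.Q_eq]
  exact h1.symm

theorem sing88 : StSing := by
  intro K V _ _ _ _ _ P hP
  have hfd : Module.Finite K V := Module.Finite.of_finite
  rcases hP with ⟨hq, hn⟩ | ⟨hh, hn⟩
  · by_contra hcon
    push Not at hcon
    have h1 := aniso_le (toQuad P hq) (fun z hz => by
      by_contra h0
      exact hcon z h0 hz)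
    omega
  · have hnt : Nontrivial V := Module.nontrivial_of_finrank_pos (R := K) (by omega)
    obtain ⟨x, hx⟩ := exists_ne (0 : V)
    by_cases hx0 : P.Q x = 0
    · exact ⟨x, hx, hx0⟩
    have hfx : P.f x x ≠ 0 := by rw [← hh.Q_eq]; exact hx0
    obtain ⟨y, hy⟩ : ∃ y : V, y ∉ Submodule.span K {x} := by
      by_contra hcon
      push Not at hcon
      have h1 : (⊤ : Submodule K V) ≤ Submodule.span K {x} := fun z _ => hcon z
      have h2 := finrank_span_singleton (K := K) hx
      have h3 : finrank K V ≤ 1 := by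
        rw [← finrank_top K V, ← h2]
        exact Submodule.finrank_mono h1
      omega
    let y' : V := y - (P.f y x / P.f x x) • x
    have hy'0 : y' ≠ 0 := by
      intro h0
      apply hy
      rw [sub_eq_zero.1 h0]
      exact Submodule.smul_mem _ _ (Submodule.mem_span_singleton_self x)
    have hyx : P.f y' x = 0 := by
      show P.f (y - (P.f y x / P.f x x) • x) x = 0
      rw [sub_eq_add_neg, P.f_add_left, P.f_neg_left, P.f_smul_left, div_mul_cancel₀ _ hfx]
      ring
    by_cases hy0 : P.Q y' = 0
    · exact ⟨y', hy'0, hy0⟩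
    have hfix : P.s (-(P.Q y') / P.Q x) = -(P.Q y') / P.Q x := by
      rw [map_div₀, map_neg, herm_fix hh, herm_fix hh]
    obtain ⟨a, ha⟩ := nrm_surj P.s P.s_s hh.s_ne _ hfix
    refine ⟨a • x + y', ?_, ?_⟩
    · intro h0
      have h1 : P.f (a • x + y') x = 0 := by rw [h0, P.f_zero_left]
      rw [P.f_add_left, P.f_smul_left, hyx, add_zero] at h1
      rcases mul_eq_zero.1 h1 with h2 | h2
      · rw [h2, zero_mul] at ha
        rw [eq_comm, div_eq_zero_iff, neg_eq_zero] at ha
        rcases ha with h3 | h3
        · exact hy0 h3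
        · exact hx0 h3
      · exact hfx h2
    · rw [P.Q_add, P.Q_smul, ha, P.f_smul_left, P.f_comm_zero hyx, mul_zero, map_zero,
        div_mul_cancel₀ _ hx0]
      ring

end SpreadPerm.NS
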