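import Mathlib
import Pool.Agent.Lib.MP_e6ed9e_al.NS.Defs2

/-!
# Row SKEW: skew hermitian matrices
-/

namespace SpreadPerm.NS

open Module Finset
open scoped Classical

noncomputable section

section
variable {K : Type} [Field K] (σ : K →+* K) (hσ : ∀ a, σ (σ a) = a) (h1 : ∃ a, σ a ≠ a)

include hσ h1

lemma exists_trace_ne97 : ∃ a : K, a + σ a ≠ 0 := by
  obtain ⟨a0, ha0⟩ := h1
  by_contra hcon
  have hcon' : ∀ a : K, a + σ a = 0 := by
    intro a
    by_contra h
    exact hcon ⟨a, h⟩
  have h2 := hcon' 1
  rw [map_one] at h2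
  have h3 := hcon' a0
  apply ha0
  have h4 : σ a0 = a0 - (1 + 1) * a0 := by linear_combination h3
  rw [h4, h2]; ring

/-- A non-isotropic vector in a plane of a hermitian space of dimension three. -/
lemma exists_nonisotropic97 (p q r : K) : ∃ A B C : K,
    σ A * p + σ B * q + σ C * r = 0 ∧ A * σ A + B * σ B + C * σ C ≠ 0 := by
  by_cases hp : p = 0
  · exact ⟨1, 0, 0, by rw [hp]; simp, by simp⟩
  by_cases hq : q = 0
  · exact ⟨0, 1, 0, by rw [hq]; simp, by simp⟩
  by_cases hr : r = 0
  · exact ⟨0, 0, 1, by rw [hr]; simp, by simp⟩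
  by_cases h3 : σ q * q + σ p * p = 0
  · by_cases h4 : σ r * r + σ p * p = 0
    · by_cases h5 : σ r * r + σ q * q = 0
      · -- characteristic two
        have h6 : (1 + 1) * (σ p * p) = 0 := by linear_combination h3 + h4 - h5
        have hpp : σ p * p ≠ 0 := by
          refine mul_ne_zero ?_ hp
          intro h
          exact hp (σ.injective (by rw [h, map_zero]))
        have h2 : (1 + 1 : K) = 0 := by
          rcases mul_eq_zero.1 h6 with h | h
          · exact h
          · exact absurd h hpp
        obtain ⟨a, ha⟩ := exists_trace_ne97 σ hσ h1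
        have hsq : σ q ≠ 0 := by
          intro h
          exact hq (σ.injective (by rw [h, map_zero]))
        -- s = sigma lambda
        obtain ⟨s, hs⟩ : ∃ s : K, σ q * r * s = a := by
          refine ⟨a / (σ q * r), ?_⟩
          rw [mul_div_cancel₀ _ (mul_ne_zero hsq hr)]
        have hs' : q * σ r * σ s = σ a := by
          rw [← hs, map_mul, map_mul, hσ]
        refine ⟨σ q + σ s * σ r, -σ p, -(σ s * σ p), ?_, ?_⟩
        · simp only [map_add, map_neg, map_mul, hσ]
          ring
        · simp only [map_add, map_neg, map_mul, hσ]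
          intro h
          apply ha
          linear_combination h - hs - hs' - h3 - (σ s * s) * h4
      · refine ⟨0, σ r, -σ q, ?_, ?_⟩
        · simp only [map_zero, map_neg, hσ]
          ring
        · simp only [map_zero, map_neg, hσ]
          intro h
          apply h5
          linear_combination h
    · refine ⟨σ r, 0, -σ p, ?_, ?_⟩
      · simp only [map_zero, map_neg, hσ]
        ring
      · simp only [map_zero, map_neg, hσ]
        intro h
        apply h4
        linear_combination h
  · refine ⟨σ q, -σ p, 0, ?_, ?_⟩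
    · simp only [map_zero, map_neg, hσ]
      ring
    · simp only [map_zero, map_neg, hσ]
      intro h
      apply h3
      linear_combination h

end

lemma sum_three97 {K : Type} [Field K] {k : ℕ} (i j l : Fin k) (hij : i ≠ j) (hil : i ≠ l)
    (hjl : j ≠ l) (g : Fin k → K) (hg : ∀ a, a ≠ i → a ≠ j → a ≠ l → g a = 0) :
    ∑ a, g a = g i + g j + g l := by
  have h1 : ∑ a ∈ ({i, j, l} : Finset (Fin k)), g a = ∑ a, g a := by
    apply Finset.sum_subset (Finset.subset_univ _)
    intro a _ ha
    simp only [mem_insert, mem_singleton, not_or] at ha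
    exact hg a ha.1 ha.2.1 ha.2.2
  rw [← h1, Finset.sum_insert (by simp [hij, hil]), Finset.sum_insert (by simp [hjl]),
    Finset.sum_singleton]
  ring

/-- The skew hermitian matrices. -/
def skewMat97 {K : Type} [Field K] (σ : K →+* K) (k : ℕ) :
    AddSubgroup (Matrix (Fin k) (Fin k) K) where
  carrier := {M | ∀ i j, M i j = - σ (M j i)}
  zero_mem' := by intro i j; simp
  add_mem' := by
    intro M N hM hN i j
    rw [Matrix.add_apply, Matrix.add_apply, hM i j, hN i j, map_add]
    ring
  neg_mem' := by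
    intro M hM i j
    rw [Matrix.neg_apply, Matrix.neg_apply, hM i j, map_neg]

/-- SKEW -/
theorem skew97 (hT : StTrace) : StSkew := by
  intro K V _ _ _ _ _ σ hσ h1 Ω k e h hk he hh hd hΩ _ G _ _ _ hG
  obtain ⟨a0, ha0⟩ := h1
  have hμ : (a0 - σ a0) + σ (a0 - σ a0) = 0 := by
    rw [map_sub, hσ]; ring
  have hμ0 : a0 - σ a0 ≠ 0 := by
    intro h2
    exact ha0 (sub_eq_zero.1 h2).symm
  generalize a0 - σ a0 = μ at hμ hμ0
  have i0 : Fin k := ⟨0, by omega⟩
  let i : Fin k := ⟨0, by omega⟩
  let j : Fin k := ⟨1, by omega⟩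
  let l : Fin k := ⟨2, by omega⟩
  have hij : i ≠ j := by intro h2; exact absurd (congrArg Fin.val h2) (by simp [i, j])
  have hil : i ≠ l := by intro h2; exact absurd (congrArg Fin.val h2) (by simp [i, l])
  have hjl : j ≠ l := by intro h2; exact absurd (congrArg Fin.val h2) (by simp [j, l])
  let τ : skewMat97 σ k →+ K :=
    { toFun := fun M => M.1 i i + M.1 j j + M.1 l l
      map_zero' := by simp
      map_add' := by
        intro M N
        show (M.1 + N.1) i i + (M.1 + N.1) j j + (M.1 + N.1) l l = _
        simp only [Matrix.add_apply]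
        ring }
  refine hT K V (Fin k → K) (skewMat97 σ k) K Ω e
    (fun M => h ∘ₗ Matrix.mulVecLin M.1) (LinearMap.range h) he hd ?_ ?_ ?_ ?_ τ μ hμ0 ?_ G hG
  · intro s x
    exact ⟨Matrix.mulVecLin s.1 x, rfl⟩
  · intro s s'
    show h ∘ₗ Matrix.mulVecLin (s.1 + s'.1) = _
    rw [Matrix.mulVecLin_add, LinearMap.comp_add]
  · intro s hs
    apply Subtype.ext
    have h2 : ∀ x, Matrix.mulVec s.1 x = 0 := by
      intro x
      apply hh
      have h3 := LinearMap.congr_fun hs x
      rw [map_zero]
      exact h3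
    show s.1 = 0
    ext a b
    have h3 := congrFun (h2 (Pi.single b 1)) a
    rw [Matrix.mulVec_single_one] at h3
    exact h3
  · intro s
    exact hΩ s.1 s.2
  · intro y
    obtain ⟨A, B, C, hABC, hN⟩ := exists_nonisotropic97 σ hσ ⟨a0, ha0⟩ (y i) (y j) (y l)
    set N : K := A * σ A + B * σ B + C * σ C with hNdef
    have hNσ : σ N = N := by
      rw [hNdef]
      simp only [map_add, map_mul, hσ]
      ring
    let ξ : Fin k → K := fun a => if a = i then A else if a = j then B else if a = l then C else 0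
    have hξi : ξ i = A := by simp [ξ]
    have hξj : ξ j = B := by simp [ξ, hij.symm]
    have hξl : ξ l = C := by simp [ξ, hil.symm, hjl.symm]
    have hξ0 : ∀ a, a ≠ i → a ≠ j → a ≠ l → ξ a = 0 := by
      intro a h2 h3 h4
      simp [ξ, h2, h3, h4]
    have hμN : σ (μ / N) = -(μ / N) := by
      rw [map_div₀, hNσ]
      have h2 : σ μ = -μ := by linear_combination hμ
      rw [h2, neg_div]
    refine ⟨⟨fun a b => μ / N * (ξ a * σ (ξ b)), ?_⟩, ?_, ?_⟩
    · intro a b
      show μ / N * (ξ a * σ (ξ b)) = - σ (μ / N * (ξ b * σ (ξ a)))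
      rw [map_mul, map_mul, hσ, hμN]
      ring
    · show h (Matrix.mulVec (fun a b => μ / N * (ξ a * σ (ξ b))) y) = 0
      have h2 : Matrix.mulVec (fun a b => μ / N * (ξ a * σ (ξ b))) y = 0 := by
        funext a
        show ∑ b, μ / N * (ξ a * σ (ξ b)) * y b = 0
        have h3 : ∀ b, μ / N * (ξ a * σ (ξ b)) * y b = μ / N * ξ a * (σ (ξ b) * y b) := by
          intro b; ring
        rw [Finset.sum_congr rfl (fun b _ => h3 b), ← Finset.mul_sum,
          sum_three97 i j l hij hil hjl (fun b => σ (ξ b) * y b) (by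
            intro b h4 h5 h6
            rw [hξ0 b h4 h5 h6, map_zero, zero_mul])]
        show μ / N * ξ a * (σ (ξ i) * y i + σ (ξ j) * y j + σ (ξ l) * y l) = 0
        rw [hξi, hξj, hξl, hABC, mul_zero]
      rw [h2, map_zero]
    · show μ / N * (ξ i * σ (ξ i)) + μ / N * (ξ j * σ (ξ j)) + μ / N * (ξ l * σ (ξ l)) = μ
      rw [hξi, hξj, hξl, ← mul_add, ← mul_add, ← hNdef, div_mul_cancel₀ _ hN]

end

end SpreadPerm.NS
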