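import Pool.Agent.Lib.MP_e6ed9e_al.NS.Defs

/-!
Row SPLIT of the room NS.
-/

namespace SpreadPerm.NS

open Module Finset

/-- The restriction of a form to a subspace. -/
def restr {K V : Type} [Field K] [AddCommGroup V] [Module K V] (P : PForm K V)
    (W : Submodule K V) : PForm K W where
  s := P.s
  s_s := P.s_s
  eps := P.eps
  f x y := P.f x y
  Q x := P.Q x
  T := P.T
  f_add_left x y z := P.f_add_left x y z
  f_smul_left a x y := P.f_smul_left a x y
  f_symm x y := P.f_symm x y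
  Q_smul a x := P.Q_smul a x
  Q_add x y := P.Q_add x y
  Q_T x := P.Q_T x
  f_self x hx := P.f_self x hx

/-- A hyperbolic partner of a singular vector. -/
theorem partner {K V : Type} [Field K] [AddCommGroup V] [Module K V] (P : PForm K V)
    (hnd : ND P) {e : V} (he0 : e ≠ 0) (heq : P.Q e = 0) :
    ∃ z : V, P.f e z = 1 ∧ P.Q z = 0 := by
  obtain ⟨y, hy⟩ : ∃ y, P.f e y ≠ 0 := by
    by_contra hcon
    push Not at hcon
    exact he0 (hnd e hcon)
  have hee : P.f e e = 0 := P.f_self e heq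
  obtain ⟨y2, h2⟩ : ∃ y2, P.f e y2 = 1 := by
    refine ⟨P.s (P.f e y)⁻¹ • y, ?_⟩
    rw [P.f_smul_right, P.s_s, inv_mul_cancel₀ hy]
  have h3 : P.f y2 e = P.eps := by
    rw [P.f_symm, h2, map_one, mul_one]
  have heps : P.eps ≠ 0 := by
    intro h0
    have h4 := P.f_symm y2 e
    rw [h2, h0, zero_mul] at h4
    exact one_ne_zero h4
  obtain ⟨t, ht⟩ := P.Q_T y2
  refine ⟨y2 + P.s (-t / P.eps) • e, ?_, ?_⟩
  · rw [P.f_add_right, P.f_smul_right, hee, mul_zero, add_zero, h2]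
  · rw [P.Q_add, P.Q_smul _ e, heq, mul_zero, P.f_smul_right _ y2 e, P.s_s, h3,
      div_mul_cancel₀ _ heps, map_neg, ht]
    ring

theorem split88 : StSplit := by
  intro K V _ _ _ _ P _ hnd e he0 heq
  have hfd : Module.Finite K V := Module.Finite.of_finite
  obtain ⟨z, h1, h2⟩ := partner P hnd he0 heq
  have h : P.Hyp (fun _ : Fin 1 => e) (fun _ : Fin 1 => z) :=
    ⟨fun _ _ => P.f_self e heq, fun _ _ => P.f_self z h2,
      fun i j => by rw [if_pos (Subsingleton.elim i j)]; exact h1, fun _ => heq, fun _ => h2⟩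
  let W : Submodule K V := P.compl (fun _ : Fin 1 => e) (fun _ : Fin 1 => z)
  let u1 : K ≃ₗ[K] (Fin 1 → K) := (LinearEquiv.funUnique (Fin 1) K K).symm
  let φ : (K × K × W) ≃ₗ[K] V :=
    (u1.prodCongr (u1.prodCongr (LinearEquiv.refl K W))).trans h.equiv
  have hφ : ∀ x : K × K × W, φ x = (∑ i : Fin 1, (u1 x.1) i • e) +
      (∑ i : Fin 1, (u1 x.2.1) i • z) + (x.2.2 : V) := fun x => h.equiv_apply _
  have hu : ∀ (a : K) (i : Fin 1), u1 a i = a := fun a i => rfl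
  have hf : ∀ x y, P.f (φ x) (φ y) =
      x.1 * P.s y.2.1 + P.eps * (x.2.1 * P.s y.1) + (restr P W).f x.2.2 y.2.2 := by
    intro x y
    rw [hφ, hφ]
    have h3 := h.f_comb (u1 x.1) (u1 x.2.1) (u1 y.1) (u1 y.2.1) x.2.2 y.2.2 x.2.2.2 y.2.2.2
    rw [h3, Fin.sum_univ_one]
    rfl
  have hQ : ∀ x, P.Q (φ x) = P.T (x.1 * P.s x.2.1) + (restr P W).Q x.2.2 := by
    intro x
    rw [hφ]
    have h3 := h.Q_comb (u1 x.1) (u1 x.2.1) x.2.2 x.2.2.2
    rw [h3, Fin.sum_univ_one]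
    rfl
  refine ⟨W, restr P W, φ, ⟨fun _ => rfl, rfl, fun _ => rfl, hf, hQ⟩, ?_, ?_, ?_, ?_, ?_⟩
  · intro hq
    exact ⟨hq.s_id, hq.eps1, hq.T_id⟩
  · intro hh
    exact ⟨hh.s_ne, hh.eps1, hh.T_eq, fun x => hh.Q_eq x⟩
  · intro x hx
    have h3 : φ (0, 0, x) = 0 := by
      refine hnd _ fun y => ?_
      obtain ⟨y, rfl⟩ := φ.surjective y
      rw [hf, hx, zero_mul, zero_mul, mul_zero, add_zero, add_zero]
    have h4 : ((0, 0, x) : K × K × W) = 0 := φ.map_eq_zero_iff.1 h3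
    exact congrArg (fun t : K × K × W => t.2.2) h4
  · rw [hφ]
    simp [hu]
  · rw [← φ.finrank_eq, Module.finrank_prod, Module.finrank_prod, Module.finrank_self]
    ring

end SpreadPerm.NS
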