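import Pool.Agent.Lib.MP_e6ed9e_al.NS.Defs2

/-! # Room NS: row SYM, symmetric matrices (helper96) -/

namespace SpreadPerm.NS

open Module

noncomputable section

/-- The additive group of the symmetric matrices. -/
def symGrp (K : Type) [Field K] (k : ℕ) : AddSubgroup (Matrix (Fin k) (Fin k) K) where
  carrier := {M | ∀ i j, M i j = M j i}
  zero_mem' := fun _ _ => rfl
  add_mem' := by
    intro a b ha hb i j
    show a i j + b i j = a j i + b j i
    rw [ha i j, hb i j]
  neg_mem' := by
    intro a ha i j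
    show -a i j = -a j i
    rw [ha i j]

/-- A field with finitely many elements has an element not of the form `t ^ 2 - t`. -/
theorem exists_not_sq_sub (K : Type) [Field K] [Finite K] : ∃ c : K, ∀ t : K, t ^ 2 - t ≠ c := by
  by_contra hc
  push Not at hc
  have hs : Function.Surjective (fun t : K => t ^ 2 - t) := fun c => hc c
  have hi := Finite.injective_iff_surjective.2 hs
  have : (0 : K) = 1 := hi (by simp)
  exact zero_ne_one this

/-- The form `a ^ 2 - a b - c b ^ 2` is anisotropic. -/
theorem aniso_sq_sub {K : Type} [Field K] {c : K} (hc : ∀ t : K, t ^ 2 - t ≠ c) {a b : K}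
    (hab : a ≠ 0 ∨ b ≠ 0) : a ^ 2 - a * b - c * b ^ 2 ≠ 0 := by
  intro h
  by_cases hb : b = 0
  · subst hb
    rcases hab with h' | h'
    · apply h'
      have : a ^ 2 = 0 := by linear_combination h
      exact pow_eq_zero_iff (two_ne_zero) |>.1 this
    · exact h' rfl
  · apply hc (a / b)
    field_simp
    linear_combination h

theorem sym96 (hT : StTrace) : StSym := by
  intro K V _ _ _ _ _ Ω k e h hk he hh hdis hM _ G _ _ _ hG
  obtain ⟨c, hc⟩ := exists_not_sq_sub K
  have hi : 0 < k := by omega
  have hj : 1 < k := by omega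
  let i : Fin k := ⟨0, hi⟩
  let j : Fin k := ⟨1, hj⟩
  have hij : i ≠ j := by
    intro h'
    have := congrArg Fin.val h'
    exact zero_ne_one this
  let τ : symGrp K k →+ K :=
    { toFun := fun M => M.1 i i - M.1 i j - c * M.1 j j
      map_zero' := by
        show (0 : K) - 0 - c * 0 = 0
        ring
      map_add' := by
        intro A B
        show (A.1 i i + B.1 i i) - (A.1 i j + B.1 i j) - c * (A.1 j j + B.1 j j) = _
        ring }
  refine hT K V (Fin k → K) (symGrp K k) K Ω e (fun s => h ∘ₗ Matrix.mulVecLin s.1)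
    (LinearMap.range h) he hdis ?_ ?_ ?_ ?_ τ 1 one_ne_zero ?_ G hG
  · intro s x
    exact ⟨_, rfl⟩
  · intro s s'
    rw [← LinearMap.comp_add, ← Matrix.mulVecLin_add]
    rfl
  · intro s hs
    apply Subtype.ext
    ext p q
    have h1 : h (Matrix.mulVecLin s.1 (Pi.single q 1)) = h 0 := by
      rw [map_zero]
      exact LinearMap.congr_fun hs (Pi.single q 1)
    have h2 := congrFun (hh h1) p
    rw [Matrix.mulVecLin_apply, Matrix.mulVec_single_one] at h2
    exact h2
  · intro s
    exact hM s.1 s.2
  · intro y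
    obtain ⟨a, b, hab, hy⟩ : ∃ a b : K, (a ≠ 0 ∨ b ≠ 0) ∧ a * y i + b * y j = 0 := by
      by_cases hyi : y i = 0
      · exact ⟨1, 0, Or.inl one_ne_zero, by rw [hyi]; ring⟩
      · exact ⟨y j, -y i, Or.inr (neg_ne_zero.2 hyi), by ring⟩
    have hN := aniso_sq_sub hc hab
    let ξ : Fin k → K := fun p => if p = i then a else if p = j then b else 0
    have hξi : ξ i = a := if_pos rfl
    have hξj : ξ j = b := by
      show (if j = i then a else if j = j then b else 0) = b
      rw [if_neg hij.symm, if_pos rfl]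
    have hξy : ∑ q, ξ q * y q = 0 := by
      rw [← hy]
      have h0 : ∀ q, ξ q * y q =
          (if q = i then a * y i else 0) + (if q = j then b * y j else 0) := by
        intro q
        by_cases h1 : q = i
        · subst h1
          rw [if_pos rfl, if_neg hij, hξi, add_zero]
        · by_cases h2 : q = j
          · subst h2
            rw [if_neg h1, if_pos rfl, hξj, zero_add]
          · have : ξ q = 0 := by
              show (if q = i then a else if q = j then b else 0) = 0
              rw [if_neg h1, if_neg h2]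
            rw [if_neg h1, if_neg h2, this]
            ring
      rw [Finset.sum_congr rfl (fun q _ => h0 q), Finset.sum_add_distrib,
        Finset.sum_ite_eq' Finset.univ i, Finset.sum_ite_eq' Finset.univ j,
        if_pos (Finset.mem_univ _), if_pos (Finset.mem_univ _)]
    let M : Matrix (Fin k) (Fin k) K := fun p q =>
      (a ^ 2 - a * b - c * b ^ 2)⁻¹ * (ξ p * ξ q)
    have hMs : M ∈ symGrp K k := by
      intro p q
      show _ * (ξ p * ξ q) = _ * (ξ q * ξ p)
      rw [mul_comm (ξ p)]
    refine ⟨⟨M, hMs⟩, ?_, ?_⟩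
    · show h (Matrix.mulVecLin M y) = 0
      have : Matrix.mulVecLin M y = 0 := by
        rw [Matrix.mulVecLin_apply]
        funext p
        show ∑ q, (a ^ 2 - a * b - c * b ^ 2)⁻¹ * (ξ p * ξ q) * y q = 0
        have h1 : ∀ q, (a ^ 2 - a * b - c * b ^ 2)⁻¹ * (ξ p * ξ q) * y q =
            (a ^ 2 - a * b - c * b ^ 2)⁻¹ * ξ p * (ξ q * y q) := fun q => by ring
        rw [Finset.sum_congr rfl (fun q _ => h1 q), ← Finset.mul_sum, hξy, mul_zero]
      rw [this, map_zero]
    · show (a ^ 2 - a * b - c * b ^ 2)⁻¹ * (ξ i * ξ i) - (a ^ 2 - a * b - c * b ^ 2)⁻¹ * (ξ i * ξ j)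
        - c * ((a ^ 2 - a * b - c * b ^ 2)⁻¹ * (ξ j * ξ j)) = 1
      rw [hξi, hξj]
      calc (a ^ 2 - a * b - c * b ^ 2)⁻¹ * (a * a) - (a ^ 2 - a * b - c * b ^ 2)⁻¹ * (a * b)
            - c * ((a ^ 2 - a * b - c * b ^ 2)⁻¹ * (b * b))
          = (a ^ 2 - a * b - c * b ^ 2)⁻¹ * (a ^ 2 - a * b - c * b ^ 2) := by ring
        _ = 1 := inv_mul_cancel₀ hN

end

end SpreadPerm.NS
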