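import Mathlib
import Pool.Agent.Lib.MP_e6ed9e_al.NS.Defs2
import Pool.Agent.Lib.MP_e6ed9e_al.NS.Plane47

/-!
# TRACE and PLANE with correlations: the group maps stars to stars or to costars
-/

namespace SpreadPerm.NS

open Module Finset
open scoped Classical

noncomputable section

theorem traceDual47 (K V X S R : Type) [Field K] [AddCommGroup V] [Module K V] [Finite V]
    [AddCommGroup X] [Module K X] [AddCommGroup S] [Finite S] [AddCommGroup R]
    (Ω : Set (Submodule K V)) (e : X →ₗ[K] V) (L : S → X →ₗ[K] V) (T : Submodule K V)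
    (he : Function.Injective e) (hT : Disjoint (LinearMap.range e) T) (hL : ∀ s x, L s x ∈ T)
    (hadd : ∀ s s', L (s + s') = L s + L s') (hinj : ∀ s, L s = 0 → s = 0)
    (hΩ : ∀ s, LinearMap.range (e + L s) ∈ Ω)
    (τ : S →+ R) (r : R) (hr : r ≠ 0) (hy : ∀ y : X, ∃ s, L s y = 0 ∧ τ s = r)
    (hz : ∀ l : V →ₗ[K] K, ∃ s, l ∘ₗ L s = 0 ∧ τ s = r)
    [Fintype Ω] (G : Type) [Group G] [MulAction G Ω] [MulAction.IsPretransitive G Ω]
    (hG : ∀ (g : G) (x : V), x ≠ 0 → (∃ x' : V, ∀ W : Ω, x ∈ W.1 ↔ x' ∈ (g • W).1) ∨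
      (∃ l : V →ₗ[K] K, ∀ W : Ω, x ∈ W.1 ↔ (g • W).1 ≤ LinearMap.ker l)) :
    NonSpreading G Ω := by
  have : Fintype S := Fintype.ofFinite S
  have hL0 : L 0 = 0 := by
    have := hadd 0 0
    rw [add_zero] at this
    exact left_eq_add.1 this
  -- membership
  have hmem : ∀ (s s0 : S) (y : X), (e y + L s0 y ∈ LinearMap.range (e + L s)) ↔
      L s y = L s0 y := by
    intro s s0 y
    constructor
    · rintro ⟨x, hx⟩
      rw [LinearMap.add_apply] at hx
      have h1 : e (x - y) = L s0 y - L s x := by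
        rw [map_sub, sub_eq_sub_iff_add_eq_add]
        rw [hx]
        abel
      have h2 : e (x - y) ∈ T := by
        rw [h1]
        exact T.sub_mem (hL _ _) (hL _ _)
      have h3 : e (x - y) = 0 := (Submodule.disjoint_def.1 hT) _ ⟨_, rfl⟩ h2
      have h4 : x = y := sub_eq_zero.1 (he (h3.trans (map_zero e).symm))
      subst h4
      exact add_left_cancel hx
    · intro h
      exact ⟨y, by rw [LinearMap.add_apply, h]⟩
  let w : S → Ω := fun s => ⟨LinearMap.range (e + L s), hΩ s⟩
  have hw : Function.Injective w := by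
    intro s s' h
    have h1 : LinearMap.range (e + L s) = LinearMap.range (e + L s') := congrArg Subtype.val h
    have h2 : L s = L s' := by
      ext y
      have h3 : e y + L s y ∈ LinearMap.range (e + L s') := by
        rw [← h1]
        exact ⟨y, rfl⟩
      exact ((hmem s' s y).1 h3).symm
    have h3 : L (s - s') = 0 := by
      have h4 := hadd (s - s') s'
      rw [sub_add_cancel, h2] at h4
      exact right_eq_add.1 h4
    exact sub_eq_zero.1 (hinj _ h3)
  let a : S → ℤ := fun s => (if τ s = r then 1 else 0) - (if τ s = 0 then 1 else 0)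
  have ha : ∀ s, -1 ≤ a s := by
    intro s
    show -1 ≤ (if τ s = r then (1 : ℤ) else 0) - (if τ s = 0 then 1 else 0)
    split_ifs <;> norm_num
  let v : Ω → ℤ := fun W => ∑ s, if w s = W then a s else 0
  have hvw : ∀ s, v (w s) = a s := by
    intro s
    show (∑ s', if w s' = w s then a s' else 0) = a s
    rw [Finset.sum_eq_single s]
    · rw [if_pos rfl]
    · intro s' _ h
      rw [if_neg (fun h' => h (hw h'))]
    · intro h
      exact absurd (mem_univ _) h
  -- sums over sets which are invariant under a shift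
  have hshift : ∀ (P : Ω → Prop) (t : S), τ t = r → (∀ s, P (w (s + t)) ↔ P (w s)) →
      ∑ W : Ω, (if P W then v W else 0) = 0 := by
    intro P t ht hP
    have h1 : ∑ W : Ω, (if P W then v W else 0) = ∑ s, if P (w s) then a s else 0 := by
      have h2 : ∀ W : Ω, (if P W then v W else 0) =
          ∑ s, if w s = W then (if P (w s) then a s else 0) else 0 := by
        intro W
        by_cases hx : P W
        · rw [if_pos hx]
          refine Finset.sum_congr rfl fun s _ => ?_
          by_cases hs : w s = W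
          · rw [if_pos hs, if_pos hs, hs, if_pos hx]
          · rw [if_neg hs, if_neg hs]
        · rw [if_neg hx]
          refine (Finset.sum_eq_zero fun s _ => ?_).symm
          by_cases hs : w s = W
          · rw [if_pos hs, hs, if_neg hx]
          · rw [if_neg hs]
      rw [Finset.sum_congr rfl fun W _ => h2 W, Finset.sum_comm]
      refine Finset.sum_congr rfl fun s _ => ?_
      rw [Finset.sum_ite_eq, if_pos (mem_univ _)]
    rw [h1]
    have h2 : ∀ s, (if P (w s) then a s else 0) =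
        (if P (w s) then (if τ s = r then 1 else 0) else 0) -
        (if P (w s) then (if τ s = 0 then 1 else 0) else 0) := by
      intro s
      by_cases h4 : P (w s)
      · rw [if_pos h4, if_pos h4, if_pos h4]
      · rw [if_neg h4, if_neg h4, if_neg h4, sub_zero]
    rw [Finset.sum_congr rfl fun s _ => h2 s, Finset.sum_sub_distrib, sub_eq_zero,
      ← Equiv.sum_comp (Equiv.addRight t)]
    refine Finset.sum_congr rfl fun s _ => ?_
    rw [Equiv.coe_addRight]
    refine (if_congr (hP s) ?_ rfl)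
    rw [map_add, ht]
    exact if_congr add_eq_right rfl rfl
  have hsum : ∀ x' : V, ∑ W : Ω, (if x' ∈ W.1 then v W else 0) = 0 := by
    intro x'
    by_cases hex : ∃ s0, x' ∈ (w s0).1
    · obtain ⟨s0, y, hy0⟩ := hex
      rw [LinearMap.add_apply] at hy0
      obtain ⟨t, ht1, ht2⟩ := hy y
      refine hshift (fun W => x' ∈ W.1) t ht2 (fun s => ?_)
      show x' ∈ LinearMap.range (e + L (s + t)) ↔ x' ∈ LinearMap.range (e + L s)
      rw [← hy0, hmem, hmem, hadd, LinearMap.add_apply, ht1, add_zero]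
    · obtain ⟨t, _, ht2⟩ := hy 0
      exact hshift (fun W => x' ∈ W.1) t ht2
        (fun s => ⟨fun h => absurd ⟨_, h⟩ hex, fun h => absurd ⟨_, h⟩ hex⟩)
  have hsum' : ∀ l : V →ₗ[K] K,
      ∑ W : Ω, (if W.1 ≤ LinearMap.ker l then v W else 0) = 0 := by
    intro l
    obtain ⟨t, ht1, ht2⟩ := hz l
    refine hshift (fun W => W.1 ≤ LinearMap.ker l) t ht2 (fun s => ?_)
    show LinearMap.range (e + L (s + t)) ≤ LinearMap.ker l ↔
      LinearMap.range (e + L s) ≤ LinearMap.ker l
    rw [LinearMap.range_le_ker_iff, LinearMap.range_le_ker_iff, hadd, ← add_assoc]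
    have h1 : l ∘ₗ (e + L s + L t) = l ∘ₗ (e + L s) + l ∘ₗ L t := LinearMap.comp_add _ _ _
    rw [h1, ht1, add_zero]
  -- the set
  obtain ⟨s1, hs1, hτ1⟩ := hy 0
  have hs1' : L s1 ≠ 0 := by
    intro h
    rw [hinj s1 h, map_zero] at hτ1
    exact hr hτ1.symm
  obtain ⟨y0, hy0⟩ : ∃ y0, L s1 y0 ≠ 0 := by
    by_contra h
    push Not at h
    exact hs1' (LinearMap.ext h)
  have hy0' : y0 ≠ 0 := by
    rintro rfl
    exact hy0 (map_zero _)
  have hx0 : e y0 ≠ 0 := fun h => hy0' (he (h.trans (map_zero e).symm))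
  have hmem0 : ∀ s, e y0 ∈ (w s).1 ↔ L s y0 = 0 := by
    intro s
    have h := hmem s 0 y0
    rwa [hL0, LinearMap.zero_apply, add_zero] at h
  let B : Finset Ω := univ.filter (fun W : Ω => e y0 ∈ W.1)
  refine nonSpreading_of_vector v ?_ ?_ B ?_ ?_ ?_
  · intro W
    by_cases h : ∃ s, w s = W
    · obtain ⟨s, rfl⟩ := h
      rw [hvw]
      exact ha s
    · have : v W = 0 := by
        refine Finset.sum_eq_zero fun s _ => ?_
        rw [if_neg (fun h' => h ⟨s, h'⟩)]
      rw [this]
      norm_num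
  · refine ⟨w 0, ?_⟩
    rw [hvw]
    show (if τ 0 = r then (1 : ℤ) else 0) - (if τ 0 = 0 then 1 else 0) ≠ 0
    rw [map_zero, if_neg (fun h => hr h.symm), if_pos rfl]
    norm_num
  · rw [Finset.one_lt_card]
    obtain ⟨s2, hs2, hτ2⟩ := hy y0
    refine ⟨w 0, ?_, w s2, ?_, ?_⟩
    · rw [mem_filter]
      exact ⟨mem_univ _, (hmem0 0).2 (by rw [hL0]; rfl)⟩
    · rw [mem_filter]
      exact ⟨mem_univ _, (hmem0 s2).2 hs2⟩
    · intro h
      have h1 := hw h
      rw [← h1, map_zero] at hτ2
      exact hr hτ2.symm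
  · rw [← Finset.card_univ]
    refine Finset.card_lt_card ?_
    rw [Finset.ssubset_univ_iff]
    intro h
    have h1 : w s1 ∈ B := by
      rw [h]
      exact mem_univ _
    rw [mem_filter] at h1
    exact hy0 ((hmem0 s1).1 h1.2)
  · intro g
    rcases hG g (e y0) hx0 with ⟨x', hx'⟩ | ⟨l, hl⟩
    · rw [← hsum x', ← Equiv.sum_comp (MulAction.toPerm g), Finset.sum_filter]
      refine Finset.sum_congr rfl fun W _ => ?_
      exact if_congr (hx' W) rfl rfl
    · rw [← hsum' l, ← Equiv.sum_comp (MulAction.toPerm g), Finset.sum_filter]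
      refine Finset.sum_congr rfl fun W _ => ?_
      exact if_congr (hl W) rfl rfl

/-- PLANE with correlations. -/
theorem planeDual47 (K V : Type) [Field K] [Finite K] [AddCommGroup V] [Module K V]
    [Finite V] (Ω : Set (Submodule K V)) (U T : Submodule K V) (hU : 2 ≤ finrank K U)
    (hT : finrank K T = 2) (hUT : Disjoint U T)
    (hΩ : ∀ φ : U →ₗ[K] T, LinearMap.range (U.subtype + T.subtype ∘ₗ φ) ∈ Ω)
    [Fintype Ω] (G : Type) [Group G] [MulAction G Ω] [MulAction.IsPretransitive G Ω]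
    (hG : ∀ (g : G) (x : V), x ≠ 0 → (∃ x' : V, ∀ W : Ω, x ∈ W.1 ↔ x' ∈ (g • W).1) ∨
      (∃ l : V →ₗ[K] K, ∀ W : Ω, x ∈ W.1 ↔ (g • W).1 ≤ LinearMap.ker l)) :
    NonSpreading G Ω := by
  have : Fintype K := Fintype.ofFinite K
  have hfU : Module.Finite K U := Module.finite_of_finrank_pos (by omega)
  have hfT : Module.Finite K T := Module.finite_of_finrank_pos (by omega)
  have bU := Module.finBasis K U
  have bT := Module.finBasisOfFinrankEq K T hT
  let i0 : Fin (finrank K U) := ⟨0, by omega⟩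
  let i1 : Fin (finrank K U) := ⟨1, by omega⟩
  have hi : i0 ≠ i1 := by
    intro h
    exact absurd (congrArg Fin.val h) (by norm_num)
  have hab : LinearIndependent K ![bU i0, bU i1] := by
    have h1 := bU.linearIndependent.comp ![i0, i1] (by
      intro x y hxy
      fin_cases x <;> fin_cases y
      · rfl
      · exact absurd hxy hi
      · exact absurd hxy.symm hi
      · rfl)
    have h2 : (bU ∘ ![i0, i1]) = ![bU i0, bU i1] := by
      funext x
      fin_cases x <;> rfl
    rw [h2] at h1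
    exact h1
  have : Finite (U →ₗ[K] T) := Module.finite_of_finite K
  let τ : (U →ₗ[K] T) →+ K :=
    { toFun := fun φ => bT.coord 0 (φ (bU i0)) + bT.coord 1 (φ (bU i1))
      map_zero' := by simp
      map_add' := fun φ ψ => by
        rw [LinearMap.add_apply, LinearMap.add_apply, map_add, map_add]
        abel }
  refine traceDual47 K V U (U →ₗ[K] T) K Ω U.subtype (fun φ => T.subtype ∘ₗ φ) T
    U.injective_subtype (by rwa [Submodule.range_subtype]) (fun s x => (s x).2)
    (fun s s' => LinearMap.comp_add _ _ _) ?_ hΩ τ 1 one_ne_zero ?_ ?_ G hG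
  · intro s hs
    ext x
    have := LinearMap.congr_fun hs x
    exact this
  · intro y
    obtain ⟨ξ, hy, h⟩ := exists_dual47 hab y
    rcases h with h | h
    · refine ⟨LinearMap.toSpanSingleton K T (bT 0) ∘ₗ ((ξ (bU i0))⁻¹ • ξ), ?_, ?_⟩
      · show T.subtype _ = 0
        simp [hy]
      · show bT.coord 0 _ + bT.coord 1 _ = 1
        simp [h]
    · refine ⟨LinearMap.toSpanSingleton K T (bT 1) ∘ₗ ((ξ (bU i1))⁻¹ • ξ), ?_, ?_⟩
      · show T.subtype _ = 0
        simp [hy]
      · show bT.coord 0 _ + bT.coord 1 _ = 1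
        simp [h]
  · intro l
    -- a vector of `T` in the kernel of `l`
    let l' : T →ₗ[K] K := l ∘ₗ T.subtype
    obtain ⟨t, ht, ht0⟩ : ∃ t : T, l' t = 0 ∧ t ≠ 0 := by
      by_contra hcon
      push Not at hcon
      have hinj : Function.Injective l' := by
        rw [← LinearMap.ker_eq_bot, LinearMap.ker_eq_bot']
        exact hcon
      have := LinearMap.finrank_le_finrank_of_injective hinj
      rw [hT, Module.finrank_self] at this
      omega
    have hc : bT.coord 0 t ≠ 0 ∨ bT.coord 1 t ≠ 0 := by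
      by_contra hcon
      push Not at hcon
      apply ht0
      apply bT.repr.injective
      rw [map_zero]
      ext i
      fin_cases i
      · exact hcon.1
      · exact hcon.2
    have hl : ∀ ξ : U →ₗ[K] K, l ∘ₗ (T.subtype ∘ₗ (LinearMap.toSpanSingleton K T t ∘ₗ ξ)) = 0 := by
      intro ξ
      ext x
      show l' (ξ x • t) = 0
      rw [map_smul, ht, smul_zero]
    rcases hc with h | h
    · refine ⟨LinearMap.toSpanSingleton K T t ∘ₗ ((bT.coord 0 t)⁻¹ • bU.coord i0), hl _, ?_⟩
      show bT.coord 0 (((bT.coord 0 t)⁻¹ • bU.coord i0) (bU i0) • t) +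
        bT.coord 1 (((bT.coord 0 t)⁻¹ • bU.coord i0) (bU i1) • t) = 1
      have h1 : ((bT.coord 0 t)⁻¹ • bU.coord i0) (bU i0) = (bT.coord 0 t)⁻¹ := by
        simp
      have h2 : ((bT.coord 0 t)⁻¹ • bU.coord i0) (bU i1) = 0 := by
        simp [hi, hi.symm]
      rw [h1, h2, zero_smul, map_zero, add_zero, map_smul, smul_eq_mul, inv_mul_cancel₀ h]
    · refine ⟨LinearMap.toSpanSingleton K T t ∘ₗ ((bT.coord 1 t)⁻¹ • bU.coord i1), hl _, ?_⟩
      show bT.coord 0 (((bT.coord 1 t)⁻¹ • bU.coord i1) (bU i0) • t) +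
        bT.coord 1 (((bT.coord 1 t)⁻¹ • bU.coord i1) (bU i1) • t) = 1
      have h1 : ((bT.coord 1 t)⁻¹ • bU.coord i1) (bU i1) = (bT.coord 1 t)⁻¹ := by
        simp
      have h2 : ((bT.coord 1 t)⁻¹ • bU.coord i1) (bU i0) = 0 := by
        simp [hi, hi.symm]
      rw [h1, h2, zero_smul, map_zero, zero_add, map_smul, smul_eq_mul, inv_mul_cancel₀ h]

/-- Isometric subspaces. -/
theorem isometricDual47 {F V : Type} [Field F] [Finite F] [AddCommGroup V] [Module F V]
    [Finite V] (q : V → V → F) (Ω : Set (Submodule F V))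
    (hΩ : ∀ U ∈ Ω, ∀ W : Submodule F V,
      (∃ e : U ≃ₗ[F] W, ∀ x y, q (e x) (e y) = q x y) → W ∈ Ω)
    (U : Submodule F V) (hU : U ∈ Ω) (hU2 : 2 ≤ finrank F U) (T : Submodule F V)
    (hT : finrank F T = 2) (hUT : Disjoint U T)
    (hq : ∀ u ∈ U, ∀ u' ∈ U, ∀ t ∈ T, ∀ t' ∈ T, q (u + t) (u' + t') = q u u')
    [Fintype Ω] (G : Type) [Group G] [MulAction G Ω] [MulAction.IsPretransitive G Ω]
    (hG : ∀ (g : G) (x : V), x ≠ 0 → (∃ x' : V, ∀ W : Ω, x ∈ W.1 ↔ x' ∈ (g • W).1) ∨
      (∃ l : V →ₗ[F] F, ∀ W : Ω, x ∈ W.1 ↔ (g • W).1 ≤ LinearMap.ker l)) :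
    NonSpreading G Ω := by
  refine planeDual47 F V Ω U T hU2 hT hUT ?_ G hG
  intro φ
  have hinj : Function.Injective (U.subtype + T.subtype ∘ₗ φ) := by
    rw [← LinearMap.ker_eq_bot, LinearMap.ker_eq_bot']
    intro x hx
    have h1 : (x : V) = - (φ x : V) := by
      rw [eq_neg_iff_add_eq_zero]
      exact hx
    have h2 : (x : V) = 0 := by
      refine (Submodule.disjoint_def.1 hUT) _ x.2 ?_
      rw [h1]
      exact T.neg_mem (φ x).2
    exact Subtype.ext h2
  refine hΩ U hU _ ⟨LinearEquiv.ofInjective _ hinj, fun x y => ?_⟩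
  rw [LinearEquiv.ofInjective_apply, LinearEquiv.ofInjective_apply]
  exact hq _ x.2 _ y.2 _ (φ x).2 _ (φ y).2

end

end SpreadPerm.NS
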