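import Pool.Agent.Lib.MP_e6ed9e_al.NS.Univ88

namespace SpreadPerm.NS

theorem univ47 : StUniv := fun K V _ _ _ _ _ P hP hnd hn c hc hsc =>
  univ88' K V P hP hnd hn c hc hsc

end SpreadPerm.NS
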