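import Mathlib
import Pool.Agent.Lib.MP_e6ed9e_al.NS.AltForm47
import Pool.Agent.Lib.MP_e6ed9e_al.NS.TraceDual47
import Pool.Agent.Lib.MP_e6ed9e_al.NS.All47
import Pool.Agent.Lib.MP_e6ed9e_al.NS.Alt47
import Pool.Agent.Lib.MP_e6ed9e_al.NS.Points96
import Pool.Agent.Lib.MP_e6ed9e_al.NS.Conic96
import Pool.Agent.Lib.MP_e6ed9e_al.NS.Sym96
import Pool.Agent.Lib.MP_e6ed9e_al.NS.Lift97
import Pool.Agent.Lib.MP_e6ed9e_al.NS.Line97
import Pool.Agent.Lib.MP_e6ed9e_al.NS.Forms97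
import Pool.Agent.Lib.MP_e6ed9e_al.NS.Skew97
import Pool.Agent.Lib.MP_e6ed9e_al.NS.Edge47
import Pool.Agent.Lib.MP_e6ed9e_al.NS.Sing88
import Pool.Agent.Lib.MP_e6ed9e_al.NS.Split88
import Pool.Agent.Lib.MP_e6ed9e_al.NS.Ts88
import Pool.Agent.Lib.MP_e6ed9e_al.NS.Reg88
import Pool.Agent.Lib.MP_e6ed9e_al.NS.UnivW47
import Pool.Agent.Lib.MP_e6ed9e_al.NS.Herm34
import Pool.Agent.Lib.MP_e6ed9e_al.NS.Four30

/-!
# The clauses for nonsingular points, quadratic forms and subspaces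
-/

namespace SpreadPerm.NS.Clauses47

open Module SpreadPerm

section

variable {F : Type} {V : Type} [Field F] [AddCommGroup V] [Module F V]

/-- The points of the projective space with representatives in `S`. -/
def Pts (F : Type) {V : Type} [Field F] [AddCommGroup V] [Module F V] (S : Set V) : Type :=
  {p : Projectivization F V // p.rep ∈ S}

noncomputable instance (S : Set V) [Finite V] : Fintype (Pts F S) :=
  @Fintype.ofFinite _ (Subtype.finite)

/-- The group permutes the sections of `Pts F S` by the hyperplanes perpendicular to the vectors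
in `Z` (the singular vectors). -/
def Permutes (F : Type) {V : Type} [Field F] [AddCommGroup V] [Module F V] (S Z : Set V)
    (perp : V → V → Prop) (G : Type) [Group G] [MulAction G (Pts F S)] : Prop :=
  ∀ (g : G) (x : V), x ∈ Z → x ≠ 0 → ∃ x' ∈ Z, ∀ p : Pts F S,
    perp x p.1.rep ↔ perp x' (g • p).1.rep

/-- The quadratic forms in `S` with polar form `B`. -/
def Forms (B : V →ₗ[F] V →ₗ[F] F) (S : Set (QuadraticForm F V)) : Type :=
  {Q : QuadraticForm F V // (∀ x y, QuadraticMap.polar Q x y = B x y) ∧ Q ∈ S}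

/-- No group is spreading which is transitive on the set `Ω` of subspaces and permutes the stars
`{W ∈ Ω : x ∈ W}`, `x ≠ 0`. -/
def NoneSpreading (Ω : Set (Submodule F V)) : Prop :=
  ∀ [Fintype Ω] (G : Type) [Group G] [MulAction G Ω] [MulAction.IsPretransitive G Ω],
    (∀ (g : G) (x : V), x ≠ 0 → ∃ x' : V, ∀ W : Ω, x ∈ W.1 ↔ x' ∈ (g • W).1) →
    NonSpreading G Ω

/-- No group is spreading which is transitive on the set `Ω` of subspaces and maps each star
`{W ∈ Ω : x ∈ W}`, `x ≠ 0`, to a star or to a costar `{W ∈ Ω : W ≤ H}`, where `H` is the kernel of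
a linear form. -/
def NoneSpreadingDual (Ω : Set (Submodule F V)) : Prop :=
  ∀ [Fintype Ω] (G : Type) [Group G] [MulAction G Ω] [MulAction.IsPretransitive G Ω],
    (∀ (g : G) (x : V), x ≠ 0 → (∃ x' : V, ∀ W : Ω, x ∈ W.1 ↔ x' ∈ (g • W).1) ∨
      (∃ l : V →ₗ[F] F, ∀ W : Ω, x ∈ W.1 ↔ (g • W).1 ≤ LinearMap.ker l)) →
    NonSpreading G Ω

/-- The form `f` is nondegenerate. -/
def Nondeg (f : V → V → F) : Prop := ∀ x, (∀ y, f x y = 0) → x = 0

end

/-- (1) The points with values in a set `C` of nonzero values, closed under multiplication by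
nonzero squares; quadratic forms. -/
def QuadraticPoints : Prop :=
  ∀ (F V : Type) [Field F] [Finite F] [AddCommGroup V] [Module F V] [Finite V]
  (Q : QuadraticForm F V), Nondeg (fun x y => QuadraticMap.polar Q x y) →
  4 ≤ finrank F V → ∀ C : Set F, C.Nonempty →
  (∀ t ∈ C, t ≠ 0 ∧ ∀ a : F, a ≠ 0 → t * a ^ 2 ∈ C) →
  ∀ (G : Type) [Group G] [MulAction G (Pts F {x | Q x ∈ C})]
  [MulAction.IsPretransitive G (Pts F {x | Q x ∈ C})],
  Permutes F {x | Q x ∈ C} {x | Q x = 0} (fun x y => QuadraticMap.polar Q x y = 0) G →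
  NonSpreading G (Pts F {x | Q x ∈ C})

/-- (2) The nonisotropic points of a hermitian space. -/
def HermitianPoints : Prop :=
  ∀ (F V : Type) [Field F] [Finite F] [AddCommGroup V] [Module F V] [Finite V]
  (σ : F →+* F), (∀ a, σ (σ a) = a) → (∃ a, σ a ≠ a) →
  ∀ h : V →ₗ[F] V →ₛₗ[σ] F, (∀ x y, h y x = σ (h x y)) →
  Nondeg (fun x y => h x y) → 4 ≤ finrank F V →
  ∀ (G : Type) [Group G] [MulAction G (Pts F {x | h x x ≠ 0})]
  [MulAction.IsPretransitive G (Pts F {x | h x x ≠ 0})],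
  Permutes F {x | h x x ≠ 0} {x | h x x = 0} (fun x y => h x y = 0) G →
  NonSpreading G (Pts F {x | h x x ≠ 0})

/-- (3) The quadratic forms in a set `S`, closed under the isometries of `B`, with the
nondegenerate polar form `B`; characteristic two, at least four field elements. -/
def QuadraticForms : Prop :=
  ∀ (F V : Type) [Field F] [Fintype F] [AddCommGroup V] [Module F V] [Finite V]
  (B : V →ₗ[F] V →ₗ[F] F), (2 : F) = 0 → 4 ≤ Fintype.card F → (∀ x, B x x = 0) →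
  Nondeg (fun x y => B x y) → 4 ≤ finrank F V →
  ∀ S : Set (QuadraticForm F V),
  (∀ Q ∈ S, ∀ g : V ≃ₗ[F] V, (∀ x y, B (g x) (g y) = B x y) → Q.comp g.toLinearMap ∈ S) →
  ∀ [Fintype (Forms B S)] (G : Type) [Group G] [MulAction G (Forms B S)]
  [MulAction.IsPretransitive G (Forms B S)], Nonempty (Forms B S) →
  (∀ (g : G) (x : V), x ≠ 0 → ∃ x' : V, ∀ Q : Forms B S, Q.1 x = 0 ↔ (g • Q).1 x' = 0) →
  NonSpreading G (Forms B S)

/-- (4) A set `Ω` of subspaces, closed under isometry (`q` is any function on `V × V`, in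
particular a form or the zero function), a member `U` of dimension at least two, and a plane `T`
disjoint from `U` which does not change the values of `q` on `U`. -/
def IsometricSubspaces : Prop :=
  ∀ (F V : Type) [Field F] [Finite F] [AddCommGroup V] [Module F V] [Finite V]
  (q : V → V → F) (Ω : Set (Submodule F V)),
  (∀ U ∈ Ω, ∀ W : Submodule F V,
    (∃ e : U ≃ₗ[F] W, ∀ x y, q (e x) (e y) = q x y) → W ∈ Ω) →
  ∀ U ∈ Ω, 2 ≤ finrank F U → ∀ T : Submodule F V, finrank F T = 2 → Disjoint U T →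
  (∀ u ∈ U, ∀ u' ∈ U, ∀ t ∈ T, ∀ t' ∈ T, q (u + t) (u' + t') = q u u') →
  NoneSpreadingDual Ω

/-- (5) The totally isotropic subspaces of dimension `k`, alternating forms. -/
def SymplecticSubspaces : Prop :=
  ∀ (F V : Type) [Field F] [Finite F] [AddCommGroup V] [Module F V] [Finite V]
  (B : V →ₗ[F] V →ₗ[F] F), (∀ x, B x x = 0) → Nondeg (fun x y => B x y) →
  ∀ k : ℕ, 2 ≤ k → (∃ W₀ : Submodule F V, finrank F W₀ = k ∧ ∀ x ∈ W₀, ∀ y ∈ W₀, B x y = 0) →
  NoneSpreading {W : Submodule F V | finrank F W = k ∧ ∀ x ∈ W, ∀ y ∈ W, B x y = 0}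

/-- (6) The totally singular subspaces of dimension `k`, quadratic forms. -/
def QuadraticSubspaces : Prop :=
  ∀ (F V : Type) [Field F] [Finite F] [AddCommGroup V] [Module F V] [Finite V]
  (Q : QuadraticForm F V), (∀ x, Q x = 0 → (∀ y, QuadraticMap.polar Q x y = 0) → x = 0) →
  ∀ k : ℕ, 2 ≤ k → (∃ W₀ : Submodule F V, finrank F W₀ = k ∧ ∀ x ∈ W₀, Q x = 0) →
  NoneSpreading {W : Submodule F V | finrank F W = k ∧ ∀ x ∈ W, Q x = 0}

/-- (7) A set `Ω` of subspaces, closed under the isometries `g` of a quadratic form with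
`g x - x` singular for all `x`, with a totally singular member of dimension at least four (for
example one of the two families of maximal subspaces of a hyperbolic space). -/
def QuadraticFamilies : Prop :=
  ∀ (F V : Type) [Field F] [Finite F] [AddCommGroup V] [Module F V] [Finite V]
  (Q : QuadraticForm F V), (∀ x, Q x = 0 → (∀ y, QuadraticMap.polar Q x y = 0) → x = 0) →
  ∀ Ω : Set (Submodule F V), (∀ W ∈ Ω, ∀ g : V ≃ₗ[F] V, (∀ x, Q (g x) = Q x) →
    (∀ x, Q (g x - x) = 0) → W.map g.toLinearMap ∈ Ω) →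
  ∀ W₀ ∈ Ω, 4 ≤ finrank F W₀ → (∀ x ∈ W₀, Q x = 0) → NoneSpreading Ω

/-- (8) The totally isotropic subspaces of dimension `k`, hermitian forms. -/
def HermitianSubspaces : Prop :=
  ∀ (F V : Type) [Field F] [Finite F] [AddCommGroup V] [Module F V] [Finite V]
  (σ : F →+* F), (∀ a, σ (σ a) = a) → (∃ a, σ a ≠ a) →
  ∀ h : V →ₗ[F] V →ₛₗ[σ] F, (∀ x y, h y x = σ (h x y)) → Nondeg (fun x y => h x y) →
  ∀ k : ℕ, 3 ≤ k → (∃ W₀ : Submodule F V, finrank F W₀ = k ∧ ∀ x ∈ W₀, h x x = 0) →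
  NoneSpreading {W : Submodule F V | finrank F W = k ∧ ∀ x ∈ W, h x x = 0}

/-- (9) The edges of a graph (`Ω` is a set of unordered pairs) which contains a cycle of even length
`2 r`, with the vertices `a 0, b 0, a 1, b 1, ...`; the group permutes the stars of the vertices
(for example pairs of incident or of complementary subspaces and groups with correlations, flags
of generalized polygons, 2-subsets). -/
def EdgeActions : Prop :=
  ∀ (X : Type) (Ω : Set (Sym2 X)) [Fintype Ω] (r : ℕ), 2 ≤ r →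
  ∀ a b : ZMod r → X, Function.Injective a → Function.Injective b → (∀ i j, a i ≠ b j) →
  (∀ i, s(a i, b i) ∈ Ω) → (∀ i, s(b i, a (i + 1)) ∈ Ω) →
  ∀ (G : Type) [Group G] [MulAction G Ω] [MulAction.IsPretransitive G Ω],
  (∀ (g : G) (x : X), ∃ x' : X, ∀ e : Ω, x ∈ e.1 ↔ x' ∈ (g • e).1) → NonSpreading G Ω

theorem change_fintype {G Ω : Type} [Group G] [MulAction G Ω] (i j : Fintype Ω)
    (h : @NonSpreading G _ Ω i _) : @NonSpreading G _ Ω j _ := by
  rwa [Subsingleton.elim j i]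

theorem stAll : NS.StAll :=
  NS.all47 NS.stLift97 NS.split88 NS.sing88
    (NS.stLine97 NS.split88 NS.sing88 NS.univ47) NS.conic96 NS.stHerm3_34 NS.stFour30

theorem stPoints : NS.StPoints := NS.stPoints96 stAll NS.split88 NS.sing88 NS.univ47

theorem quadraticPoints : QuadraticPoints := by
  intro F V _ _ _ _ _ Q hnd hn C hC hCl G _ _ _ hG
  have hCl' : ∀ t ∈ C, ∀ a : F, a ≠ 0 → t * (a * (NS.qf Q).s a) ∈ C := by
    intro t ht a ha
    have := (hCl t ht).2 a ha
    rwa [pow_two] at this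
  obtain ⟨t, ht⟩ := hC
  have hne := NS.nonempty_pt NS.univ47 (NS.qf Q) (Or.inl (NS.qf_isQuad Q)) hnd hn C hCl' ht
    (hCl t ht).1 rfl
  let _ : MulAction G (NS.Pt (NS.qf Q) C) := (inferInstance : MulAction G (Pts F {x | Q x ∈ C}))
  have : MulAction.IsPretransitive G (NS.Pt (NS.qf Q) C) :=
    (inferInstance : MulAction.IsPretransitive G (Pts F {x | Q x ∈ C}))
  have h := stPoints F V (NS.qf Q) (Or.inl (NS.qf_isQuad Q)) hnd hn C
    (fun t ht => (hCl t ht).1) hCl' G hne (fun g x hx hQ => hG g x hQ hx)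
  exact change_fintype (Ω := Pts F {x | Q x ∈ C}) _ _ h

theorem hermitianPoints : HermitianPoints := by
  intro F V _ _ _ _ _ σ h2 h1 h hh hnd hn G _ _ _ hG
  have hCl' : ∀ t ∈ {t : F | t ≠ 0}, ∀ a : F, a ≠ 0 →
      t * (a * (NS.hf σ h2 h1 h hh).s a) ∈ {t : F | t ≠ 0} := by
    intro t ht a ha
    exact mul_ne_zero ht (mul_ne_zero ha (fun h' => ha ((map_eq_zero σ).1 h')))
  have hne := NS.nonempty_pt NS.univ47 (NS.hf σ h2 h1 h hh) (Or.inr (NS.hf_isHerm σ h2 h1 h hh))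
    hnd hn {t : F | t ≠ 0} hCl' (t := 1) one_ne_zero one_ne_zero (map_one σ)
  let _ : MulAction G (NS.Pt (NS.hf σ h2 h1 h hh) {t : F | t ≠ 0}) :=
    (inferInstance : MulAction G (Pts F {x | h x x ≠ 0}))
  have : MulAction.IsPretransitive G (NS.Pt (NS.hf σ h2 h1 h hh) {t : F | t ≠ 0}) :=
    (inferInstance : MulAction.IsPretransitive G (Pts F {x | h x x ≠ 0}))
  have h' := stPoints F V (NS.hf σ h2 h1 h hh) (Or.inr (NS.hf_isHerm σ h2 h1 h hh)) hnd hn
    {t : F | t ≠ 0} (fun t ht => ht) hCl' G hne (fun g x hx hQ => hG g x hQ hx)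
  exact change_fintype (Ω := Pts F {x | h x x ≠ 0}) _ _ h'

theorem isometricSubspaces : IsometricSubspaces := by
  intro F V _ _ _ _ _ q Ω hΩ U hU hU2 T hT hUT hq _ G _ _ _ hG
  exact NS.isometricDual47 q Ω hΩ U hU hU2 T hT hUT hq G hG

theorem symplecticSubspaces : SymplecticSubspaces := by
  intro F V _ _ _ _ _ B hB hnd k hk hW _ G _ _ _ hG
  obtain ⟨W₀, hW₀, hW⟩ := hW
  obtain ⟨e, h, D, he⟩ := NS.exists_dual (NS.af B hB) (fun x _ hx => hnd x hx) W₀
    ⟨fun _ _ => rfl, hW⟩ hW₀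
  refine NS.sym96 NS.trace47 F V _ k e h hk D.inj_e D.inj_h D.disj ?_ G hG
  intro M hM
  exact ⟨D.finrank_gr M, (D.ts_symp (fun _ => rfl) rfl (fun _ => rfl) M hM).2⟩

theorem ts_qf {F V : Type} [Field F] [AddCommGroup V] [Module F V] (Q : QuadraticForm F V)
    (W₀ : Submodule F V) (hW : ∀ x ∈ W₀, Q x = 0) : (NS.qf Q).TS W₀ := by
  refine ⟨hW, fun x hx y hy => ?_⟩
  show QuadraticMap.polar Q x y = 0
  rw [QuadraticMap.polar, hW x hx, hW y hy, hW _ (W₀.add_mem hx hy)]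
  ring

theorem quadraticSubspaces : QuadraticSubspaces := by
  intro F V _ _ _ _ _ Q hnd k hk hW _ G _ _ _ hG
  obtain ⟨W₀, hW₀, hW⟩ := hW
  exact NS.reg88 (NS.qf Q) (NS.qf_isQuad Q) hnd k hk W₀ (ts_qf Q W₀ hW) hW₀
    {W : Submodule F V | finrank F W = k ∧ ∀ x ∈ W, Q x = 0} (fun W h1 h2 => ⟨h2, h1.1⟩) G hG

theorem quadraticFamilies : QuadraticFamilies := by
  intro F V _ _ _ _ _ Q hnd Ω hΩ W₀ hW₀ hk hW _ G _ _ _ hG
  obtain ⟨e, h, D, he⟩ := NS.exists_dual (NS.qf Q) hnd W₀ (ts_qf Q W₀ hW) rfl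
  refine NS.alt47 NS.trace47 F V _ _ e h hk D.inj_e D.inj_h D.disj ?_ G hG
  intro M h0 h1
  obtain ⟨g, hg1, hg2, hg3⟩ := D.exists_isometry (NS.qf_isQuad Q) M h0 h1
  rw [hg3, he]
  exact hΩ W₀ hW₀ g hg1 hg2

theorem hermitianSubspaces : HermitianSubspaces := by
  intro F V _ _ _ _ _ σ h2 h1 h hh hnd k hk hW _ G _ _ _ hG
  obtain ⟨W₀, hW₀, hW⟩ := hW
  have hts : (NS.hf σ h2 h1 h hh).TS W₀ := by
    refine ⟨hW, fun x hx y hy => ?_⟩
    show h x y = 0
    obtain ⟨w, hw⟩ := NS.tr_half h2 h1 1 (map_one σ)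
    have e1 := hW _ (W₀.add_mem hx (W₀.smul_mem (h x y * w) hy))
    have e2 : h (x + (h x y * w) • y) (x + (h x y * w) • y) =
        h x x + σ (h x y * w) * h x y + (h x y * w) * h y x +
          (h x y * w) * (σ (h x y * w) * h y y) := by
      rw [LinearMap.map_add h, LinearMap.add_apply, LinearMap.map_smul h, map_add, map_add,
        LinearMap.smul_apply, LinearMap.smul_apply, LinearMap.map_smulₛₗ (h x),
        LinearMap.map_smulₛₗ (h y)]
      simp only [smul_eq_mul]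
      ring
    rw [e2, hW x hx, hW y hy, hh x y, map_mul] at e1
    have e3 : (h x y * σ (h x y)) * (w + σ w) = 0 := by linear_combination e1
    rw [hw, mul_one] at e3
    rcases mul_eq_zero.1 e3 with e4 | e4
    · exact e4
    · exact (map_eq_zero σ).1 e4
  obtain ⟨e, h', D, he⟩ := NS.exists_dual (NS.hf σ h2 h1 h hh) (fun x _ hx => hnd x hx) W₀ hts hW₀
  refine NS.skew97 NS.trace47 F V σ h2 h1 _ k e h' hk D.inj_e D.inj_h D.disj ?_ G hG
  intro M hM
  exact ⟨D.finrank_gr M, (D.ts_herm (NS.hf_isHerm σ h2 h1 h hh) M hM).1⟩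

end SpreadPerm.NS.Clauses47
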