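import Mathlib
import Pool.Agent.Lib.MP_e6ed9e_al.NS.Defs

/-!
# FORMS: the symplectic groups in characteristic two on quadratic forms
-/

namespace SpreadPerm.NS

open Module Finset
open scoped Classical

noncomputable section

section
variable {K V : Type} [Field K] [AddCommGroup V] [Module K V]

/-- The map with `e ↦ a e + b f`, `f ↦ c e + d f`, and the identity on the complement. -/
def planeMap97 (B : V →ₗ[K] V →ₗ[K] K) (e f : V) (a b c d : K) : V →ₗ[K] V :=
  LinearMap.id + (B.flip f).smulRight ((a - 1) • e + b • f) -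
    (B.flip e).smulRight (c • e + (d - 1) • f)

lemma planeMap_apply97 (B : V →ₗ[K] V →ₗ[K] K) (e f : V) (a b c d : K) (v : V) :
    planeMap97 B e f a b c d v = v + B v f • ((a - 1) • e + b • f) -
      B v e • (c • e + (d - 1) • f) := by
  simp [planeMap97]

variable {B : V →ₗ[K] V →ₗ[K] K}

lemma alt_symm97 (hB : ∀ x, B x x = 0) (x y : V) : B x y = -B y x := by
  have h := hB (x + y)
  simp only [map_add, LinearMap.add_apply, hB] at h
  linear_combination h

lemma planeMap_e97 (hB : ∀ x, B x x = 0) {e f : V} (hef : B e f = 1) (a b c d : K) :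
    planeMap97 B e f a b c d e = a • e + b • f := by
  rw [planeMap_apply97, hef, hB, zero_smul, sub_zero, one_smul, sub_smul, one_smul]
  abel

lemma planeMap_f97 (hB : ∀ x, B x x = 0) {e f : V} (hef : B e f = 1) (a b c d : K) :
    planeMap97 B e f a b c d f = c • e + d • f := by
  have hfe : B f e = -1 := by rw [alt_symm97 hB, hef]
  rw [planeMap_apply97, hfe, hB, zero_smul, add_zero, neg_smul, one_smul, sub_smul, one_smul]
  abel

lemma planeMap_z97 {e f : V} (a b c d : K) {z : V} (h1 : B z e = 0) (h2 : B z f = 0) :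
    planeMap97 B e f a b c d z = z := by
  rw [planeMap_apply97, h1, h2]
  simp

lemma planeMap_isom97 (hB : ∀ x, B x x = 0) {e f : V} (hef : B e f = 1) {a b c d : K}
    (hd : a * d - b * c = 1) (v w : V) :
    B (planeMap97 B e f a b c d v) (planeMap97 B e f a b c d w) = B v w := by
  have hfe : B f e = -1 := by rw [alt_symm97 hB, hef]
  rw [planeMap_apply97, planeMap_apply97]
  simp only [map_add, map_sub, map_smul, LinearMap.add_apply, LinearMap.sub_apply,
    LinearMap.smul_apply, smul_eq_mul, hB, hef, hfe]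
  rw [alt_symm97 hB e w, alt_symm97 hB f w]
  linear_combination (B w f * B v e - B w e * B v f) * hd

/-- The isometries of the plane, extended by the identity. -/
lemma exists_isom97 [Finite K] [Finite V] (hB : ∀ x, B x x = 0)
    (hn : ∀ x, (∀ y, B x y = 0) → x = 0) {e f : V} (hef : B e f = 1) {a b c d : K}
    (hd : a * d - b * c = 1) : ∃ g : V ≃ₗ[K] V, (∀ x y, B (g x) (g y) = B x y) ∧
      g e = a • e + b • f ∧ g f = c • e + d • f ∧
      ∀ z, B z e = 0 → B z f = 0 → g z = z := by
  have hinj : Function.Injective (planeMap97 B e f a b c d) := by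
    rw [injective_iff_map_eq_zero]
    intro v hv
    apply hn
    intro w
    rw [← planeMap_isom97 hB hef hd v w, hv, map_zero, LinearMap.zero_apply]
  haveI : Module.Finite K V := Module.Finite.of_finite
  refine ⟨LinearEquiv.ofInjectiveEndo _ hinj, ?_, ?_, ?_, ?_⟩
  · intro x y
    exact planeMap_isom97 hB hef hd x y
  · exact planeMap_e97 hB hef a b c d
  · exact planeMap_f97 hB hef a b c d
  · intro z h1 h2
    exact planeMap_z97 a b c d h1 h2

/-- An isometry acts on the forms. -/
def formsMap97 (S : Set (QuadraticForm K V))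
    (hS : ∀ Q ∈ S, ∀ g : V ≃ₗ[K] V, (∀ x y, B (g x) (g y) = B x y) → Q.comp g.toLinearMap ∈ S)
    (g : V ≃ₗ[K] V) (hg : ∀ x y, B (g x) (g y) = B x y) (Q : Forms B S) : Forms B S :=
  ⟨Q.1.comp g.toLinearMap, by
    intro x y
    have h := Q.2.1 (g x) (g y)
    rw [hg] at h
    rw [← h]
    simp [QuadraticMap.polar], hS _ Q.2.2 g hg⟩

lemma formsMap_apply97 (S : Set (QuadraticForm K V))
    (hS : ∀ Q ∈ S, ∀ g : V ≃ₗ[K] V, (∀ x y, B (g x) (g y) = B x y) → Q.comp g.toLinearMap ∈ S)
    (g : V ≃ₗ[K] V) (hg : ∀ x y, B (g x) (g y) = B x y) (Q : Forms B S) (x : V) :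
    (formsMap97 S hS g hg Q).1 x = Q.1 (g x) := rfl

/-- An isometry acts on the forms by a permutation. -/
def formsEquiv97 (S : Set (QuadraticForm K V))
    (hS : ∀ Q ∈ S, ∀ g : V ≃ₗ[K] V, (∀ x y, B (g x) (g y) = B x y) → Q.comp g.toLinearMap ∈ S)
    (g : V ≃ₗ[K] V) (hg : ∀ x y, B (g x) (g y) = B x y) : Forms B S ≃ Forms B S where
  toFun := formsMap97 S hS g hg
  invFun := formsMap97 S hS g.symm (by
    intro x y
    have h := hg (g.symm x) (g.symm y)
    rw [LinearEquiv.apply_symm_apply, LinearEquiv.apply_symm_apply] at h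
    exact h.symm)
  left_inv Q := by
    apply Subtype.ext
    apply QuadraticMap.ext
    intro x
    rw [formsMap_apply97, formsMap_apply97, LinearEquiv.apply_symm_apply]
  right_inv Q := by
    apply Subtype.ext
    apply QuadraticMap.ext
    intro x
    rw [formsMap_apply97, formsMap_apply97, LinearEquiv.symm_apply_apply]

lemma card_formsEquiv97 (S : Set (QuadraticForm K V)) [Fintype (Forms B S)]
    (T : Forms B S ≃ Forms B S) (P : Forms B S → Prop) [DecidablePred P]
    [DecidablePred (fun Q => P (T Q))] :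
    (univ.filter (fun Q => P (T Q))).card = (univ.filter P).card := by
  refine Finset.card_bij (fun Q _ => T Q) ?_ ?_ ?_
  · intro Q hQ
    simp only [mem_filter, mem_univ, true_and] at hQ ⊢
    exact hQ
  · intro Q _ R _ h
    exact T.injective h
  · intro Q hQ
    refine ⟨T.symm Q, ?_, T.apply_symm_apply Q⟩
    simp only [mem_filter, mem_univ, true_and] at hQ ⊢
    rw [T.apply_symm_apply]
    exact hQ

/-- The number of forms with given values on `e, f, z`. -/
def cnt97 (S : Set (QuadraticForm K V)) [Fintype (Forms B S)] (e f z : V) (α β t : K) : ℕ :=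
  (univ.filter (fun Q : Forms B S => Q.1 e = α ∧ Q.1 f = β ∧ Q.1 z = t)).card

lemma fadd97 {S : Set (QuadraticForm K V)} (Q : Forms B S) (x y : V) :
    Q.1 (x + y) = Q.1 x + Q.1 y + B x y := by
  have h : Q.1 (x + y) - Q.1 x - Q.1 y = B x y := Q.2.1 x y
  linear_combination h

lemma fsmul97 {S : Set (QuadraticForm K V)} (Q : Forms B S) (a : K) (x : V) :
    Q.1 (a • x) = a * a * Q.1 x := QuadraticMap.map_smul Q.1 a x

/-- A quadratic form on `x₁ e + x₂ f + z`. -/
lemma form_comb97 {S : Set (QuadraticForm K V)} (Q : Forms B S) {e f z : V} (hef : B e f = 1)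
    (h1 : B e z = 0) (h2 : B f z = 0) (x y : K) :
    Q.1 (x • e + y • f + z) = x * x * Q.1 e + y * y * Q.1 f + x * y + Q.1 z := by
  rw [fadd97, fadd97, fsmul97, fsmul97]
  simp only [map_add, map_smul, LinearMap.add_apply, LinearMap.smul_apply, h1, h2, hef,
    smul_eq_mul]
  ring

lemma form_comb2_97 {S : Set (QuadraticForm K V)} (Q : Forms B S) {e f : V} (hef : B e f = 1)
    (x y : K) :
    Q.1 (x • e + y • f) = x * x * Q.1 e + y * y * Q.1 f + x * y := by
  have h := form_comb97 Q (z := 0) hef (by simp) (by simp) x y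
  rw [add_zero, QuadraticMap.map_zero, add_zero] at h
  exact h

/-- The four planes have the same number of extensions. -/
lemma cnt_plane97 [Finite K] [Finite V] (h2 : (2 : K) = 0) (hB : ∀ x, B x x = 0)
    (hn : ∀ x, (∀ y, B x y = 0) → x = 0) (S : Set (QuadraticForm K V))
    (hS : ∀ Q ∈ S, ∀ g : V ≃ₗ[K] V, (∀ x y, B (g x) (g y) = B x y) → Q.comp g.toLinearMap ∈ S)
    [Fintype (Forms B S)] {e f z : V} (hef : B e f = 1) (hze : B z e = 0) (hzf : B z f = 0)
    (a b c d t : K) (hd : a * d - b * c = 1) :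
    cnt97 (B := B) S e f z (a * b) (c * d) t = cnt97 (B := B) S e f z 0 0 t := by
  obtain ⟨g, hg, hge, hgf, hgz⟩ := exists_isom97 hB hn hef hd
  have h := card_formsEquiv97 S (formsEquiv97 S hS g hg)
    (fun Q => Q.1 e = a * b ∧ Q.1 f = c * d ∧ Q.1 z = t)
  unfold cnt97
  rw [← h]
  congr 1
  apply Finset.filter_congr
  intro Q _
  have e1 : ((formsEquiv97 S hS g hg) Q).1 e = a * a * Q.1 e + b * b * Q.1 f + a * b := by
    show (formsMap97 S hS g hg Q).1 e = _
    rw [formsMap_apply97, hge, form_comb2_97 Q hef]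
  have e2 : ((formsEquiv97 S hS g hg) Q).1 f = c * c * Q.1 e + d * d * Q.1 f + c * d := by
    show (formsMap97 S hS g hg Q).1 f = _
    rw [formsMap_apply97, hgf, form_comb2_97 Q hef]
  have e3 : ((formsEquiv97 S hS g hg) Q).1 z = Q.1 z := by
    show (formsMap97 S hS g hg Q).1 z = _
    rw [formsMap_apply97, hgz z hze hzf]
  rw [e1, e2, e3]
  have hdd : a * a * (d * d) - b * b * (c * c) = 1 := by
    linear_combination (a * d + b * c + 1) * hd + (b * c) * h2
  constructor
  · rintro ⟨h3, h4, h5⟩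
    have h6 : a * a * Q.1 e + b * b * Q.1 f = 0 := by linear_combination h3
    have h7 : c * c * Q.1 e + d * d * Q.1 f = 0 := by linear_combination h4
    refine ⟨?_, ?_, h5⟩
    · linear_combination (d * d) * h6 - (b * b) * h7 - (Q.1 e) * hdd
    · linear_combination (a * a) * h7 - (c * c) * h6 - (Q.1 f) * hdd
  · rintro ⟨h3, h4, h5⟩
    rw [h3, h4]
    refine ⟨by ring, by ring, h5⟩

/-- The number of extensions does not depend on the nonzero value. -/
lemma cnt_scale97 [Finite K] [Finite V] (h2 : (2 : K) = 0) (hB : ∀ x, B x x = 0)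
    (hn : ∀ x, (∀ y, B x y = 0) → x = 0) (S : Set (QuadraticForm K V))
    (hS : ∀ Q ∈ S, ∀ g : V ≃ₗ[K] V, (∀ x y, B (g x) (g y) = B x y) → Q.comp g.toLinearMap ∈ S)
    [Fintype (Forms B S)] {e f z : V} (hef : B e f = 1) (hze : B z e = 0) (hzf : B z f = 0)
    (t : K) (ht : t ≠ 0) :
    cnt97 (B := B) S e f z 0 0 t = cnt97 (B := B) S e f z 0 0 1 := by
  by_cases hz0 : z = 0
  · have h0 : ∀ s : K, s ≠ 0 → cnt97 (B := B) S e f z 0 0 s = 0 := by
      intro s hs
      unfold cnt97
      rw [Finset.card_eq_zero]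
      apply Finset.filter_false_of_mem
      rintro Q _ ⟨-, -, h3⟩
      rw [hz0, QuadraticMap.map_zero] at h3
      exact hs h3.symm
    rw [h0 t ht, h0 1 one_ne_zero]
  · -- a partner of z
    have hfe : B f e = -1 := by rw [alt_symm97 hB, hef]
    have hex : ∃ w, B z w ≠ 0 := by
      by_contra hcon
      apply hz0
      apply hn
      intro y
      by_contra hy
      exact hcon ⟨y, hy⟩
    obtain ⟨w0, hw0⟩ := hex
    set w : V := (B z w0)⁻¹ • w0 with hw
    have hzw : B z w = 1 := by
      rw [hw, map_smul, smul_eq_mul, inv_mul_cancel₀ hw0]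
    set z' : V := w - B w f • e + B w e • f with hz'
    have hz'e : B z' e = 0 := by
      rw [hz']
      simp only [map_add, map_sub, map_smul, LinearMap.add_apply, LinearMap.sub_apply,
        LinearMap.smul_apply, smul_eq_mul, hB, hfe]
      ring
    have hz'f : B z' f = 0 := by
      rw [hz']
      simp only [map_add, map_sub, map_smul, LinearMap.add_apply, LinearMap.sub_apply,
        LinearMap.smul_apply, smul_eq_mul, hB, hef]
      ring
    have hzz' : B z z' = 1 := by
      rw [hz']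
      simp only [map_add, map_sub, map_smul, smul_eq_mul, hze, hzf, hzw]
      ring
    have hchar : CharP K 2 := CharTwo.of_one_ne_zero_of_two_eq_zero one_ne_zero h2
    obtain ⟨r, hr⟩ := FiniteField.isSquare_of_char_two (by
      exact (ringChar.eq K 2).symm ▸ rfl) t
    have hr0 : r ≠ 0 := by
      rintro rfl
      apply ht
      rw [hr, mul_zero]
    obtain ⟨g, hg, hgz, -, hgx⟩ := exists_isom97 hB hn hzz' (a := r) (b := 0) (c := 0) (d := r⁻¹)
      (by rw [mul_inv_cancel₀ hr0]; ring)
    have hge : g e = e := hgx e (by rw [alt_symm97 hB, hze, neg_zero])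
      (by rw [alt_symm97 hB, hz'e, neg_zero])
    have hgf : g f = f := hgx f (by rw [alt_symm97 hB, hzf, neg_zero])
      (by rw [alt_symm97 hB, hz'f, neg_zero])
    rw [zero_smul, add_zero] at hgz
    have h := card_formsEquiv97 S (formsEquiv97 S hS g hg)
      (fun Q => Q.1 e = 0 ∧ Q.1 f = 0 ∧ Q.1 z = t)
    unfold cnt97
    rw [← h]
    congr 1
    apply Finset.filter_congr
    intro Q _
    have e1 : ((formsEquiv97 S hS g hg) Q).1 e = Q.1 e := by
      show (formsMap97 S hS g hg Q).1 e = _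
      rw [formsMap_apply97, hge]
    have e2 : ((formsEquiv97 S hS g hg) Q).1 f = Q.1 f := by
      show (formsMap97 S hS g hg Q).1 f = _
      rw [formsMap_apply97, hgf]
    have e3 : ((formsEquiv97 S hS g hg) Q).1 z = t * Q.1 z := by
      show (formsMap97 S hS g hg Q).1 z = _
      rw [formsMap_apply97, hgz, QuadraticMap.map_smul, smul_eq_mul, hr]
    rw [e1, e2, e3]
    have h8 : t * Q.1 z = t ↔ Q.1 z = 1 := by
      constructor
      · intro h9
        exact mul_left_cancel₀ ht (by rw [h9, mul_one])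
      · intro h9
        rw [h9, mul_one]
    rw [h8]

/-- The vector. -/
def vec97 {S : Set (QuadraticForm K V)} (e f : V) (m : K) (Q : Forms B S) : ℤ :=
  (if Q.1 e = 1 * 0 ∧ Q.1 f = 0 * 1 then 1 else 0) -
  (if Q.1 e = 1 * 0 ∧ Q.1 f = 1 * 1 then 1 else 0) +
  (if Q.1 e = 1 * (1 + m)⁻¹ ∧ Q.1 f = 1 * (m * (1 + m)⁻¹) then 1 else 0) -
  (if Q.1 e = 1 * m⁻¹ ∧ Q.1 f = 0 * 1 then 1 else 0)

/-- The sum of the vector over the forms vanishing at `x`. -/
lemma vec_sum97 [Finite K] [Finite V] (h2 : (2 : K) = 0) (hB : ∀ x, B x x = 0)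
    (hn : ∀ x, (∀ y, B x y = 0) → x = 0) (S : Set (QuadraticForm K V))
    (hS : ∀ Q ∈ S, ∀ g : V ≃ₗ[K] V, (∀ x y, B (g x) (g y) = B x y) → Q.comp g.toLinearMap ∈ S)
    [Fintype (Forms B S)] {e f : V} (hef : B e f = 1) (m : K) (hm0 : m ≠ 0) (hm1 : 1 + m ≠ 0)
    (x : V) :
    ∑ Q ∈ univ.filter (fun Q : Forms B S => Q.1 x = 0), vec97 e f m Q = 0 := by
  have hfe : B f e = -1 := by rw [alt_symm97 hB, hef]
  set p : K := B x f with hp
  set q : K := -B x e with hq
  set z : V := x - p • e - q • f with hz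
  have hze : B z e = 0 := by
    rw [hz]
    simp only [map_sub, map_smul, LinearMap.sub_apply,
        LinearMap.smul_apply, smul_eq_mul, hB, hfe, hq]
    ring
  have hzf : B z f = 0 := by
    rw [hz]
    simp only [map_sub, map_smul, LinearMap.sub_apply,
        LinearMap.smul_apply, smul_eq_mul, hB, hef, hp]
    ring
  have hx : x = p • e + q • f + z := by rw [hz]; abel
  have hval : ∀ Q : Forms B S, Q.1 x = p * p * Q.1 e + q * q * Q.1 f + p * q + Q.1 z := by
    intro Q
    conv_lhs => rw [hx]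
    exact form_comb97 Q hef (by rw [alt_symm97 hB, hze, neg_zero])
      (by rw [alt_symm97 hB, hzf, neg_zero]) p q
  -- one of the four terms
  have hterm : ∀ a b c d : K, a * d - b * c = 1 →
      ∑ Q ∈ univ.filter (fun Q : Forms B S => Q.1 x = 0),
        (if Q.1 e = a * b ∧ Q.1 f = c * d then (1 : ℤ) else 0) =
      (cnt97 (B := B) S e f z 0 0 (p * p * (a * b) + q * q * (c * d) + p * q) : ℤ) := by
    intro a b c d hd
    rw [← cnt_plane97 h2 hB hn S hS hef hze hzf a b c d _ hd]
    rw [← Finset.sum_filter, Finset.filter_filter, Finset.sum_const, nsmul_eq_mul, mul_one]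
    unfold cnt97
    congr 2
    apply Finset.filter_congr
    intro Q _
    rw [hval]
    constructor
    · rintro ⟨h3, h4, h5⟩
      refine ⟨h4, h5, ?_⟩
      rw [h4, h5] at h3
      linear_combination h3 - (p * p * (a * b) + q * q * (c * d) + p * q) * h2
    · rintro ⟨h4, h5, h3⟩
      refine ⟨?_, h4, h5⟩
      rw [h3, h4, h5]
      linear_combination (p * p * (a * b) + q * q * (c * d) + p * q) * h2
  have hsc : ∀ t : K, t ≠ 0 → cnt97 (B := B) S e f z 0 0 t = cnt97 (B := B) S e f z 0 0 1 :=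
    fun t ht => cnt_scale97 h2 hB hn S hS hef hze hzf t ht
  unfold vec97
  rw [Finset.sum_sub_distrib, Finset.sum_add_distrib, Finset.sum_sub_distrib,
    hterm 1 0 0 1 (by ring), hterm 1 0 1 1 (by ring),
    hterm 1 (1 + m)⁻¹ 1 (m * (1 + m)⁻¹) (by
      field_simp
      linear_combination (-1 : K) * h2),
    hterm 1 m⁻¹ 0 1 (by ring)]
  set n : K → ℕ := fun t => cnt97 (B := B) S e f z 0 0 t with hnn
  have hn1 : ∀ t : K, t ≠ 0 → n t = n 1 := hsc
  have t1 : p * p * (1 * 0) + q * q * (0 * 1) + p * q = p * q := by ring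
  have t2 : p * p * (1 * 0) + q * q * (1 * 1) + p * q = (p + q) * q := by ring
  have t3 : p * p * (1 * (1 + m)⁻¹) + q * q * (1 * (m * (1 + m)⁻¹)) + p * q =
      (p + q) * (p + m * q) * (1 + m)⁻¹ := by
    field_simp
    ring
  have t4 : p * p * (1 * m⁻¹) + q * q * (0 * 1) + p * q = p * (p + m * q) * m⁻¹ := by
    field_simp
    ring
  rw [t1, t2, t3, t4]
  show (n (p * q) : ℤ) - (n ((p + q) * q) : ℤ) + (n ((p + q) * (p + m * q) * (1 + m)⁻¹) : ℤ) -
    (n (p * (p + m * q) * m⁻¹) : ℤ) = 0
  by_cases hp0 : p = 0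
  · by_cases hq0 : q = 0
    · rw [hp0, hq0]; simp
    · rw [hp0]
      rw [zero_mul, zero_mul, zero_mul, hn1 ((0 + q) * q) (by rw [zero_add]; exact mul_ne_zero hq0 hq0),
        hn1 ((0 + q) * (0 + m * q) * (1 + m)⁻¹) (by
          rw [zero_add, zero_add]
          exact mul_ne_zero (mul_ne_zero hq0 (mul_ne_zero hm0 hq0)) (inv_ne_zero hm1))]
      ring
  · by_cases hq0 : q = 0
    · rw [hq0, mul_zero, mul_zero, mul_zero, add_zero,
        hn1 (p * p * (1 + m)⁻¹) (mul_ne_zero (mul_ne_zero hp0 hp0) (inv_ne_zero hm1)),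
        hn1 (p * p * m⁻¹) (mul_ne_zero (mul_ne_zero hp0 hp0) (inv_ne_zero hm0))]
      ring
    · rw [hn1 (p * q) (mul_ne_zero hp0 hq0)]
      by_cases h3 : p + q = 0
      · rw [h3, zero_mul, zero_mul, zero_mul]
        have h4 : p + m * q ≠ 0 := by
          intro h5
          have h6 : (1 + m) * q = 0 := by linear_combination h5 - h3 + q * h2
          rcases mul_eq_zero.1 h6 with h7 | h7
          · exact hm1 h7
          · exact hq0 h7
        rw [hn1 (p * (p + m * q) * m⁻¹) (mul_ne_zero (mul_ne_zero hp0 h4) (inv_ne_zero hm0))]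
        ring
      · rw [hn1 ((p + q) * q) (mul_ne_zero h3 hq0)]
        by_cases h4 : p + m * q = 0
        · rw [h4, mul_zero, mul_zero, zero_mul, zero_mul]
          ring
        · rw [hn1 ((p + q) * (p + m * q) * (1 + m)⁻¹)
            (mul_ne_zero (mul_ne_zero h3 h4) (inv_ne_zero hm1)),
            hn1 (p * (p + m * q) * m⁻¹) (mul_ne_zero (mul_ne_zero hp0 h4) (inv_ne_zero hm0))]
          ring

end

/-- FORMS -/
theorem stForms97 : StForms := by
  intro K V _ _ _ _ _ B h2 h4 hB hn hdim S hS _ G _ _ _ hne hG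
  obtain ⟨Q0⟩ := hne
  haveI : Module.Finite K V := Module.Finite.of_finite
  have hchar : CharP K 2 := CharTwo.of_one_ne_zero_of_two_eq_zero one_ne_zero h2
  -- m
  have hm : ∃ m : K, m ≠ 0 ∧ 1 + m ≠ 0 := by
    by_contra hcon
    have hsub : (univ : Finset K) ⊆ {0, 1} := by
      intro m _
      by_cases hm0 : m = 0
      · simp [hm0]
      · by_cases hm1 : 1 + m = 0
        · have : m = 1 := by linear_combination hm1 - h2
          simp [this]
        · exact absurd ⟨m, hm0, hm1⟩ hcon
    have h7 := Finset.card_le_card hsub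
    have h8 : ({0, 1} : Finset K).card ≤ 2 := Finset.card_le_two
    rw [Finset.card_univ] at h7
    omega
  obtain ⟨m, hm0, hm1⟩ := hm
  -- a singular vector
  have hsing : ∃ e : V, e ≠ 0 ∧ Q0.1 e = 0 := by
    haveI : Nontrivial V := Module.nontrivial_of_finrank_pos (R := K) (by omega)
    obtain ⟨e1, he1⟩ := exists_ne (0 : V)
    -- a vector perpendicular to e1, outside of its line
    have hex : ∃ e2 : V, B e1 e2 = 0 ∧ e2 ∉ Submodule.span K {e1} := by
      by_contra hcon
      have hle : LinearMap.ker (B e1) ≤ Submodule.span K {e1} := by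
        intro y hy
        by_contra hy'
        exact hcon ⟨y, hy, hy'⟩
      have h5 := Submodule.finrank_mono hle
      rw [finrank_span_singleton he1] at h5
      have h6 := LinearMap.finrank_range_add_finrank_ker (B e1)
      have h7 : finrank K (LinearMap.range (B e1)) ≤ 1 := by
        have := Submodule.finrank_le (LinearMap.range (B e1))
        rwa [finrank_self] at this
      omega
    obtain ⟨e2, he2, he2'⟩ := hex
    by_cases h5 : Q0.1 e1 = 0
    · exact ⟨e1, he1, h5⟩
    · obtain ⟨r, hr⟩ := FiniteField.isSquare_of_char_two (by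
        exact (ringChar.eq K 2).symm ▸ rfl) (Q0.1 e2 / Q0.1 e1)
      refine ⟨r • e1 + e2, ?_, ?_⟩
      · intro h6
        apply he2'
        have h7 : e2 = (-r) • e1 := by
          rw [neg_smul, ← sub_eq_zero, sub_neg_eq_add, add_comm]; exact h6
        rw [h7]
        exact Submodule.smul_mem _ _ (Submodule.mem_span_singleton_self e1)
      · rw [fadd97, fsmul97, map_smul, LinearMap.smul_apply, he2, smul_zero, ← hr,
          div_mul_cancel₀ _ h5]
        linear_combination (Q0.1 e2) * h2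
  obtain ⟨e, he0, heQ⟩ := hsing
  -- the partner
  have hex : ∃ w, B e w ≠ 0 := by
    by_contra hcon
    apply he0
    apply hn
    intro y
    by_contra hy
    exact hcon ⟨y, hy⟩
  obtain ⟨w0, hw0⟩ := hex
  obtain ⟨w, hew⟩ : ∃ w : V, B e w = 1 :=
    ⟨(B e w0)⁻¹ • w0, by rw [map_smul, smul_eq_mul, inv_mul_cancel₀ hw0]⟩
  set f : V := Q0.1 w • e + w with hf
  have hef : B e f = 1 := by
    rw [hf, map_add, map_smul, hB, hew]; simp
  have hfQ : Q0.1 f = 0 := by
    rw [hf, fadd97, fsmul97, map_smul, LinearMap.smul_apply, hew, heQ, smul_eq_mul]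
    linear_combination (Q0.1 w) * h2
  have hv0 : vec97 e f m Q0 = 1 := by
    unfold vec97
    rw [heQ, hfQ]
    rw [if_pos ⟨by ring, by ring⟩, if_neg (by rintro ⟨-, h⟩; rw [one_mul] at h; exact zero_ne_one h),
      if_neg (by rintro ⟨h, -⟩; rw [one_mul] at h; exact inv_ne_zero hm1 h.symm),
      if_neg (by rintro ⟨h, -⟩; rw [one_mul] at h; exact inv_ne_zero hm0 h.symm)]
    norm_num
  -- two more forms
  obtain ⟨g2, hg2, hg2e, hg2f, -⟩ := exists_isom97 hB hn hef (a := 1) (b := 0) (c := 1) (d := 1)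
    (by ring)
  obtain ⟨g3, hg3, hg3e, hg3f, -⟩ := exists_isom97 hB hn hef (a := 1) (b := 1) (c := 0) (d := 1)
    (by ring)
  have q2e : (formsMap97 S hS g2 hg2 Q0).1 e = 0 := by
    rw [formsMap_apply97, hg2e, form_comb2_97 Q0 hef, heQ, hfQ]; ring
  have q2f : (formsMap97 S hS g2 hg2 Q0).1 f = 1 := by
    rw [formsMap_apply97, hg2f, form_comb2_97 Q0 hef, heQ, hfQ]; ring
  have q3e : (formsMap97 S hS g3 hg3 Q0).1 e = 1 := by
    rw [formsMap_apply97, hg3e, form_comb2_97 Q0 hef, heQ, hfQ]; ring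
  refine nonSpreading_of_vector (fun Q : Forms B S => vec97 e f m Q) ?_ ⟨Q0, ?_⟩
    (univ.filter (fun Q : Forms B S => Q.1 e = 0)) ?_ ?_ ?_
  · intro Q
    show -1 ≤ vec97 e f m Q
    unfold vec97
    by_cases h5 : Q.1 f = 1
    · have h6 : ¬ (Q.1 e = 1 * m⁻¹ ∧ Q.1 f = 0 * 1) := by
        rintro ⟨-, h⟩
        rw [h5, zero_mul] at h
        exact one_ne_zero h
      rw [if_neg h6]
      split_ifs <;> norm_num
    · have h6 : ¬ (Q.1 e = 1 * 0 ∧ Q.1 f = 1 * 1) := by
        rintro ⟨-, h⟩
        rw [one_mul] at h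
        exact h5 h
      rw [if_neg h6]
      split_ifs <;> norm_num
  · show vec97 e f m Q0 ≠ 0
    rw [hv0]; norm_num
  · rw [Finset.one_lt_card]
    refine ⟨Q0, by simp [heQ], formsMap97 S hS g2 hg2 Q0, by simp [q2e], ?_⟩
    intro h
    have h5 : Q0.1 f = (formsMap97 S hS g2 hg2 Q0).1 f := by rw [← h]
    rw [hfQ, q2f] at h5
    exact zero_ne_one h5
  · rw [← Finset.card_univ]
    apply Finset.card_lt_card
    rw [Finset.ssubset_univ_iff]
    intro h
    have h5 : formsMap97 S hS g3 hg3 Q0 ∈ univ.filter (fun Q : Forms B S => Q.1 e = 0) := by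
      rw [h]; exact mem_univ _
    simp only [mem_filter, mem_univ, true_and] at h5
    rw [q3e] at h5
    exact one_ne_zero h5
  · intro g
    obtain ⟨x', hx'⟩ := hG g e he0
    rw [← vec_sum97 h2 hB hn S hS hef m hm0 hm1 x']
    refine Finset.sum_bij (fun Q _ => g • Q) ?_ ?_ ?_ ?_
    · intro Q hQ
      simp only [mem_filter, mem_univ, true_and] at hQ ⊢
      exact (hx' Q).1 hQ
    · intro Q _ R _ h
      exact MulAction.injective g h
    · intro Q hQ
      refine ⟨g⁻¹ • Q, ?_, by rw [smul_inv_smul]⟩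
      simp only [mem_filter, mem_univ, true_and] at hQ ⊢
      rw [hx', smul_inv_smul]
      exact hQ
    · intro Q _
      rfl

end

end SpreadPerm.NS
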