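import Mathlib
import Pool.Agent.Lib.MP_e6ed9e_al.Polar.Glue88

/-!
# Generalized hexagons of order `(q, q)` with a set of `q ^ 3 + 1` mutually opposite lines
-/

namespace SpreadPerm.NS

open Finset
open scoped Classical

noncomputable section

/-- Two lines meet. -/
def MeetL {P Ω : Type} (I : P → Ω → Prop) (l m : Ω) : Prop := ∃ x, I x l ∧ I x m

theorem hex44 (P Ω : Type) [Fintype Ω] (I : P → Ω → Prop) (q : ℕ) (hq : 2 ≤ q)
    (hpt : ∀ p, {l | I p l}.ncard = q + 1)
    (htri : ∀ p m m' s, I p m → I p m' → m ≠ m' → ¬ I p s → MeetL I s m → ¬ MeetL I s m')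
    (S : Finset Ω) (hS : S.card = q ^ 3 + 1) (hS1 : ∀ l ∈ S, ∀ m ∈ S, l ≠ m → ¬ MeetL I l m)
    (hS2 : ∀ l, l ∉ S → ∃! m, m ∈ S ∧ MeetL I l m) (hS3 : S ≠ univ) (p₀ : P)
    (G : Type) [Group G] [MulAction G Ω] [MulAction.IsPretransitive G Ω]
    (hG : ∀ (g : G) (l m : Ω), MeetL I l m ↔ MeetL I (g • l) (g • m)) :
    NonSpreading G Ω := by
  have hfin : {l | I p₀ l}.Finite := Set.toFinite _
  let N : Finset Ω := univ.filter fun l => I p₀ l
  have hN : N.card = q + 1 := by
    rw [← hpt p₀, Set.ncard_eq_toFinset_card']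
    congr 1
    ext l
    simp [N]
  let v : Ω → ℤ := fun l => if I p₀ l then (q : ℤ) ^ 3 else
    if ∃ m, I p₀ m ∧ MeetL I l m then (q : ℤ) ^ 2 - q else -1
  have hq2 : (2 : ℤ) ≤ q := by exact_mod_cast hq
  have hsymm : ∀ l m, MeetL I l m → MeetL I m l := fun l m ⟨x, h1, h2⟩ => ⟨x, h2, h1⟩
  obtain ⟨l₀, hl₀⟩ : N.Nonempty := by
    rw [← Finset.card_pos, hN]
    omega
  -- the sum over a set with the properties of `S`
  have key : ∀ T : Finset Ω, T.card = q ^ 3 + 1 →
      (∀ l ∈ T, ∀ m ∈ T, l ≠ m → ¬ MeetL I l m) →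
      (∀ l, l ∉ T → ∃! m, m ∈ T ∧ MeetL I l m) → ∑ l ∈ T, v l = 0 := by
    intro T hT hT1 hT2
    by_cases hc : ∃ s ∈ T, I p₀ s
    · obtain ⟨s, hs, hps⟩ := hc
      rw [← Finset.add_sum_erase T v hs]
      have h1 : v s = (q : ℤ) ^ 3 := if_pos hps
      have h2 : ∀ t ∈ T.erase s, v t = -1 := by
        intro t ht
        obtain ⟨hts, htT⟩ := Finset.mem_erase.1 ht
        have h3 : ¬ I p₀ t := fun h => hT1 t htT s hs hts ⟨p₀, h, hps⟩
        have h4 : ¬ ∃ m, I p₀ m ∧ MeetL I t m := by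
          rintro ⟨m, hm, hmt⟩
          by_cases hmT : m ∈ T
          · by_cases hms : m = t
            · exact h3 (hms ▸ hm)
            · exact hT1 t htT m hmT (fun h => hms h.symm) hmt
          · exact hts ((hT2 m hmT).unique ⟨htT, hsymm _ _ hmt⟩ ⟨hs, p₀, hm, hps⟩)
        show (if I p₀ t then (q : ℤ) ^ 3 else
          if ∃ m, I p₀ m ∧ MeetL I t m then (q : ℤ) ^ 2 - q else -1) = -1
        rw [if_neg h3, if_neg h4]
      rw [h1, Finset.sum_congr rfl h2, Finset.sum_const, Finset.card_erase_of_mem hs, hT]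
      simp
    · push Not at hc
      have hNT : ∀ m ∈ N, m ∉ T := fun m hm h => hc m h (mem_filter.1 hm).2
      choose! f hf hf' using fun m (hm : m ∈ N) => hT2 m (hNT m hm)
      have hfinj : Set.InjOn f N := by
        intro m hm m' hm' he
        by_contra hne
        have h1 := (hf m hm).2
        have h2 := (hf m' hm').2
        rw [← he] at h2
        exact htri p₀ m m' (f m) (mem_filter.1 hm).2 (mem_filter.1 hm').2 hne
          (hc (f m) (hf m hm).1) (hsymm _ _ h1) (hsymm _ _ h2)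
      have himg : T.filter (fun l => ∃ m, I p₀ m ∧ MeetL I l m) = N.image f := by
        ext l
        rw [mem_filter, mem_image]
        constructor
        · rintro ⟨hl, m, hm, hlm⟩
          have hmN : m ∈ N := mem_filter.2 ⟨mem_univ _, hm⟩
          exact ⟨m, hmN, (hf' m hmN l ⟨hl, hsymm _ _ hlm⟩).symm⟩
        · rintro ⟨m, hm, rfl⟩
          exact ⟨(hf m hm).1, m, (mem_filter.1 hm).2, hsymm _ _ (hf m hm).2⟩
      have hval : ∀ l ∈ T, v l = if ∃ m, I p₀ m ∧ MeetL I l m then (q : ℤ) ^ 2 - q else -1 :=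
        fun l hl => if_neg (hc l hl)
      have hc1 : (T.filter (fun l => ∃ m, I p₀ m ∧ MeetL I l m)).card = q + 1 := by
        rw [himg, Finset.card_image_of_injOn hfinj, hN]
      have hc2 : (T.filter (fun l => ¬ ∃ m, I p₀ m ∧ MeetL I l m)).card + (q + 1) = q ^ 3 + 1 := by
        rw [← hc1, ← hT, add_comm]
        exact Finset.card_filter_add_card_filter_not (s := T) (fun l => ∃ m, I p₀ m ∧ MeetL I l m)
      have hc3 : ((T.filter (fun l => ¬ ∃ m, I p₀ m ∧ MeetL I l m)).card : ℤ) =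
          (q : ℤ) ^ 3 - q := by
        have : ((T.filter (fun l => ¬ ∃ m, I p₀ m ∧ MeetL I l m)).card : ℤ) + (q + 1) =
          (q : ℤ) ^ 3 + 1 := by exact_mod_cast hc2
        linarith
      rw [Finset.sum_congr rfl hval, Finset.sum_ite, Finset.sum_const, Finset.sum_const, hc1,
        nsmul_eq_mul, nsmul_eq_mul, hc3]
      push_cast
      ring
  refine nonSpreading_of_vector v ?_ ⟨l₀, ?_⟩ S ?_ ?_ ?_
  · intro l
    show -1 ≤ (if I p₀ l then (q : ℤ) ^ 3 else
      if ∃ m, I p₀ m ∧ MeetL I l m then (q : ℤ) ^ 2 - q else -1)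
    split_ifs
    · have : (0 : ℤ) ≤ (q : ℤ) ^ 3 := by positivity
      linarith
    · nlinarith
    · exact le_refl _
  · have : v l₀ = (q : ℤ) ^ 3 := if_pos (mem_filter.1 hl₀).2
    rw [this]
    positivity
  · rw [hS]
    have : 0 < q ^ 3 := by positivity
    omega
  · rw [← Finset.card_univ]
    exact Finset.card_lt_card (Finset.ssubset_univ_iff.2 hS3)
  · intro g
    have hinj : Set.InjOn (fun l : Ω => g • l) S := fun l _ m _ h => MulAction.injective g h
    have h1 : ∑ l ∈ S, v (g • l) = ∑ l ∈ S.image (fun l : Ω => g • l), v l :=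
      (Finset.sum_image hinj).symm
    rw [h1]
    apply key
    · rw [Finset.card_image_of_injOn hinj, hS]
    · intro l hl m hm hne
      obtain ⟨l', hl', rfl⟩ := mem_image.1 hl
      obtain ⟨m', hm', rfl⟩ := mem_image.1 hm
      intro h
      exact hS1 l' hl' m' hm' (fun h' => hne (by rw [h'])) ((hG g l' m').2 h)
    · intro l hl
      have hl' : g⁻¹ • l ∉ S := fun h => hl (mem_image.2 ⟨g⁻¹ • l, h, smul_inv_smul g l⟩)
      obtain ⟨m, ⟨hm, hlm⟩, hu⟩ := hS2 _ hl'
      refine ⟨g • m, ⟨mem_image.2 ⟨m, hm, rfl⟩, ?_⟩, ?_⟩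
      · have := (hG g _ _).1 hlm
        rwa [smul_inv_smul] at this
      · rintro _ ⟨hm', hlm'⟩
        obtain ⟨m', hm'', rfl⟩ := mem_image.1 hm'
        have h3 : m' = m := hu m' ⟨hm'', (hG g _ _).2 (by simpa using hlm')⟩
        show g • m' = g • m
        rw [h3]

end

end SpreadPerm.NS
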