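import Mathlib

/-!
# The split Cayley hexagon `H(q)` (the group `G₂(q)`), in coordinates
-/

namespace SpreadPerm.NS

/-- The points of the split Cayley hexagon: `(∞)`, `(a)`, `(k,b)`, `(a,l,a')`, `(k,b,k',b')`,
`(a,l,a',l',a'')`. -/
inductive HexPoint (F : Type) : Type
  | p0 : HexPoint F
  | p1 (a : F) : HexPoint F
  | p2 (k b : F) : HexPoint F
  | p3 (a l a' : F) : HexPoint F
  | p4 (k b k' b' : F) : HexPoint F
  | p5 (a l a' l' a'' : F) : HexPoint F

/-- The lines of the split Cayley hexagon: `[∞]`, `[k]`, `[a,l]`, `[k,b,k']`, `[a,l,a',l']`,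
`[k,b,k',b',k'']`. -/
inductive HexLine (F : Type) : Type
  | l0 : HexLine F
  | l1 (k : F) : HexLine F
  | l2 (a l : F) : HexLine F
  | l3 (k b k' : F) : HexLine F
  | l4 (a l a' l' : F) : HexLine F
  | l5 (k b k' b' k'' : F) : HexLine F

/-- The incidence relation of the split Cayley hexagon, in the coordinates of De Smet and
Van Maldeghem. -/
def HexInc {F : Type} [Field F] : HexPoint F → HexLine F → Prop
  | .p0, .l0 => True
  | .p0, .l1 _ => True
  | .p1 _, .l0 => True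
  | .p1 a, .l2 α _ => α = a
  | .p2 k _, .l1 κ => κ = k
  | .p2 k b, .l3 κ β _ => κ = k ∧ β = b
  | .p3 a l _, .l2 α lam => α = a ∧ lam = l
  | .p3 a l a', .l4 α lam α' _ => α = a ∧ lam = l ∧ α' = a'
  | .p4 k b k' _, .l3 κ β κ' => κ = k ∧ β = b ∧ κ' = k'
  | .p4 k b k' b', .l5 κ β κ' β' _ => κ = k ∧ β = b ∧ κ' = k' ∧ β' = b'
  | .p5 a l a' l' _, .l4 α lam α' lam' => α = a ∧ lam = l ∧ α' = a' ∧ lam' = l'
  | .p5 a l a' l' a'', .l5 k b k' b' k'' =>
      b = a'' - a * k ∧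
      k' = a ^ 3 * k ^ 2 + l' - k * l - 3 * a ^ 2 * a'' * k - 3 * a' * a'' + 3 * a * a'' ^ 2 ∧
      b' = a ^ 2 * k + a' - 2 * a * a'' ∧
      k'' = a ^ 3 * k + l - 3 * a ^ 2 * a'' + 3 * a * a'
  | _, _ => False

end SpreadPerm.NS
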