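import Mathlib
import Pool.Agent.Lib.MP_e6ed9e_al.Polar.Glue88
import Pool.Agent.Lib.MP_e6ed9e_al.NS.HexDefs84

/-!
# The lines of the split Cayley hexagon `H(q)` (the group `G₂(q)`), in coordinates
-/

namespace SpreadPerm.NS

open Finset
open scoped Classical

noncomputable section

section
variable {F : Type} [Field F] [Fintype F]

/-- A cubic polynomial without roots. -/
theorem exists_cubic84 : ∃ A B C : F, ∀ x : F, x ^ 3 + A * x ^ 2 + B * x + C ≠ 0 := by
  by_contra hcon
  push Not at hcon
  let φ : F × F × F → F × F × F := fun t => (t.2.1 - t.1, t.2.2 - t.1 * t.2.1, - (t.1 * t.2.2))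
  have hs : Function.Surjective φ := by
    rintro ⟨A, B, C⟩
    obtain ⟨r, hr⟩ := hcon A B C
    refine ⟨(r, A + r, B + r * (A + r)), ?_⟩
    show (A + r - r, B + r * (A + r) - r * (A + r), - (r * (B + r * (A + r)))) = (A, B, C)
    refine Prod.ext ?_ (Prod.ext ?_ ?_)
    · show A + r - r = A
      ring
    · show B + r * (A + r) - r * (A + r) = B
      ring
    · show - (r * (B + r * (A + r))) = C
      linear_combination -hr
  have hi : Function.Injective φ := Finite.injective_iff_surjective.2 hs
  have h1 : φ (0, -1, 0) = φ (1, 0, 0) := by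
    simp [φ]
  have h2 := hi h1
  have h3 : (0 : F) = 1 := congrArg Prod.fst h2
  exact zero_ne_one h3

/-- A function with sum zero. -/
def phi84 (x : F) : ℤ := (if x = 1 then 1 else 0) - (if x = 0 then 1 else 0)

omit [Fintype F] in
theorem phi84_ge (x : F) : -1 ≤ phi84 x := by
  unfold phi84
  split_ifs <;> norm_num

omit [Fintype F] in
theorem phi84_one : phi84 (1 : F) = 1 := by
  simp [phi84]

theorem sum_phi84 : ∑ x : F, phi84 x = 0 := by
  unfold phi84
  rw [Finset.sum_sub_distrib]
  simp

theorem sum_phi84_aff (c d : F) (hc : c ≠ 0) : ∑ x : F, phi84 (c * x + d) = 0 := by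
  rw [← sum_phi84 (F := F)]
  exact Equiv.sum_comp ((Equiv.mulLeft₀ c hc).trans (Equiv.addRight d)) phi84

/-- The vector. -/
def fv84 (A B C : F) : HexLine F → ℤ
  | .l5 k b _ b' k'' => phi84 (C * k - B * b + A * b' + k'')
  | _ => 0

theorem pencil84 [Fintype (HexLine F)] {A B C : F}
    (h : ∀ x : F, x ^ 3 + A * x ^ 2 + B * x + C ≠ 0) (p : HexPoint F) :
    ∑ L ∈ univ.filter (fun L => HexInc p L), fv84 A B C L = 0 := by
  cases p with
  | p0 =>
    refine Finset.sum_eq_zero fun L hL => ?_
    have hL' := (mem_filter.1 hL).2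
    cases L <;> first | rfl | exact absurd hL' (fun h => h)
  | p1 a =>
    refine Finset.sum_eq_zero fun L hL => ?_
    have hL' := (mem_filter.1 hL).2
    cases L <;> first | rfl | exact absurd hL' (fun h => h)
  | p2 k b =>
    refine Finset.sum_eq_zero fun L hL => ?_
    have hL' := (mem_filter.1 hL).2
    cases L <;> first | rfl | exact absurd hL' (fun h => h)
  | p3 a l a' =>
    refine Finset.sum_eq_zero fun L hL => ?_
    have hL' := (mem_filter.1 hL).2
    cases L <;> first | rfl | exact absurd hL' (fun h => h)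
  | p4 k b k' b' =>
    rw [← sum_phi84_aff (F := F) 1 (C * k - B * b + A * b') one_ne_zero]
    symm
    refine Finset.sum_of_injOn (fun x => HexLine.l5 k b k' b' x) ?_ ?_ ?_ ?_
    · intro x _ y _ hxy
      simpa using hxy
    · intro x _
      simp [HexInc]
    · intro L hL hL2
      have hL' := (mem_filter.1 hL).2
      cases L with
      | l5 κ β κ' β' κ'' =>
        obtain ⟨rfl, rfl, rfl, rfl⟩ := hL'
        exact absurd ⟨κ'', by simp, rfl⟩ hL2
      | l0 => rfl
      | l1 => rfl
      | l2 => rfl
      | l3 => rfl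
      | l4 => rfl
    · intro x _
      show phi84 _ = phi84 _
      congr 1
      ring
  | p5 a l a' l' a'' =>
    rw [← sum_phi84_aff (F := F) (a ^ 3 + A * a ^ 2 + B * a + C)
      (- B * a'' + A * (a' - 2 * a * a'') + (l - 3 * a ^ 2 * a'' + 3 * a * a')) (h a)]
    symm
    refine Finset.sum_of_injOn (fun x => HexLine.l5 x (a'' - a * x)
      (a ^ 3 * x ^ 2 + l' - x * l - 3 * a ^ 2 * a'' * x - 3 * a' * a'' + 3 * a * a'' ^ 2)
      (a ^ 2 * x + a' - 2 * a * a'') (a ^ 3 * x + l - 3 * a ^ 2 * a'' + 3 * a * a')) ?_ ?_ ?_ ?_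
    · intro x _ y _ hxy
      exact (HexLine.l5.inj hxy).1
    · intro x _
      simp [HexInc]
    · intro L hL hL2
      have hL' := (mem_filter.1 hL).2
      cases L with
      | l5 κ β κ' β' κ'' =>
        obtain ⟨rfl, rfl, rfl, rfl⟩ := hL'
        exact absurd ⟨κ, by simp, rfl⟩ hL2
      | l0 => rfl
      | l1 => rfl
      | l2 => rfl
      | l3 => rfl
      | l4 => rfl
    · intro x _
      show phi84 _ = phi84 _
      congr 1
      ring

/-- **The lines of the split Cayley hexagon.** A group which is transitive on a set `Ω` of objects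
identified by `e` with the lines of the split Cayley hexagon over the finite field `F`, and which
maps pencils of lines to pencils of lines, is non-spreading. -/
theorem hexLines84 (Ω : Type) [Fintype Ω] (e : Ω ≃ HexLine F)
    (G : Type) [Group G] [MulAction G Ω] [MulAction.IsPretransitive G Ω]
    (hG : ∀ (g : G) (p : HexPoint F), ∃ p' : HexPoint F, ∀ ω : Ω,
      HexInc p (e ω) ↔ HexInc p' (e (g • ω))) : NonSpreading G Ω := by
  obtain ⟨A, B, C, h⟩ := exists_cubic84 (F := F)
  have : Fintype (HexLine F) := Fintype.ofEquiv Ω e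
  refine nonSpreading_of_vector (fun ω => fv84 A B C (e ω)) ?_ ?_
    (univ.filter fun ω => HexInc HexPoint.p0 (e ω)) ?_ ?_ ?_
  · intro ω
    cases e ω with
    | l5 k b k' b' k'' => exact phi84_ge _
    | l0 => exact neg_nonpos.2 zero_le_one
    | l1 => exact neg_nonpos.2 zero_le_one
    | l2 => exact neg_nonpos.2 zero_le_one
    | l3 => exact neg_nonpos.2 zero_le_one
    | l4 => exact neg_nonpos.2 zero_le_one
  · refine ⟨e.symm (HexLine.l5 0 0 0 0 1), ?_⟩
    rw [Equiv.apply_symm_apply]
    show phi84 _ ≠ 0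
    have h1 : C * 0 - B * 0 + A * 0 + 1 = (1 : F) := by ring
    rw [h1, phi84_one]
    exact one_ne_zero
  · refine Finset.one_lt_card.2 ⟨e.symm HexLine.l0, ?_, e.symm (HexLine.l1 0), ?_, ?_⟩
    · simp [HexInc]
    · simp [HexInc]
    · intro h1
      have := e.symm.injective h1
      simp at this
  · rw [← Finset.card_univ]
    refine Finset.card_lt_card ((Finset.ssubset_univ_iff).2 ?_)
    intro h1
    have h2 := (Finset.eq_univ_iff_forall.1 h1) (e.symm (HexLine.l2 0 0))
    simp [HexInc] at h2
  · intro g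
    obtain ⟨p', hp'⟩ := hG g HexPoint.p0
    rw [← pencil84 h p']
    refine Finset.sum_bij (fun ω _ => e (g • ω)) ?_ ?_ ?_ ?_
    · intro ω hω
      rw [mem_filter] at hω ⊢
      exact ⟨mem_univ _, (hp' ω).1 hω.2⟩
    · intro ω _ ω' _ h1
      exact MulAction.injective g (e.injective h1)
    · intro L hL
      refine ⟨g⁻¹ • e.symm L, ?_, ?_⟩
      · rw [mem_filter] at hL ⊢
        refine ⟨mem_univ _, (hp' _).2 ?_⟩
        rw [smul_inv_smul, Equiv.apply_symm_apply]
        exact hL.2
      · rw [smul_inv_smul, Equiv.apply_symm_apply]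
    · intro ω _
      rfl

end

end

end SpreadPerm.NS
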