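import Pool.Agent.Lib.MP_e6ed9e_al.NS.OctPath29

/-!
# Generalized octagons with the root groups of the Ree-Tits octagons
-/

namespace SpreadPerm.NS

open Finset
open scoped Classical

noncomputable section

/-- The distance of two points in the incidence graph. -/
def dpp {Ω Λ : Type} (I : Ω → Λ → Prop) (p q : Ω) : ℕ := (incG I).dist (Sum.inl p) (Sum.inl q)

section
variable {Ω Λ : Type} {I : Ω → Λ → Prop} {s t : ℕ}

theorem rk_of_oct (hO : IsGenOctagon I s t) (v : Ω ⊕ Λ) :
    Rk I (fun p => (incG I).dist v (Sum.inl p)) (fun l => (incG I).dist v (Sum.inr l)) where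
  adj p l h := adj_dist hO.conn (incG_pl.2 h)
  ale p := hO.diam _ _
  ble l := hO.diam _ _
  ul p hp l l' h1 h2 h3 h4 := by
    have hne : v ≠ Sum.inl p := by
      rintro rfl
      simp at h3
    obtain ⟨w, -, hw⟩ := hO.uniq v (Sum.inl p) hne hp
    have e1 := hw (Sum.inr l) ⟨incG_pl.2 h1, h3⟩
    have e2 := hw (Sum.inr l') ⟨incG_pl.2 h2, h4⟩
    exact Sum.inr_injective (e1.trans e2.symm)
  el p hp hp0 := by
    have hne : v ≠ Sum.inl p := by
      rintro rfl
      simp at hp0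
    obtain ⟨w, ⟨hw1, hw2⟩, -⟩ := hO.uniq v (Sum.inl p) hne hp
    rcases hw1 with ⟨p', l', h, e1, e2⟩ | ⟨p', l', h, e1, e2⟩
    · have := Sum.inl_injective e1
      subst this
      subst e2
      exact ⟨l', h, hw2⟩
    · cases e2
  up l hl p p' h1 h2 h3 h4 := by
    have hne : v ≠ Sum.inr l := by
      rintro rfl
      simp at h3
    obtain ⟨w, -, hw⟩ := hO.uniq v (Sum.inr l) hne hl
    have e1 := hw (Sum.inl p) ⟨incG_lp.2 h1, h3⟩
    have e2 := hw (Sum.inl p') ⟨incG_lp.2 h2, h4⟩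
    exact Sum.inl_injective (e1.trans e2.symm)
  ep l hl hl0 := by
    have hne : v ≠ Sum.inr l := by
      rintro rfl
      simp at hl0
    obtain ⟨w, ⟨hw1, hw2⟩, -⟩ := hO.uniq v (Sum.inr l) hne hl
    rcases hw1 with ⟨p', l', h, e1, e2⟩ | ⟨p', l', h, e1, e2⟩
    · cases e1
    · have := Sum.inr_injective e2
      subst this
      subst e1
      exact ⟨p', h, hw2⟩

/-- A permutation preserving the incidence as a homomorphism of the incidence graph. -/
def homI (σ : Equiv.Perm Ω) (τ : Equiv.Perm Λ) (h : ∀ p l, I p l ↔ I (σ p) (τ l)) :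
    incG I →g incG I where
  toFun := Sum.map σ τ
  map_rel' := by
    rintro a b (⟨p, l, hpl, rfl, rfl⟩ | ⟨p, l, hpl, rfl, rfl⟩)
    · exact incG_pl.2 ((h p l).1 hpl)
    · exact incG_lp.2 ((h p l).1 hpl)

theorem dist_perm_le (hc : (incG I).Connected) (σ : Equiv.Perm Ω) (τ : Equiv.Perm Λ)
    (h : ∀ p l, I p l ↔ I (σ p) (τ l)) (v w : Ω ⊕ Λ) :
    (incG I).dist (Sum.map σ τ v) (Sum.map σ τ w) ≤ (incG I).dist v w := by
  obtain ⟨p, hp⟩ := hc.exists_walk_length_eq_dist v w
  have h1 := SimpleGraph.dist_le (p.map (homI σ τ h))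
  rw [SimpleGraph.Walk.length_map, hp] at h1
  exact h1

theorem dist_perm (hc : (incG I).Connected) (σ : Equiv.Perm Ω) (τ : Equiv.Perm Λ)
    (h : ∀ p l, I p l ↔ I (σ p) (τ l)) (v w : Ω ⊕ Λ) :
    (incG I).dist (Sum.map σ τ v) (Sum.map σ τ w) = (incG I).dist v w := by
  refine le_antisymm (dist_perm_le hc σ τ h v w) ?_
  have h' : ∀ p l, I p l ↔ I (σ.symm p) (τ.symm l) := by
    intro p l
    rw [h (σ.symm p) (τ.symm l), Equiv.apply_symm_apply, Equiv.apply_symm_apply]
  have h1 := dist_perm_le hc σ.symm τ.symm h' (Sum.map σ τ v) (Sum.map σ τ w)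
  have h2 : ∀ a : Ω ⊕ Λ, Sum.map σ.symm τ.symm (Sum.map σ τ a) = a := by
    rintro (a | a) <;> simp
  rwa [h2, h2] at h1

theorem Phi_sub [Fintype Ω] [Fintype Λ] (f g : Ω → ℤ) (p : Ω) :
    Phi I (fun q => f q - g q) p = Phi I f p - Phi I g p := by
  unfold Phi
  rw [← Finset.sum_sub_distrib]
  apply Finset.sum_congr rfl
  intro l _
  split_ifs
  · unfold FL
    rw [← Finset.sum_sub_distrib]
    apply Finset.sum_congr rfl
    intro q _
    split_ifs <;> simp
  · simp

end

/-- All the hypotheses on one of the two paths of the apartment. -/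
theorem pd_of_path {Ω Λ : Type} {I : Ω → Λ → Prop} {s t : ℕ} (hs : 1 ≤ s)
    (ht : 1 ≤ t) (hO : IsGenOctagon I s t) (x : Ω) (U : Type) [Group U] [MulAction U Ω]
    [MulAction U Λ] (hU : ∀ (u : U) p l, I p l ↔ I (u • p) (u • l)) (hUx : ∀ u : U, u • x = x)
    (hUl : ∀ (u : U) l, I x l → u • l = l)
    (hUt : ∀ p q, dpp I x p = 8 → dpp I x q = 8 → ∃ u : U, u • p = q)
    (A : Type) [CommGroup A] (lam : U →* A) (p₀ : Ω) (hp₀ : dpp I x p₀ = 8) (r z : Ω) (m n : Λ)
    (hr : dpp I x r = 6) (hz : dpp I x z = 4) (hzm : I z m) (hrm : I r m) (hrn : I r n)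
    (hpn : I p₀ n) (hk : ∀ u : U, u • m = m → lam u = 1)
    (hsur : ∀ c : A, ∃ u : U, u • z = z ∧ lam u = c) :
    ∃ L : Λ, I x L ∧ (incG I).dist (Sum.inl r) (Sum.inr L) < 6 ∧
      PD I s t (fun p => (incG I).dist (Sum.inl x) (Sum.inl p))
        (fun p => (incG I).dist (Sum.inr L) (Sum.inl p))
        (fun l => (incG I).dist (Sum.inl x) (Sum.inr l))
        (fun l => (incG I).dist (Sum.inr L) (Sum.inr l)) U A lam p₀ r z m n := by
  have hc := hO.conn
  have hr6 : (incG I).dist (Sum.inl r) (Sum.inl x) = 6 := by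
    rw [SimpleGraph.dist_comm]; exact hr
  obtain ⟨L, hL, hL'⟩ := (rk_of_oct hO (Sum.inl r)).el x (by simp only [hr6]; norm_num)
    (by simp only [hr6]; norm_num)
  simp only [hr6] at hL'
  refine ⟨L, hL, hL', ?_⟩
  have hd : ∀ (u : U) (v w : Ω ⊕ Λ), (incG I).dist (Sum.map (u • ·) (u • ·) v)
      (Sum.map (u • ·) (u • ·) w) = (incG I).dist v w := fun u v w =>
    dist_perm hc (MulAction.toPerm u) (MulAction.toPerm u) (fun p l => hU u p l) v w
  have hrel : ∀ v : Ω ⊕ Λ, (incG I).dist (Sum.inr L) v = (incG I).dist (Sum.inl x) v + 1 ∨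
      (incG I).dist (Sum.inl x) v = (incG I).dist (Sum.inr L) v + 1 := by
    intro v
    have h1 := adj_dist hc (v := v) (incG_pl.2 hL)
    rw [SimpleGraph.dist_comm (u := v) (v := Sum.inr L),
      SimpleGraph.dist_comm (u := v) (v := Sum.inl x)] at h1
    exact h1
  exact
    { s1 := hs
      t1 := ht
      line := hO.line
      point := hO.point
      R := rk_of_oct hO _
      R' := rk_of_oct hO _
      rel := fun p => hrel _
      rell := fun l => hrel _
      ua := fun u p => by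
        have := hd u (Sum.inl x) (Sum.inl p)
        simpa [hUx] using this
      ub := fun u l => by
        have := hd u (Sum.inl x) (Sum.inr l)
        simpa [hUx] using this
      ua' := fun u p => by
        have := hd u (Sum.inr L) (Sum.inl p)
        simpa [hUl u L hL] using this
      ub' := fun u l => by
        have := hd u (Sum.inr L) (Sum.inr l)
        simpa [hUl u L hL] using this
      hU := hU
      tr := hUt
      ap₀ := hp₀
      ar := hr
      ar' := by
        have h1 := hrel (Sum.inl r)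
        have h2 : (incG I).dist (Sum.inl x) (Sum.inl r) = 6 := hr
        rw [SimpleGraph.dist_comm] at hL'
        show (incG I).dist (Sum.inr L) (Sum.inl r) = 5
        omega
      rm := hrm
      zm := hzm
      az := hz
      rn := hrn
      p₀n := hpn
      ker := hk
      sur := hsur }

/-- Generalized octagons with a group `U` like the radical of the stabilizer of a point of a
Ree-Tits octagon: all transitive groups of collineations are non-spreading. -/
theorem oct29 (Ω Λ : Type) [Fintype Ω] [Fintype Λ] (I : Ω → Λ → Prop) (s t : ℕ) (hs : 1 ≤ s)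
    (ht : 1 ≤ t) (hO : IsGenOctagon I s t) (x : Ω) (U : Type) [Group U] [MulAction U Ω]
    [MulAction U Λ] (hU : ∀ (u : U) p l, I p l ↔ I (u • p) (u • l)) (hUx : ∀ u : U, u • x = x)
    (hUl : ∀ (u : U) l, I x l → u • l = l)
    (hUt : ∀ p q, dpp I x p = 8 → dpp I x q = 8 → ∃ u : U, u • p = q)
    (A : Type) [CommGroup A] [Finite A] [Nontrivial A] (lam : U →* A)
    (p₀ r r' z z' : Ω) (m m' n n' : Λ) (hp₀ : dpp I x p₀ = 8)
    (hr : dpp I x r = 6) (hz : dpp I x z = 4) (hzm : I z m) (hrm : I r m) (hrn : I r n)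
    (hpn : I p₀ n) (hk : ∀ u : U, u • m = m → lam u = 1)
    (hsur : ∀ c : A, ∃ u : U, u • z = z ∧ lam u = c)
    (hr' : dpp I x r' = 6) (hz' : dpp I x z' = 4) (hzm' : I z' m') (hrm' : I r' m')
    (hrn' : I r' n') (hpn' : I p₀ n') (hk' : ∀ u : U, u • m' = m' → lam u = 1)
    (hsur' : ∀ c : A, ∃ u : U, u • z' = z' ∧ lam u = c) (hne : r ≠ r')
    (G : Type) [Group G] [MulAction G Ω] [MulAction G Λ] [MulAction.IsPretransitive G Ω]
    (hG : ∀ (g : G) p l, I p l ↔ I (g • p) (g • l)) : NonSpreading G Ω := by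
  have hc := hO.conn
  obtain ⟨L, hxL, hrL, h⟩ := pd_of_path hs ht hO x U hU hUx hUl hUt A lam p₀ hp₀ r z m n hr hz hzm
    hrm hrn hpn hk hsur
  obtain ⟨L', hxL', hrL', h'⟩ := pd_of_path hs ht hO x U hU hUx hUl hUt A lam p₀ hp₀ r' z' m' n' hr'
    hz' hzm' hrm' hrn' hpn' hk' hsur'
  have hLL : L ≠ L' := by
    rintro rfl
    exact hne (h.uniq8 hp₀ hpn hrn h.ar h.ar' hpn' hrn' h'.ar h'.ar').2
  have : Fintype A := Fintype.ofFinite A
  obtain ⟨c, hc1⟩ := exists_ne (1 : A)
  let g : A → ℤ := fun d => (if d = 1 then 1 else 0) - if d = c then 1 else 0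
  have hg : ∑ d, g d = 0 := by
    simp only [g, Finset.sum_sub_distrib]
    simp
  have hg1 : g 1 = 1 := by
    simp only [g, if_pos, if_neg (fun h : (1 : A) = c => hc1 h.symm), sub_zero]
  have hgb : ∀ d, -1 ≤ g d ∧ g d ≤ 1 := by
    intro d
    simp only [g]
    split_ifs <;> simp
  have hfb : ∀ (ρ : Ω) q, -1 ≤ PD.f1 U lam ρ g q ∧ PD.f1 U lam ρ g q ≤ 1 := by
    intro ρ q
    unfold PD.f1
    split_ifs
    · exact hgb _
    · constructor <;> norm_num
  have hdis : ∀ q, PD.f1 U lam r g q ≠ 0 → PD.f1 U lam r' g q = 0 := by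
    intro q hq
    by_contra hq'
    obtain ⟨e1, e2⟩ := h.f1_ne hq
    obtain ⟨e3, e4⟩ := h'.f1_ne hq'
    apply hLL
    refine (rk_of_oct hO (Sum.inl q)).ul x ?_ L L' hxL hxL' ?_ ?_ <;>
    · simp only [SimpleGraph.dist_comm (u := Sum.inl q)] at *
      omega
  have hr0 : PD.f1 U lam r g r = 1 := by
    have := h.f1_val g 1
    rwa [one_smul, map_one, hg1] at this
  refine nonSpreading_of_eig I s t hs hO.line hO.point ?_ ?_
    (fun q => PD.f1 U lam r g q - PD.f1 U lam r' g q) ?_ ⟨r, ?_⟩ ?_ L ⟨p₀, ?_⟩ G hG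
  · intro p q l k hpq h1 h2 h3 h4
    have R := rk_of_oct hO (Sum.inl p)
    have e1 : (incG I).dist (Sum.inl p) (Sum.inr l) = 1 :=
      SimpleGraph.dist_eq_one_iff_adj.2 (incG_pl.2 h1)
    have e2 : (incG I).dist (Sum.inl p) (Sum.inr k) = 1 :=
      SimpleGraph.dist_eq_one_iff_adj.2 (incG_pl.2 h3)
    have e3 : (incG I).dist (Sum.inl p) (Sum.inl q) ≠ 0 := by
      intro h0
      exact hpq (Sum.inl_injective (hc.dist_eq_zero_iff.1 h0))
    have e4 := R.adj q l h2
    exact R.ul q (by omega) l k h2 h4 (by omega) (by omega)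
  · intro p K hpK q q' l l' h1 h2 h3 h4 h5 h6
    have R := rk_of_oct hO (Sum.inl p)
    have e0 : (incG I).dist (Sum.inl p) (Sum.inl p) = 0 := SimpleGraph.dist_self
    have e1 : (incG I).dist (Sum.inl p) (Sum.inr l) = 1 :=
      SimpleGraph.dist_eq_one_iff_adj.2 (incG_pl.2 h3)
    have e2 : (incG I).dist (Sum.inl p) (Sum.inr l') = 1 :=
      SimpleGraph.dist_eq_one_iff_adj.2 (incG_pl.2 h5)
    have e3 : (incG I).dist (Sum.inl p) (Sum.inr K) ≠ 1 := by
      intro h0
      exact hpK (incG_pl.1 (SimpleGraph.dist_eq_one_iff_adj.1 h0))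
    have e4 := R.adj q l h4
    have e5 := R.adj q' l' h6
    have e6 := R.adj q K h1
    have e7 := R.adj q' K h2
    have e8 : (incG I).dist (Sum.inl p) (Sum.inl q) ≠ 0 := by
      intro h0
      exact hpK (Sum.inl_injective (hc.dist_eq_zero_iff.1 h0) ▸ h1)
    have e9 : (incG I).dist (Sum.inl p) (Sum.inl q') ≠ 0 := by
      intro h0
      exact hpK (Sum.inl_injective (hc.dist_eq_zero_iff.1 h0) ▸ h2)
    exact R.up K (by omega) q q' h1 h2 (by omega) (by omega)
  · intro q
    show -1 ≤ PD.f1 U lam r g q - PD.f1 U lam r' g q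
    by_cases hq : PD.f1 U lam r g q = 0
    · have := (hfb r' q).2
      rw [hq]
      linarith
    · rw [hdis q hq]
      have := (hfb r q).1
      linarith
  · show PD.f1 U lam r g r - PD.f1 U lam r' g r ≠ 0
    rw [hdis r (by rw [hr0]; norm_num), hr0]
    norm_num
  · intro p
    rw [Phi_sub]
    show Phi I (PD.f1 U lam r g) p - Phi I (PD.f1 U lam r' g) p =
      ((s : ℤ) + t) * (PD.f1 U lam r g p - PD.f1 U lam r' g p)
    by_cases hp : (incG I).dist (Sum.inl x) (Sum.inl p) = 8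
    · obtain ⟨u, rfl⟩ := hUt p₀ p hp₀ hp
      have k1 : PD.f1 U lam r g (u • p₀) = 0 := by
        by_contra hc
        have := (h.f1_ne hc).1
        omega
      have k2 : PD.f1 U lam r' g (u • p₀) = 0 := by
        by_contra hc
        have := (h'.f1_ne hc).1
        omega
      rw [h.Phi_8, h'.Phi_8, k1, k2]
      ring
    · rw [h.Phi_N g hg p hp, h'.Phi_N g hg p hp]
      ring
  · intro l q h1 h2 h3
    have R' := h.R'
    have e1 : (incG I).dist (Sum.inr L) (Sum.inl q) = 1 :=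
      SimpleGraph.dist_eq_one_iff_adj.2 (incG_lp.2 h3)
    have e2 := R'.adj q l h2
    have e3 := R'.adj p₀ l h1
    have e4 := h.rel p₀
    have e5 := h.ap₀
    omega

end

end SpreadPerm.NS
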