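import Pool.Agent.Lib.MP_e6ed9e_al.NS.Oct29

/-!
# The octagon clause
-/

namespace SpreadPerm.NS

noncomputable section

/-- A path from the point `z` at distance `4` from `x` over the line `m` to the point `r` at
distance `6` from `x`, which is collinear with the point `p₀` opposite `x`; the homomorphism `lam`
is trivial on the stabilizer of the line `m` and surjective on the stabilizer of the point `z`. -/
structure RootPath {Ω Λ : Type} (I : Ω → Λ → Prop) (x p₀ : Ω) {U A : Type} [Group U]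
    [MulAction U Ω] [MulAction U Λ] [CommGroup A] (lam : U →* A) where
  (z r : Ω) (m n : Λ)
  hz : dpp I x z = 4
  hr : dpp I x r = 6
  zm : I z m
  rm : I r m
  rn : I r n
  pn : I p₀ n
  ker : ∀ u : U, u • m = m → lam u = 1
  sur : ∀ c : A, ∃ u : U, u • z = z ∧ lam u = c

theorem octagon_clause {G Ω : Type} [Group G] [Fintype Ω] [MulAction G Ω]
    [MulAction.IsPretransitive G Ω] (Λ : Type) [Finite Λ] [MulAction G Λ] (I : Ω → Λ → Prop)
    (hG : ∀ (g : G) (p : Ω) (l : Λ), I p l ↔ I (g • p) (g • l)) (s t : ℕ) (hs : 1 ≤ s)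
    (ht : 1 ≤ t) (hO : IsGenOctagon I s t) (x p₀ : Ω) (hp₀ : dpp I x p₀ = 8) (U A : Type)
    [Group U] [MulAction U Ω] [MulAction U Λ]
    (hU : ∀ (u : U) (p : Ω) (l : Λ), I p l ↔ I (u • p) (u • l)) (hUx : ∀ u : U, u • x = x)
    (hUl : ∀ (u : U) (l : Λ), I x l → u • l = l)
    (hUt : ∀ p : Ω, dpp I x p = 8 → ∃ u : U, u • p₀ = p)
    [CommGroup A] [Finite A] [Nontrivial A] (lam : U →* A) (v w : RootPath I x p₀ lam)
    (hvw : v.r ≠ w.r) : NonSpreading G Ω := by
  have : Fintype Λ := Fintype.ofFinite Λ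
  refine oct29 Ω Λ I s t hs ht hO x U hU hUx hUl (fun p q hp hq => ?_) A lam p₀ v.r w.r v.z w.z
    v.m w.m v.n w.n hp₀ v.hr v.hz v.zm v.rm v.rn v.pn v.ker v.sur w.hr w.hz w.zm w.rm w.rn w.pn
    w.ker w.sur hvw G hG
  obtain ⟨u, hu⟩ := hUt p hp
  obtain ⟨u', hu'⟩ := hUt q hq
  exact ⟨u' * u⁻¹, by rw [← hu, mul_smul, inv_smul_smul, hu']⟩

end

end SpreadPerm.NS
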