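import Mathlib
import Pool.Agent.Lib.MP_e6ed9e_al.Polar.Glue88

/-!
# Generalized octagons: definitions and distances
-/

namespace SpreadPerm.NS

open Finset
open scoped Classical

noncomputable section

/-- The incidence graph. -/
def incG {Ω Λ : Type} (I : Ω → Λ → Prop) : SimpleGraph (Ω ⊕ Λ) where
  Adj a b := (∃ p l, I p l ∧ a = Sum.inl p ∧ b = Sum.inr l) ∨
    (∃ p l, I p l ∧ b = Sum.inl p ∧ a = Sum.inr l)
  symm := ⟨fun _ _ h => h.elim Or.inr Or.inl⟩
  loopless := ⟨by
    rintro a (⟨p, l, -, rfl, h⟩ | ⟨p, l, -, rfl, h⟩) <;> simp at h⟩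

/-- A generalized octagon of order `(s, t)` with points `Ω`, lines `Λ` and incidence `I`: the
distances in the incidence graph are at most `8`, and if two elements `v`, `w` have distance less
than `8` and are different, exactly one element incident with `w` is nearer to `v` than `w`. -/
structure IsGenOctagon {Ω Λ : Type} (I : Ω → Λ → Prop) (s t : ℕ) : Prop where
  line : ∀ l, {p | I p l}.ncard = s + 1
  point : ∀ p, {l | I p l}.ncard = t + 1
  conn : (incG I).Connected
  diam : ∀ v w, (incG I).dist v w ≤ 8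
  uniq : ∀ v w, v ≠ w → (incG I).dist v w < 8 →
    ∃! w', (incG I).Adj w w' ∧ (incG I).dist v w' < (incG I).dist v w

section
variable {Ω Λ : Type} {I : Ω → Λ → Prop}

theorem incG_pl {p : Ω} {l : Λ} : (incG I).Adj (Sum.inl p) (Sum.inr l) ↔ I p l := by
  constructor
  · rintro (⟨p', l', h, h1, h2⟩ | ⟨p', l', h, h1, h2⟩)
    · cases h1; cases h2; exact h
    · simp at h1
  · intro h; exact Or.inl ⟨p, l, h, rfl, rfl⟩

theorem incG_lp {p : Ω} {l : Λ} : (incG I).Adj (Sum.inr l) (Sum.inl p) ↔ I p l := by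
  rw [SimpleGraph.adj_comm, incG_pl]

theorem incG_adj {a b : Ω ⊕ Λ} (h : (incG I).Adj a b) : ¬ (a.isLeft ↔ b.isLeft) := by
  rcases h with ⟨p, l, -, rfl, rfl⟩ | ⟨p, l, -, rfl, rfl⟩ <;> simp

theorem adj_dist (hc : (incG I).Connected) {v w w' : Ω ⊕ Λ} (h : (incG I).Adj w w') :
    (incG I).dist v w' = (incG I).dist v w + 1 ∨ (incG I).dist v w = (incG I).dist v w' + 1 := by
  have hne : (incG I).dist v w' ≠ (incG I).dist v w := by
    intro he
    let c : (incG I).Coloring Bool := SimpleGraph.Coloring.mk (fun a => a.isLeft) (by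
      intro a b hab he'
      exact incG_adj hab (by rw [he']))
    obtain ⟨p, hp⟩ := hc.exists_walk_length_eq_dist v w
    obtain ⟨p', hp'⟩ := hc.exists_walk_length_eq_dist v w'
    have h1 := c.even_length_iff_congr p
    have h2 := c.even_length_iff_congr p'
    rw [hp] at h1
    rw [hp', he] at h2
    have h3 : ¬ (w.isLeft ↔ w'.isLeft) := incG_adj h
    have h4 : ((c v : Prop) ↔ c w) ↔ ((c v : Prop) ↔ c w') := h1.symm.trans h2
    apply h3
    show (c w : Prop) ↔ c w'
    tauto
  rcases h.diff_dist_adj (u := v) with h1 | h1 | h1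
  · exact absurd h1 hne
  · exact Or.inl h1
  · right
    omega

end

end

end SpreadPerm.NS
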