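import Pool.Agent.Lib.MP_e6ed9e_al.NS.OctDefs29

/-!
# The eigenvalue `s - 1` of a partial linear space without triangles
-/

namespace SpreadPerm.NS

open Finset
open scoped Classical

noncomputable section

section
variable {Ω Λ : Type} [Fintype Ω] [Fintype Λ] (I : Ω → Λ → Prop)

/-- The sum of `f` over the line `l`. -/
def FL (f : Ω → ℤ) (l : Λ) : ℤ := ∑ q, if I q l then f q else 0

/-- The sum of the line sums of `f` over the lines on `p`. -/
def Phi (f : Ω → ℤ) (p : Ω) : ℤ := ∑ l, if I p l then FL I f l else 0

/-- The points at distance at most `3` from the line `L`. -/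
def LB (L : Λ) : Finset Ω := univ.filter fun p => ∃ l q, I p l ∧ I q l ∧ I q L

theorem card_ite {α : Type} [Fintype α] (P : α → Prop) (n : ℕ) (h : {a | P a}.ncard = n) (c : ℤ) :
    ∑ a, (if P a then c else 0) = n * c := by
  rw [← Finset.sum_filter, Finset.sum_const, nsmul_eq_mul]
  congr 2
  rw [← h, Set.ncard_eq_toFinset_card']
  congr 1
  ext a
  simp

theorem sum_LB (s t : ℕ) (hline : ∀ l, {p | I p l}.ncard = s + 1)
    (hpoint : ∀ p, {l | I p l}.ncard = t + 1)
    (hlin : ∀ p q l m, p ≠ q → I p l → I q l → I p m → I q m → l = m)
    (htri : ∀ p L, ¬ I p L → ∀ q q' l l', I q L → I q' L → I p l → I q l → I p l' → I q' l' → q = q')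
    (f : Ω → ℤ) (hf : ∀ p, Phi I f p = ((s : ℤ) + t) * f p) (L : Λ) :
    ∑ p ∈ LB I L, f p = 0 := by
  -- the triples
  let C : Ω → Λ → Ω → Prop := fun q l p => I q L ∧ l ≠ L ∧ I q l ∧ I p l ∧ p ≠ q
  have hR : ∑ q, ∑ l, ∑ p, (if C q l p then f p else 0) = - FL I f L := by
    have h1 : ∀ q, ∑ l, ∑ p, (if C q l p then f p else 0) =
        if I q L then (s : ℤ) * f q - FL I f L else 0 := by
      intro q
      by_cases hq : I q L
      · rw [if_pos hq]
        have h2 : ∀ l, ∑ p, (if C q l p then f p else 0) =
            (if I q l then FL I f l - f q else 0) - if l = L then FL I f L - f q else 0 := by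
          intro l
          by_cases hl : I q l
          · have h3 : ∀ p, (if I p l ∧ p ≠ q then f p else 0) =
                (if I p l then f p else 0) - if p = q then f q else 0 := by
              intro p
              by_cases hp : p = q
              · subst hp
                simp [hl]
              · simp [hp]
            have h4 : ∑ p, (if I p l ∧ p ≠ q then f p else 0) = FL I f l - f q := by
              rw [Finset.sum_congr rfl fun p _ => h3 p, Finset.sum_sub_distrib]
              simp [FL]
            by_cases hL : l = L
            · subst hL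
              rw [if_pos hl, if_pos rfl, sub_self]
              apply Finset.sum_eq_zero
              intro p _
              rw [if_neg]
              rintro ⟨-, h, -⟩
              exact h rfl
            · rw [if_pos hl, if_neg hL, sub_zero, ← h4]
              apply Finset.sum_congr rfl
              intro p _
              have : C q l p ↔ I p l ∧ p ≠ q := by
                simp only [C]
                tauto
              simp only [this]
          · have hL : l ≠ L := fun h => hl (h ▸ hq)
            rw [if_neg hl, if_neg hL, sub_zero]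
            apply Finset.sum_eq_zero
            intro p _
            rw [if_neg]
            rintro ⟨-, -, h, -⟩
            exact hl h
        rw [Finset.sum_congr rfl fun l _ => h2 l, Finset.sum_sub_distrib]
        have h5 : ∑ l, (if I q l then FL I f l - f q else 0) =
            Phi I f q - ((t : ℤ) + 1) * f q := by
          have h6 : ∀ l, (if I q l then FL I f l - f q else 0) =
              (if I q l then FL I f l else 0) - if I q l then f q else 0 := by
            intro l; split_ifs <;> simp
          rw [Finset.sum_congr rfl fun l _ => h6 l, Finset.sum_sub_distrib,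
            card_ite (fun l => I q l) (t + 1) (hpoint q)]
          simp [Phi]
        rw [h5, hf q]
        simp
        ring
      · rw [if_neg hq]
        apply Finset.sum_eq_zero
        intro l _
        apply Finset.sum_eq_zero
        intro p _
        rw [if_neg]
        rintro ⟨h, -⟩
        exact hq h
    rw [Finset.sum_congr rfl fun q _ => h1 q]
    have h7 : ∀ q, (if I q L then (s : ℤ) * f q - FL I f L else 0) =
        (s : ℤ) * (if I q L then f q else 0) - if I q L then FL I f L else 0 := by
      intro q; split_ifs <;> simp
    rw [Finset.sum_congr rfl fun q _ => h7 q, Finset.sum_sub_distrib, ← Finset.mul_sum,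
      card_ite (fun q => I q L) (s + 1) (hline L)]
    show (s : ℤ) * FL I f L - ((s + 1 : ℕ) : ℤ) * FL I f L = - FL I f L
    push_cast
    ring
  have hc : ∀ p, (if p ∈ LB I L then f p else 0) =
      (if I p L then f p else 0) + ∑ q, ∑ l, (if C q l p then f p else 0) := by
    intro p
    by_cases hp : I p L
    · have h1 : p ∈ LB I L := by
        simp only [LB, mem_filter, mem_univ, true_and]
        exact ⟨L, p, hp, hp, hp⟩
      rw [if_pos h1, if_pos hp]
      have : ∑ q, ∑ l, (if C q l p then f p else 0) = 0 := by
        apply Finset.sum_eq_zero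
        intro q _
        apply Finset.sum_eq_zero
        intro l _
        rw [if_neg]
        rintro ⟨h1, h2, h3, h4, h5⟩
        exact h2 (hlin p q l L h5 h4 h3 hp h1)
      rw [this, add_zero]
    · rw [if_neg hp, zero_add]
      by_cases hB : p ∈ LB I L
      · rw [if_pos hB]
        simp only [LB, mem_filter, mem_univ, true_and] at hB
        obtain ⟨l₀, q₀, h1, h2, h3⟩ := hB
        have hpq : ∀ q, I q L → p ≠ q := fun q hq h => hp (h ▸ hq)
        rw [Finset.sum_eq_single q₀, Finset.sum_eq_single l₀, if_pos]
        · exact ⟨h3, fun h => hp (h ▸ h1), h2, h1, hpq q₀ h3⟩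
        · intro l _ hl
          rw [if_neg]
          rintro ⟨-, -, h4, h5, -⟩
          exact hl (hlin p q₀ l l₀ (hpq q₀ h3) h5 h4 h1 h2)
        · intro h; exact absurd (mem_univ _) h
        · intro q _ hq
          apply Finset.sum_eq_zero
          intro l _
          rw [if_neg]
          rintro ⟨h4, -, h5, h6, -⟩
          exact hq (htri p L hp q q₀ l l₀ h4 h3 h6 h5 h1 h2)
        · intro h; exact absurd (mem_univ _) h
      · rw [if_neg hB]
        symm
        apply Finset.sum_eq_zero
        intro q _
        apply Finset.sum_eq_zero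
        intro l _
        rw [if_neg]
        rintro ⟨h4, -, h5, h6, -⟩
        apply hB
        simp only [LB, mem_filter, mem_univ, true_and]
        exact ⟨l, q, h6, h5, h4⟩
  rw [← Finset.sum_filter_add_sum_filter_not (s := LB I L) (fun _ => True)]
  simp only [Finset.filter_true, not_true, Finset.filter_false, Finset.sum_empty, add_zero]
  have h8 : ∑ p ∈ LB I L, f p = ∑ p, if p ∈ LB I L then f p else 0 := by
    rw [← Finset.sum_filter]
    congr 1
    ext p
    simp
  rw [h8, Finset.sum_congr rfl fun p _ => hc p, Finset.sum_add_distrib]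
  have h9 : ∑ p, ∑ q, ∑ l, (if C q l p then f p else 0) = - FL I f L := by
    rw [← hR, Finset.sum_comm]
    apply Finset.sum_congr rfl
    intro q _
    rw [Finset.sum_comm]
  rw [h9]
  show FL I f L + - FL I f L = 0
  ring

/-- Permutations of the points and lines which preserve the incidence. -/
theorem Phi_comp (σ : Equiv.Perm Ω) (τ : Equiv.Perm Λ) (h : ∀ p l, I p l ↔ I (σ p) (τ l))
    (f : Ω → ℤ) (p : Ω) : Phi I (fun q => f (σ q)) p = Phi I f (σ p) := by
  unfold Phi
  refine Fintype.sum_equiv τ _ _ fun l => ?_
  have h1 : FL I (fun q => f (σ q)) l = FL I f (τ l) := by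
    unfold FL
    refine Fintype.sum_equiv σ _ _ fun q => ?_
    simp only [h q l]
  simp only [h1, h p l]

/-- An integral eigenvector `f ≥ -1` for the eigenvalue `s - 1` makes every group of collineations
non-spreading. -/
theorem nonSpreading_of_eig (s t : ℕ) (hs : 1 ≤ s) (hline : ∀ l, {p | I p l}.ncard = s + 1)
    (hpoint : ∀ p, {l | I p l}.ncard = t + 1)
    (hlin : ∀ p q l m, p ≠ q → I p l → I q l → I p m → I q m → l = m)
    (htri : ∀ p L, ¬ I p L → ∀ q q' l l', I q L → I q' L → I p l → I q l → I p l' → I q' l' → q = q')
    (f : Ω → ℤ) (hf1 : ∀ p, -1 ≤ f p) (hf0 : ∃ p, f p ≠ 0)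
    (hf : ∀ p, Phi I f p = ((s : ℤ) + t) * f p)
    (L : Λ) (hL : ∃ p, ∀ l q, I p l → I q l → ¬ I q L)
    (G : Type) [Group G] [MulAction G Ω] [MulAction G Λ] [MulAction.IsPretransitive G Ω]
    (hG : ∀ (g : G) p l, I p l ↔ I (g • p) (g • l)) : NonSpreading G Ω := by
  refine nonSpreading_of_vector f hf1 hf0 (LB I L) ?_ ?_ ?_
  · have h1 : (univ.filter fun p => I p L) ⊆ LB I L := by
      intro p hp
      have := (mem_filter.1 hp).2
      simp only [LB, mem_filter, mem_univ, true_and]
      exact ⟨L, p, this, this, this⟩
    have h2 : (univ.filter fun p => I p L).card = s + 1 := by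
      rw [← hline L, Set.ncard_eq_toFinset_card']
      congr 1
      ext p
      simp
    have := Finset.card_le_card h1
    omega
  · obtain ⟨p, hp⟩ := hL
    rw [← Finset.card_univ]
    apply Finset.card_lt_card
    refine (Finset.ssubset_univ_iff.2 fun h => ?_)
    have : p ∈ LB I L := h ▸ mem_univ p
    simp only [LB, mem_filter, mem_univ, true_and] at this
    obtain ⟨l, q, h1, h2, h3⟩ := this
    exact hp l q h1 h2 h3
  · intro g
    refine sum_LB I s t hline hpoint hlin htri (fun p => f (g • p)) (fun p => ?_) L
    exact (Phi_comp I (MulAction.toPerm g) (MulAction.toPerm g) (fun p l => hG g p l) f p).trans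
      (hf (g • p))

end

end

end SpreadPerm.NS
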