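import Pool.Agent.Lib.MP_e6ed9e_al.NS.OctEig29

/-!
# The vector of a half apartment of a generalized octagon
-/

namespace SpreadPerm.NS

open Finset
open scoped Classical

noncomputable section

/-- The properties of the distances from a fixed element. -/
structure Rk {Ω Λ : Type} (I : Ω → Λ → Prop) (a : Ω → ℕ) (b : Λ → ℕ) : Prop where
  adj : ∀ p l, I p l → b l = a p + 1 ∨ a p = b l + 1
  ale : ∀ p, a p ≤ 8
  ble : ∀ l, b l ≤ 8
  ul : ∀ p, a p < 8 → ∀ l l', I p l → I p l' → b l < a p → b l' < a p → l = l'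
  el : ∀ p, a p < 8 → a p ≠ 0 → ∃ l, I p l ∧ b l < a p
  up : ∀ l, b l < 8 → ∀ p p', I p l → I p' l → a p < b l → a p' < b l → p = p'
  ep : ∀ l, b l < 8 → b l ≠ 0 → ∃ p, I p l ∧ a p < b l

structure PD {Ω Λ : Type} (I : Ω → Λ → Prop) (s t : ℕ) (a a' : Ω → ℕ) (b b' : Λ → ℕ)
    (U : Type) [Group U] [MulAction U Ω] [MulAction U Λ] (A : Type) [CommGroup A] (lam : U →* A)
    (p₀ r z : Ω) (m n : Λ) : Prop where
  s1 : 1 ≤ s
  t1 : 1 ≤ t
  line : ∀ l, {p | I p l}.ncard = s + 1
  point : ∀ p, {l | I p l}.ncard = t + 1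
  R : Rk I a b
  R' : Rk I a' b'
  rel : ∀ p, a' p = a p + 1 ∨ a p = a' p + 1
  rell : ∀ l, b' l = b l + 1 ∨ b l = b' l + 1
  ua : ∀ (u : U) p, a (u • p) = a p
  ub : ∀ (u : U) l, b (u • l) = b l
  ua' : ∀ (u : U) p, a' (u • p) = a' p
  ub' : ∀ (u : U) l, b' (u • l) = b' l
  hU : ∀ (u : U) p l, I p l ↔ I (u • p) (u • l)
  tr : ∀ p q, a p = 8 → a q = 8 → ∃ u : U, u • p = q
  ap₀ : a p₀ = 8
  ar : a r = 6
  ar' : a' r = 5
  rm : I r m
  zm : I z m
  az : a z = 4
  rn : I r n
  p₀n : I p₀ n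
  ker : ∀ u : U, u • m = m → lam u = 1
  sur : ∀ c : A, ∃ u : U, u • z = z ∧ lam u = c

namespace PD

variable {Ω Λ : Type} [Fintype Ω] [Fintype Λ] {I : Ω → Λ → Prop} {s t : ℕ} {a a' : Ω → ℕ}
  {b b' : Λ → ℕ} {U : Type} [Group U] [MulAction U Ω] [MulAction U Λ] {A : Type} [CommGroup A]
  {lam : U →* A} {p₀ r z : Ω} {m n : Λ}

omit [Fintype Ω] [Fintype Λ] in
theorem uniq8 (h : PD I s t a a' b b' U A lam p₀ r z m n) {p q q' : Ω} {l l' : Λ} (hp : a p = 8)
    (h1 : I p l) (h2 : I q l) (h3 : a q = 6) (h4 : a' q = 5) (h1' : I p l') (h2' : I q' l')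
    (h3' : a q' = 6) (h4' : a' q' = 5) : l = l' ∧ q = q' := by
  have key : ∀ (q : Ω) (l : Λ), I p l → I q l → a q = 6 → a' q = 5 → b' l = 6 := by
    intro q l h1 h2 h3 h4
    have e1 := h.R.adj p l h1
    have e2 := h.R.ble l
    have e3 := h.R'.adj q l h2
    have e4 := h.rell l
    omega
  have hp' : a' p = 7 := by
    have e1 := h.rel p
    have e2 := h.R'.ale p
    omega
  have k1 := key q l h1 h2 h3 h4
  have k2 := key q' l' h1' h2' h3' h4'
  have hl : l = l' := h.R'.ul p (by omega) l l' h1 h1' (by omega) (by omega)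
  subst hl
  exact ⟨rfl, h.R'.up l (by omega) q q' h2 h2' (by omega) (by omega)⟩

omit [Fintype Ω] [Fintype Λ] in
theorem bm (h : PD I s t a a' b b' U A lam p₀ r z m n) : b m = 5 := by
  have e1 := h.R.adj r m h.rm
  have e2 := h.R.adj z m h.zm
  have e3 := h.ar
  have e4 := h.az
  omega

omit [Fintype Ω] [Fintype Λ] in
/-- every point at distance `6` with the same first line is in the orbit of `r` -/
theorem orb (h : PD I s t a a' b b' U A lam p₀ r z m n) {q : Ω} (h1 : a q = 6) (h2 : a' q = 5) :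
    ∃ u : U, u • r = q := by
  -- a line up
  obtain ⟨l, hl, hbl⟩ : ∃ l, I q l ∧ b l = 7 := by
    have hc : 1 < {l | I q l}.ncard := by rw [h.point q]; have := h.t1; omega
    obtain ⟨l₁, l₂, hl₁, hl₂, hne⟩ := (Set.one_lt_ncard_iff (Set.finite_of_ncard_pos
      (by omega))).1 hc
    by_cases hb : b l₁ = 7
    · exact ⟨l₁, hl₁, hb⟩
    · refine ⟨l₂, hl₂, ?_⟩
      by_contra hb2
      have e1 := h.R.adj q l₁ hl₁
      have e2 := h.R.adj q l₂ hl₂
      exact hne (h.R.ul q (by omega) l₁ l₂ hl₁ hl₂ (by omega) (by omega))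
  obtain ⟨p, hp, hap⟩ : ∃ p, I p l ∧ a p = 8 := by
    have hc : 1 < {p | I p l}.ncard := by rw [h.line l]; have := h.s1; omega
    obtain ⟨q₁, q₂, hq₁, hq₂, hne⟩ := (Set.one_lt_ncard_iff (Set.finite_of_ncard_pos
      (by omega))).1 hc
    by_cases hb : a q₁ = 8
    · exact ⟨q₁, hq₁, hb⟩
    · refine ⟨q₂, hq₂, ?_⟩
      by_contra hb2
      have e1 := h.R.adj q₁ l hq₁
      have e2 := h.R.adj q₂ l hq₂
      exact hne (h.R.up l (by omega) q₁ q₂ hq₁ hq₂ (by omega) (by omega))
  obtain ⟨u, hu⟩ := h.tr p₀ p h.ap₀ hap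
  refine ⟨u, ?_⟩
  have e1 : I (u • r) (u • n) := (h.hU u r n).1 h.rn
  have e2 : I p (u • n) := hu ▸ (h.hU u p₀ n).1 h.p₀n
  exact (h.uniq8 hap e2 e1 (by rw [h.ua, h.ar]) (by rw [h.ua', h.ar']) hp hl h1 h2).2

omit [Fintype Ω] [Fintype Λ] in
theorem stab (h : PD I s t a a' b b' U A lam p₀ r z m n) {u : U} {q : Ω} (hq : I q m)
    (haq : a q = 6) (hu : u • r = q) : lam u = 1 := by
  apply h.ker
  have e1 : I q (u • m) := hu ▸ (h.hU u r m).1 h.rm
  have e2 := h.bm
  exact h.R.ul q (by omega) _ _ e1 hq (by rw [h.ub]; omega) (by omega)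

/-- the vector -/
def f1 (U : Type) [Group U] [MulAction U Ω] (lam : U →* A) (r : Ω) (g : A → ℤ) (q : Ω) : ℤ :=
  if h : ∃ u : U, u • r = q then g (lam h.choose) else 0

omit [Fintype Ω] [Fintype Λ] in
theorem f1_val (h : PD I s t a a' b b' U A lam p₀ r z m n) (g : A → ℤ) (u : U) :
    f1 U lam r g (u • r) = g (lam u) := by
  have hex : ∃ v : U, v • r = u • r := ⟨u, rfl⟩
  unfold f1
  rw [dif_pos hex]
  have h1 := hex.choose_spec
  set v := hex.choose
  have h2 : (u⁻¹ * v) • r = r := by rw [mul_smul, h1, inv_smul_smul]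
  have h3 := h.stab h.rm h.ar h2
  rw [map_mul, map_inv, inv_mul_eq_one] at h3
  rw [h3]

omit [Fintype Ω] [Fintype Λ] in
theorem f1_ne (h : PD I s t a a' b b' U A lam p₀ r z m n) {g : A → ℤ} {q : Ω}
    (hq : f1 U lam r g q ≠ 0) : a q = 6 ∧ a' q = 5 := by
  unfold f1 at hq
  split_ifs at hq with hex
  · obtain ⟨u, rfl⟩ := hex
    exact ⟨by rw [h.ua, h.ar], by rw [h.ua', h.ar']⟩
  · exact absurd rfl hq

omit [Fintype Ω] [Fintype Λ] in
theorem f1_comp (h : PD I s t a a' b b' U A lam p₀ r z m n) (g : A → ℤ) (u : U) (q : Ω) :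
    f1 U lam r g (u • q) = f1 U lam r (fun c => g (lam u * c)) q := by
  by_cases hex : ∃ v : U, v • r = q
  · obtain ⟨v, rfl⟩ := hex
    rw [h.f1_val, ← mul_smul, h.f1_val, map_mul]
  · have hex' : ¬ ∃ v : U, v • r = u • q := by
      rintro ⟨v, hv⟩
      exact hex ⟨u⁻¹ * v, by rw [mul_smul, hv, inv_smul_smul]⟩
    unfold f1
    rw [dif_neg hex, dif_neg hex']

theorem Phi_smul (h : PD I s t a a' b b' U A lam p₀ r z m n) (g : A → ℤ) (u : U) (q : Ω) :
    Phi I (f1 U lam r g) (u • q) = Phi I (f1 U lam r (fun c => g (lam u * c))) q := by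
  have h1 := Phi_comp I (MulAction.toPerm u) (MulAction.toPerm u) (fun p l => h.hU u p l)
    (f1 U lam r g) q
  rw [MulAction.toPerm_apply] at h1
  rw [← h1]
  congr 1
  funext p
  exact h.f1_comp g u p

omit [Fintype Ω] [Fintype Λ] in
theorem az' (h : PD I s t a a' b b' U A lam p₀ r z m n) : b' m = 4 ∧ a' z = 3 := by
  have e1 := h.bm
  have e2 := h.ar
  have e3 := h.ar'
  have e4 := h.az
  obtain ⟨w, hw, hw'⟩ := h.R'.el r (by omega) (by omega)
  have hwm : w = m := by
    have k1 := h.R'.adj r w hw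
    have k2 := h.rell w
    have k3 := h.R.adj r w hw
    exact h.R.ul r (by omega) w m hw h.rm (by omega) (by omega)
  subst hwm
  have e5 := h.R'.adj r w hw
  have e6 : b' w = 4 := by omega
  obtain ⟨y, hy, hy'⟩ := h.R'.ep w (by omega) (by omega)
  have hyz : y = z := by
    have k1 := h.R'.adj y w hy
    have k2 := h.rel y
    have k3 := h.R.adj y w hy
    exact h.R.up w (by omega) y z hy h.zm (by omega) (by omega)
  subst hyz
  have e7 := h.R'.adj y w hy
  exact ⟨e6, by omega⟩

omit [Fintype Ω] [Fintype Λ] in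
theorem mpt (h : PD I s t a a' b b' U A lam p₀ r z m n) {q : Ω} (hq : I q m) (hz : q ≠ z) :
    a q = 6 ∧ a' q = 5 := by
  have e1 := h.bm
  have e4 := h.az
  obtain ⟨e5, e6⟩ := h.az'
  have k1 := h.R.adj q m hq
  have k2 := h.R'.adj q m hq
  constructor
  · by_contra hc
    exact hz (h.R.up m (by omega) q z hq h.zm (by omega) (by omega))
  · by_contra hc
    exact hz (h.R'.up m (by omega) q z hq h.zm (by omega) (by omega))

theorem Phi_r (h : PD I s t a a' b b' U A lam p₀ r z m n) (g : A → ℤ) :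
    Phi I (f1 U lam r g) r = ((s : ℤ) + t) * g 1 := by
  have e1 := h.bm
  have e2 := h.ar
  have e4 := h.az
  have hr1 : f1 U lam r g r = g 1 := by
    have := h.f1_val g 1
    rwa [one_smul, map_one] at this
  have hm : FL I (f1 U lam r g) m = s * g 1 := by
    have h1 : ∀ q, (if I q m then f1 U lam r g q else 0) =
        (if I q m then g 1 else 0) - if q = z then g 1 else 0 := by
      intro q
      by_cases hq : I q m
      · rw [if_pos hq, if_pos hq]
        by_cases hz : q = z
        · rw [if_pos hz, sub_self]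
          by_contra hc
          have := (h.f1_ne hc).1
          rw [hz] at this
          omega
        · rw [if_neg hz, sub_zero]
          obtain ⟨k1, k2⟩ := h.mpt hq hz
          obtain ⟨u, hu⟩ := h.orb k1 k2
          rw [← hu, h.f1_val, h.stab hq k1 hu]
      · have hz : q ≠ z := fun hz => hq (hz ▸ h.zm)
        rw [if_neg hq, if_neg hq, if_neg hz, sub_zero]
    unfold FL
    rw [Finset.sum_congr rfl fun q _ => h1 q, Finset.sum_sub_distrib,
      card_ite (fun q => I q m) (s + 1) (h.line m)]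
    simp
    ring
  have hl : ∀ l, I r l → l ≠ m → FL I (f1 U lam r g) l = g 1 := by
    intro l hl hlm
    have k1 := h.R.adj r l hl
    have k2 : b l = 7 := by
      by_contra hc
      exact hlm (h.R.ul r (by omega) l m hl h.rm (by omega) (by omega))
    have h1 : ∀ q, (if I q l then f1 U lam r g q else 0) = if q = r then g 1 else 0 := by
      intro q
      by_cases hq : I q l
      · rw [if_pos hq]
        by_cases hqr : q = r
        · rw [if_pos hqr, hqr, hr1]
        · rw [if_neg hqr]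
          by_contra hc
          have k3 := (h.f1_ne hc).1
          exact hqr (h.R.up l (by omega) q r hq hl (by omega) (by omega))
      · have hqr : q ≠ r := fun hz => hq (hz ▸ hl)
        rw [if_neg hq, if_neg hqr]
    unfold FL
    rw [Finset.sum_congr rfl fun q _ => h1 q]
    simp
  have h2 : ∀ l, (if I r l then FL I (f1 U lam r g) l else 0) =
      (if I r l then g 1 else 0) + if l = m then ((s : ℤ) - 1) * g 1 else 0 := by
    intro l
    by_cases hrl : I r l
    · rw [if_pos hrl, if_pos hrl]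
      by_cases hlm : l = m
      · rw [if_pos hlm, hlm, hm]
        ring
      · rw [if_neg hlm, hl l hrl hlm, add_zero]
    · have hlm : l ≠ m := fun hz => hrl (hz ▸ h.rm)
      rw [if_neg hrl, if_neg hrl, if_neg hlm, add_zero]
  unfold Phi
  rw [Finset.sum_congr rfl fun l _ => h2 l, Finset.sum_add_distrib,
    card_ite (fun l => I r l) (t + 1) (h.point r)]
  simp
  ring

theorem Phi_p₀ (h : PD I s t a a' b b' U A lam p₀ r z m n) (g : A → ℤ) :
    Phi I (f1 U lam r g) p₀ = g 1 := by
  have hr1 : f1 U lam r g r = g 1 := by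
    have := h.f1_val g 1
    rwa [one_smul, map_one] at this
  have key : ∀ l q, I p₀ l → I q l → f1 U lam r g q ≠ 0 → l = n ∧ q = r := by
    intro l q h1 h2 h3
    obtain ⟨k1, k2⟩ := h.f1_ne h3
    exact h.uniq8 h.ap₀ h1 h2 k1 k2 h.p₀n h.rn h.ar h.ar'
  unfold Phi
  rw [Finset.sum_eq_single n]
  · rw [if_pos h.p₀n]
    unfold FL
    rw [Finset.sum_eq_single r]
    · rw [if_pos h.rn, hr1]
    · intro q _ hq
      split_ifs with hqn
      · by_contra hc
        exact hq (key n q h.p₀n hqn hc).2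
      · rfl
    · intro hc; exact absurd (mem_univ _) hc
  · intro l _ hl
    split_ifs with hpl
    · unfold FL
      apply Finset.sum_eq_zero
      intro q _
      split_ifs with hql
      · by_contra hc
        exact hl (key l q hpl hql hc).1
      · rfl
    · rfl
  · intro hc; exact absurd (mem_univ _) hc

theorem Phi_z [Fintype A] (h : PD I s t a a' b b' U A lam p₀ r z m n) (g : A → ℤ)
    (hg : ∑ c, g c = 0) : Phi I (f1 U lam r g) z = 0 := by
  have h1 : ∀ c : A, Phi I (f1 U lam r (fun d => g (c * d))) z = Phi I (f1 U lam r g) z := by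
    intro c
    obtain ⟨u, hu1, hu2⟩ := h.sur c
    have := h.Phi_smul g u z
    rw [hu1, hu2] at this
    exact this.symm
  have h2 : ∑ c : A, Phi I (f1 U lam r (fun d => g (c * d))) z = 0 := by
    unfold Phi FL
    rw [Finset.sum_comm]
    apply Finset.sum_eq_zero
    intro l _
    split_ifs
    · rw [Finset.sum_comm]
      apply Finset.sum_eq_zero
      intro q _
      split_ifs
      · unfold f1
        split_ifs with hex
        · rw [← hg]
          exact Fintype.sum_equiv (Equiv.mulRight (lam hex.choose)) _ _ fun c => rfl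
        · simp
      · simp
    · simp
  rw [Finset.sum_congr rfl fun c _ => h1 c, Finset.sum_const, nsmul_eq_mul, mul_eq_zero] at h2
  rcases h2 with h2 | h2
  · exfalso
    have : (univ : Finset A).card ≠ 0 := by
      rw [Finset.card_univ]; exact Fintype.card_ne_zero
    exact this (by exact_mod_cast h2)
  · exact h2

theorem Phi_8 (h : PD I s t a a' b b' U A lam p₀ r z m n) (g : A → ℤ) (u : U) :
    Phi I (f1 U lam r g) (u • p₀) = g (lam u) := by
  rw [h.Phi_smul, h.Phi_p₀, mul_one]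

theorem Phi_N [Fintype A] (h : PD I s t a a' b b' U A lam p₀ r z m n) (g : A → ℤ)
    (hg : ∑ c, g c = 0) (p : Ω) (hp : a p ≠ 8) :
    Phi I (f1 U lam r g) p = ((s : ℤ) + t) * f1 U lam r g p := by
  have hgs : ∀ c : A, ∑ d, g (c * d) = 0 := by
    intro c
    rw [← hg]
    exact Fintype.sum_equiv (Equiv.mulLeft c) _ _ fun d => rfl
  -- the orbit of `r`
  have horb : ∀ (g : A → ℤ) (u : U),
      Phi I (f1 U lam r g) (u • r) = ((s : ℤ) + t) * f1 U lam r g (u • r) := by
    intro g u
    rw [h.Phi_smul, h.Phi_r, h.f1_val, mul_one]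
  by_cases hex : ∃ l q, I p l ∧ I q l ∧ ∃ u : U, u • r = q
  · obtain ⟨l, q, h1, h2, u, hu⟩ := hex
    have e1 := h.bm
    have e2 := h.ar
    have e4 := h.az
    obtain ⟨p', hp'⟩ : ∃ p', p = u • p' := ⟨u⁻¹ • p, (smul_inv_smul u p).symm⟩
    obtain ⟨l', hl'⟩ : ∃ l', l = u • l' := ⟨u⁻¹ • l, (smul_inv_smul u l).symm⟩
    subst hp' hl' hu
    have h1' : I p' l' := (h.hU u p' l').2 h1
    have h2' : I r l' := (h.hU u r l').2 h2
    rw [h.ua] at hp
    by_cases hlm : l' = m
    · subst hlm
      by_cases hz : p' = z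
      · subst hz
        rw [h.Phi_smul, h.Phi_z _ (hgs _), h.f1_comp]
        have : f1 U lam r (fun c => g (lam u * c)) p' = 0 := by
          by_contra hc
          have := (h.f1_ne hc).1
          omega
        rw [this, mul_zero]
      · obtain ⟨k1, k2⟩ := h.mpt h1' hz
        obtain ⟨w, rfl⟩ := h.orb k1 k2
        rw [← mul_smul]
        exact horb g (u * w)
    · have k1 := h.R.adj r l' h2'
      have k2 : b l' = 7 := by
        by_contra hc
        exact hlm (h.R.ul r (by omega) l' m h2' h.rm (by omega) (by omega))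
      have k3 := h.R.adj p' l' h1'
      have : p' = r := h.R.up l' (by omega) p' r h1' h2' (by omega) (by omega)
      rw [this]
      exact horb g u
  · have h0 : f1 U lam r g p = 0 := by
      by_contra hc
      unfold f1 at hc
      split_ifs at hc with hu
      · obtain ⟨l, hl⟩ : ∃ l, I p l := by
          have hc : 0 < {l | I p l}.ncard := by rw [h.point p]; omega
          exact (Set.ncard_pos (Set.finite_of_ncard_pos hc)).1 hc
        exact hex ⟨l, p, hl, hl, hu⟩
      · exact hc rfl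
    rw [h0, mul_zero]
    unfold Phi
    apply Finset.sum_eq_zero
    intro l _
    split_ifs with hl
    · unfold FL
      apply Finset.sum_eq_zero
      intro q _
      split_ifs with hq
      · unfold f1
        rw [dif_neg]
        exact fun hu => hex ⟨l, q, hl, hq, hu⟩
      · rfl
    · rfl

end PD

end

end SpreadPerm.NS
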