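import Mathlib
import Pool.Agent.Lib.MP_e6ed9e_al.Polar.Glue88

/-!
# Row PAIRS: pairs of subspaces, groups with graph automorphisms
-/

namespace SpreadPerm.NS

open Module Finset
open scoped Classical

noncomputable section

/-- Four pairs which form a rectangle. -/
theorem pairs97 (X Y : Type) (Ω : Set (X × Y)) [Fintype Ω] (x₁ x₂ : X) (y₁ y₂ : Y) :
    x₁ ≠ x₂ → y₁ ≠ y₂ → (x₁, y₁) ∈ Ω → (x₁, y₂) ∈ Ω → (x₂, y₁) ∈ Ω → (x₂, y₂) ∈ Ω →
    ∀ (G : Type) [Group G] [MulAction G Ω] [MulAction.IsPretransitive G Ω],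
    (∀ (g : G) (x : X), (∃ x', ∀ p : Ω, p.1.1 = x ↔ (g • p).1.1 = x') ∨
      (∃ y', ∀ p : Ω, p.1.1 = x ↔ (g • p).1.2 = y')) → NonSpreading G Ω := by
  intro hx hy h11 h12 h21 h22 G _ _ _ hG
  set q11 : Ω := ⟨(x₁, y₁), h11⟩ with e11
  set q12 : Ω := ⟨(x₁, y₂), h12⟩ with e12
  set q21 : Ω := ⟨(x₂, y₁), h21⟩ with e21
  set q22 : Ω := ⟨(x₂, y₂), h22⟩ with e22
  let v : Ω → ℤ := fun p => (if p = q11 then 1 else 0) - (if p = q12 then 1 else 0) -
    (if p = q21 then 1 else 0) + (if p = q22 then 1 else 0)
  have hsum : ∀ P : Ω → Prop, ∑ p ∈ univ.filter P, v p =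
      (if P q11 then 1 else 0) - (if P q12 then 1 else 0) - (if P q21 then 1 else 0) +
        (if P q22 then 1 else 0) := by
    intro P
    simp only [v, Finset.sum_add_distrib, Finset.sum_sub_distrib, Finset.sum_ite_eq',
      Finset.mem_filter, Finset.mem_univ, true_and]
  have n1 : q12 ≠ q11 := by
    intro h
    exact hy (congrArg (fun p : Ω => p.1.2) h).symm
  have n2 : q21 ≠ q11 := by
    intro h
    exact hx (congrArg (fun p : Ω => p.1.1) h).symm
  have n3 : q12 ≠ q21 := by
    intro h
    exact hx (congrArg (fun p : Ω => p.1.1) h)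
  have n4 : q11 ≠ q22 := by
    intro h
    exact hx (congrArg (fun p : Ω => p.1.1) h)
  refine nonSpreading_of_vector v ?_ ⟨q11, ?_⟩ (univ.filter (fun p : Ω => p.1.1 = x₁)) ?_ ?_ ?_
  · intro p
    show -1 ≤ (if p = q11 then 1 else 0) - (if p = q12 then 1 else 0) -
      (if p = q21 then 1 else 0) + (if p = q22 then 1 else 0)
    by_cases h : p = q12
    · have h' : p ≠ q21 := by rw [h]; exact n3
      rw [if_neg h']
      split_ifs <;> norm_num
    · rw [if_neg h]
      split_ifs <;> norm_num
  · show (if q11 = q11 then 1 else 0) - (if q11 = q12 then 1 else 0) -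
      (if q11 = q21 then 1 else 0) + (if q11 = q22 then 1 else 0) ≠ (0 : ℤ)
    rw [if_pos rfl, if_neg n1.symm, if_neg n2.symm, if_neg n4]
    norm_num
  · rw [Finset.one_lt_card]
    exact ⟨q11, by simp [e11], q12, by simp [e12], n1.symm⟩
  · rw [← Finset.card_univ]
    apply Finset.card_lt_card
    rw [Finset.ssubset_univ_iff]
    intro h
    have h5 : q21 ∈ univ.filter (fun p : Ω => p.1.1 = x₁) := by
      rw [h]; exact mem_univ _
    simp only [mem_filter, mem_univ, true_and] at h5
    exact hx h5.symm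
  · intro g
    rcases hG g x₁ with ⟨x', hx'⟩ | ⟨y', hy'⟩
    · have h1 : ∑ i ∈ univ.filter (fun p : Ω => p.1.1 = x₁), v (g • i) =
          ∑ i ∈ univ.filter (fun p : Ω => p.1.1 = x'), v i := by
        refine Finset.sum_bij (fun p _ => g • p) ?_ ?_ ?_ ?_
        · intro p hp
          simp only [mem_filter, mem_univ, true_and] at hp ⊢
          exact (hx' p).1 hp
        · intro p _ q _ h
          exact MulAction.injective g h
        · intro p hp
          refine ⟨g⁻¹ • p, ?_, by rw [smul_inv_smul]⟩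
          simp only [mem_filter, mem_univ, true_and] at hp ⊢
          rw [hx', smul_inv_smul]
          exact hp
        · intro p _
          rfl
      rw [h1, hsum]
      show (if x₁ = x' then 1 else 0) - (if x₁ = x' then 1 else 0) -
        (if x₂ = x' then 1 else 0) + (if x₂ = x' then 1 else 0) = (0 : ℤ)
      ring
    · have h1 : ∑ i ∈ univ.filter (fun p : Ω => p.1.1 = x₁), v (g • i) =
          ∑ i ∈ univ.filter (fun p : Ω => p.1.2 = y'), v i := by
        refine Finset.sum_bij (fun p _ => g • p) ?_ ?_ ?_ ?_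
        · intro p hp
          simp only [mem_filter, mem_univ, true_and] at hp ⊢
          exact (hy' p).1 hp
        · intro p _ q _ h
          exact MulAction.injective g h
        · intro p hp
          refine ⟨g⁻¹ • p, ?_, by rw [smul_inv_smul]⟩
          simp only [mem_filter, mem_univ, true_and] at hp ⊢
          rw [hy', smul_inv_smul]
          exact hp
        · intro p _
          rfl
      rw [h1, hsum]
      show (if y₁ = y' then 1 else 0) - (if y₂ = y' then 1 else 0) -
        (if y₁ = y' then 1 else 0) + (if y₂ = y' then 1 else 0) = (0 : ℤ)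
      ring

end

end SpreadPerm.NS
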