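import Mathlib
import Pool.Agent.Lib.MP_e6ed9e_al.Polar.Glue88

/-! # The hexagon of order `(q, q ^ 3)`: the combinatorial part (helper25) -/

namespace SpreadPerm.Tri25

open Finset
open scoped Classical

set_option linter.unusedSectionVars false
set_option linter.unusedSimpArgs false

noncomputable section

/-- `x` if `p` holds, else zero. -/
def iv (p : Prop) (x : ℤ) : ℤ := if p then x else 0

theorem iv_pos {p : Prop} (h : p) (x : ℤ) : iv p x = x := if_pos h

theorem iv_neg {p : Prop} (h : ¬ p) (x : ℤ) : iv p x = 0 := if_neg h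

theorem iv_true (x : ℤ) : iv True x = x := iv_pos trivial x

theorem iv_false (x : ℤ) : iv False x = 0 := iv_neg id x

theorem iv_and (p r : Prop) (x : ℤ) : iv (p ∧ r) x = iv p (iv r x) := by
  by_cases h : p <;> by_cases h' : r <;> simp [iv, h, h']

theorem iv_mul (p : Prop) (x : ℤ) : iv p x = x * iv p 1 := by
  by_cases h : p <;> simp [iv, h]

theorem iv_nonneg (p : Prop) {x : ℤ} (hx : 0 ≤ x) : 0 ≤ iv p x := by
  by_cases h : p
  · rwa [iv_pos h]
  · rw [iv_neg h]

theorem sum_iv_eq {X : Type} [Fintype X] (x : X) (f : X → ℤ) : (∑ y, iv (x = y) (f y)) = f x := by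
  rw [Finset.sum_eq_single x]
  · exact iv_pos rfl _
  · intro y _ h
    exact iv_neg (fun h' => h h'.symm) _
  · intro h
    exact absurd (mem_univ x) h

theorem sum_iv_eq' {X : Type} [Fintype X] (x : X) (f : X → ℤ) : (∑ y, iv (y = x) (f y)) = f x := by
  rw [← sum_iv_eq x f]
  refine Finset.sum_congr rfl fun y _ => ?_
  rw [eq_comm (a := y)]

section core
variable {P L : Type} [Fintype P] [Fintype L] (I : P → L → Prop)

/-- Sum over the points of a line. -/
def ls (h : P → ℤ) (l : L) : ℤ := ∑ p, iv (I p l) (h p)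

/-- Sum over the lines on a point. -/
def ps (k : L → ℤ) (p : P) : ℤ := ∑ l, iv (I p l) (k l)

/-- The indicator vector. -/
def ind (B : P → Prop) (p : P) : ℤ := iv (B p) 1

/-- The multiset of a line. -/
def AL (w : ℤ) (l : L) (p : P) : ℤ :=
  (∑ p', iv (I p' l) (∑ M, iv (I p' M) (iv (I p M) 1))) - w * iv (I p l) 1

theorem AL_perm (w : ℤ) (s : Equiv.Perm P) (f : Equiv.Perm L) (h : ∀ p l, I p l ↔ I (s p) (f l))
    (l : L) (p : P) : AL I w (f l) (s p) = AL I w l p := by
  unfold AL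
  rw [← Equiv.sum_comp s]
  congr 1
  · refine Finset.sum_congr rfl fun p' _ => ?_
    have h1 : (∑ M, iv (I (s p') M) (iv (I (s p) M) 1)) = ∑ M, iv (I p' M) (iv (I p M) 1) := by
      rw [← Equiv.sum_comp f]
      refine Finset.sum_congr rfl fun M _ => ?_
      rw [h p' M, h p M]
    rw [h1, h p' l]
  · rw [h p l]

theorem AL_sum (w : ℤ) (l : L) (B : P → Prop) :
    ∑ p, ind B p * AL I w l p =
      ls I (ps I (ls I (ind B))) l - w * ls I (ind B) l := by
  unfold AL ls ps
  simp only [mul_sub]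
  rw [Finset.sum_sub_distrib]
  congr 1
  · simp only [Finset.mul_sum]
    rw [Finset.sum_comm]
    refine Finset.sum_congr rfl fun p' _ => ?_
    by_cases h : I p' l
    · simp only [iv_pos h, Finset.mul_sum]
      rw [Finset.sum_comm]
      refine Finset.sum_congr rfl fun M _ => ?_
      by_cases h2 : I p' M
      · simp only [iv_pos h2]
        refine Finset.sum_congr rfl fun p _ => ?_
        rw [iv_mul (I p M) (ind B p)]
      · simp [iv_neg h2]
    · simp [iv_neg h]
  · rw [Finset.mul_sum]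
    refine Finset.sum_congr rfl fun p _ => ?_
    rw [iv_mul (I p l) (ind B p)]
    ring

theorem AL_ge (w : ℤ) (l : L) (p : P) (h : I p l) : ps I (fun _ => 1) p - w ≤ AL I w l p := by
  unfold AL
  rw [iv_pos h, mul_one]
  have h2 : iv (I p l) (∑ M, iv (I p M) (iv (I p M) 1)) ≤
      ∑ p', iv (I p' l) (∑ M, iv (I p' M) (iv (I p M) 1)) := by
    refine Finset.single_le_sum (f := fun p' => iv (I p' l) (∑ M, iv (I p' M) (iv (I p M) 1)))
      ?_ (Finset.mem_univ p)
    intro p' _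
    exact iv_nonneg _ (Finset.sum_nonneg fun M _ => iv_nonneg _ (iv_nonneg _ zero_le_one))
  rw [iv_pos h] at h2
  have h3 : ps I (fun _ => 1) p = ∑ M, iv (I p M) (iv (I p M) 1) := by
    refine Finset.sum_congr rfl fun M _ => ?_
    by_cases h4 : I p M
    · simp only [iv_pos h4]
    · simp only [iv_neg h4]
  rw [h3]
  linarith

theorem core {Ω G : Type} [Fintype Ω] [Group G] [MulAction G Ω] [MulAction.IsPretransitive G Ω]
    (e : Ω ≃ P) (q c : ℤ) (hq : 2 ≤ q) (B : P → Prop)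
    (hdeg : ∀ p, q ^ 3 + 1 ≤ ps I (fun _ => 1) p)
    (hS : ∀ l, ls I (ps I (ls I (ind B))) l = c + q * (q ^ 2 - q + 1) * ls I (ind B) l)
    (hB : ∑ p, ind B p = (q ^ 4 - q ^ 2 + 1) * c) (hB1 : 1 < ∑ p, ind B p)
    (hB2 : ∃ p, ¬ B p) (l0 : L) (p0 : P) (h0 : I p0 l0)
    (hG : ∀ g : G, ∃ f : Equiv.Perm L, ∀ (ω : Ω) (l : L), I (e ω) l ↔ I (e (g • ω)) (f l)) :
    NonSpreading G Ω := by
  have hq2 : 4 ≤ q ^ 2 := by nlinarith
  have hq4 : q ^ 2 * 4 ≤ q ^ 4 := by nlinarith
  have hn : 2 ≤ q ^ 4 - q ^ 2 + 1 := by nlinarith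
  have hdif : ∀ p, 1 ≤ ps I (fun _ => 1) p - q * (q ^ 2 - q + 1) := by
    intro p
    have := hdeg p
    nlinarith
  have hA0 : ∀ p, 0 ≤ AL I (q * (q ^ 2 - q + 1)) l0 p := by
    intro p
    by_cases h : I p l0
    · have := AL_ge I (q * (q ^ 2 - q + 1)) l0 p h
      linarith [hdif p]
    · unfold AL
      rw [iv_neg h, mul_zero, sub_zero]
      refine Finset.sum_nonneg fun p' _ => ?_
      exact iv_nonneg _ (Finset.sum_nonneg fun M _ => iv_nonneg _ (iv_nonneg _ zero_le_one))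
  have hA1 : 1 ≤ AL I (q * (q ^ 2 - q + 1)) l0 p0 := by
    have := AL_ge I (q * (q ^ 2 - q + 1)) l0 p0 h0
    linarith [hdif p0]
  have hcard : ((univ.filter fun ω : Ω => B (e ω)).card : ℤ) = ∑ p, ind B p := by
    rw [Finset.card_filter]
    push_cast
    rw [← Equiv.sum_comp e]
    rfl
  refine nonSpreading_of_vector
    (fun ω => (q ^ 4 - q ^ 2 + 1) * AL I (q * (q ^ 2 - q + 1)) l0 (e ω) - 1) ?_
    ⟨e.symm p0, ?_⟩ (univ.filter fun ω => B (e ω)) ?_ ?_ ?_
  · intro ω
    have := mul_nonneg (by linarith : (0 : ℤ) ≤ q ^ 4 - q ^ 2 + 1) (hA0 (e ω))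
    show -1 ≤ (q ^ 4 - q ^ 2 + 1) * AL I (q * (q ^ 2 - q + 1)) l0 (e ω) - 1
    linarith
  · show (q ^ 4 - q ^ 2 + 1) * AL I (q * (q ^ 2 - q + 1)) l0 (e (e.symm p0)) - 1 ≠ 0
    rw [Equiv.apply_symm_apply]
    nlinarith
  · have : (1 : ℤ) < ((univ.filter fun ω : Ω => B (e ω)).card : ℤ) := by rw [hcard]; exact hB1
    exact_mod_cast this
  · rw [← Finset.card_univ]
    refine Finset.card_lt_card (Finset.ssubset_univ_iff.2 ?_)
    intro h
    obtain ⟨p, hp⟩ := hB2
    have h2 : e.symm p ∈ univ.filter fun ω : Ω => B (e ω) := by rw [h]; exact mem_univ _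
    rw [mem_filter, Equiv.apply_symm_apply] at h2
    exact hp h2.2
  · intro g
    obtain ⟨f, hf⟩ := hG g
    have h1 : ∀ ω : Ω, AL I (q * (q ^ 2 - q + 1)) l0 (e (g • ω)) =
        AL I (q * (q ^ 2 - q + 1)) (f.symm l0) (e ω) := by
      intro ω
      have h2 := AL_perm I (q * (q ^ 2 - q + 1)) ((e.symm.trans (MulAction.toPerm g)).trans e) f
        (by
          intro p l
          have h3 := hf (e.symm p) l
          rw [Equiv.apply_symm_apply] at h3
          exact h3) (f.symm l0) (e ω)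
      rw [Equiv.apply_symm_apply] at h2
      have h4 : ((e.symm.trans (MulAction.toPerm g)).trans e) (e ω) = e (g • ω) := by
        simp
      rw [h4] at h2
      exact h2
    simp only [h1]
    rw [Finset.sum_filter]
    have h5 : (∑ ω : Ω, if B (e ω) then (q ^ 4 - q ^ 2 + 1) *
        AL I (q * (q ^ 2 - q + 1)) (f.symm l0) (e ω) - 1 else 0) =
        (q ^ 4 - q ^ 2 + 1) * (∑ p, ind B p * AL I (q * (q ^ 2 - q + 1)) (f.symm l0) p) -
          ∑ p, ind B p := by
      rw [Finset.mul_sum, ← Finset.sum_sub_distrib, ← Equiv.sum_comp e]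
      refine Finset.sum_congr rfl fun ω _ => ?_
      by_cases h : B (e ω)
      · rw [if_pos h, ind, iv_pos h]
        ring
      · rw [if_neg h, ind, iv_neg h]
        ring
    rw [h5, AL_sum, hS, hB]
    ring

end core

section layer
variable {T X2 X3 X4 X5 O : Type} [Fintype T] [Fintype X2] [Fintype X3] [Fintype X4] [Fintype X5]
  [Fintype O]

/-- Points. -/
abbrev Pt (T X2 X4 O : Type) : Type := Unit ⊕ (T × X2) ⊕ (T × X4) ⊕ O

/-- Lines. -/
abbrev Ln (T X3 X5 : Type) : Type := T ⊕ (T × X3) ⊕ (T × X5)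

/-- Incidence. -/
def Inc (a : X5 → X4) (b : X4 → X3) (c : X3 → X2) (ρ : T → O → X5) :
    Pt T X2 X4 O → Ln T X3 X5 → Prop
  | .inl _, .inl _ => True
  | .inr (.inl x), .inl t => x.1 = t
  | .inr (.inl x), .inr (.inl y) => x.1 = y.1 ∧ c y.2 = x.2
  | .inr (.inr (.inl x)), .inr (.inl y) => x.1 = y.1 ∧ b x.2 = y.2
  | .inr (.inr (.inl x)), .inr (.inr y) => x.1 = y.1 ∧ a y.2 = x.2
  | .inr (.inr (.inr g)), .inr (.inr y) => ρ y.1 g = y.2
  | _, _ => False

variable (a : X5 → X4) (b : X4 → X3) (c : X3 → X2) (ρ : T → O → X5)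

theorem sum_fst {X : Type} [Fintype X] (t : T) (Q : X → Prop) (f : T → X → ℤ) :
    (∑ t', ∑ x, iv (t' = t ∧ Q x) (f t' x)) = ∑ x, iv (Q x) (f t x) := by
  simp only [iv_and]
  rw [Finset.sum_comm]
  refine Finset.sum_congr rfl fun x _ => ?_
  rw [sum_iv_eq' t (fun t' => iv (Q x) (f t' x))]

theorem sum_fst' {X : Type} [Fintype X] (t : T) (Q : X → Prop) (f : T → X → ℤ) :
    (∑ t', ∑ x, iv (t = t' ∧ Q x) (f t' x)) = ∑ x, iv (Q x) (f t x) := by
  rw [← sum_fst t Q f]
  refine Finset.sum_congr rfl fun t' _ => Finset.sum_congr rfl fun x _ => ?_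
  rw [eq_comm (a := t)]

theorem sum_fst0 {X : Type} [Fintype X] (t : T) (f : T → X → ℤ) :
    (∑ t', ∑ x, iv (t' = t) (f t' x)) = ∑ x, f t x := by
  rw [Finset.sum_comm]
  refine Finset.sum_congr rfl fun x _ => ?_
  rw [sum_iv_eq' t (fun t' => f t' x)]

theorem ls1 (h : Pt T X2 X4 O → ℤ) (t : T) :
    ls (Inc a b c ρ) h (.inl t) = h (.inl ()) + ∑ u, h (.inr (.inl (t, u))) := by
  unfold ls
  rw [Fintype.sum_sum_type, Fintype.sum_sum_type, Fintype.sum_sum_type, Fintype.sum_prod_type,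
    Fintype.sum_prod_type]
  simp only [Inc, iv_true, iv_false, Finset.sum_const_zero, add_zero, Fintype.sum_unique]
  rw [sum_fst0]

theorem ls3 (h : Pt T X2 X4 O → ℤ) (t : T) (y : X3) :
    ls (Inc a b c ρ) h (.inr (.inl (t, y))) = h (.inr (.inl (t, c y))) +
      ∑ x, iv (b x = y) (h (.inr (.inr (.inl (t, x))))) := by
  unfold ls
  rw [Fintype.sum_sum_type, Fintype.sum_sum_type, Fintype.sum_sum_type, Fintype.sum_prod_type,
    Fintype.sum_prod_type]
  simp only [Inc, iv_false, Finset.sum_const_zero, add_zero, zero_add]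
  rw [sum_fst t (fun u : X2 => c y = u) (fun t u => h (.inr (.inl (t, u)))),
    sum_fst t (fun x : X4 => b x = y) (fun t x => h (.inr (.inr (.inl (t, x))))),
    sum_iv_eq]

theorem ls5 (h : Pt T X2 X4 O → ℤ) (t : T) (y : X5) :
    ls (Inc a b c ρ) h (.inr (.inr (t, y))) = h (.inr (.inr (.inl (t, a y)))) +
      ∑ g, iv (ρ t g = y) (h (.inr (.inr (.inr g)))) := by
  unfold ls
  rw [Fintype.sum_sum_type, Fintype.sum_sum_type, Fintype.sum_sum_type, Fintype.sum_prod_type,
    Fintype.sum_prod_type]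
  simp only [Inc, iv_false, Finset.sum_const_zero, add_zero, zero_add]
  rw [sum_fst t (fun x : X4 => a y = x) (fun t x => h (.inr (.inr (.inl (t, x))))), sum_iv_eq]

theorem ps0 (k : Ln T X3 X5 → ℤ) :
    ps (Inc a b c ρ) k (.inl ()) = ∑ t, k (.inl t) := by
  unfold ps
  rw [Fintype.sum_sum_type, Fintype.sum_sum_type, Fintype.sum_prod_type, Fintype.sum_prod_type]
  simp only [Inc, iv_true, iv_false, Finset.sum_const_zero, add_zero]

theorem ps2 (k : Ln T X3 X5 → ℤ) (t : T) (u : X2) :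
    ps (Inc a b c ρ) k (.inr (.inl (t, u))) = k (.inl t) +
      ∑ y, iv (c y = u) (k (.inr (.inl (t, y)))) := by
  unfold ps
  rw [Fintype.sum_sum_type, Fintype.sum_sum_type, Fintype.sum_prod_type, Fintype.sum_prod_type]
  simp only [Inc, iv_false, Finset.sum_const_zero, add_zero]
  rw [sum_fst' t (fun y : X3 => c y = u) (fun t y => k (.inr (.inl (t, y)))), sum_iv_eq]

theorem ps4 (k : Ln T X3 X5 → ℤ) (t : T) (x : X4) :
    ps (Inc a b c ρ) k (.inr (.inr (.inl (t, x)))) = k (.inr (.inl (t, b x))) +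
      ∑ y, iv (a y = x) (k (.inr (.inr (t, y)))) := by
  unfold ps
  rw [Fintype.sum_sum_type, Fintype.sum_sum_type, Fintype.sum_prod_type, Fintype.sum_prod_type]
  simp only [Inc, iv_false, Finset.sum_const_zero, zero_add]
  rw [sum_fst' t (fun y : X3 => b x = y) (fun t y => k (.inr (.inl (t, y)))),
    sum_fst' t (fun y : X5 => a y = x) (fun t y => k (.inr (.inr (t, y)))), sum_iv_eq]

theorem ps6 (k : Ln T X3 X5 → ℤ) (g : O) :
    ps (Inc a b c ρ) k (.inr (.inr (.inr g))) = ∑ t, k (.inr (.inr (t, ρ t g))) := by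
  unfold ps
  rw [Fintype.sum_sum_type, Fintype.sum_sum_type, Fintype.sum_prod_type, Fintype.sum_prod_type]
  simp only [Inc, iv_false, Finset.sum_const_zero, zero_add]
  refine Finset.sum_congr rfl fun t _ => ?_
  rw [sum_iv_eq]

/-- The set. -/
def BB (D : O → Prop) : Pt T X2 X4 O → Prop
  | .inl _ => True
  | .inr (.inl _) => True
  | .inr (.inr (.inl _)) => False
  | .inr (.inr (.inr g)) => D g

theorem layer {Ω G : Type} [Fintype Ω] [Group G] [MulAction G Ω] [MulAction.IsPretransitive G Ω]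
    (e : Ω ≃ Pt T X2 X4 O) (q : ℤ) (hq : 2 ≤ q) (D : O → Prop)
    (hT : (Fintype.card T : ℤ) = q ^ 3 + 1) (hX2 : (Fintype.card X2 : ℤ) = q)
    (hX4 : (Fintype.card X4 : ℤ) = q ^ 5)
    (hc : ∀ u, (∑ y, iv (c y = u) 1) = q ^ 3)
    (hb : ∀ y, (∑ x, iv (b x = y) 1) = q)
    (ha : ∀ x, (∑ y, iv (a y = x) 1) = q ^ 3)
    (hρ : ∀ t y, (∑ g, iv (ρ t g = y) 1) = q)
    (h1 : ∀ t x, (∑ g, iv (a (ρ t g) = x) (ind D g)) = q ^ 2 * (q + 1))
    (h2 : ∀ g, (∑ t, ∑ g', iv (ρ t g' = ρ t g) (ind D g')) =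
      (q ^ 2 - q + 1) * (q + 1 + q * ind D g))
    (hG : ∀ g : G, ∃ f : Equiv.Perm (Ln T X3 X5), ∀ (ω : Ω) (l : Ln T X3 X5),
      Inc a b c ρ (e ω) l ↔ Inc a b c ρ (e (g • ω)) (f l)) :
    NonSpreading G Ω := by
  have hTne : Nonempty T := by
    by_contra h
    rw [not_nonempty_iff] at h
    have h0 : (Fintype.card T : ℤ) = 0 := by
      rw [Fintype.card_eq_zero]
      rfl
    have : 0 < q ^ 3 + 1 := by positivity
    omega
  have hX4ne : Nonempty X4 := by
    by_contra h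
    rw [not_nonempty_iff] at h
    have h0 : (Fintype.card X4 : ℤ) = 0 := by
      rw [Fintype.card_eq_zero]
      rfl
    have : 0 < q ^ 5 := by positivity
    omega
  obtain ⟨t0⟩ := hTne
  obtain ⟨x0⟩ := hX4ne
  set I := Inc a b c ρ with hI
  have i0 : ind (BB (T := T) (X2 := X2) (X4 := X4) D) (.inl ()) = 1 := iv_pos trivial 1
  have i2 : ∀ x, ind (BB (T := T) (X2 := X2) (X4 := X4) D) (.inr (.inl x)) = 1 :=
    fun x => iv_pos trivial 1
  have i4 : ∀ x, ind (BB (T := T) (X2 := X2) (X4 := X4) D) (.inr (.inr (.inl x))) = 0 :=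
    fun x => iv_neg id 1
  have i6 : ∀ g, ind (BB (T := T) (X2 := X2) (X4 := X4) D) (.inr (.inr (.inr g))) = ind D g :=
    fun x => rfl
  have iv0 : ∀ p : Prop, iv p 0 = 0 := by
    intro p
    by_cases h : p
    · exact iv_pos h 0
    · exact iv_neg h 0
  -- line sums of the indicator vector
  have m1 : ∀ t, ls I (ind (BB D)) (.inl t) = q + 1 := by
    intro t
    rw [ls1, i0]
    simp only [i2, Finset.sum_const, nsmul_eq_mul, mul_one, card_univ, hX2]
    ring
  have m3 : ∀ t y, ls I (ind (BB D)) (.inr (.inl (t, y))) = 1 := by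
    intro t y
    rw [ls3, i2]
    simp only [i4, iv0, Finset.sum_const_zero, add_zero]
  have m5 : ∀ t y, ls I (ind (BB D)) (.inr (.inr (t, y))) =
      ∑ g, iv (ρ t g = y) (ind D g) := by
    intro t y
    rw [ls5, i4, zero_add]
    rfl
  -- point sums
  have r0 : ps I (ls I (ind (BB D))) (.inl ()) = (q ^ 3 + 1) * (q + 1) := by
    rw [ps0]
    simp only [m1, Finset.sum_const, nsmul_eq_mul, card_univ, hT]
  have r2 : ∀ t u, ps I (ls I (ind (BB D))) (.inr (.inl (t, u))) = q ^ 3 + q + 1 := by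
    intro t u
    rw [ps2]
    simp only [m1, m3, hc]
    ring
  have r4 : ∀ t x, ps I (ls I (ind (BB D))) (.inr (.inr (.inl (t, x)))) =
      1 + q ^ 2 * (q + 1) := by
    intro t x
    rw [ps4]
    simp only [m3, m5]
    rw [← h1 t x]
    congr 1
    have h3 : ∀ y : X5, iv (a y = x) (∑ g, iv (ρ t g = y) (ind D g)) =
        ∑ g, iv (ρ t g = y) (iv (a (ρ t g) = x) (ind D g)) := by
      intro y
      by_cases h4 : a y = x
      · rw [iv_pos h4]
        refine Finset.sum_congr rfl fun g _ => ?_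
        by_cases h5 : ρ t g = y
        · rw [iv_pos h5, iv_pos h5, iv_pos (by rw [h5]; exact h4)]
        · rw [iv_neg h5, iv_neg h5]
      · rw [iv_neg h4]
        symm
        refine Finset.sum_eq_zero fun g _ => ?_
        by_cases h5 : ρ t g = y
        · rw [iv_pos h5, iv_neg (fun h6 => h4 (by rw [← h5]; exact h6))]
        · rw [iv_neg h5]
    rw [Finset.sum_congr rfl fun y _ => h3 y, Finset.sum_comm]
    refine Finset.sum_congr rfl fun g _ => ?_
    rw [sum_iv_eq (ρ t g) (fun _ => iv (a (ρ t g) = x) (ind D g))]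
  have r6 : ∀ g, ps I (ls I (ind (BB D))) (.inr (.inr (.inr g))) =
      (q ^ 2 - q + 1) * (q + 1 + q * ind D g) := by
    intro g
    rw [ps6]
    simp only [m5]
    exact h2 g
  have hcardB : ∑ p, ind (BB (T := T) (X2 := X2) (X4 := X4) D) p =
      1 + (q ^ 3 + 1) * q + q ^ 7 * (q + 1) := by
    rw [Fintype.sum_sum_type, Fintype.sum_sum_type, Fintype.sum_sum_type]
    have h3 : ∑ g, ind D g = q ^ 7 * (q + 1) := by
      have h4 : ∑ x : X4, ∑ g, iv (a (ρ t0 g) = x) (ind D g) = ∑ g, ind D g := by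
        rw [Finset.sum_comm]
        refine Finset.sum_congr rfl fun g _ => ?_
        rw [sum_iv_eq (a (ρ t0 g)) (fun _ => ind D g)]
      rw [← h4, Finset.sum_congr rfl fun x _ => h1 t0 x, Finset.sum_const, nsmul_eq_mul,
        card_univ, hX4]
      ring
    simp only [i2, i4, i6, h3, Finset.sum_const, nsmul_eq_mul, mul_one, card_univ,
      Fintype.card_prod, Finset.sum_const_zero]
    have h6 : ∑ x : Unit, ind (BB (T := T) (X2 := X2) (X4 := X4) D) (.inl x) = 1 := by
      rw [Fintype.sum_unique]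
      exact i0
    rw [h6]
    push_cast
    rw [hT, hX2]
    ring
  refine core I e q (q ^ 4 + q ^ 3 + q ^ 2 + q + 1) hq (BB D) ?_ ?_ ?_ ?_
    ⟨.inr (.inr (.inl (t0, x0))), fun h => h⟩ (.inl t0) (.inl ()) trivial hG
  · rintro (u | ⟨t, u⟩ | ⟨t, x⟩ | g)
    · rw [show u = () from rfl, ps0]
      simp [hT]
    · rw [ps2, hc]
      linarith
    · rw [ps4, ha]
      linarith
    · rw [ps6]
      simp [hT]
  · rintro (t | ⟨t, y⟩ | ⟨t, y⟩)
    · rw [ls1, r0, m1]
      simp only [r2, Finset.sum_const, nsmul_eq_mul, card_univ, hX2]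
      ring
    · rw [ls3, r2, m3]
      simp only [r4]
      have h3 : (∑ x, iv (b x = y) (1 + q ^ 2 * (q + 1))) = q * (1 + q ^ 2 * (q + 1)) := by
        rw [← hb y, Finset.sum_mul]
        refine Finset.sum_congr rfl fun x _ => ?_
        rw [iv_mul, mul_comm]
      rw [h3]
      ring
    · rw [ls5, r4, m5]
      simp only [r6]
      have h3 : (∑ g, iv (ρ t g = y) ((q ^ 2 - q + 1) * (q + 1 + q * ind D g))) =
          (q ^ 2 - q + 1) * ((q + 1) * (∑ g, iv (ρ t g = y) 1) +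
            q * ∑ g, iv (ρ t g = y) (ind D g)) := by
        rw [Finset.mul_sum, Finset.mul_sum, ← Finset.sum_add_distrib, Finset.mul_sum]
        refine Finset.sum_congr rfl fun g _ => ?_
        rw [iv_mul, iv_mul _ (ind D g)]
        ring
      rw [h3, hρ]
      ring
  · rw [hcardB]
    ring
  · rw [hcardB]
    have : 0 ≤ (q ^ 3 + 1) * q := by positivity
    have : 0 < q ^ 7 * (q + 1) := by positivity
    linarith

end layer

end

end SpreadPerm.Tri25
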