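import Mathlib
import Pool.Agent.Lib.MP_e6ed9e_al.NS.TriCore25

/-! # The hexagon of order `(q, q ^ 3)`: finite fields (helper25) -/

namespace SpreadPerm.Tri25

open Finset
open scoped Classical

set_option linter.unusedSectionVars false
set_option linter.unusedSimpArgs false

noncomputable section

section fld
variable (F : Type) {E K : Type} [Field F] [Fintype F] [Field E] [Fintype E] [Field K]
  [Algebra F E] [Algebra F K] [Algebra E K] [IsScalarTower F E K]

/-- The Frobenius map. -/
def fr (x : K) : K := x ^ Fintype.card F

theorem fr_add (x y : K) : fr F (x + y) = fr F x + fr F y :=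
  map_add (FiniteField.frobeniusAlgHom F K) x y

theorem fr_sub (x y : K) : fr F (x - y) = fr F x - fr F y :=
  map_sub (FiniteField.frobeniusAlgHom F K) x y

theorem fr_neg (x : K) : fr F (-x) = -fr F x :=
  map_neg (FiniteField.frobeniusAlgHom F K) x

theorem fr_mul (x y : K) : fr F (x * y) = fr F x * fr F y :=
  map_mul (FiniteField.frobeniusAlgHom F K) x y

theorem fr_div (x y : K) : fr F (x / y) = fr F x / fr F y :=
  map_div₀ (FiniteField.frobeniusAlgHom F K) x y

theorem fr_one : fr F (1 : K) = 1 := one_pow _

theorem fr_F (x : F) : fr F (algebraMap F K x) = algebraMap F K x := by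
  unfold fr
  rw [← map_pow, FiniteField.pow_card]

theorem fr_ne {x : K} (h : x ≠ 0) : fr F x ≠ 0 := pow_ne_zero _ h

theorem fr_alg (x : E) : fr F (algebraMap E K x) = algebraMap E K (fr F x) := by
  unfold fr
  rw [map_pow]

theorem fr_inj {x y : K} (h : fr F x = fr F y) : x = y :=
  (FiniteField.frobeniusAlgHom F K).toRingHom.injective h

theorem fr_mem (x : K) (h : fr F x = x) : ∃ a : F, algebraMap F K a = x := by
  by_contra hcon
  push Not at hcon
  have hne : (Polynomial.X ^ Fintype.card F - Polynomial.X : Polynomial K) ≠ 0 :=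
    FiniteField.X_pow_card_sub_X_ne_zero K Fintype.one_lt_card
  have hdeg : (Polynomial.X ^ Fintype.card F - Polynomial.X : Polynomial K).natDegree =
      Fintype.card F := FiniteField.X_pow_card_sub_X_natDegree_eq K Fintype.one_lt_card
  have hsub : insert x ((Finset.univ : Finset F).image (algebraMap F K)) ⊆
      (Polynomial.X ^ Fintype.card F - Polynomial.X : Polynomial K).roots.toFinset := by
    intro z hz
    rw [Multiset.mem_toFinset, Polynomial.mem_roots hne]
    show Polynomial.eval _ _ = 0
    rw [Polynomial.eval_sub, Polynomial.eval_pow, Polynomial.eval_X, sub_eq_zero]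
    rcases Finset.mem_insert.1 hz with rfl | hz
    · exact h
    · obtain ⟨s, -, rfl⟩ := Finset.mem_image.1 hz
      exact fr_F F s
  have hc := Finset.card_le_card hsub
  rw [Finset.card_insert_of_notMem (by
    intro hz
    obtain ⟨s, -, hs⟩ := Finset.mem_image.1 hz
    exact hcon s hs), Finset.card_image_of_injective _ (algebraMap F K).injective,
    Finset.card_univ] at hc
  have hc2 := Multiset.toFinset_card_le
    (Polynomial.X ^ Fintype.card F - Polynomial.X : Polynomial K).roots
  have hc3 := Polynomial.card_roots'
    (Polynomial.X ^ Fintype.card F - Polynomial.X : Polynomial K)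
  omega

theorem fr3 (hE : Module.finrank F E = 3) (x : E) : fr F (fr F (fr F x)) = x := by
  have h1 : Fintype.card E = Fintype.card F ^ 3 := by
    rw [← hE]
    exact Module.card_eq_pow_finrank
  have h2 : Fintype.card F * (Fintype.card F * Fintype.card F) = Fintype.card E := by
    rw [h1]
    ring
  unfold fr
  rw [← pow_mul, ← pow_mul, h2, FiniteField.pow_card]

theorem tr_eq (hE : Module.finrank F E = 3) (x : E) :
    algebraMap F E (Algebra.trace F E x) = x + fr F x + fr F (fr F x) := by
  rw [FiniteField.algebraMap_trace_eq_sum_pow, hE, Finset.sum_range_succ, Finset.sum_range_succ,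
    Finset.sum_range_one, Nat.card_eq_fintype_card]
  unfold fr
  rw [pow_zero, pow_one, pow_one, ← pow_mul, sq]

theorem nm_eq (hE : Module.finrank F E = 3) (x : E) :
    algebraMap F E (Algebra.norm F x) = x * fr F x * fr F (fr F x) := by
  rw [FiniteField.algebraMap_norm_eq_prod_pow, hE, Finset.prod_range_succ, Finset.prod_range_succ,
    Finset.prod_range_one, Nat.card_eq_fintype_card]
  unfold fr
  rw [pow_zero, pow_one, pow_one, ← pow_mul, sq]

/-- A polynomial with few terms which vanishes on `E`. -/
theorem poly0 (hE : Module.finrank F E = 3) (α β γ : K)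
    (h : ∀ R : E, α * algebraMap E K R + β * algebraMap E K (fr F R) +
      γ * algebraMap E K (fr F (fr F R)) = 0) : α = 0 := by
  have hcE : Fintype.card E = Fintype.card F ^ 3 := by
    rw [← hE]
    exact Module.card_eq_pow_finrank
  have hq : 2 ≤ Fintype.card F := Fintype.one_lt_card
  set q := Fintype.card F with hqdef
  let P : Polynomial K := Polynomial.C α * Polynomial.X + Polynomial.C β * Polynomial.X ^ q +
    Polynomial.C γ * Polynomial.X ^ (q * q)
  have hdeg : P.natDegree ≤ q * q := by
    refine Polynomial.natDegree_add_le_of_degree_le (Polynomial.natDegree_add_le_of_degree_le ?_ ?_) ?_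
    · refine (Polynomial.natDegree_C_mul_le _ _).trans ?_
      rw [Polynomial.natDegree_X]
      nlinarith
    · refine (Polynomial.natDegree_C_mul_le _ _).trans ?_
      rw [Polynomial.natDegree_X_pow]
      nlinarith
    · refine (Polynomial.natDegree_C_mul_le _ _).trans ?_
      rw [Polynomial.natDegree_X_pow]
  have hP : P = 0 := by
    by_contra hne
    have hsub : ((Finset.univ : Finset E).image (algebraMap E K)) ⊆ P.roots.toFinset := by
      intro z hz
      obtain ⟨R, -, rfl⟩ := Finset.mem_image.1 hz
      rw [Multiset.mem_toFinset, Polynomial.mem_roots hne]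
      show Polynomial.eval _ _ = 0
      have h1 := h R
      simp only [P, Polynomial.eval_add, Polynomial.eval_mul, Polynomial.eval_C,
        Polynomial.eval_X, Polynomial.eval_pow]
      rw [← h1]
      unfold fr
      rw [map_pow, map_pow, map_pow, ← pow_mul]
    have hc := Finset.card_le_card hsub
    rw [Finset.card_image_of_injective _ (algebraMap E K).injective, Finset.card_univ, hcE] at hc
    have hc2 := Multiset.toFinset_card_le P.roots
    have hc3 := Polynomial.card_roots' P
    have h4 : q * q < q ^ 3 := by
      have : q ^ 3 = q * (q * q) := by ring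
      rw [this]
      nlinarith
    omega
  have h5 := congrArg (fun p => Polynomial.coeff p 1) hP
  simp only [P, Polynomial.coeff_add, Polynomial.coeff_C_mul, Polynomial.coeff_X_one, mul_one,
    Polynomial.coeff_X_pow, Polynomial.coeff_zero] at h5
  rw [if_neg (by omega), if_neg (by nlinarith)] at h5
  simpa using h5

/-! ## The vectors of the plane -/

variable (τ : K)

/-- The image of the root group of the direction `t`. -/
def ww (F : Type) [Fintype F] : Option E → K
  | none => -1
  | some t => (τ - algebraMap E K t) * (τ - algebraMap E K (fr F t)) *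
      (τ - algebraMap E K (fr F (fr F t)))

/-- The image of the short root group. -/
def LL (F : Type) [Fintype F] : Option E → E → K
  | none, R => algebraMap E K (R + fr F R + fr F (fr F R)) * τ
  | some t, R => -((τ - algebraMap E K (fr F t)) * (τ - algebraMap E K (fr F (fr F t))) *
        algebraMap E K R +
      (τ - algebraMap E K (fr F (fr F t))) * (τ - algebraMap E K t) * algebraMap E K (fr F R) +
      (τ - algebraMap E K t) * (τ - algebraMap E K (fr F t)) * algebraMap E K (fr F (fr F R)))

/-- The point of the circle. -/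
def zz (F : Type) [Fintype F] : Option E → K
  | none => 1
  | some t => (fr F τ - algebraMap E K t) / (τ - algebraMap E K t)

variable (hE : Module.finrank F E = 3) (h1 : fr F (fr F τ) = τ) (h2 : fr F τ ≠ τ)
include hE h1 h2

theorem tau_ne (t : E) : τ - algebraMap E K t ≠ 0 := by
  intro h
  rw [sub_eq_zero] at h
  apply h2
  have h3 : fr F (fr F (fr F τ)) = τ := by
    rw [h, fr_alg, fr_alg, fr_alg, fr3 F hE]
  rw [h1] at h3
  exact h3

theorem tau_ne' (t : E) : fr F τ - algebraMap E K t ≠ 0 := by
  intro h
  rw [sub_eq_zero] at h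
  apply tau_ne F τ hE h1 h2 (fr F t)
  rw [← fr_alg, ← h, h1, sub_self]

theorem ww_ne (t : Option E) : ww τ F t ≠ 0 := by
  cases t with
  | none => exact neg_ne_zero.2 one_ne_zero
  | some t =>
    rw [ww]
    exact mul_ne_zero (mul_ne_zero (tau_ne F τ hE h1 h2 _) (tau_ne F τ hE h1 h2 _))
      (tau_ne F τ hE h1 h2 _)

theorem ww_fix (t : Option E) : fr F (fr F (ww τ F t)) = ww τ F t := by
  cases t with
  | none => rw [ww, fr_neg, fr_neg, fr_one, fr_one]
  | some t =>
    rw [ww]
    simp only [fr_mul, fr_sub, fr_alg, h1]
    rw [fr3 F hE]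
    ring

theorem LL_fix (t : Option E) (R : E) : fr F (fr F (LL τ F t R)) = LL τ F t R := by
  have h3 : ∀ x : E, fr F (fr F (fr F (fr F x))) = fr F x := fun x => by rw [fr3 F hE]
  cases t with
  | none =>
    rw [LL]
    simp only [fr_mul, fr_add, fr_alg, h1, fr3 F hE, h3, map_add]
    ring
  | some t =>
    rw [LL]
    simp only [fr_mul, fr_sub, fr_add, fr_neg, fr_alg, h1, fr3 F hE, h3]
    ring

theorem zz_inj : Function.Injective (zz (E := E) τ F) := by
  have key : ∀ s t : E, (fr F τ - algebraMap E K s) / (τ - algebraMap E K s) =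
      (fr F τ - algebraMap E K t) / (τ - algebraMap E K t) → s = t := by
    intro s t h
    rw [div_eq_div_iff (tau_ne F τ hE h1 h2 s) (tau_ne F τ hE h1 h2 t)] at h
    have h3 : (fr F τ - τ) * (algebraMap E K s - algebraMap E K t) = 0 := by
      linear_combination h
    exact (algebraMap E K).injective
      (sub_eq_zero.1 ((mul_eq_zero.1 h3).resolve_left (sub_ne_zero.2 h2)))
  have key2 : ∀ s : E, (fr F τ - algebraMap E K s) / (τ - algebraMap E K s) ≠ 1 := by
    intro s h
    rw [div_eq_one_iff_eq (tau_ne F τ hE h1 h2 s)] at h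
    exact h2 (sub_left_inj.1 h)
  intro s t h
  cases s with
  | none =>
    cases t with
    | none => rfl
    | some t => exact absurd h.symm (key2 t)
  | some s =>
    cases t with
    | none => exact absurd h (key2 s)
    | some t => exact congrArg some (key s t h)

theorem zz_ne (t : Option E) : zz τ F t ≠ 0 := by
  cases t with
  | none => exact one_ne_zero
  | some t => exact div_ne_zero (tau_ne' F τ hE h1 h2 t) (tau_ne F τ hE h1 h2 t)

/-- `z ^ (q² - q + 1) = w ^ (q - 1)`. -/
theorem zz_pow (t : Option E) (m : ℕ) (hm : m + Fintype.card F = Fintype.card F ^ 2 + 1) :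
    zz τ F t ^ m = fr F (ww τ F t) / ww τ F t := by
  have h3 : zz τ F t ^ m * fr F (zz τ F t) = fr F (fr F (zz τ F t)) * zz τ F t := by
    unfold fr
    rw [← pow_add, ← pow_mul, ← pow_succ, hm, sq]
  cases t with
  | none =>
    rw [zz, ww, one_pow, fr_neg, fr_one, div_self (neg_ne_zero.2 one_ne_zero)]
  | some t =>
    have h4 : fr F (zz τ F (some t)) ≠ 0 := fr_ne F (zz_ne F τ hE h1 h2 (some t))
    apply mul_right_cancel₀ h4
    rw [h3, zz, ww]
    simp only [fr_mul, fr_div, fr_sub, fr_alg, h1, fr3 F hE]
    have e1 := tau_ne F τ hE h1 h2 t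
    have e2 := tau_ne F τ hE h1 h2 (fr F t)
    have e3 := tau_ne F τ hE h1 h2 (fr F (fr F t))
    have e4 := tau_ne' F τ hE h1 h2 (fr F t)
    field_simp

/-- The short root group is not contained in the line of the long one. -/
theorem LL_ex (t : Option E) : ∃ R : E, ∀ k : F, LL τ F t R ≠ algebraMap F K k * ww τ F t := by
  by_contra hcon
  push Not at hcon
  have hfix : ∀ R : E, fr F (LL τ F t R / ww τ F t) = LL τ F t R / ww τ F t := by
    intro R
    obtain ⟨k, hk⟩ := hcon R
    rw [hk, mul_div_cancel_right₀ _ (ww_ne F τ hE h1 h2 t), fr_F]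
  cases t with
  | none =>
    have h3 : (1 : K) = 0 := by
      refine poly0 F hE (1 : K) 1 1 ?_
      intro R
      have h4 := hfix R
      rw [LL, ww, div_neg, div_one, fr_neg, fr_mul, neg_inj] at h4
      have h5 : fr F (algebraMap E K (R + fr F R + fr F (fr F R))) =
          algebraMap E K (R + fr F R + fr F (fr F R)) := by
        rw [fr_alg, fr_add, fr_add, fr3 F hE]
        congr 1
        ring
      rw [h5] at h4
      have h6 : algebraMap E K (R + fr F R + fr F (fr F R)) * (fr F τ - τ) = 0 := by
        linear_combination h4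
      have h7 := (mul_eq_zero.1 h6).resolve_right (sub_ne_zero.2 h2)
      rw [map_add, map_add] at h7
      linear_combination h7
    exact one_ne_zero h3
  | some t =>
    have e1 := tau_ne F τ hE h1 h2 t
    have e2 := tau_ne F τ hE h1 h2 (fr F t)
    have e3 := tau_ne F τ hE h1 h2 (fr F (fr F t))
    have e1' := tau_ne' F τ hE h1 h2 t
    have e2' := tau_ne' F τ hE h1 h2 (fr F t)
    have e3' := tau_ne' F τ hE h1 h2 (fr F (fr F t))
    have h3 : (1 / (τ - algebraMap E K t) - 1 / (fr F τ - algebraMap E K t) : K) = 0 := by
      refine poly0 F hE _ (1 / (τ - algebraMap E K (fr F t)) -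
        1 / (fr F τ - algebraMap E K (fr F t))) (1 / (τ - algebraMap E K (fr F (fr F t))) -
        1 / (fr F τ - algebraMap E K (fr F (fr F t)))) ?_
      intro R
      have h4 := hfix R
      have h5 : LL τ F (some t) R / ww τ F (some t) =
          -(algebraMap E K R / (τ - algebraMap E K t) +
            algebraMap E K (fr F R) / (τ - algebraMap E K (fr F t)) +
            algebraMap E K (fr F (fr F R)) / (τ - algebraMap E K (fr F (fr F t)))) := by
        rw [LL, ww]
        field_simp
      rw [h5] at h4
      simp only [fr_neg, fr_add, fr_div, fr_sub, fr_alg, fr3 F hE] at h4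
      linear_combination h4
    rw [sub_eq_zero, one_div, one_div, inv_inj, sub_left_inj] at h3
    exact h2 h3.symm

end fld

end

end SpreadPerm.Tri25
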