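import Mathlib
import Pool.Agent.Lib.MP_e6ed9e_al.NS.TriField25

/-! # The hexagon of order `(q, q ^ 3)`: counts (helper25) -/

namespace SpreadPerm.Tri25

open Finset
open scoped Classical

set_option linter.unusedSectionVars false
set_option linter.unusedSimpArgs false

noncomputable section

section cnt
variable (F : Type) {E K : Type} [Field F] [Fintype F] [Field E] [Fintype E] [Field K]
  [Algebra F E] [Algebra F K] [Algebra E K] [IsScalarTower F E K]

/-- The field with `q²` elements. -/
def VV (K : Type) [Field K] : Finset K :=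
  (Polynomial.X ^ (Fintype.card F * Fintype.card F) - Polynomial.X : Polynomial K).roots.toFinset

theorem one_lt_sq : 1 < Fintype.card F * Fintype.card F := by
  have : 1 < Fintype.card F := Fintype.one_lt_card
  nlinarith

theorem mem_VV (x : K) : x ∈ VV F K ↔ fr F (fr F x) = x := by
  unfold VV fr
  rw [Multiset.mem_toFinset, Polynomial.mem_roots
    (FiniteField.X_pow_card_sub_X_ne_zero K (one_lt_sq F))]
  show Polynomial.eval _ _ = 0 ↔ _
  rw [Polynomial.eval_sub, Polynomial.eval_pow, Polynomial.eval_X, sub_eq_zero, ← pow_mul]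

theorem card_VV : (VV F K).card ≤ Fintype.card F * Fintype.card F := by
  have h1 := Multiset.toFinset_card_le
    (Polynomial.X ^ (Fintype.card F * Fintype.card F) - Polynomial.X : Polynomial K).roots
  have h2 := Polynomial.card_roots'
    (Polynomial.X ^ (Fintype.card F * Fintype.card F) - Polynomial.X : Polynomial K)
  rw [FiniteField.X_pow_card_sub_X_natDegree_eq K (one_lt_sq F)] at h2
  exact h1.trans h2

theorem exists_tau [IsAlgClosed K] : ∃ τ : K, fr F (fr F τ) = τ ∧ fr F τ ≠ τ := by
  by_contra hcon
  push Not at hcon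
  obtain ⟨p, hp⟩ := CharP.exists F
  have hpp : Fact p.Prime := ⟨CharP.char_is_prime F p⟩
  have hK : CharP K p := charP_of_injective_algebraMap (algebraMap F K).injective p
  obtain ⟨n, hn0, hn⟩ := FiniteField.card F p
  have hdvd : p ∣ Fintype.card F * Fintype.card F := by
    rw [hn]
    exact Dvd.dvd.mul_right (dvd_pow_self p n.ne_zero) _
  have hsep : (Polynomial.X ^ (Fintype.card F * Fintype.card F) - Polynomial.X :
      Polynomial K).Separable := galois_poly_separable p _ hdvd
  have hc : (VV F K).card = Fintype.card F * Fintype.card F := by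
    unfold VV
    rw [Multiset.toFinset_card_of_nodup (Polynomial.nodup_roots hsep),
      Polynomial.splits_iff_card_roots.1 (IsAlgClosed.splits _),
      FiniteField.X_pow_card_sub_X_natDegree_eq K (one_lt_sq F)]
  have hsub : VV F K ⊆ (Finset.univ : Finset F).image (algebraMap F K) := by
    intro x hx
    obtain ⟨a, ha⟩ := fr_mem F x (hcon x ((mem_VV F x).1 hx))
    exact mem_image.2 ⟨a, mem_univ _, ha⟩
  have h1 := Finset.card_le_card hsub
  rw [hc, Finset.card_image_of_injective _ (algebraMap F K).injective, Finset.card_univ] at h1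
  have : 1 < Fintype.card F := Fintype.one_lt_card
  nlinarith

variable (τ : K) (hE : Module.finrank F E = 3) (h1 : fr F (fr F τ) = τ) (h2 : fr F τ ≠ τ)

/-- The number of the root elements over a vector. -/
def NN (v : K) : ℕ :=
  ((univ : Finset (Option E × F)).filter
    (fun x => algebraMap F K x.2 * ww τ F x.1 = v)).card

include hE in
theorem cardE : Fintype.card E = Fintype.card F ^ 3 := by
  rw [← hE]
  exact Module.card_eq_pow_finrank

theorem kinj {a b : F} (h : algebraMap F K a = algebraMap F K b) : a = b :=
  (algebraMap F K).injective h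

include hE h1 h2

theorem NN_le (v : K) (hv : v ≠ 0) (m : ℕ)
    (hm : m + Fintype.card F = Fintype.card F ^ 2 + 1) : NN (E := E) F τ v ≤ m := by
  have h3 : (((univ : Finset (Option E × F)).filter
      (fun x => algebraMap F K x.2 * ww τ F x.1 = v)).image (fun x => zz τ F x.1)) ⊆
      (Polynomial.nthRoots m (fr F v / v)).toFinset := by
    intro z hz
    obtain ⟨x, hx, rfl⟩ := mem_image.1 hz
    have hx2 : algebraMap F K x.2 * ww τ F x.1 = v := (mem_filter.1 hx).2
    have hm0 : 0 < m := by
      have : 1 < Fintype.card F := Fintype.one_lt_card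
      nlinarith
    rw [Multiset.mem_toFinset, Polynomial.mem_nthRoots hm0, zz_pow F τ hE h1 h2 x.1 m hm, ← hx2,
      fr_mul, fr_F]
    have h4 : algebraMap F K x.2 ≠ 0 := by
      intro h
      rw [h, zero_mul] at hx2
      exact hv hx2.symm
    rw [mul_div_mul_left _ _ h4]
  have h4 := Finset.card_le_card h3
  rw [Finset.card_image_of_injOn] at h4
  · exact h4.trans ((Multiset.toFinset_card_le _).trans (Polynomial.card_nthRoots _ _))
  · rintro ⟨t, h⟩ hx ⟨t', h'⟩ hx' heq
    have hx2 : algebraMap F K h * ww τ F t = v := (mem_filter.1 hx).2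
    have hx2' : algebraMap F K h' * ww τ F t' = v := (mem_filter.1 hx').2
    have ht : t = t' := zz_inj F τ hE h1 h2 heq
    subst ht
    rw [← hx2'] at hx2
    have := mul_right_cancel₀ (ww_ne F τ hE h1 h2 t) hx2
    rw [kinj F this]

theorem NN_sum : ∑ v ∈ (VV F K).erase 0, NN (E := E) F τ v =
    (Fintype.card F ^ 3 + 1) * (Fintype.card F - 1) := by
  have h3 : ((univ : Finset (Option E)) ×ˢ ((univ : Finset F).erase 0)).card =
      (Fintype.card F ^ 3 + 1) * (Fintype.card F - 1) := by
    rw [Finset.card_product, Finset.card_univ, Fintype.card_option, cardE F hE,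
      Finset.card_erase_of_mem (mem_univ _), Finset.card_univ]
  rw [← h3, Finset.card_eq_sum_card_fiberwise (f := fun x : Option E × F =>
    algebraMap F K x.2 * ww τ F x.1) (t := (VV F K).erase 0)]
  · refine Finset.sum_congr rfl fun v hv => ?_
    unfold NN
    congr 1
    ext x
    simp only [mem_filter, mem_univ, true_and, mem_product, mem_erase, and_true]
    constructor
    · intro h
      refine ⟨fun h0 => ?_, h⟩
      rw [h0, map_zero, zero_mul] at h
      exact (mem_erase.1 hv).1 h.symm
    · intro h
      exact h.2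
  · intro x hx
    have hx0 : x.2 ≠ 0 := (mem_erase.1 (mem_product.1 hx).2).1
    refine mem_coe.2 (mem_erase.2 ⟨?_, ?_⟩)
    · exact mul_ne_zero (fun h => hx0 ((map_eq_zero (algebraMap F K)).1 h))
        (ww_ne F τ hE h1 h2 _)
    · rw [mem_VV, fr_mul, fr_mul, fr_F, fr_F, ww_fix F τ hE h1 h2]

theorem zero_mem_VV : (0 : K) ∈ VV F K := by
  rw [mem_VV]
  unfold fr
  rw [zero_pow Fintype.card_ne_zero, zero_pow Fintype.card_ne_zero]

theorem NN_eq_aux (m : ℕ) (hm : m + Fintype.card F = Fintype.card F ^ 2 + 1) :
    (VV F K).card = Fintype.card F * Fintype.card F ∧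
      ∀ v ∈ (VV F K).erase 0, NN (E := E) F τ v = m := by
  have hq : 2 ≤ Fintype.card F := Fintype.one_lt_card
  set q := Fintype.card F with hqd
  have h3 : ∀ v ∈ (VV F K).erase 0, NN (E := E) F τ v ≤ m :=
    fun v hv => NN_le F τ hE h1 h2 v (mem_erase.1 hv).1 m hm
  have h4 := NN_sum F τ hE h1 h2
  have h5 := card_VV F (K := K)
  have h6 : ((VV F K).erase 0).card = (VV F K).card - 1 :=
    Finset.card_erase_of_mem (zero_mem_VV F τ hE h1 h2)
  have h7 : 1 ≤ (VV F K).card := Finset.card_pos.2 ⟨0, zero_mem_VV F τ hE h1 h2⟩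
  have h8 : ∑ v ∈ (VV F K).erase 0, NN (E := E) F τ v ≤ ∑ _v ∈ (VV F K).erase 0, m :=
    Finset.sum_le_sum h3
  rw [Finset.sum_const, smul_eq_mul, h6, h4] at h8
  -- `m (q² - 1) = (q³ + 1) (q - 1)`
  obtain ⟨k, hk⟩ : ∃ k, q = k + 1 := ⟨q - 1, by omega⟩
  have hm' : m = k * k + k + 1 := by
    rw [hk] at hm
    have : (k + 1) ^ 2 = k * k + 2 * k + 1 := by ring
    omega
  have hprod : (q ^ 3 + 1) * (q - 1) = (q * q - 1) * m := by
    have e1 : q - 1 = k := by omega
    have e2 : q * q - 1 = k * k + 2 * k := by
      rw [hk]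
      have : (k + 1) * (k + 1) = k * k + 2 * k + 1 := by ring
      omega
    rw [e1, e2, hm', hk]
    ring
  have hm1 : 0 < m := by omega
  rw [← hqd] at h8 h5 h4
  rw [hprod] at h8 h4
  have h9 : q * q - 1 ≤ (VV F K).card - 1 := Nat.le_of_mul_le_mul_right h8 hm1
  have h10 : (VV F K).card = q * q := by
    have : 1 ≤ q * q := by nlinarith
    omega
  refine ⟨h10, ?_⟩
  have h11 : ∑ v ∈ (VV F K).erase 0, NN (E := E) F τ v = ∑ _v ∈ (VV F K).erase 0, m := by
    rw [Finset.sum_const, smul_eq_mul, h6, h10, h4]
  exact (Finset.sum_eq_sum_iff_of_le h3).1 h11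

theorem NN_zero : NN (E := E) F τ 0 = Fintype.card F ^ 3 + 1 := by
  unfold NN
  have h3 : ((univ : Finset (Option E × F)).filter
      (fun x => algebraMap F K x.2 * ww τ F x.1 = 0)) =
      (univ : Finset (Option E)) ×ˢ ({0} : Finset F) := by
    ext x
    simp only [mem_filter, mem_univ, true_and, mem_product, mem_singleton]
    constructor
    · intro h
      exact (map_eq_zero (algebraMap F K)).1
        ((mul_eq_zero.1 h).resolve_right (ww_ne F τ hE h1 h2 _))
    · intro h
      rw [h, map_zero, zero_mul]
  rw [h3, Finset.card_product, Finset.card_univ, Fintype.card_option, cardE F hE,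
    Finset.card_singleton, mul_one]

/-- The additive map of the pair of root groups. -/
def psi1 (F : Type) {E K : Type} [Field F] [Fintype F] [Field E] [Fintype E] [Field K]
    [Algebra F E] [Algebra F K] [Algebra E K] [IsScalarTower F E K] (τ : K) (t : Option E) :
    F × E →+ K where
  toFun x := algebraMap F K x.1 * ww τ F t + LL τ F t x.2
  map_zero' := by
    have h0 : fr F (0 : E) = 0 := zero_pow Fintype.card_ne_zero
    cases t with
    | none => simp [LL, h0]
    | some t => simp [LL, h0]
  map_add' x y := by
    cases t with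
    | none =>
      simp only [LL, Prod.fst_add, Prod.snd_add, map_add, fr_add]
      ring
    | some t =>
      simp only [LL, Prod.fst_add, Prod.snd_add, map_add, fr_add]
      ring

omit hE h1 h2 in
theorem LL_smul (t : Option E) (k : F) (R : E) :
    LL τ F t (algebraMap F E k * R) = algebraMap F K k * LL τ F t R := by
  have h3 : algebraMap E K (algebraMap F E k) = algebraMap F K k :=
    (IsScalarTower.algebraMap_apply F E K k).symm
  cases t with
  | none =>
    simp only [LL, fr_mul, fr_F, map_mul, map_add, h3]
    ring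
  | some t =>
    simp only [LL, fr_mul, fr_F, map_mul, map_add, h3]
    ring

/-- Every vector of the plane has `q²` preimages. -/
theorem fib_card (t : Option E) (v : K) (hv : v ∈ VV F K) :
    ((univ : Finset (F × E)).filter (fun x => psi1 F τ t x = v)).card =
      Fintype.card F * Fintype.card F := by
  have hq : 2 ≤ Fintype.card F := Fintype.one_lt_card
  have hc := card_VV F (K := K)
  obtain ⟨R, hR⟩ := LL_ex F τ hE h1 h2 t
  have hmem : ∀ x, psi1 F τ t x ∈ VV F K := by
    intro x
    rw [mem_VV]
    show fr F (fr F (algebraMap F K x.1 * ww τ F t + LL τ F t x.2)) = _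
    rw [fr_add, fr_add, fr_mul, fr_mul, fr_F, fr_F, ww_fix F τ hE h1 h2, LL_fix F τ hE h1 h2]
    rfl
  have hinj : Function.Injective (fun y : F × F => psi1 F τ t (y.1, algebraMap F E y.2 * R)) := by
    rintro ⟨a, b⟩ ⟨a', b'⟩ h
    change algebraMap F K a * ww τ F t + LL τ F t (algebraMap F E b * R) =
      algebraMap F K a' * ww τ F t + LL τ F t (algebraMap F E b' * R) at h
    rw [LL_smul, LL_smul] at h
    have hb : b = b' := by
      by_contra hne
      have hne' : algebraMap F K b - algebraMap F K b' ≠ 0 :=
        sub_ne_zero.2 (fun h => hne (kinj F h))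
      apply hR ((a' - a) / (b - b'))
      rw [map_div₀, map_sub, map_sub]
      field_simp
      linear_combination h
    subst hb
    have ha : algebraMap F K a = algebraMap F K a' := by
      apply mul_right_cancel₀ (ww_ne F τ hE h1 h2 t)
      linear_combination h
    rw [kinj F ha]
  have himg : (univ : Finset (F × F)).image
      (fun y : F × F => psi1 F τ t (y.1, algebraMap F E y.2 * R)) = VV F K := by
    apply Finset.eq_of_subset_of_card_le
    · intro z hz
      obtain ⟨y, -, rfl⟩ := mem_image.1 hz
      exact hmem _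
    · rw [Finset.card_image_of_injective _ hinj, Finset.card_univ, Fintype.card_prod]
      exact hc
  have hcard : (VV F K).card = Fintype.card F * Fintype.card F := by
    rw [← himg, Finset.card_image_of_injective _ hinj, Finset.card_univ, Fintype.card_prod]
  have hrange : ∀ w ∈ VV F K, w ∈ Set.range (psi1 F τ t) := by
    intro w hw
    rw [← himg] at hw
    obtain ⟨y, -, hy⟩ := mem_image.1 hw
    exact ⟨_, hy⟩
  have hconst : ∀ w ∈ VV F K, ((univ : Finset (F × E)).filter (fun x => psi1 F τ t x = w)).card =
      ((univ : Finset (F × E)).filter (fun x => psi1 F τ t x = v)).card := by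
    intro w hw
    exact AddMonoidHom.card_fiber_eq_of_mem_range _ (hrange w hw) (hrange v hv)
  have htot : (univ : Finset (F × E)).card =
      ∑ w ∈ VV F K, ((univ : Finset (F × E)).filter (fun x => psi1 F τ t x = w)).card :=
    Finset.card_eq_sum_card_fiberwise (fun x _ => mem_coe.2 (hmem x))
  rw [Finset.sum_congr rfl hconst, Finset.sum_const, smul_eq_mul, hcard, Finset.card_univ,
    Fintype.card_prod, cardE F hE] at htot
  have hpos : 0 < Fintype.card F * Fintype.card F := by nlinarith
  apply Nat.eq_of_mul_eq_mul_left hpos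
  rw [← htot]
  ring

end cnt

end

end SpreadPerm.Tri25
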