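import Mathlib
import Pool.Agent.Lib.MP_e6ed9e_al.NS.TriCount25

/-! # The hexagon of order `(q, q ^ 3)` in coordinates (helper25) -/

namespace SpreadPerm.Tri25

open Finset
open scoped Classical

set_option linter.unusedSectionVars false
set_option linter.unusedSimpArgs false

noncomputable section

section geo
variable {F E : Type} [Field F] [Fintype F] [Field E] [Fintype E] [Algebra F E]

/-- The adjoint of the cubic extension, `q = |F|`. -/
def sharp (F : Type) [Fintype F] {E : Type} [Field E] (t : E) : E :=
  t ^ Fintype.card F * (t ^ Fintype.card F) ^ Fintype.card F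

/-- The polar form of the adjoint. -/
def cross (F : Type) [Fintype F] {E : Type} [Field E] (t r : E) : E :=
  t ^ Fintype.card F * (r ^ Fintype.card F) ^ Fintype.card F +
    (t ^ Fintype.card F) ^ Fintype.card F * r ^ Fintype.card F

/-- The line at distance `5` and its point at distance `4`. -/
def qa (x : E × E × F × F) : E × F × F :=
  (x.2.1, x.2.2.1, x.2.2.2 - Algebra.trace F E (x.2.1 * x.1))

/-- The point at distance `4` and its line at distance `3`. -/
def qb (x : E × F × F) : E × F := (x.1, x.2.1)

/-- The line at distance `3` and its point at distance `2`. -/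
def qc (x : E × F) : F := x.2

/-- The lines on an opposite point. -/
def rho : Option E → F × E × E × F × F → E × E × F × F
  | none, (p, r, s, _, z) => (s, r, p, z + Algebra.trace F E (r * s))
  | some t, (p, r, s, u, z) => (r - algebraMap F E p * t,
      s - cross F t r + algebraMap F E p * sharp F t,
      u - Algebra.trace F E (t * s) + Algebra.trace F E (sharp F t * r) - Algebra.norm F t * p,
      z + u * p - p * Algebra.trace F E (t * s) + 2 * p * Algebra.trace F E (sharp F t * r) -
        2 * Algebra.norm F t * p ^ 2 - Algebra.trace F E (t * sharp F r))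

/-- The points on a line at distance `5`. -/
def fib : Option E → F × (E × E × F × F) → F × E × E × F × F
  | none, (h, R, S, U, Z) => (U, S, R, h, Z - Algebra.trace F E (S * R))
  | some t, (h, R, S, U, Z) =>
    (h, R + algebraMap F E h * t,
      S + cross F t (R + algebraMap F E h * t) - algebraMap F E h * sharp F t,
      U + Algebra.trace F E (t * (S + cross F t (R + algebraMap F E h * t) -
        algebraMap F E h * sharp F t)) - Algebra.trace F E (sharp F t *
        (R + algebraMap F E h * t)) + Algebra.norm F t * h,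
      Z - (U + Algebra.trace F E (t * (S + cross F t (R + algebraMap F E h * t) -
        algebraMap F E h * sharp F t)) - Algebra.trace F E (sharp F t *
        (R + algebraMap F E h * t)) + Algebra.norm F t * h) * h +
        h * Algebra.trace F E (t * (S + cross F t (R + algebraMap F E h * t) -
        algebraMap F E h * sharp F t)) -
        2 * h * Algebra.trace F E (sharp F t * (R + algebraMap F E h * t)) +
        2 * Algebra.norm F t * h ^ 2 +
        Algebra.trace F E (t * sharp F (R + algebraMap F E h * t)))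

/-- The parameter of a point on its lines. -/
def par : Option E → F × E × E × F × F → F
  | none, g => g.2.2.2.1
  | some _, g => g.1

theorem rho_fib (t : Option E) (x : F × (E × E × F × F)) : rho t (fib t x) = x.2 := by
  obtain ⟨h, R, S, U, Z⟩ := x
  cases t with
  | none =>
    simp only [fib, rho, Prod.mk.injEq]
    refine ⟨trivial, trivial, trivial, ?_⟩
    ring
  | some t =>
    simp only [fib, rho, Prod.mk.injEq]
    refine ⟨?_, ?_, ?_, ?_⟩ <;> ring

theorem par_fib (t : Option E) (x : F × (E × E × F × F)) : par t (fib t x) = x.1 := by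
  obtain ⟨h, R, S, U, Z⟩ := x
  cases t <;> rfl

theorem fib_rho (t : Option E) (g : F × E × E × F × F) : fib t (par t g, rho t g) = g := by
  obtain ⟨p, r, s, u, z⟩ := g
  cases t with
  | none =>
    simp only [fib, rho, par, Prod.mk.injEq]
    refine ⟨trivial, trivial, trivial, trivial, ?_⟩
    ring
  | some t =>
    have e1 : r - algebraMap F E p * t + algebraMap F E p * t = r := by ring
    have e2 : s - cross F t r + algebraMap F E p * sharp F t + cross F t r -
      algebraMap F E p * sharp F t = s := by ring
    simp only [fib, rho, par, Prod.mk.injEq, e1, e2]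
    refine ⟨trivial, trivial, trivial, ?_, ?_⟩ <;> ring

/-- The opposite points in coordinates of a line. -/
def fibE (t : Option E) : F × (E × E × F × F) ≃ F × E × E × F × F where
  toFun := fib t
  invFun g := (par t g, rho t g)
  left_inv x := Prod.ext (par_fib t x) (rho_fib t x)
  right_inv g := fib_rho t g

theorem sum_rho (t : Option E) (y : E × E × F × F) (f : F × E × E × F × F → ℤ) :
    (∑ g, iv (rho t g = y) (f g)) = ∑ h, f (fib t (h, y)) := by
  rw [← Equiv.sum_comp (fibE t), Fintype.sum_prod_type]
  refine Finset.sum_congr rfl fun h _ => ?_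
  have h1 : ∀ x : E × E × F × F, iv (rho t (fibE t (h, x)) = y) (f (fibE t (h, x))) =
      iv (x = y) (f (fib t (h, x))) := by
    intro x
    have h2 : rho t (fibE t (h, x)) = x := rho_fib t (h, x)
    rw [h2]
    rfl
  rw [Finset.sum_congr rfl fun x _ => h1 x, sum_iv_eq' y (fun x => f (fib t (h, x)))]

theorem sum_qa (x : E × F × F) (f : E × E × F × F → ℤ) :
    (∑ y, iv (qa y = x) (f y)) =
      ∑ R, f (R, x.1, x.2.1, x.2.2 + Algebra.trace F E (x.1 * R)) := by
  rw [Fintype.sum_prod_type]
  refine Finset.sum_congr rfl fun R _ => ?_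
  rw [Finset.sum_eq_single (x.1, x.2.1, x.2.2 + Algebra.trace F E (x.1 * R))]
  · refine iv_pos ?_ _
    simp only [qa, add_sub_cancel_right]
  · rintro ⟨S, U, Z⟩ _ hne
    refine iv_neg ?_ _
    intro h
    apply hne
    rw [← h]
    simp only [qa, sub_add_cancel]
  · intro h
    exact absurd (mem_univ _) h

theorem sum_qb (y : E × F) (f : E × F × F → ℤ) :
    (∑ x, iv (qb x = y) (f x)) = ∑ z, f (y.1, y.2, z) := by
  rw [Fintype.sum_prod_type, Finset.sum_comm, Fintype.sum_prod_type, Finset.sum_comm]
  refine Finset.sum_congr rfl fun z _ => ?_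
  rw [Finset.sum_eq_single y.2]
  · rw [Finset.sum_eq_single y.1]
    · exact iv_pos rfl _
    · intro s _ hne
      exact iv_neg (fun h => hne (congrArg Prod.fst h)) _
    · intro h
      exact absurd (mem_univ _) h
  · intro u _ hne
    refine Finset.sum_eq_zero fun s _ => ?_
    exact iv_neg (fun h => hne (congrArg Prod.snd h)) _
  · intro h
    exact absurd (mem_univ _) h

theorem sum_qc (u : F) (f : E × F → ℤ) : (∑ y, iv (qc y = u) (f y)) = ∑ s, f (s, u) := by
  rw [Fintype.sum_prod_type]
  refine Finset.sum_congr rfl fun s _ => ?_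
  exact sum_iv_eq' u (fun u' => f (s, u'))

variable {K : Type} [Field K] [Algebra F K] [Algebra E K] [IsScalarTower F E K] (τ : K)

/-- The map to the plane. -/
def pi (g : F × E × E × F × F) : K :=
  -algebraMap F K g.2.2.2.1 + algebraMap F K (Algebra.trace F E g.2.2.1) * τ -
    algebraMap F K (Algebra.trace F E g.2.1) * τ ^ 2 + algebraMap F K g.1 * τ ^ 3

/-- The part of the map which does not depend on the line. -/
def pi0 : Option E → E × F × F → K
  | none, x => -(algebraMap F K (Algebra.trace F E x.1) * τ ^ 2) + algebraMap F K x.2.1 * τ ^ 3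
  | some t, x => -algebraMap F K x.2.1 - algebraMap F K (Algebra.trace F E (t * x.1)) +
      algebraMap F K (Algebra.trace F E x.1) * τ

theorem pi_fib (hE : Module.finrank F E = 3) (t : Option E) (h : F) (y : E × E × F × F) :
    pi τ (fib t (h, y)) = pi0 τ t (qa y) + psi1 F τ t (h, y.1) := by
  obtain ⟨R, S, U, Z⟩ := y
  have hK : ∀ x : F, algebraMap F K x = algebraMap E K (algebraMap F E x) :=
    fun x => IsScalarTower.algebraMap_apply F E K x
  have h3 : ∀ x : E, fr F (fr F (fr F x)) = x := fr3 F hE
  cases t with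
  | none =>
    show pi τ (U, S, R, h, Z - Algebra.trace F E (S * R)) = pi0 τ none _ +
      (algebraMap F K h * ww τ F none + LL τ F none R)
    simp only [pi, pi0, qa, ww, LL, hK, tr_eq F hE, map_add]
    ring
  | some t =>
    have hs : ∀ x : E, sharp F x = fr F x * fr F (fr F x) := fun x => rfl
    have hc : ∀ x y : E, cross F x y = fr F x * fr F (fr F y) + fr F (fr F x) * fr F y :=
      fun x y => rfl
    show pi τ _ = pi0 τ (some t) _ + (algebraMap F K h * ww τ F (some t) + LL τ F (some t) R)
    simp only [fib, pi, pi0, qa, ww, LL, hs, hc, hK, map_add, map_sub, map_mul, tr_eq F hE,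
      nm_eq F hE, fr_add, fr_sub, fr_mul, fr_F, h3]
    ring

theorem fr_tau3 (h1 : fr F (fr F τ) = τ) (n : ℕ) : fr F (fr F (τ ^ n)) = τ ^ n := by
  induction n with
  | zero => rw [pow_zero, fr_one, fr_one]
  | succ n ih => rw [pow_succ, fr_mul, fr_mul, ih, h1]

theorem pi_mem (h1 : fr F (fr F τ) = τ) (g : F × E × E × F × F) : pi τ g ∈ VV F K := by
  rw [mem_VV, pi]
  simp only [fr_add, fr_sub, fr_neg, fr_mul, fr_F, h1, fr_tau3 τ h1]

theorem pi0_mem (h1 : fr F (fr F τ) = τ) (t : Option E) (x : E × F × F) :
    pi0 τ t x ∈ VV F K := by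
  rw [mem_VV]
  cases t with
  | none =>
    rw [pi0]
    simp only [fr_add, fr_sub, fr_neg, fr_mul, fr_F, h1, fr_tau3 τ h1]
  | some t =>
    rw [pi0]
    simp only [fr_add, fr_sub, fr_neg, fr_mul, fr_F, h1, fr_tau3 τ h1]

theorem sub_mem_VV {v w : K} (hv : v ∈ VV F K) (hw : w ∈ VV F K) : v - w ∈ VV F K := by
  rw [mem_VV] at *
  rw [fr_sub, fr_sub, hv, hw]

omit [Algebra F K] in
theorem sum_mem {X : Type} [Fintype X] (f : X → K) (c : K) (DD : Finset K) :
    (∑ x, iv (c + f x ∈ DD) 1) =
      ∑ v ∈ DD, (((univ : Finset X).filter (fun x => f x = v - c)).card : ℤ) := by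
  have h1 : ∀ v ∈ DD, (((univ : Finset X).filter (fun x => f x = v - c)).card : ℤ) =
      ∑ x, iv (f x = v - c) 1 := by
    intro v _
    rw [Finset.card_filter]
    push_cast
    rfl
  rw [Finset.sum_congr rfl h1, Finset.sum_comm]
  refine Finset.sum_congr rfl fun x _ => ?_
  by_cases h : c + f x ∈ DD
  · rw [iv_pos h, Finset.sum_eq_single (c + f x)]
    · exact (iv_pos (by ring) _).symm
    · intro v _ hne
      refine iv_neg (fun h2 => hne ?_) _
      rw [h2]
      ring
    · intro h2
      exact absurd h h2
  · rw [iv_neg h]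
    symm
    refine Finset.sum_eq_zero fun v hv => ?_
    refine iv_neg (fun h2 => h ?_) _
    rw [h2, add_sub_cancel]
    exact hv

/-- **The hexagon of order `(q, q ^ 3)`.** -/
theorem triality25 (hE : Module.finrank F E = 3) {Ω G : Type} [Fintype Ω] [Group G]
    [MulAction G Ω] [MulAction.IsPretransitive G Ω]
    (e : Ω ≃ Pt (Option E) F (E × F × F) (F × E × E × F × F))
    (hG : ∀ g : G, ∃ f : Equiv.Perm (Ln (Option E) (E × F) (E × E × F × F)),
      ∀ (ω : Ω) (l : Ln (Option E) (E × F) (E × E × F × F)),
        Inc qa qb qc rho (e ω) l ↔ Inc qa qb qc rho (e (g • ω)) (f l)) :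
    NonSpreading G Ω := by
  let K := AlgebraicClosure E
  obtain ⟨τ, h1, h2⟩ := exists_tau F (K := K)
  have hq : 2 ≤ Fintype.card F := Fintype.one_lt_card
  have hqq : Fintype.card F * 2 ≤ Fintype.card F * Fintype.card F := Nat.mul_le_mul_left _ hq
  have hsq : Fintype.card F ^ 2 = Fintype.card F * Fintype.card F := sq _
  obtain ⟨m, hm⟩ : ∃ m, m + Fintype.card F = Fintype.card F ^ 2 + 1 :=
    ⟨Fintype.card F ^ 2 + 1 - Fintype.card F, by omega⟩
  obtain ⟨hVV, hNN⟩ := NN_eq_aux F τ hE h1 h2 m hm
  have hmZ : (m : ℤ) = (Fintype.card F : ℤ) ^ 2 - Fintype.card F + 1 := by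
    have : (m : ℤ) + Fintype.card F = (Fintype.card F : ℤ) ^ 2 + 1 := by exact_mod_cast hm
    linarith
  obtain ⟨DD, hDD, hDDc⟩ : ∃ DD ⊆ VV F K, DD.card = Fintype.card F + 1 := by
    refine Finset.exists_subset_card_eq ?_
    rw [hVV]
    omega
  have hcE := cardE F hE
  refine layer qa qb qc rho e (Fintype.card F : ℤ) (by exact_mod_cast hq)
    (fun g => pi τ g ∈ DD) ?_ rfl ?_ ?_ ?_ ?_ ?_ ?_ ?_ hG
  · rw [Fintype.card_option, hcE]
    push_cast
    rfl
  · rw [Fintype.card_prod, Fintype.card_prod, hcE]
    push_cast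
    ring
  · intro u
    rw [sum_qc u (fun _ => 1), Finset.sum_const, card_univ, hcE]
    simp
  · intro y
    rw [sum_qb y (fun _ => 1), Finset.sum_const, card_univ]
    simp
  · intro x
    rw [sum_qa x (fun _ => 1), Finset.sum_const, card_univ, hcE]
    simp
  · intro t y
    rw [sum_rho t y (fun _ => 1), Finset.sum_const, card_univ]
    simp
  · intro t x
    have e1 : (∑ g, iv (qa (rho t g) = x) (ind (fun g => pi τ g ∈ DD) g)) =
        ∑ y : F × E, iv (pi0 τ t x + psi1 F τ t y ∈ DD) 1 := by
      rw [← Equiv.sum_comp (fibE t), Fintype.sum_prod_type, Fintype.sum_prod_type]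
      refine Finset.sum_congr rfl fun h _ => ?_
      have e2 : ∀ y : E × E × F × F, iv (qa (rho t (fibE t (h, y))) = x)
          (ind (fun g => pi τ g ∈ DD) (fibE t (h, y))) =
          iv (qa y = x) (iv (pi0 τ t (qa y) + psi1 F τ t (h, y.1) ∈ DD) 1) := by
        intro y
        have e3 : rho t (fibE t (h, y)) = y := rho_fib t (h, y)
        have e4 : pi τ (fibE t (h, y)) = pi0 τ t (qa y) + psi1 F τ t (h, y.1) :=
          pi_fib τ hE t h y
        rw [e3, ind, e4]
      rw [Finset.sum_congr rfl fun y _ => e2 y, sum_qa x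
        (fun y => iv (pi0 τ t (qa y) + psi1 F τ t (h, y.1) ∈ DD) 1)]
      refine Finset.sum_congr rfl fun R _ => ?_
      have e5 : qa (R, x.1, x.2.1, x.2.2 + Algebra.trace F E (x.1 * R)) = x := by
        simp only [qa, add_sub_cancel_right]
      rw [e5]
    rw [e1, sum_mem]
    have e6 : ∀ v ∈ DD, (((univ : Finset (F × E)).filter
        (fun y => psi1 F τ t y = v - pi0 τ t x)).card : ℤ) =
        (Fintype.card F : ℤ) ^ 2 := by
      intro v hv
      rw [fib_card F τ hE h1 h2 t _ (sub_mem_VV (hDD hv) (pi0_mem τ h1 t x))]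
      push_cast
      ring
    rw [Finset.sum_congr rfl e6, Finset.sum_const, hDDc, nsmul_eq_mul]
    push_cast
    ring
  · intro g
    have e1 : ∀ t : Option E, (∑ g', iv (rho t g' = rho t g) (ind (fun g => pi τ g ∈ DD) g')) =
        ∑ h : F, iv (pi τ g + algebraMap F K h * ww τ F t ∈ DD) 1 := by
      intro t
      rw [sum_rho t (rho t g) (ind (fun g => pi τ g ∈ DD)),
        ← Equiv.sum_comp (Equiv.addRight (par t g))]
      refine Finset.sum_congr rfl fun h _ => ?_
      have e2 : pi τ g = pi0 τ t (qa (rho t g)) + psi1 F τ t (par t g, (rho t g).1) := by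
        rw [← pi_fib τ hE t, fib_rho]
      have e3 : pi τ (fib t (h + par t g, rho t g)) =
          pi τ g + algebraMap F K h * ww τ F t := by
        rw [pi_fib τ hE t, e2]
        show _ + (algebraMap F K (h + par t g) * ww τ F t + LL τ F t (rho t g).1) =
          _ + (algebraMap F K (par t g) * ww τ F t + LL τ F t (rho t g).1) + _
        rw [map_add]
        ring
      show ind (fun g => pi τ g ∈ DD) (fib t (h + par t g, rho t g)) = _
      rw [ind, e3]
    rw [Finset.sum_congr rfl fun t _ => e1 t]
    have e4 := sum_mem (fun x : Option E × F => algebraMap F K x.2 * ww τ F x.1) (pi τ g) DD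
    rw [Fintype.sum_prod_type] at e4
    rw [e4]
    have e5 : ∀ v ∈ DD, (((univ : Finset (Option E × F)).filter
        (fun x => algebraMap F K x.2 * ww τ F x.1 = v - pi τ g)).card : ℤ) =
        (m : ℤ) + iv (v = pi τ g) ((Fintype.card F : ℤ) ^ 3 + 1 - m) := by
      intro v hv
      by_cases h : v = pi τ g
      · rw [iv_pos h, h, sub_self]
        have := NN_zero F τ hE h1 h2
        unfold NN at this
        rw [this]
        push_cast
        ring
      · rw [iv_neg h, add_zero]
        have h3 : v - pi τ g ∈ (VV F K).erase 0 :=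
          mem_erase.2 ⟨sub_ne_zero.2 h, sub_mem_VV (hDD hv) (pi_mem τ h1 g)⟩
        have := hNN _ h3
        unfold NN at this
        rw [this]
    rw [Finset.sum_congr rfl e5, Finset.sum_add_distrib, Finset.sum_const, hDDc, nsmul_eq_mul]
    have e6 : (∑ v ∈ DD, iv (v = pi τ g) ((Fintype.card F : ℤ) ^ 3 + 1 - m)) =
        ((Fintype.card F : ℤ) ^ 3 + 1 - m) * ind (fun g => pi τ g ∈ DD) g := by
      by_cases h : pi τ g ∈ DD
      · rw [ind, iv_pos h, mul_one, Finset.sum_eq_single (pi τ g)]
        · exact iv_pos rfl _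
        · intro v _ hne
          exact iv_neg hne _
        · intro h3
          exact absurd h h3
      · rw [ind, iv_neg h, mul_zero]
        refine Finset.sum_eq_zero fun v hv => ?_
        have h3 : ¬ v = pi τ g := by
          intro h4
          rw [h4] at hv
          exact h hv
        exact iv_neg h3 _
    rw [e6, hmZ]
    push_cast
    ring

end geo

end

end SpreadPerm.Tri25
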