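import Pool.Agent.Lib.MP_e6ed9e_al.NS.Sing88
import Pool.Agent.Lib.MP_e6ed9e_al.NS.Split88

/-!
Row UNIV of the room NS.
-/

namespace SpreadPerm.NS

open Module Finset
open Pool.Agent.Lib.MP_e6ed9e_al.Polar (aniso_le nrm_surj tr_surj)

theorem univ88' (K V : Type) [Field K] [Finite K] [AddCommGroup V] [Module K V] [Finite V]
    (P : PForm K V) (hP : IsQuad P ∨ IsHerm P) (hnd : ND P) (hn : 2 ≤ finrank K V)
    (c : K) (hc : c ≠ 0) (hsc : P.s c = c) : ∃ x : V, x ≠ 0 ∧ P.Q x = c := by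
  have hfd : Module.Finite K V := Module.Finite.of_finite
  by_cases hs : ∃ e : V, e ≠ 0 ∧ P.Q e = 0
  · obtain ⟨e, he0, heq⟩ := hs
    obtain ⟨W, P', φ, hH, _, _, _, _, _⟩ := split88 K V P hP hnd e he0 heq
    obtain ⟨w, hw⟩ : ∃ w : K, P.T (P.s w) = c := by
      rcases hP with hq | hh
      · exact ⟨c, by rw [hq.T_id, hq.s_id]⟩
      · obtain ⟨t, ht⟩ := tr_surj P.s P.s_s hh.s_ne c hsc
        refine ⟨t, ?_⟩
        rw [hh.T_eq, P.s_s, add_comm]
        exact ht
    refine ⟨φ (1, w, 0), ?_, ?_⟩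
    · intro h0
      have h1 : ((1, w, 0) : K × K × W) = 0 := φ.map_eq_zero_iff.1 h0
      exact one_ne_zero (congrArg (fun t : K × K × W => t.1) h1)
    · rw [hH.Q_eq, one_mul, hw, P'.Q_zero, add_zero]
  · push Not at hs
    rcases hP with hq | hh
    · -- quadratic, anisotropic
      let Q := toQuad P hq
      let R : QuadraticForm K (V × K) :=
        Q.comp (LinearMap.fst K V K) - c • (QuadraticMap.sq (R := K)).comp (LinearMap.snd K V K)
      have hR : ∀ y : V × K, R y = P.Q y.1 - c * (y.2 * y.2) := fun y => rfl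
      have h1 : ¬ ∀ y : V × K, R y = 0 → y = 0 := by
        intro h2
        have h3 := aniso_le R h2
        rw [Module.finrank_prod, Module.finrank_self] at h3
        omega
      push Not at h1
      obtain ⟨y, hy, hy0⟩ := h1
      rw [hR] at hy
      have ht : y.2 ≠ 0 := by
        intro h2
        rw [h2, mul_zero, mul_zero, sub_zero] at hy
        by_cases h3 : y.1 = 0
        · exact hy0 (Prod.ext h3 h2)
        · exact hs _ h3 hy
      have hQ : P.Q (y.2⁻¹ • y.1) = c := by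
        rw [P.Q_smul, hq.s_id, sub_eq_zero.1 hy]
        field_simp
      refine ⟨y.2⁻¹ • y.1, ?_, hQ⟩
      intro h0
      rw [h0, P.Q_zero] at hQ
      exact hc hQ.symm
    · obtain ⟨e, he0, heq⟩ := sing88 K V P (Or.inr ⟨hh, hn⟩)
      exact absurd heq (hs e he0)

end SpreadPerm.NS
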